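import Pool.Agent.KS6_30.V5.UniSum
namespace Pool.Agent.KS6_30.V5
open Finset

theorem sum_inv_sq_le (s : Finset ℕ) (hs : ∀ d ∈ s, 0 < d) : ∑ d ∈ s, ((d : ℝ) ^ 2)⁻¹ ≤ 2 := by
  classical
  obtain ⟨N, hN⟩ : ∃ N, s ⊆ Finset.Icc 1 (N + 1) := by
    refine ⟨s.sup id, ?_⟩
    intro d hd
    rw [Finset.mem_Icc]
    exact ⟨hs d hd, (Finset.le_sup (f := id) hd).trans (Nat.le_succ _)⟩
  have h1 : ∑ d ∈ s, ((d : ℝ) ^ 2)⁻¹ ≤ ∑ d ∈ Finset.Icc 1 (N + 1), ((d : ℝ) ^ 2)⁻¹ :=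
    Finset.sum_le_sum_of_subset_of_nonneg hN (fun _ _ _ => by positivity)
  have h2 : ∀ N : ℕ, ∑ d ∈ Finset.Icc 1 (N + 1), ((d : ℝ) ^ 2)⁻¹ ≤ 2 - 1 / ((N : ℝ) + 1) := by
    intro N
    induction N with
    | zero => simp; norm_num
    | succ n ih =>
      rw [Finset.sum_Icc_succ_top (by omega)]
      have h3 : (((n + 1 + 1 : ℕ) : ℝ) ^ 2)⁻¹ ≤ 1 / ((n : ℝ) + 1) - 1 / (((n + 1 : ℕ) : ℝ) + 1) := by
        push_cast
        rw [inv_eq_one_div, div_sub_div _ _ (by positivity) (by positivity),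
          div_le_div_iff₀ (by positivity) (by positivity)]
        nlinarith
      linarith
  have h3 := h2 N
  have h4 : (0 : ℝ) ≤ 1 / ((N : ℝ) + 1) := by positivity
  linarith

theorem quad_sum_uni_bound (c : Fin 6 → ℤ) (hc : c ≠ 0) : ∃ C : ℝ, 0 < C ∧ ∀ (q : ℕ) [NeZero q]
    [DecidablePred (Uni (R := ZMod q) (n := 3))] (a : (ZMod q)ˣ),
    ‖∑ v ∈ Finset.univ.filter (fun v : Fin 3 → ZMod q => Uni v),
      (ZMod.stdAddChar ((a : ZMod q) * qf c v) : ℂ)‖ ≤ C * ((q : ℝ) ^ 2 * Real.sqrt q) := by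
  obtain ⟨C, hC, hbound⟩ := quad_sum_bound c hc
  refine ⟨2 * Real.sqrt C, by positivity, ?_⟩
  intro q _ _ a
  rw [sum_uni]
  have hq : (0 : ℝ) ≤ q := Nat.cast_nonneg q
  have hterm : ∀ d ∈ q.divisors, ‖(ArithmeticFunction.moebius d : ℂ) * ((d : ℂ) ^ 3)⁻¹ *
        ∑ t : Fin 3 → ZMod q, (ZMod.stdAddChar ((a : ZMod q) * qf c (fun j => (d : ZMod q) * t j)) : ℂ)‖
        ≤ ((d : ℝ) ^ 2)⁻¹ * (Real.sqrt C * ((q : ℝ) ^ 2 * Real.sqrt q)) := by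
    intro d hd
    have hdpos : 0 < d := Nat.pos_of_mem_divisors hd
    have hd0 : (0 : ℝ) < d := by exact_mod_cast hdpos
    have h1 : ∀ t : Fin 3 → ZMod q, (a : ZMod q) * qf c (fun j => (d : ZMod q) * t j) =
        (((a : ZMod q).val * d ^ 2 : ℤ) : ZMod q) * qf c t := by
      intro t
      have : (((a : ZMod q).val : ℤ) : ZMod q) = (a : ZMod q) := by
        rw [Int.cast_natCast, ZMod.natCast_zmod_val]
      push_cast at this ⊢
      rw [this]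
      simp only [qf]
      ring
    simp_rw [h1]
    have h2 := hbound q ((a : ZMod q).val * d ^ 2 : ℤ)
    have h3 : Int.gcd ((a : ZMod q).val * d ^ 2 : ℤ) q ≤ d ^ 2 := by
      have hcop : Nat.Coprime ((a : ZMod q).val) q := ZMod.val_coe_unit_coprime a
      have e1 : Int.gcd ((a : ZMod q).val * d ^ 2 : ℤ) q = Nat.gcd ((a : ZMod q).val * d ^ 2) q := by
        rw [← Int.gcd_natCast_natCast]; push_cast; rfl
      rw [e1, Nat.Coprime.gcd_mul_left_cancel _ hcop]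
      exact Nat.gcd_le_left _ (by positivity)
    have h4 : ‖∑ x : Fin 3 → ZMod q, (ZMod.stdAddChar ((((a : ZMod q).val * d ^ 2 : ℤ) : ZMod q) * qf c x) : ℂ)‖ ≤
        Real.sqrt C * d * ((q : ℝ) ^ 2 * Real.sqrt q) := by
      apply le_of_sq_le_sq _ (by positivity)
      refine h2.trans ?_
      have e : (Real.sqrt C * d * ((q : ℝ) ^ 2 * Real.sqrt q)) ^ 2 = (q : ℝ) ^ 5 * (C * d ^ 2) := by
        have e1 := Real.sq_sqrt (Nat.cast_nonneg (α := ℝ) C)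
        have e2 := Real.sq_sqrt hq
        calc (Real.sqrt C * d * ((q : ℝ) ^ 2 * Real.sqrt q)) ^ 2 =
          (Real.sqrt C) ^ 2 * (Real.sqrt q) ^ 2 * (d ^ 2 * q ^ 4) := by ring
          _ = _ := by rw [e1, e2]; ring
      rw [e]
      apply mul_le_mul_of_nonneg_left _ (by positivity)
      push_cast
      apply mul_le_mul_of_nonneg_left _ (by positivity)
      exact_mod_cast h3
    have h5 : ‖(ArithmeticFunction.moebius d : ℂ)‖ ≤ 1 := by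
      rw [Complex.norm_intCast]
      exact_mod_cast ArithmeticFunction.abs_moebius_le_one
    rw [norm_mul, norm_mul, norm_inv, norm_pow, Complex.norm_natCast]
    calc ‖(ArithmeticFunction.moebius d : ℂ)‖ * ((d : ℝ) ^ 3)⁻¹ *
          ‖∑ x : Fin 3 → ZMod q, (ZMod.stdAddChar ((((a : ZMod q).val * d ^ 2 : ℤ) : ZMod q) * qf c x) : ℂ)‖
        ≤ 1 * ((d : ℝ) ^ 3)⁻¹ * (Real.sqrt C * d * ((q : ℝ) ^ 2 * Real.sqrt q)) := by
          gcongr
      _ = ((d : ℝ) ^ 2)⁻¹ * (Real.sqrt C * ((q : ℝ) ^ 2 * Real.sqrt q)) := by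
          field_simp
  calc _ ≤ ∑ d ∈ q.divisors, ((d : ℝ) ^ 2)⁻¹ * (Real.sqrt C * ((q : ℝ) ^ 2 * Real.sqrt q)) :=
        norm_sum_le_of_le _ hterm
    _ = (∑ d ∈ q.divisors, ((d : ℝ) ^ 2)⁻¹) * (Real.sqrt C * ((q : ℝ) ^ 2 * Real.sqrt q)) := by
        rw [Finset.sum_mul]
    _ ≤ 2 * (Real.sqrt C * ((q : ℝ) ^ 2 * Real.sqrt q)) := by
        apply mul_le_mul_of_nonneg_right _ (by positivity)
        exact sum_inv_sq_le _ (fun d hd => Nat.pos_of_mem_divisors hd)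
    _ = 2 * Real.sqrt C * ((q : ℝ) ^ 2 * Real.sqrt q) := by ring

/-- the number of unimodular vectors -/
theorem card_uni_ge (q : ℕ) [NeZero q] [DecidablePred (Uni (R := ZMod q) (n := 3))] :
    (q : ℝ) ^ 3 / 2 ≤ ((Finset.univ.filter (fun v : Fin 3 → ZMod q => Uni v)).card : ℝ) := by
  have h1 := sum_uni q (fun _ => (1 : ℂ))
  simp only [Finset.sum_const, nsmul_eq_mul, mul_one, Finset.card_univ] at h1
  rw [Fintype.card_fun, Fintype.card_fin, ZMod.card] at h1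
  have h2 : ((Finset.univ.filter (fun v : Fin 3 → ZMod q => Uni v)).card : ℝ) =
      ∑ d ∈ q.divisors, (ArithmeticFunction.moebius d : ℝ) * ((d : ℝ) ^ 3)⁻¹ * (q : ℝ) ^ 3 := by
    have : (((Finset.univ.filter (fun v : Fin 3 → ZMod q => Uni v)).card : ℝ) : ℂ) =
      ((∑ d ∈ q.divisors, (ArithmeticFunction.moebius d : ℝ) * ((d : ℝ) ^ 3)⁻¹ * (q : ℝ) ^ 3 : ℝ) : ℂ) := by
      push_cast
      push_cast at h1
      rw [h1]
    exact_mod_cast this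
  have hq : q ≠ 0 := NeZero.ne q
  have h1mem : 1 ∈ q.divisors := Nat.one_mem_divisors.mpr hq
  rw [h2, ← Finset.sum_mul, ← Finset.add_sum_erase _ _ h1mem]
  have h3 : ∀ d ∈ q.divisors.erase 1, -(((d : ℝ) ^ 2)⁻¹ / 2) ≤
      (ArithmeticFunction.moebius d : ℝ) * ((d : ℝ) ^ 3)⁻¹ := by
    intro d hd
    have hd1 : d ≠ 1 := (Finset.mem_erase.mp hd).1
    have hdpos : 0 < d := Nat.pos_of_mem_divisors (Finset.mem_erase.mp hd).2
    have hd2 : (2 : ℝ) ≤ d := by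
      have : 2 ≤ d := by omega
      exact_mod_cast this
    have h5 : |(ArithmeticFunction.moebius d : ℝ)| ≤ 1 := by
      exact_mod_cast ArithmeticFunction.abs_moebius_le_one
    have h6 : |(ArithmeticFunction.moebius d : ℝ) * ((d : ℝ) ^ 3)⁻¹| ≤ ((d : ℝ) ^ 2)⁻¹ / 2 := by
      rw [abs_mul, abs_of_pos (a := ((d : ℝ) ^ 3)⁻¹) (by positivity)]
      calc |(ArithmeticFunction.moebius d : ℝ)| * ((d : ℝ) ^ 3)⁻¹ ≤ 1 * ((d : ℝ) ^ 3)⁻¹ := by gcongr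
        _ = ((d : ℝ) ^ 2)⁻¹ * ((d : ℝ))⁻¹ := by field_simp
        _ ≤ ((d : ℝ) ^ 2)⁻¹ * (2 : ℝ)⁻¹ := by gcongr
        _ = ((d : ℝ) ^ 2)⁻¹ / 2 := by ring
    exact (abs_le.mp h6).1
  have h4 : -(1 / 2 : ℝ) ≤ ∑ d ∈ q.divisors.erase 1, (ArithmeticFunction.moebius d : ℝ) * ((d : ℝ) ^ 3)⁻¹ := by
    have h5 := Finset.sum_le_sum h3
    have h6 := sum_inv_sq_le q.divisors (fun d hd => Nat.pos_of_mem_divisors hd)
    rw [← Finset.add_sum_erase _ _ h1mem] at h6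
    rw [Finset.sum_neg_distrib, ← Finset.sum_div] at h5
    norm_num at h6
    linarith
  have h7 : (ArithmeticFunction.moebius 1 : ℝ) * (((1 : ℕ) : ℝ) ^ 3)⁻¹ = 1 := by simp
  rw [h7]
  have h8 : (0 : ℝ) ≤ (q : ℝ) ^ 3 := by positivity
  nlinarith

end Pool.Agent.KS6_30.V5
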