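import Pool.Agent.KS6_30.V5.Net
import Pool.Agent.KS6_30.V5.QuadUni

/-!
# The unimodular vectors which are annihilated by a unimodular form of the net
-/

namespace Pool.Agent.KS6_30.V5

open Finset

section Ring

variable {R : Type*} [CommRing R]

theorem Uni.smul_cancel {n : ℕ} {v : Fin n → R} (hv : Uni v) {a b : R} (h : a • v = b • v) : a = b := by
  obtain ⟨z, hz⟩ := hv
  calc a = a * ∑ j, z j * v j := by rw [hz, mul_one]
    _ = ∑ j, z j * (a • v) j := by
      rw [Finset.mul_sum]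
      apply Finset.sum_congr rfl
      intro j _
      simp only [Pi.smul_apply, smul_eq_mul]
      ring
    _ = ∑ j, z j * (b • v) j := by rw [h]
    _ = b * ∑ j, z j * v j := by
      rw [Finset.mul_sum]
      apply Finset.sum_congr rfl
      intro j _
      simp only [Pi.smul_apply, smul_eq_mul]
      ring
    _ = b := by rw [hz, mul_one]

theorem Uni.isUnit_of_smul {n : ℕ} {v : Fin n → R} {t : R} (h : Uni (t • v)) : IsUnit t := by
  obtain ⟨z, hz⟩ := h
  refine IsUnit.of_mul_eq_one (∑ j, z j * v j) ?_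
  rw [← hz, Finset.mul_sum]
  apply Finset.sum_congr rfl
  intro j _
  simp only [Pi.smul_apply, smul_eq_mul]
  ring

/-- `x` is unimodular and annihilated by a unimodular form of the net -/
def InS (x : Fin 5 → R) : Prop := Uni x ∧ ∃ l : Fin 3 → R, Uni l ∧ Ax l x = 0

theorem inS_iff (x : Fin 5 → R) :
    InS x ↔ ∃ (c : Rˣ) (l : Fin 3 → R), Uni l ∧ x = (c : R) • Pf l := by
  constructor
  · rintro ⟨hx, l, hl, hxl⟩
    obtain ⟨c, hc⟩ := eq_smul_Pf hl hxl
    have hu : IsUnit c := by rw [hc] at hx; exact hx.isUnit_of_smul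
    exact ⟨hu.unit, l, hl, hc⟩
  · rintro ⟨c, l, hl, rfl⟩
    refine ⟨(uni_smul_iff c _).mpr (uni_Pf hl), l, hl, ?_⟩
    rw [Ax_smul, Ax_Pf, smul_zero]

variable [Fintype R] [DecidableEq R]

theorem card_fiber (x : Fin 5 → R) (hx : InS x)
    [DecidablePred (fun p : Rˣ × (Fin 3 → R) => Uni p.2 ∧ (p.1 : R) • Pf p.2 = x)] :
    (Finset.univ.filter (fun p : Rˣ × (Fin 3 → R) => Uni p.2 ∧ (p.1 : R) • Pf p.2 = x)).card =
      Fintype.card Rˣ := by
  obtain ⟨c0, l0, hl0, rfl⟩ := (inS_iff x).mp hx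
  symm
  rw [← Finset.card_univ]
  apply Finset.card_bij (fun t _ => (c0 * (t⁻¹) ^ 2, (t : R) • l0))
  · intro t _
    simp only [Finset.mem_filter, Finset.mem_univ, true_and]
    refine ⟨(uni_smul_iff t _).mpr hl0, ?_⟩
    rw [Pf_smul, smul_smul]
    congr 1
    push_cast
    have : ((t⁻¹ : Rˣ) : R) * t = 1 := Units.inv_mul t
    calc (c0 : R) * ((t⁻¹ : Rˣ) : R) ^ 2 * (t : R) ^ 2 =
        (c0 : R) * (((t⁻¹ : Rˣ) : R) * t) ^ 2 := by ring
      _ = (c0 : R) := by rw [this]; ring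
  · intro t _ t' _ h
    simp only [Prod.mk.injEq] at h
    exact Units.ext (hl0.smul_cancel h.2)
  · rintro ⟨c, l⟩ h
    simp only [Finset.mem_filter, Finset.mem_univ, true_and] at h
    obtain ⟨hl, hcl⟩ := h
    have h1 : Ax l (Pf l0) = 0 := by
      have h2 : Ax l ((c0 : R) • Pf l0) = 0 := by rw [← hcl, Ax_smul, Ax_Pf, smul_zero]
      rw [Ax_smul] at h2
      have h3 := congrArg (fun y => ((c0⁻¹ : Rˣ) : R) • y) h2
      simpa [smul_smul] using h3
    obtain ⟨t, rfl⟩ := eq_smul_of_Ax_Pf hl0 h1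
    have ht := hl.isUnit_of_smul
    refine ⟨ht.unit, Finset.mem_univ _, ?_⟩
    rw [Pf_smul, smul_smul] at hcl
    have h4 : (c : R) * t ^ 2 = c0 := (uni_Pf hl0).smul_cancel hcl
    ext
    · simp only
      push_cast
      rw [← h4]
      have h5 : (((ht.unit)⁻¹ : Rˣ) : R) * t = 1 := by
        exact Units.inv_mul ht.unit
      calc (c : R) * t ^ 2 * (((ht.unit)⁻¹ : Rˣ) : R) ^ 2 =
          (c : R) * ((((ht.unit)⁻¹ : Rˣ) : R) * t) ^ 2 := by ring
        _ = (c : R) := by rw [h5]; ring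
    · rfl

theorem sum_inS {M : Type*} [Field M] (g : (Fin 5 → R) → M) [DecidablePred (InS (R := R))]
    [DecidablePred (Uni (R := R) (n := 3))] :
    (Fintype.card Rˣ : M) * ∑ x ∈ Finset.univ.filter (fun x : Fin 5 → R => InS x), g x =
      ∑ c : Rˣ, ∑ l ∈ Finset.univ.filter (fun l : Fin 3 → R => Uni l), g ((c : R) • Pf l) := by
  classical
  rw [← Finset.sum_product']
  rw [← Finset.sum_fiberwise_of_maps_to (g := fun p : Rˣ × (Fin 3 → R) => (p.1 : R) • Pf p.2)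
    (t := Finset.univ.filter (fun x : Fin 5 → R => InS x))]
  · rw [Finset.mul_sum]
    apply Finset.sum_congr rfl
    intro x hx
    simp only [Finset.mem_filter, Finset.mem_univ, true_and] at hx
    have h1 : ((Finset.univ ×ˢ Finset.univ.filter (fun l : Fin 3 → R => Uni l)).filter
        (fun p : Rˣ × (Fin 3 → R) => (p.1 : R) • Pf p.2 = x)) =
        (Finset.univ.filter (fun p : Rˣ × (Fin 3 → R) => Uni p.2 ∧ (p.1 : R) • Pf p.2 = x)) := by
      ext p
      simp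
    rw [h1]
    have h2 : ∀ p ∈ (Finset.univ.filter (fun p : Rˣ × (Fin 3 → R) => Uni p.2 ∧ (p.1 : R) • Pf p.2 = x)),
        g ((p.1 : R) • Pf p.2) = g x := by
      intro p hp
      simp only [Finset.mem_filter, Finset.mem_univ, true_and] at hp
      rw [hp.2]
    rw [Finset.sum_congr rfl h2, Finset.sum_const, card_fiber x hx, nsmul_eq_mul]
  · intro p hp
    simp only [Finset.mem_product, Finset.mem_filter, Finset.mem_univ, true_and] at hp ⊢
    exact (inS_iff _).mpr ⟨p.1, p.2, hp, rfl⟩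

end Ring

/-- the coefficients of the quadratic form `h · Pf` -/
def hcoef (h : Fin 5 → ℤ) : Fin 6 → ℤ := ![h 4, h 2, h 0, -h 3, h 2, -h 1]

theorem hcoef_ne_zero {h : Fin 5 → ℤ} (hh : h ≠ 0) : hcoef h ≠ 0 := by
  intro hcon
  apply hh
  have h0 := congrFun hcon 0
  have h1 := congrFun hcon 1
  have h2 := congrFun hcon 2
  have h3 := congrFun hcon 3
  have h5 := congrFun hcon 5
  simp [hcoef] at h0 h1 h2 h3 h5
  funext i
  fin_cases i <;> simp [*]

theorem sum_mul_Pf {R : Type*} [CommRing R] (h : Fin 5 → ℤ) (l : Fin 3 → R) :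
    ∑ i, (h i : R) * Pf l i = qf (hcoef h) l := by
  simp [Fin.sum_univ_five, Pf, qf, hcoef]
  ring

section ZMod

variable (q : ℕ) [NeZero q]

open Classical in
/-- the set of residue classes -/
noncomputable def Sq : Finset (Fin 5 → ZMod q) := Finset.univ.filter (fun x => InS x)

theorem mem_Sq (x : Fin 5 → ZMod q) : x ∈ Sq q ↔ InS x := by
  classical
  simp [Sq]

open Classical in
theorem card_Sq : (Sq q).card = (Finset.univ.filter (fun l : Fin 3 → ZMod q => Uni l)).card := by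
  have h := sum_inS (R := ZMod q) (M := ℂ) (fun _ => 1)
  simp only [Finset.sum_const, Finset.card_univ, nsmul_eq_mul, mul_one] at h
  have h0 : (Fintype.card (ZMod q)ˣ : ℂ) ≠ 0 := by
    exact_mod_cast Fintype.card_ne_zero
  have h1 := mul_left_cancel₀ h0 h
  have h2 : (((Sq q).card : ℕ) : ℂ) = ((Finset.univ.filter (fun l : Fin 3 → ZMod q => Uni l)).card : ℂ) := h1
  exact_mod_cast h2

theorem card_Sq_ge : (q : ℝ) ^ 3 / 2 ≤ ((Sq q).card : ℝ) := by
  classical
  rw [card_Sq]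
  exact card_uni_ge q

theorem card_Sq_le : ((Sq q).card : ℝ) ≤ (q : ℝ) ^ 3 := by
  classical
  rw [card_Sq]
  have h1 : (Finset.univ.filter (fun l : Fin 3 → ZMod q => Uni l)).card ≤ q ^ 3 := by
    calc _ ≤ (Finset.univ : Finset (Fin 3 → ZMod q)).card := Finset.card_filter_le _ _
      _ = q ^ 3 := by rw [Finset.card_univ, Fintype.card_fun, Fintype.card_fin, ZMod.card]
  exact_mod_cast h1

end ZMod

/-- **The exponential sums over the cone.** -/
theorem weyl_bound (h : Fin 5 → ℤ) (hh : h ≠ 0) : ∃ C : ℝ, 0 < C ∧ ∀ (q : ℕ) [NeZero q] (u : (ZMod q)ˣ),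
    ‖∑ x ∈ Sq q, (ZMod.stdAddChar ((u : ZMod q) * ∑ i, (h i : ZMod q) * x i) : ℂ)‖ ≤
      C * ((q : ℝ) ^ 2 * Real.sqrt q) := by
  classical
  obtain ⟨C, hC, hb⟩ := quad_sum_uni_bound (hcoef h) (hcoef_ne_zero hh)
  refine ⟨C, hC, ?_⟩
  intro q _ u
  have h1 := sum_inS (R := ZMod q) (M := ℂ)
    (fun x => (ZMod.stdAddChar ((u : ZMod q) * ∑ i, (h i : ZMod q) * x i) : ℂ))
  have h2 : ∀ (c : (ZMod q)ˣ) (l : Fin 3 → ZMod q), (u : ZMod q) * ∑ i, (h i : ZMod q) * ((c : ZMod q) • Pf l) i =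
      ((u * c : (ZMod q)ˣ) : ZMod q) * qf (hcoef h) l := by
    intro c l
    rw [← sum_mul_Pf]
    simp only [Pi.smul_apply, smul_eq_mul, Finset.mul_sum]
    apply Finset.sum_congr rfl
    intro i _
    push_cast
    ring
  simp_rw [h2] at h1
  have h0 : (0 : ℝ) < (Fintype.card (ZMod q)ˣ : ℝ) := by
    exact_mod_cast Fintype.card_pos
  have h3 : (Fintype.card (ZMod q)ˣ : ℝ) *
      ‖∑ x ∈ Sq q, (ZMod.stdAddChar ((u : ZMod q) * ∑ i, (h i : ZMod q) * x i) : ℂ)‖ ≤
      (Fintype.card (ZMod q)ˣ : ℝ) * (C * ((q : ℝ) ^ 2 * Real.sqrt q)) := by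
    have h4 : ‖(Fintype.card (ZMod q)ˣ : ℂ) * ∑ x ∈ Sq q,
        (ZMod.stdAddChar ((u : ZMod q) * ∑ i, (h i : ZMod q) * x i) : ℂ)‖ =
        (Fintype.card (ZMod q)ˣ : ℝ) *
      ‖∑ x ∈ Sq q, (ZMod.stdAddChar ((u : ZMod q) * ∑ i, (h i : ZMod q) * x i) : ℂ)‖ := by
      rw [norm_mul, Complex.norm_natCast]
    rw [← h4]
    rw [Sq, h1]
    refine (norm_sum_le _ _).trans ?_
    have h5 : ∀ c ∈ (Finset.univ : Finset (ZMod q)ˣ),
        ‖∑ l ∈ Finset.univ.filter (fun l : Fin 3 → ZMod q => Uni l),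
          (ZMod.stdAddChar (((u * c : (ZMod q)ˣ) : ZMod q) * qf (hcoef h) l) : ℂ)‖ ≤
        C * ((q : ℝ) ^ 2 * Real.sqrt q) := fun c _ => hb q (u * c)
    refine (Finset.sum_le_sum h5).trans ?_
    rw [Finset.sum_const, Finset.card_univ, nsmul_eq_mul]
  exact le_of_mul_le_mul_left h3 h0

end Pool.Agent.KS6_30.V5
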