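import Pool.Agent.KS6_30.V5.Period
import Pool.Agent.KS6_30.V5.Cone
namespace Pool.Agent.KS6_30.V5
open MeasureTheory Filter Topology UnitAddTorus

variable {n : ℕ}

/-- the reduction of an integer vector modulo `q` -/
def red (q : ℕ) (Y : Fin n → ℤ) : Fin n → ZMod q := fun i => (Y i : ZMod q)

/-- the point `Y / q` -/
noncomputable def scal (q : ℕ) (Y : Fin n → ℤ) : Fin n → ℝ := fun i => (Y i : ℝ) / q

/-- the point of the torus of a residue class -/
noncomputable def tpt (q : ℕ) [NeZero q] (x : Fin n → ZMod q) : UnitAddTorus (Fin n) :=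
  fun i => ZMod.toAddCircle (x i)

theorem tpt_red (q : ℕ) [NeZero q] (Y : Fin n → ℤ) : tpt q (red q Y) = proj (scal q Y) := by
  funext i
  simp only [tpt, red, proj, scal]
  exact ZMod.toAddCircle_intCast (Y i)

theorem mFourier_tpt (q : ℕ) [NeZero q] (h : Fin n → ℤ) (x : Fin n → ZMod q) :
    mFourier h (tpt q x) = (ZMod.stdAddChar (∑ i, (h i : ZMod q) * x i) : ℂ) := by
  simp only [mFourier, ContinuousMap.coe_mk, tpt]
  have h1 : ∀ i, (fourier (h i) (ZMod.toAddCircle (x i)) : ℂ) =
      (ZMod.stdAddChar ((h i : ZMod q) * x i) : ℂ) := by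
    intro i
    have h2 : (h i : ZMod q) * x i = (h i) • x i := by simp
    have h3 : ZMod.toAddCircle (h i • x i) = h i • ZMod.toAddCircle (x i) := map_zsmul _ _ _
    rw [fourier_apply, h2, ← h3]
    rfl
  simp_rw [h1]
  have h4 : ∀ s : Finset (Fin n), ∏ i ∈ s, (ZMod.stdAddChar ((h i : ZMod q) * x i) : ℂ) =
      ZMod.stdAddChar (∑ i ∈ s, (h i : ZMod q) * x i) := by
    classical
    intro s
    induction s using Finset.induction_on with
    | empty => simp
    | insert a s ha ih => rw [Finset.prod_insert ha, Finset.sum_insert ha, AddChar.map_add_eq_mul, ih]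
  exact h4 Finset.univ

/-- the average over the points of the torus of a finite set of residue classes -/
noncomputable def avg (q : ℕ) [NeZero q] (S : Finset (Fin n → ZMod q)) :
    C(UnitAddTorus (Fin n), ℂ) →ₗ[ℂ] ℂ where
  toFun F := (∑ x ∈ S, F (tpt q x)) / S.card
  map_add' F G := by
    simp only [ContinuousMap.add_apply, Finset.sum_add_distrib, add_div]
  map_smul' c F := by
    simp only [ContinuousMap.smul_apply, smul_eq_mul, ← Finset.mul_sum, RingHom.id_apply]
    ring

theorem avg_apply (q : ℕ) [NeZero q] (S : Finset (Fin n → ZMod q)) (F : C(UnitAddTorus (Fin n), ℂ)) :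
    avg q S F = (∑ x ∈ S, F (tpt q x)) / S.card := rfl

theorem norm_avg_le (q : ℕ) [NeZero q] (S : Finset (Fin n → ZMod q)) (F : C(UnitAddTorus (Fin n), ℂ)) :
    ‖avg q S F‖ ≤ ‖F‖ := by
  simp only [avg, LinearMap.coe_mk, AddHom.coe_mk, norm_div, Complex.norm_natCast]
  rcases Nat.eq_zero_or_pos S.card with h | h
  · simp [h]
  · rw [div_le_iff₀ (by exact_mod_cast h)]
    calc ‖∑ x ∈ S, F (tpt q x)‖ ≤ ∑ x ∈ S, ‖F‖ :=
          norm_sum_le_of_le _ (fun x _ => F.norm_coe_le_norm _)
      _ = ‖F‖ * S.card := by rw [Finset.sum_const, nsmul_eq_mul, mul_comm]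

/-- the averages over the cone tend to the mean -/
theorem avg_tendsto (F : C(UnitAddTorus (Fin 5), ℂ)) :
    Tendsto (fun q : ℕ => avg (q + 1) (Sq (q + 1)) F) atTop (𝓝 (mean F)) := by
  apply torus_limit
  · intro q F
    exact norm_avg_le _ _ F
  · intro h
    split_ifs with hh
    · subst hh
      rw [mFourier_zero]
      apply tendsto_const_nhds.congr
      intro q
      rw [avg_apply]
      have h1 := card_Sq_ge (q + 1)
      have h2 : (0 : ℝ) < ((Sq (q + 1)).card : ℝ) := lt_of_lt_of_le (by positivity) h1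
      have h3 : ((Sq (q + 1)).card : ℂ) ≠ 0 := by
        exact_mod_cast h2.ne'
      simp [h3]
    · obtain ⟨C, hC, hb⟩ := weyl_bound h hh
      rw [tendsto_zero_iff_norm_tendsto_zero]
      have h4 : Tendsto (fun q : ℕ => 2 * C / Real.sqrt ((q : ℝ) + 1)) atTop (𝓝 0) := by
        apply Tendsto.div_atTop tendsto_const_nhds
        apply Real.tendsto_sqrt_atTop.comp
        exact tendsto_atTop_add_const_right _ _ tendsto_natCast_atTop_atTop
      refine squeeze_zero (fun _ => norm_nonneg _) ?_ h4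
      intro q
      rw [avg_apply, norm_div, Complex.norm_natCast]
      have h5 := hb (q + 1) 1
      simp only [Units.val_one, one_mul] at h5
      have h6 : ∀ x ∈ Sq (q + 1), mFourier h (tpt (q + 1) x) =
          (ZMod.stdAddChar (∑ i, (h i : ZMod (q + 1)) * x i) : ℂ) := fun x _ => mFourier_tpt _ h x
      rw [Finset.sum_congr rfl h6]
      have h1 := card_Sq_ge (q + 1)
      have h2 : (0 : ℝ) < ((Sq (q + 1)).card : ℝ) := lt_of_lt_of_le (by positivity) h1
      rw [div_le_div_iff₀ h2 (by positivity)]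
      push_cast at h5 h1 ⊢
      set s := Real.sqrt ((q : ℝ) + 1) with hs
      have hs0 : 0 < s := by positivity
      have hs2 : s ^ 2 = (q : ℝ) + 1 := Real.sq_sqrt (by positivity)
      calc _ ≤ C * (((q : ℝ) + 1) ^ 2 * s) * s := by gcongr
        _ = 2 * C * (((q : ℝ) + 1) ^ 3 / 2) := by
            rw [mul_assoc, mul_assoc, ← sq, hs2]; ring
        _ ≤ 2 * C * ((Sq (q + 1)).card : ℝ) := by gcongr

end Pool.Agent.KS6_30.V5
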