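import Pool.Agent.KS6_30.V5.BLi

/-!
# The main limit: the theorem
-/

set_option autoImplicit false

namespace Pool.Agent.KS6_30.V5

open Filter Topology MeasureTheory Pool.Agent.KS6_53.V5 Finset

variable {k Z L Q : ℕ} {δ A : ℝ}

theorem pos_main (h : Ctx k Z L Q) (hk : 0 < k) (hQ2 : 2 ≤ Q) (hδ : 0 < δ) (hA : 0 < A)
    {β : (Fin 5 → ℝ) × ℝ → ℝ} (hβ : Tf δ A β) (hβ0 : ∀ z, 0 ≤ β z)
    (hβm : ∀ u s, β (u, s) ≠ 0 → mm u ≠ 0) (Bβ : ℝ) (hB : ∀ z, β z ≤ Bβ)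
    (N : ℕ) (ρ' : ℕ → Fin 5 → ℤ)
    (hρ' : ∀ l : ℕ, l.Prime → Z < l → ∀ i, (Q : ℤ) ∣ l * ρ' l i - r0 i)
    (T : ℝ) (hT : 0 < T) [DecidablePred Ex] :
    cs A Q r0 1 β T ≤
      ∑ z ∈ (EE_finite δ A T hδ hA hT).toFinset.filter Ex, β (pt z, (z.1 : ℝ) / √T) +
      ∑ l ∈ (Finset.Ioc Z N).filter Nat.Prime,
        (gs A Q (ρ' l) 1 1 (1 / l) β T + gs A Q r0 l 1 (1 / l) β T) +
      Bβ * (BB δ A T N).ncard := by
  classical
  have hBβ0 : 0 ≤ Bβ := (hβ0 0).trans (hB 0)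
  set E := (EE_finite δ A T hδ hA hT).toFinset with hE
  have hmemE : ∀ z, z ∈ E ↔ z ∈ EE δ A T := fun z => by rw [hE, Set.Finite.mem_toFinset]
  set D := E.filter (fun z => cl L Q z = (1, r0)) with hD
  have hG := Gd_r0 (k := k) (Z := Z) (L := L) hk
  have e1 : cs A Q r0 1 β T = ∑ z ∈ D, β (pt z, (z.1 : ℝ) / √T) := by
    have h1 := cs_pairs h hG (fun i => by
      simp only [r0, Set.mem_Ico]
      have : (2 : ℤ) ≤ Q := by exact_mod_cast hQ2
      fin_cases i <;> simp <;> omega) hβ hβm hδ hA T hT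
    exact h1
  set S := (Finset.Ioc Z N).filter Nat.Prime with hS
  set Pb : ℕ → ℕ × (Fin 5 → ℤ) → Prop := fun l z => ∀ i, (l : ℤ) ∣ z.2 i with hPb
  set Pa : ℕ → ℕ × (Fin 5 → ℤ) → Prop := fun l z => (∃ i, ¬ (l : ℤ) ∣ z.2 i) ∧
    ∀ r, ((l * z.1 : ℕ) : ℤ) ∣ mm z.2 r with hPa
  have hpt : ∀ z ∈ D, β (pt z, (z.1 : ℝ) / √T) ≤ (if Ex z then β (pt z, (z.1 : ℝ) / √T) else 0) +
      ∑ l ∈ S, ((if Pb l z then β (pt z, (z.1 : ℝ) / √T) else 0) +
        (if Pa l z then β (pt z, (z.1 : ℝ) / √T) else 0)) + (if z ∈ BB δ A T N then Bβ else 0) := by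
    intro z hz
    rw [hD, Finset.mem_filter, hmemE] at hz
    obtain ⟨hzE, hcl⟩ := hz
    set y := β (pt z, (z.1 : ℝ) / √T) with hy
    have hy0 : 0 ≤ y := hβ0 _
    have hyB : y ≤ Bβ := hB _
    have n1 : 0 ≤ (if Ex z then y else 0) := by split_ifs <;> linarith
    have n2 : 0 ≤ (if z ∈ BB δ A T N then Bβ else 0) := by split_ifs <;> linarith
    have n4 : ∀ l ∈ S, 0 ≤ ((if Pb l z then y else 0) + (if Pa l z then y else 0)) := by
      intro l _
      split_ifs <;> linarith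
    have n3 := Finset.sum_nonneg n4
    have hbad : ∀ p : ℕ, p.Prime → p ≤ N → ((∀ i, (p : ℤ) ∣ z.2 i) ∨ ∀ r, ((p * z.1 : ℕ) : ℤ) ∣ mm z.2 r) →
        y ≤ ∑ l ∈ S, ((if Pb l z then y else 0) + (if Pa l z then y else 0)) := by
      intro p hp hpN hor
      have hcong : ∀ i, (Q : ℤ) ∣ z.2 i - r0 i := by
        intro i
        have := cl_congr (L := L) (Q := Q) z i
        rw [hcl] at this
        exact this
      have hpZ : Z < p := by
        by_contra hcon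
        push Not at hcon
        rcases hor with h1 | h1
        · obtain ⟨i, hi⟩ := hG.congr_uni h hcong p hp hcon
          exact hi (h1 i)
        · obtain ⟨r, hr⟩ := hG.congr_mmn h hcong p hp hcon
          apply hr
          refine (Int.natCast_dvd_natCast.mpr ?_).trans (h1 r)
          simp
      have hpS : p ∈ S := by
        rw [hS, Finset.mem_filter, Finset.mem_Ioc]
        exact ⟨⟨hpZ, hpN⟩, hp⟩
      refine le_trans ?_ (Finset.single_le_sum n4 hpS)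
      by_cases h1 : Pb p z
      · rw [if_pos h1]
        have : 0 ≤ (if Pa p z then y else 0) := by split_ifs <;> linarith
        linarith
      · have h2 : Pa p z := by
          refine ⟨?_, ?_⟩
          · by_contra hcon
            push Not at hcon
            exact h1 hcon
          · rcases hor with h3 | h3
            · exact absurd h3 h1
            · exact h3
        rw [if_pos h2, if_neg h1, zero_add]
    by_cases h1 : ∀ p : ℕ, p.Prime → p ≤ N → ∃ i, ¬ (p : ℤ) ∣ z.2 i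
    · by_cases h2 : ∀ p : ℕ, p.Prime → p ≤ N → ∃ r, ¬ ((p * z.1 : ℕ) : ℤ) ∣ mm z.2 r
      · rcases exact_or_bad hzE N h1 h2 with h3 | h3
        · rw [if_pos h3]
          linarith
        · rw [if_pos h3]
          linarith
      · push Not at h2
        obtain ⟨p, hp, hpN, h3⟩ := h2
        have := hbad p hp hpN (Or.inr h3)
        linarith
    · push Not at h1
      obtain ⟨p, hp, hpN, h3⟩ := h1
      have := hbad p hp hpN (Or.inl h3)
      linarith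
  rw [e1]
  refine (Finset.sum_le_sum hpt).trans ?_
  rw [Finset.sum_add_distrib, Finset.sum_add_distrib, Finset.sum_comm]
  have hDE : D ⊆ E := Finset.filter_subset _ _
  gcongr ?_ + ?_ + ?_
  · rw [← Finset.sum_filter]
    apply Finset.sum_le_sum_of_subset_of_nonneg
    · exact Finset.filter_subset_filter _ hDE
    · intro z _ _
      exact hβ0 _
  · apply Finset.sum_le_sum
    intro l hl
    rw [hS, Finset.mem_filter, Finset.mem_Ioc] at hl
    rw [Finset.sum_add_distrib]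
    gcongr ?_ + ?_
    · rw [← Finset.sum_filter]
      apply pos_b h hk hA hβ hβ0 l hl.2 hl.1.1 (ρ' l) (hρ' l hl.2 hl.1.1) T
      intro z hz
      rw [Finset.mem_filter, hD, Finset.mem_filter, hmemE] at hz
      exact ⟨hz.1.1, hz.1.2, hz.2⟩
    · rw [← Finset.sum_filter]
      apply pos_a h hk hA hβ hβ0 l hl.2 T
      intro z hz
      rw [Finset.mem_filter, hD, Finset.mem_filter, hmemE] at hz
      exact ⟨hz.1.1, hz.1.2, hz.2.1, hz.2.2⟩
  · rw [← Finset.sum_filter, Finset.sum_const, nsmul_eq_mul, mul_comm]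
    gcongr
    have h1 : ((D.filter fun z => z ∈ BB δ A T N : Finset _) : Set (ℕ × (Fin 5 → ℤ))) ⊆ BB δ A T N := by
      intro z hz
      exact (Finset.mem_filter.mp hz).2
    have h2 := Set.ncard_le_ncard h1 (BB_finite hδ hA T hT N)
    rw [Set.ncard_coe_finset] at h2
    exact_mod_cast h2

theorem mom_pos {β : (Fin 5 → ℝ) × ℝ → ℝ} (hβ : Tf δ A β) (hδ : 0 < δ) (hβ0 : ∀ z, 0 ≤ β z)
    (u0 : Fin 5 → ℝ) (s0 : ℝ) (h : 0 < β (u0, s0)) : 0 < mom β := by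
  have h1 : 0 < hh β s0 := by
    rw [hh]
    apply Continuous.integral_pos_of_hasCompactSupport_nonneg_nonzero (x := u0)
    · exact hβ.cts.comp (by fun_prop)
    · exact hcs_of_bdd _ A (fun u hu => (hβ.supp u s0 hu).1)
    · exact fun u => hβ0 _
    · exact h.ne'
  have hs0 : 0 < s0 := hδ.trans_le (hβ.hh_ne s0 h1.ne').1
  rw [mom]
  apply Continuous.integral_pos_of_hasCompactSupport_nonneg_nonzero (x := s0)
  · exact (continuous_id.pow 3).mul hβ.continuous_hh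
  · apply HasCompactSupport.of_support_subset_isCompact (isCompact_Icc (a := δ) (b := A))
    intro s hs
    exact hβ.hh_ne s (right_ne_zero_of_mul hs)
  · intro s
    by_cases h3 : hh β s = 0
    · simp [h3]
    · have h4 := (hβ.hh_ne s h3).1
      have : 0 < s := by linarith
      have h2 : 0 ≤ hh β s := integral_nonneg fun u => hβ0 _
      simp only [Pi.zero_apply]
      positivity
  · positivity

theorem BL_pos (θ : (Fin 5 → ℤ) → ℝ)
    (a b : ℝ) (hab : ∀ x, θ x ∈ Set.Icc a b) (G : (Fin 5 → ℝ) × ℝ × ℝ → ℝ) (hGc : Continuous G)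
    (hδ : 0 < δ) (hA : 0 < A)
    (hG : ∀ z, G z ≠ 0 → ‖z.1‖ ≤ A ∧ δ ≤ ‖mm z.1‖ ∧ δ ≤ z.2.1 ∧ z.2.1 ≤ A)
    (hG0 : ∀ z, 0 ≤ G z) (u0 : Fin 5 → ℝ) (s0 : ℝ) (hpos : ∀ τ ∈ Set.Icc a b, 0 < G (u0, s0, τ)) :
    ∃ c : ℝ, 0 < c ∧ ∀ᶠ T : ℝ in atTop, c ≤ BS G θ T / T ^ 2 := by
  classical
  have haI : a ∈ Set.Icc a b := ⟨le_rfl, (hab 0).1.trans (hab 0).2⟩
  obtain ⟨⟨B, hB0, hB⟩, -⟩ := tst_unif G hGc hG a b
  set β : (Fin 5 → ℝ) × ℝ → ℝ := fun z => sInf ((fun τ => G (z.1, z.2, τ)) '' Set.Icc a b) with hβ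
  have hcont : Continuous β := by
    have h1 : Continuous (Function.uncurry fun (z : (Fin 5 → ℝ) × ℝ) (τ : ℝ) => G (z.1, z.2, τ)) :=
      hGc.comp (by fun_prop)
    exact isCompact_Icc.continuous_sInf h1
  have hne : ∀ z : (Fin 5 → ℝ) × ℝ, ((fun τ => G (z.1, z.2, τ)) '' Set.Icc a b).Nonempty :=
    fun z => ⟨_, a, haI, rfl⟩
  have hbdd : ∀ z : (Fin 5 → ℝ) × ℝ, BddBelow ((fun τ => G (z.1, z.2, τ)) '' Set.Icc a b) := by
    intro z
    refine ⟨0, ?_⟩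
    rintro _ ⟨τ, _, rfl⟩
    exact hG0 _
  have hle : ∀ (z : (Fin 5 → ℝ) × ℝ) (τ : ℝ), τ ∈ Set.Icc a b → β z ≤ G (z.1, z.2, τ) :=
    fun z τ hτ => csInf_le (hbdd z) ⟨τ, hτ, rfl⟩
  have hβ0 : ∀ z, 0 ≤ β z := by
    intro z
    apply le_csInf (hne z)
    rintro _ ⟨τ, _, rfl⟩
    exact hG0 _
  have hGne : ∀ z, β z ≠ 0 → G (z.1, z.2, a) ≠ 0 := by
    intro z hz
    have h1 := lt_of_le_of_ne (hβ0 z) (Ne.symm hz)
    have h2 := hle z a haI
    exact (h1.trans_le h2).ne'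
  have hTf : Tf δ A β := ⟨hcont, fun u s hus => ⟨(hG _ (hGne _ hus)).1, (hG _ (hGne _ hus)).2.2⟩⟩
  have hβm : ∀ u s, β (u, s) ≠ 0 → mm u ≠ 0 := by
    intro u s hus h0
    have := (hG _ (hGne _ hus)).2.1
    simp only at this
    rw [h0, norm_zero] at this
    linarith
  have hβB : ∀ z, β z ≤ B := fun z => (hle z a haI).trans ((le_abs_self _).trans (hB z.1 z.2 a haI))
  have hβpos : 0 < β (u0, s0) := by
    have h1 : IsCompact ((fun τ => G (u0, s0, τ)) '' Set.Icc a b) :=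
      isCompact_Icc.image (hGc.comp (by fun_prop))
    obtain ⟨τ, hτ, h2⟩ := h1.sInf_mem (hne (u0, s0))
    have h3 : β (u0, s0) = G (u0, s0, τ) := h2.symm
    rw [h3]
    exact hpos τ hτ
  have hmom := mom_pos hTf hδ hβ0 u0 s0 hβpos
  -- the context
  obtain ⟨L, hctx⟩ := exists_ctx 1 one_pos 1 10 one_pos (by norm_num)
  set Q := 1 * L with hQ
  have hQ2 : 2 ≤ Q := Nat.le_of_dvd hctx.hQ0 ((hctx.hQ 2 Nat.prime_two).mpr (by norm_num))
  have hQ0' : (0 : ℝ) < Q := by exact_mod_cast hctx.hQ0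
  have hφ : (0 : ℝ) < Q.totient := by exact_mod_cast Nat.totient_pos.mpr hctx.hQ0
  set Λ := lam Q 1 β with hΛ
  have hΛ0 : 0 < Λ := by
    rw [hΛ, lam]
    push_cast
    positivity
  have habs : (fun z => |β z|) = β := funext fun z => abs_of_nonneg (hβ0 z)
  obtain ⟨N₀, hN₀⟩ := BB_count δ A hδ hA (Λ / 10 / B) (by positivity)
  have hex : ∀ l : ℕ, ∃ y : Fin 5 → ℤ, l.Prime → 10 < l → ∀ i, (Q : ℤ) ∣ l * y i - r0 i := by
    intro l
    by_cases hl : l.Prime ∧ 10 < l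
    · have hlQ : Nat.Coprime l Q := by
        rw [Nat.Prime.coprime_iff_not_dvd hl.1]
        intro hd
        have := (hctx.hQ l hl.1).mp hd
        omega
      obtain ⟨y, hy⟩ := exists_inv l Q hlQ
      refine ⟨fun i => y * r0 i, fun _ _ i => ?_⟩
      have e : (l : ℤ) * (y * r0 i) - r0 i = (l * y - 1) * r0 i := by ring
      rw [e]
      exact Dvd.dvd.mul_right hy _
    · exact ⟨0, fun h1 h2 => absurd ⟨h1, h2⟩ hl⟩
  choose ρ' hρ' using hex
  set S := (Finset.Ioc 10 N₀).filter Nat.Prime with hS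
  set n := S.card with hn
  have hSl : ∀ l ∈ S, 10 < l ∧ l.Prime := by
    intro l hl
    rw [hS, Finset.mem_filter, Finset.mem_Ioc] at hl
    exact ⟨hl.1.1, hl.2⟩
  -- the eventual inequalities
  have ev1 := cs_close hTf hδ hA 10 Q (by norm_num) hctx.hQ0 (fun p hp hpZ => (hctx.hQ p hp).mpr hpZ) r0 1
    one_pos (Λ / 10) (by positivity)
  rw [habs] at ev1
  have ev2 : ∀ᶠ T : ℝ in atTop, ∀ l ∈ S, gs A Q (ρ' l) 1 1 (1 / l) β T ≤
      ((1 / (l : ℝ)) ^ 5 * Λ + Λ / 10 / (n + 1)) * T ^ 2 := by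
    rw [Filter.eventually_all_finset]
    intro l hl
    have hl0 : (0 : ℝ) < l := by exact_mod_cast (hSl l hl).2.pos
    have := gs_upper hTf hδ hA hβ0 Q hctx.hQ0 (ρ' l) 1 one_pos (Nat.coprime_one_left Q) (1 / l)
      (by positivity) (Λ / 10 / (n + 1)) (by positivity)
    simpa using this
  have ev3 : ∀ᶠ T : ℝ in atTop, ∀ l ∈ S, gs A Q r0 l 1 (1 / l) β T ≤
      ((l : ℝ) ^ 3 * (1 / (l : ℝ)) ^ 5 * Λ + Λ / 10 / (n + 1)) * T ^ 2 := by
    rw [Filter.eventually_all_finset]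
    intro l hl
    have hl0 : (0 : ℝ) < l := by exact_mod_cast (hSl l hl).2.pos
    have hlQ : Nat.Coprime l Q := by
      rw [Nat.Prime.coprime_iff_not_dvd (hSl l hl).2]
      intro hd
      have := (hctx.hQ l (hSl l hl).2).mp hd
      have := (hSl l hl).1
      omega
    exact gs_upper hTf hδ hA hβ0 Q hctx.hQ0 r0 l (hSl l hl).2.pos hlQ (1 / l)
      (by positivity) (Λ / 10 / (n + 1)) (by positivity)
  refine ⟨Λ / 10, by positivity, ?_⟩
  filter_upwards [ev1, ev2, ev3, eventually_gt_atTop 0] with T ev1 ev2 ev3 hT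
  have hT2 : 0 < T ^ 2 := by positivity
  have hm := pos_main hctx one_pos hQ2 hδ hA hTf hβ0 hβm B hβB N₀ ρ' hρ' T hT
  have hlow : ∑ z ∈ (EE_finite δ A T hδ hA hT).toFinset.filter Ex, β (pt z, (z.1 : ℝ) / √T) ≤ BS G θ T := by
    rw [BS_pairs G hδ hA hG θ T hT]
    apply Finset.sum_le_sum
    intro z _
    exact hle (pt z, (z.1 : ℝ) / √T) (θ z.2) (hab z.2)
  have hbb : B * ((BB δ A T N₀).ncard : ℝ) ≤ Λ / 10 * T ^ 2 := by
    calc B * ((BB δ A T N₀).ncard : ℝ) ≤ B * (Λ / 10 / B * T ^ 2) := by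
          gcongr
          exact hN₀ N₀ le_rfl T hT
      _ = Λ / 10 * T ^ 2 := by field_simp
  have hsum : ∑ l ∈ S, (gs A Q (ρ' l) 1 1 (1 / l) β T + gs A Q r0 l 1 (1 / l) β T) ≤
      (Λ / 5 + Λ / 5) * T ^ 2 := by
    have h1 : ∀ l ∈ S, gs A Q (ρ' l) 1 1 (1 / l) β T + gs A Q r0 l 1 (1 / l) β T ≤
        (2 * Λ * (1 / (l : ℝ) ^ 2) + 2 * (Λ / 10 / (n + 1))) * T ^ 2 := by
      intro l hl
      have a1 := ev2 l hl
      have a2 := ev3 l hl
      have hl1 : (1 : ℝ) ≤ l := by exact_mod_cast (hSl l hl).2.one_lt.le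
      have hl0 : (0 : ℝ) < l := by linarith
      have a3 : (1 / (l : ℝ)) ^ 5 ≤ 1 / (l : ℝ) ^ 2 := by
        rw [one_div_pow]
        apply one_div_le_one_div_of_le (by positivity)
        exact pow_le_pow_right₀ hl1 (by norm_num)
      have a4 : (l : ℝ) ^ 3 * (1 / (l : ℝ)) ^ 5 = 1 / (l : ℝ) ^ 2 := by field_simp
      rw [a4] at a2
      have a5 : ((1 / (l : ℝ)) ^ 5 * Λ + Λ / 10 / (n + 1)) * T ^ 2 ≤
          (1 / (l : ℝ) ^ 2 * Λ + Λ / 10 / (n + 1)) * T ^ 2 := by gcongr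
      calc _ ≤ (1 / (l : ℝ) ^ 2 * Λ + Λ / 10 / (n + 1)) * T ^ 2 +
            (1 / (l : ℝ) ^ 2 * Λ + Λ / 10 / (n + 1)) * T ^ 2 := by linarith
        _ = _ := by ring
    refine (Finset.sum_le_sum h1).trans ?_
    rw [← Finset.sum_mul]
    apply mul_le_mul_of_nonneg_right _ hT2.le
    rw [Finset.sum_add_distrib, ← Finset.mul_sum, Finset.sum_const, nsmul_eq_mul]
    have h2 := sum_sq_le 10 (by norm_num) S (fun l hl => (hSl l hl).1)
    have h3 : 2 * Λ * ∑ l ∈ S, 1 / (l : ℝ) ^ 2 ≤ Λ / 5 := by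
      calc _ ≤ 2 * Λ * (1 / ((10 : ℕ) : ℝ)) := by gcongr
        _ = Λ / 5 := by push_cast; ring
    have h4 : (n : ℝ) * (2 * (Λ / 10 / (n + 1))) ≤ Λ / 5 := by
      have : (n : ℝ) * (2 * (Λ / 10 / (n + 1))) = Λ / 5 * (n / (n + 1)) := by ring
      rw [this]
      have h5 : (n : ℝ) / (n + 1) ≤ 1 := by
        rw [div_le_one (by positivity)]
        linarith
      calc Λ / 5 * (n / (n + 1)) ≤ Λ / 5 * 1 := by gcongr
        _ = _ := mul_one _
    linarith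
  have hcs := (abs_le.mp ev1).1
  have hcs' : (Λ - 1 / ((10 : ℕ) : ℝ) * Λ - Λ / 10) * T ^ 2 ≤ cs A Q r0 1 β T := by
    rw [← le_div_iff₀ hT2]
    linarith
  rw [le_div_iff₀ hT2]
  push_cast at hcs'
  nlinarith

theorem bl : S_BL := by
  intro P hP θ hθ a b _ hab G hG
  obtain ⟨δ, A, hδ, hsupp⟩ := hG.supp
  set A' := max A 1 with hA'
  have hA : 0 < A' := by positivity
  have hG' : ∀ z, G z ≠ 0 → ‖z.1‖ ≤ A' ∧ δ ≤ ‖mm z.1‖ ∧ δ ≤ z.2.1 ∧ z.2.1 ≤ A' := by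
    intro z hz
    obtain ⟨h1, h2, h3, h4⟩ := hsupp z hz
    exact ⟨h1.trans (le_max_left _ _), h2, h3, h4.trans (le_max_left _ _)⟩
  obtain ⟨L, hL⟩ := exists_limit (fun T => BS G θ T / T ^ 2)
    (BL_approx P hP θ hθ a b hab G hG.cts hδ hA hG')
  refine ⟨L, hL, ?_⟩
  rintro hG0 ⟨u0, s0, hpos⟩
  obtain ⟨c, hc, hev⟩ := BL_pos θ a b hab G hG.cts hδ hA hG' hG0 u0 s0 hpos
  exact hc.trans_le (ge_of_tendsto hL hev)

end Pool.Agent.KS6_30.V5
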