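import Pool.Agent.KS6_53.V5.Eq
import Pool.Agent.KS6_53.V5.Win

/-!
# Equidistribution, uniformly in a parameter
-/

set_option autoImplicit false

namespace Pool.Agent.KS6_30.V5

open Filter Topology MeasureTheory Pool.Agent.KS6_53.V5 Finset

/-- the vectors in a class and on the cone modulo `q` -/
def XS (Q : ℕ) (ρ : Fin 5 → ℤ) (q : ℕ) : Set (Fin 5 → ℤ) :=
  {x : Fin 5 → ℤ | (∀ i, (Q : ℤ) ∣ x i - ρ i) ∧ red q x ∈ CC q}

/-- sums over `X` of the values at the points `x / q` -/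
noncomputable def sx (X : Set (Fin 5 → ℤ)) (q : ℝ) (F : (Fin 5 → ℝ) → ℝ) : ℝ :=
  ∑ᶠ x ∈ X, F (fun i => (x i : ℝ) / q)

open Classical in
theorem sx_eq (X : Set (Fin 5 → ℤ)) (q : ℝ) (hq : 0 < q) (F : (Fin 5 → ℝ) → ℝ) (A : ℝ)
    (hA : ∀ u, F u ≠ 0 → ‖u‖ ≤ A) :
    sx X q F = ∑ x ∈ (nz_fin (ι := Fin 5) (A * q)).toFinset.filter (fun x => x ∈ X),
      F (fun i => (x i : ℝ) / q) := by
  rw [sx, ← finsum_mem_coe_finset]
  apply finsum_mem_inter_support_eq'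
  intro x hx
  have h1 := hA _ hx
  have h2 : nz x ≤ A * q := by
    have hA0 : 0 ≤ A := (norm_nonneg _).trans h1
    rw [nz_le_iff (by positivity)]
    intro i
    have h3 := (norm_le_pi_norm _ i).trans h1
    rw [Real.norm_eq_abs, abs_div, abs_of_pos hq, div_le_iff₀ hq] at h3
    exact h3
  simp only [Finset.coe_filter, Set.Finite.mem_toFinset, Set.mem_ofPred_eq]
  exact ⟨fun h => ⟨h2, h⟩, fun h => h.2⟩

theorem sx_diff (X : Set (Fin 5 → ℤ)) (q : ℝ) (hq : 0 < q) (f g ψ : (Fin 5 → ℝ) → ℝ) (A η : ℝ)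
    (hf : ∀ u, f u ≠ 0 → ‖u‖ ≤ A) (hg : ∀ u, g u ≠ 0 → ‖u‖ ≤ A) (hψ : ∀ u, ψ u ≠ 0 → ‖u‖ ≤ A)
    (h : ∀ u, |f u - g u| ≤ η * ψ u) : |sx X q f - sx X q g| ≤ η * sx X q ψ := by
  classical
  rw [sx_eq X q hq f A hf, sx_eq X q hq g A hg, sx_eq X q hq ψ A hψ, ← Finset.sum_sub_distrib,
    Finset.mul_sum]
  refine (Finset.abs_sum_le_sum_abs _ _).trans ?_
  exact Finset.sum_le_sum (fun z _ => h _)

theorem hcs_of_bdd {E : Type*} [NormedAddCommGroup E] [NormedSpace ℝ E] [FiniteDimensional ℝ E]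
    (F : E → ℝ) (A : ℝ) (hA : ∀ u, F u ≠ 0 → ‖u‖ ≤ A) : HasCompactSupport F := by
  have : ProperSpace E := FiniteDimensional.proper ℝ E
  apply HasCompactSupport.of_support_subset_isCompact (isCompact_closedBall (0 : E) A)
  intro u hu
  rw [mem_closedBall_zero_iff]
  exact hA u hu

theorem equ (Q : ℕ) (hQ : 0 < Q) (ρ : Fin 5 → ℤ) (g : (Fin 5 → ℝ) × ℝ → ℝ) (hc : Continuous g)
    (hs : HasCompactSupport g) (ε : ℝ) (hε : 0 < ε) :
    ∃ q₀ : ℕ, ∀ q : ℕ, q₀ ≤ q → Nat.Coprime q Q → ∀ s : ℝ,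
      |sx (XS Q ρ q) q (fun u => g (u, s)) - (cq q : ℝ) / (Q : ℝ) ^ 5 * ∫ u, g (u, s)| ≤
        ε * (q : ℝ) ^ 3 := by
  classical
  have hQ' : (1 : ℝ) ≤ Q := by exact_mod_cast hQ
  obtain ⟨A, hA0, hA⟩ : ∃ A : ℝ, 0 < A ∧ ∀ v, g v ≠ 0 → ‖v‖ ≤ A := by
    obtain ⟨A, hA⟩ := (hs.isCompact.isBounded).exists_norm_le
    exact ⟨max A 1, by positivity, fun u hu => (hA u (subset_tsupport _ hu)).trans (le_max_left _ _)⟩
  have hA1 : ∀ s u, g (u, s) ≠ 0 → ‖u‖ ≤ A := fun s u h => by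
    have := hA _ h
    rw [Prod.norm_def] at this
    exact (le_max_left _ _).trans this
  have hA2 : ∀ s u, g (u, s) ≠ 0 → |s| ≤ A := fun s u h => by
    have := hA _ h
    rw [Prod.norm_def] at this
    exact (le_max_right _ _).trans this
  have hcont : ∀ s : ℝ, Continuous (fun u => g (u, s)) := fun s => hc.comp (by fun_prop)
  have hcs : ∀ s : ℝ, HasCompactSupport (fun u => g (u, s)) := fun s => hcs_of_bdd _ A (hA1 s)
  set ψ : (Fin 5 → ℝ) → ℝ := fun u => max 0 (A + 1 - ‖u‖) with hψ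
  have hψc : Continuous ψ := by fun_prop
  have hψ0 : ∀ z, 0 ≤ ψ z := fun z => le_max_left _ _
  have hψs : ∀ u, ψ u ≠ 0 → ‖u‖ ≤ A + 1 := by
    intro z hz
    by_contra hcon
    push Not at hcon
    apply hz
    simp only [hψ]
    rw [max_eq_left]
    linarith
  have hψcs : HasCompactSupport ψ := hcs_of_bdd ψ (A + 1) hψs
  have hψ1 : ∀ u : Fin 5 → ℝ, ‖u‖ ≤ A → 1 ≤ ψ u := by
    intro z h3
    simp only [hψ]
    exact le_trans (by linarith) (le_max_right _ _)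
  set I := ∫ z, ψ z with hI
  have hI0 : 0 ≤ I := integral_nonneg hψ0
  set η : ℝ := ε / (3 * (I + 1)) with hη
  have hη0 : 0 < η := by positivity
  have hη1 : η * (I + 1) = ε / 3 := by rw [hη]; field_simp
  have huc := hc.uniformContinuous_of_tendsto_cocompact hs.is_zero_at_infty
  obtain ⟨δ, hδ, hδ2⟩ := Metric.uniformContinuous_iff.1 huc η hη0
  obtain ⟨T, hTK, hTfin, hTcov⟩ := (isCompact_Icc (a := -A) (b := A)).finite_cover_balls hδ
  have hdiff : ∀ s s0 : ℝ, s ∈ Metric.ball s0 δ → ∀ u, |g (u, s) - g (u, s0)| ≤ η * ψ u := by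
    intro s s0 hss u
    by_cases hu : ‖u‖ ≤ A
    · have h1 : dist (u, s) (u, s0) < δ := by
        rw [Prod.dist_eq, dist_self]
        simpa using hss
      have h2 := hδ2 h1
      rw [Real.dist_eq] at h2
      calc _ ≤ η := h2.le
        _ = η * 1 := (mul_one _).symm
        _ ≤ η * ψ u := by gcongr; exact hψ1 u hu
    · have h1 : g (u, s) = 0 := by
        by_contra hne
        exact hu (hA1 s u hne)
      have h2 : g (u, s0) = 0 := by
        by_contra hne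
        exact hu (hA1 s0 u hne)
      rw [h1, h2, sub_zero, abs_zero]
      exact mul_nonneg hη0.le (hψ0 u)
  -- the moduli
  choose! q₁ hq₁ using fun s0 : ℝ => eqd Q hQ ρ (fun u => g (u, s0)) (hcont s0) (hcs s0) (ε / 3) (by positivity)
  obtain ⟨q₂, hq₂⟩ := eqd Q hQ ρ ψ hψc hψcs 1 one_pos
  refine ⟨max (max (hTfin.toFinset.sup q₁) q₂) 1, fun q hq hcop s => ?_⟩
  have hqpos : 0 < q := (le_max_right _ _).trans hq
  have hq0 : (0 : ℝ) < q := by exact_mod_cast hqpos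
  have hqT : hTfin.toFinset.sup q₁ ≤ q := (le_max_left _ _).trans ((le_max_left _ _).trans hq)
  have hqψ : q₂ ≤ q := (le_max_right _ _).trans ((le_max_left _ _).trans hq)
  by_cases hs' : s ∈ Set.Icc (-A) A
  · obtain ⟨s0, hs0, hss⟩ : ∃ s0 ∈ T, s ∈ Metric.ball s0 δ := by
      have := hTcov hs'
      simpa using this
    have a1 := hq₁ s0 q ((Finset.le_sup (f := q₁) (hTfin.mem_toFinset.mpr hs0)).trans hqT) hcop
    have a2 := hq₂ q hqψ hcop
    have e1 : (∑ᶠ x ∈ {x : Fin 5 → ℤ | (∀ i, (Q : ℤ) ∣ x i - ρ i) ∧ red q x ∈ CC q},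
        g ((fun i => (x i : ℝ) / q), s0)) = sx (XS Q ρ q) q (fun u => g (u, s0)) := rfl
    have e2 : (∑ᶠ x ∈ {x : Fin 5 → ℤ | (∀ i, (Q : ℤ) ∣ x i - ρ i) ∧ red q x ∈ CC q},
        ψ (fun i => (x i : ℝ) / q)) = sx (XS Q ρ q) q ψ := rfl
    rw [e1] at a1
    rw [e2] at a2
    have a3 := sx_diff (XS Q ρ q) q hq0 (fun u => g (u, s)) (fun u => g (u, s0)) ψ (A + 1) η
      (fun u hu => (hA1 s u hu).trans (by linarith)) (fun u hu => (hA1 s0 u hu).trans (by linarith))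
      hψs (hdiff s s0 hss)
    have hcq : (cq q : ℝ) ≤ (q : ℝ) ^ 3 := by exact_mod_cast cq1 q hqpos
    have hcq0 : (0 : ℝ) ≤ cq q := Nat.cast_nonneg _
    have hQ5 : (1 : ℝ) ≤ (Q : ℝ) ^ 5 := one_le_pow₀ hQ'
    have hcd : (cq q : ℝ) / (Q : ℝ) ^ 5 ≤ (q : ℝ) ^ 3 := by
      rw [div_le_iff₀ (by positivity)]
      nlinarith [pow_pos hq0 3]
    have hcd0 : (0 : ℝ) ≤ (cq q : ℝ) / (Q : ℝ) ^ 5 := by positivity
    have a4 : sx (XS Q ρ q) q ψ ≤ (I + 1) * (q : ℝ) ^ 3 := by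
      have := (abs_le.mp a2).2
      have h5 : (cq q : ℝ) / (Q : ℝ) ^ 5 * I ≤ (q : ℝ) ^ 3 * I := by gcongr
      linarith
    have a5 : |(∫ u, g (u, s)) - ∫ u, g (u, s0)| ≤ η * I := by
      rw [← integral_sub ((hcont s).integrable_of_hasCompactSupport (hcs s))
        ((hcont s0).integrable_of_hasCompactSupport (hcs s0)), hI, ← integral_const_mul]
      rw [← Real.norm_eq_abs]
      apply norm_integral_le_of_norm_le ((hψc.integrable_of_hasCompactSupport hψcs).const_mul η)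
      apply Filter.Eventually.of_forall
      intro u
      exact hdiff s s0 hss u
    have a6 : |(cq q : ℝ) / (Q : ℝ) ^ 5 * (∫ u, g (u, s)) - (cq q : ℝ) / (Q : ℝ) ^ 5 * ∫ u, g (u, s0)| ≤
        ε / 3 * (q : ℝ) ^ 3 := by
      rw [← mul_sub, abs_mul, abs_of_nonneg hcd0, ← hη1]
      calc _ ≤ (q : ℝ) ^ 3 * (η * I) := by gcongr
        _ ≤ η * (I + 1) * (q : ℝ) ^ 3 := by nlinarith [pow_pos hq0 3]
    have a7 : η * sx (XS Q ρ q) q ψ ≤ ε / 3 * (q : ℝ) ^ 3 := by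
      calc _ ≤ η * ((I + 1) * (q : ℝ) ^ 3) := by gcongr
        _ = η * (I + 1) * (q : ℝ) ^ 3 := by ring
        _ = _ := by rw [hη1]
    have a8 := a3.trans a7
    rw [abs_le] at a1 a6 a8 ⊢
    constructor <;> linarith [a1.1, a1.2, a6.1, a6.2, a8.1, a8.2]
  · have h1 : (fun u => g (u, s)) = fun _ => 0 := by
      funext u
      by_contra hne
      apply hs'
      rw [Set.mem_Icc, ← abs_le]
      exact hA2 s u hne
    rw [h1]
    simp only [sx, finsum_mem_zero, integral_zero, mul_zero, sub_zero, abs_zero]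
    positivity

end Pool.Agent.KS6_30.V5
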