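import Pool.Agent.KS6_30.V5.BLa

/-!
# The bad pairs
-/

set_option autoImplicit false

namespace Pool.Agent.KS6_30.V5

open Filter Topology MeasureTheory Pool.Agent.KS6_53.V5 Finset

/-- the content -/
theorem exists_content (x : Fin 5 → ℤ) (hx : x ≠ 0) :
    ∃ (e : ℕ) (x' : Fin 5 → ℤ), 0 < e ∧ Unimod x' ∧ x = (e : ℤ) • x' := by
  set e := Finset.univ.gcd (fun i => (x i).natAbs) with he
  have hdvd : ∀ i, (e : ℤ) ∣ x i := by
    intro i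
    have : e ∣ (x i).natAbs := Finset.gcd_dvd (Finset.mem_univ i)
    exact Int.natCast_dvd.mpr this
  have he0 : e ≠ 0 := by
    intro h0
    apply hx
    funext i
    have := hdvd i
    rw [h0] at this
    simpa using this
  choose x' hx' using hdvd
  refine ⟨e, x', Nat.pos_of_ne_zero he0, ?_, funext fun i => by rw [hx' i]; simp⟩
  rw [unimod_int_iff]
  intro p hp
  by_contra hcon
  push Not at hcon
  have h1 : e * p ∣ e := by
    conv_rhs => rw [he]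
    apply Finset.dvd_gcd
    intro i _
    rw [← Int.natCast_dvd]
    rw [hx' i]
    push_cast
    exact mul_dvd_mul_left _ (hcon i)
  have h2 := Nat.le_of_dvd (Nat.pos_of_ne_zero he0) h1
  have h3 := hp.two_le
  have h4 : 0 < e := Nat.pos_of_ne_zero he0
  nlinarith

/-- the weight of the tails -/
noncomputable def wt (n : ℕ) : ℝ := (n : ℝ) ^ (-(7 / 6) : ℝ)

theorem wt_nonneg (n : ℕ) : 0 ≤ wt n := Real.rpow_nonneg (Nat.cast_nonneg n) _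

theorem summable_wt : Summable wt := by
  have := Real.summable_nat_rpow.mpr (by norm_num : (-(7 / 6) : ℝ) < -1)
  exact this

theorem exists_tail (ε : ℝ) (hε : 0 < ε) : ∃ Z : ℕ, ∀ s : Finset ℕ, (∀ n ∈ s, Z < n) → ∑ n ∈ s, wt n ≤ ε := by
  classical
  have h := summable_wt
  rw [summable_iff_vanishing_norm] at h
  obtain ⟨s0, hs0⟩ := h ε hε
  refine ⟨s0.sup id, fun s hs => ?_⟩
  have h1 := hs0 s (by
    rw [Finset.disjoint_left]
    intro n hn hn0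
    have h2 := Finset.le_sup (f := id) hn0
    simp only [id] at h2
    have h3 := hs n hn
    omega)
  rw [Real.norm_eq_abs] at h1
  exact (le_abs_self _).trans h1.le

theorem pow_le_wt (n k : ℕ) (hn : 0 < n) (hk : 2 ≤ k) : ((n : ℝ) ^ k)⁻¹ ≤ wt n := by
  have hn1 : (1 : ℝ) ≤ n := by exact_mod_cast hn
  rw [wt, Real.rpow_neg (by linarith)]
  apply inv_anti₀ (by positivity)
  rw [← Real.rpow_natCast]
  apply Real.rpow_le_rpow_of_exponent_le hn1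
  have : (2 : ℝ) ≤ (k : ℝ) := by exact_mod_cast hk
  linarith

/-- pairs for which `g * n` divides the content of `mm x` -/
def T1 (δ A T : ℝ) (n : ℕ) : Set (ℕ × (Fin 5 → ℤ)) :=
  {z ∈ EE δ A T | Unimod z.2 ∧ z.1 * n ∣ gg z.2}

/-- pairs for which the content of `x` is `n` -/
def T2 (δ A T : ℝ) (n : ℕ) : Set (ℕ × (Fin 5 → ℤ)) :=
  {z ∈ EE δ A T | ∃ x', Unimod x' ∧ z.2 = (n : ℤ) • x'}

theorem EE_finite (δ A T : ℝ) (hδ : 0 < δ) (hA : 0 < A) (hT : 0 < T) : (EE δ A T).Finite := by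
  have h := (EE_count δ A T hδ hA hT 1 one_pos).1
  simpa using h

theorem T1_count (δ A : ℝ) (hδ : 0 < δ) (hA : 0 < A) : ∃ C : ℝ, 0 < C ∧ ∀ T : ℝ, 0 < T → ∀ n : ℕ, 0 < n →
    ((T1 δ A T n).ncard : ℝ) ≤ C * T ^ 2 * wt n := by
  obtain ⟨C, hC, h⟩ := tl
  refine ⟨C * (A ^ 10 / δ + A ^ 12 / δ ^ 2), by positivity, fun T hT n hn => ?_⟩
  have hs : 0 < √T := Real.sqrt_pos.mpr hT
  have hs2 : √T ^ 2 = T := Real.sq_sqrt hT.le
  have hn0 : (0 : ℝ) < n := by exact_mod_cast hn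
  obtain ⟨hfin, hcard⟩ := h (A ^ 2 * √T) (δ * √T) n (by positivity) (by positivity) hn
  have hsub : T1 δ A T n ⊆ {z : ℕ × (Fin 5 → ℤ) | δ * √T ≤ z.1 ∧ Unimod z.2 ∧ mm z.2 ≠ 0 ∧
      nz z.2 ≤ A ^ 2 * √T ∧ z.1 * n ∣ gg z.2} := by
    rintro z ⟨⟨h1, h2, h3, h4, h5, h6⟩, h7, h8⟩
    exact ⟨h2, h7, h5, h4, h8⟩
  have h1 : ((T1 δ A T n).ncard : ℝ) ≤ _ := (by exact_mod_cast Set.ncard_le_ncard hsub hfin : _ ≤ _).trans hcard
  refine h1.trans ?_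
  have e1 : (A ^ 2 * √T) ^ 5 / (δ * √T * (n : ℝ) ^ (7 / 6 : ℝ)) = A ^ 10 / δ * T ^ 2 * wt n := by
    rw [wt, Real.rpow_neg hn0.le]
    have : (n : ℝ) ^ (7 / 6 : ℝ) ≠ 0 := (Real.rpow_pos_of_pos hn0 _).ne'
    have h2 : (A ^ 2 * √T) ^ 5 = A ^ 10 * (√T ^ 2) ^ 2 * √T := by ring
    rw [h2, hs2]
    field_simp
  have e2 : (A ^ 2 * √T) ^ 6 / ((δ * √T) ^ 2 * (n : ℝ) ^ 2) = A ^ 12 / δ ^ 2 * T ^ 2 * ((n : ℝ) ^ 2)⁻¹ := by
    have h2 : (A ^ 2 * √T) ^ 6 = A ^ 12 * (√T ^ 2) ^ 3 := by ring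
    have h3 : (δ * √T) ^ 2 = δ ^ 2 * √T ^ 2 := by ring
    rw [h2, h3, hs2]
    field_simp
  rw [e1, e2]
  have h3 := pow_le_wt n 2 hn le_rfl
  calc C * (A ^ 10 / δ * T ^ 2 * wt n + A ^ 12 / δ ^ 2 * T ^ 2 * ((n : ℝ) ^ 2)⁻¹)
      ≤ C * (A ^ 10 / δ * T ^ 2 * wt n + A ^ 12 / δ ^ 2 * T ^ 2 * wt n) := by gcongr
    _ = _ := by ring

theorem T2_count (δ A : ℝ) (hδ : 0 < δ) (hA : 0 < A) : ∃ C : ℝ, 0 < C ∧ ∀ T : ℝ, 0 < T → ∀ n : ℕ, 0 < n →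
    ((T2 δ A T n).ncard : ℝ) ≤ C * T ^ 2 * wt n := by
  obtain ⟨C, hC, h⟩ := tl
  refine ⟨C * (A ^ 10 / δ + A ^ 12 / δ ^ 2), by positivity, fun T hT n hn => ?_⟩
  have hs : 0 < √T := Real.sqrt_pos.mpr hT
  have hs2 : √T ^ 2 = T := Real.sq_sqrt hT.le
  have hn0 : (0 : ℝ) < n := by exact_mod_cast hn
  have hn1 : (1 : ℝ) ≤ n := by exact_mod_cast hn
  obtain ⟨hfin, hcard⟩ := h (A ^ 2 * √T / n) (δ * √T) 1 (by positivity) (by positivity) le_rfl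
  have hsub : T2 δ A T n ⊆ (fun z : ℕ × (Fin 5 → ℤ) => (z.1, (n : ℤ) • z.2)) ''
      {z : ℕ × (Fin 5 → ℤ) | δ * √T ≤ z.1 ∧ Unimod z.2 ∧ mm z.2 ≠ 0 ∧
      nz z.2 ≤ A ^ 2 * √T / n ∧ z.1 * 1 ∣ gg z.2} := by
    rintro ⟨g, x⟩ ⟨⟨h1, h2, h3, h4, h5, h6⟩, x', h7, h8⟩
    simp only at h1 h2 h3 h4 h5 h6 h8
    refine ⟨(g, x'), ⟨h2, h7, ?_, ?_, ?_⟩, by rw [h8]⟩
    · intro h0
      apply h5
      rw [h8, mm_smul, h0, smul_zero]
    · rw [h8, nz_smul] at h4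
      simp only
      rw [le_div_iff₀ hn0]
      simp only [Int.cast_natCast, abs_of_pos hn0] at h4
      linarith
    · rw [mul_one]
      simp only
      apply dvd_gg
      intro p
      -- `g` divides `n^3 * mm x'` and is coprime to `n`
      have hcop : IsCoprime (g : ℤ) (n : ℤ) := by
        rw [Nat.isCoprime_iff_coprime, Nat.coprime_iff_gcd_eq_one]
        by_contra hne
        obtain ⟨p, hp, hpd⟩ := Nat.exists_prime_and_dvd hne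
        have hu := h6.1
        rw [red_unimod_iff] at hu
        obtain ⟨i, hi⟩ := hu p hp (hpd.trans (Nat.gcd_dvd_left _ _))
        apply hi
        rw [h8]
        simp only [Pi.smul_apply, smul_eq_mul]
        exact Dvd.dvd.mul_right (Int.natCast_dvd_natCast.mpr (hpd.trans (Nat.gcd_dvd_right _ _))) _
      have hmm : (g : ℤ) ∣ mm x p := by
        have h9 := congrFun h6.2 p
        have h10 : mm (red g x) = red g (mm x) := by
          have h : hes (red g x) = red g (hes x) := by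
            funext i
            fin_cases i <;> simp [red, hes]
          rw [mm, h, mm]
          funext p
          simp [wedge, red]
        rw [h10] at h9
        simp only [red, Pi.zero_apply] at h9
        exact (ZMod.intCast_zmod_eq_zero_iff_dvd _ _).mp h9
      rw [h8, mm_smul, Pi.smul_apply, smul_eq_mul] at hmm
      exact (IsCoprime.pow_right hcop (n := 3)).dvd_of_dvd_mul_left hmm
  have h1 : ((T2 δ A T n).ncard : ℝ) ≤ _ :=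
    (by exact_mod_cast (Set.ncard_le_ncard hsub (hfin.image _)).trans (Set.ncard_image_le hfin) : _ ≤ _).trans hcard
  refine h1.trans ?_
  have e1 : (A ^ 2 * √T / n) ^ 5 / (δ * √T * ((1 : ℕ) : ℝ) ^ (7 / 6 : ℝ)) = A ^ 10 / δ * T ^ 2 * ((n : ℝ) ^ 5)⁻¹ := by
    rw [Nat.cast_one, Real.one_rpow]
    have h2 : (A ^ 2 * √T / n) ^ 5 = A ^ 10 * (√T ^ 2) ^ 2 * √T / (n : ℝ) ^ 5 := by ring
    rw [h2, hs2]
    field_simp
  have e2 : (A ^ 2 * √T / n) ^ 6 / ((δ * √T) ^ 2 * ((1 : ℕ) : ℝ) ^ 2) = A ^ 12 / δ ^ 2 * T ^ 2 * ((n : ℝ) ^ 6)⁻¹ := by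
    have h2 : (A ^ 2 * √T / n) ^ 6 = A ^ 12 * (√T ^ 2) ^ 3 / (n : ℝ) ^ 6 := by ring
    have h3 : (δ * √T) ^ 2 = δ ^ 2 * √T ^ 2 := by ring
    rw [h2, h3, hs2]
    push_cast
    field_simp
  rw [e1, e2]
  have h3 := pow_le_wt n 5 hn (by norm_num)
  have h4 := pow_le_wt n 6 hn (by norm_num)
  calc C * (A ^ 10 / δ * T ^ 2 * ((n : ℝ) ^ 5)⁻¹ + A ^ 12 / δ ^ 2 * T ^ 2 * ((n : ℝ) ^ 6)⁻¹)
      ≤ C * (A ^ 10 / δ * T ^ 2 * wt n + A ^ 12 / δ ^ 2 * T ^ 2 * wt n) := by gcongr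
    _ = _ := by ring

/-- the pairs which are bad at some `n > Z` -/
def BB (δ A T : ℝ) (Z : ℕ) : Set (ℕ × (Fin 5 → ℤ)) := {z | ∃ n, Z < n ∧ (z ∈ T1 δ A T n ∨ z ∈ T2 δ A T n)}

theorem BB_count (δ A : ℝ) (hδ : 0 < δ) (hA : 0 < A) (ε : ℝ) (hε : 0 < ε) :
    ∃ Z₀ : ℕ, ∀ Z : ℕ, Z₀ ≤ Z → ∀ T : ℝ, 0 < T → ((BB δ A T Z).ncard : ℝ) ≤ ε * T ^ 2 := by
  classical
  obtain ⟨C1, hC1, h1⟩ := T1_count δ A hδ hA
  obtain ⟨C2, hC2, h2⟩ := T2_count δ A hδ hA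
  obtain ⟨Z₀, hZ⟩ := exists_tail (ε / (C1 + C2)) (by positivity)
  refine ⟨Z₀, fun Z hZZ T hT => ?_⟩
  have hE := EE_finite δ A T hδ hA hT
  -- bound for n
  have hBfin : (BB δ A T Z).Finite := hE.subset (by
    rintro z ⟨n, -, h | h⟩ <;> exact h.1)
  have hn : ∀ z ∈ BB δ A T Z, ∃ n, Z < n ∧ (z ∈ T1 δ A T n ∨ z ∈ T2 δ A T n) := fun z hz => hz
  choose! f hf1 hf2 using hn
  set s : Finset ℕ := hBfin.toFinset.image f with hs
  have hsZ : ∀ n ∈ s, Z₀ < n := by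
    intro n hn
    obtain ⟨z, hz, rfl⟩ := Finset.mem_image.mp hn
    exact lt_of_le_of_lt hZZ (hf1 z (hBfin.mem_toFinset.mp hz))
  have hsub : BB δ A T Z ⊆ ⋃ n ∈ s, (T1 δ A T n ∪ T2 δ A T n) := by
    intro z hz
    rw [Set.mem_iUnion₂]
    exact ⟨f z, Finset.mem_image.mpr ⟨z, hBfin.mem_toFinset.mpr hz, rfl⟩, hf2 z hz⟩
  have hfin1 : ∀ n, (T1 δ A T n).Finite := fun n => hE.subset fun z hz => hz.1
  have hfin2 : ∀ n, (T2 δ A T n).Finite := fun n => hE.subset fun z hz => hz.1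
  have hfin : (⋃ n ∈ s, (T1 δ A T n ∪ T2 δ A T n)).Finite :=
    Set.Finite.biUnion s.finite_toSet fun n _ => (hfin1 n).union (hfin2 n)
  have hc := (Set.ncard_le_ncard hsub hfin).trans (Finset.set_ncard_biUnion_le s _)
  calc ((BB δ A T Z).ncard : ℝ) ≤ ∑ n ∈ s, ((T1 δ A T n ∪ T2 δ A T n).ncard : ℝ) := by exact_mod_cast hc
    _ ≤ ∑ n ∈ s, (C1 + C2) * T ^ 2 * wt n := by
        apply Finset.sum_le_sum
        intro n hn
        have hn0 : 0 < n := lt_of_le_of_lt (Nat.zero_le _) (hsZ n hn)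
        have h3 : ((T1 δ A T n ∪ T2 δ A T n).ncard : ℝ) ≤ (T1 δ A T n).ncard + (T2 δ A T n).ncard := by
          exact_mod_cast Set.ncard_union_le _ _
        have := h1 T hT n hn0
        have := h2 T hT n hn0
        linarith
    _ = (C1 + C2) * T ^ 2 * ∑ n ∈ s, wt n := by rw [Finset.mul_sum]
    _ ≤ (C1 + C2) * T ^ 2 * (ε / (C1 + C2)) := by
        gcongr
        exact hZ s hsZ
    _ = ε * T ^ 2 := by field_simp

end Pool.Agent.KS6_30.V5
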