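import Pool.Agent.KS6_30.V5.BLb

/-!
# The limit for one class
-/

set_option autoImplicit false

namespace Pool.Agent.KS6_30.V5

open Filter Topology MeasureTheory Pool.Agent.KS6_53.V5 Finset

theorem sum_cube_le (Z : ℕ) (hZ : 0 < Z) (s : Finset ℕ) (hs : ∀ n ∈ s, Z < n) :
    ∑ n ∈ s, (1 : ℝ) / (n : ℝ) ^ 3 ≤ (1 : ℝ) / (Z : ℝ) := by
  classical
  have h1 : ∀ N : ℕ, Z ≤ N → ∑ n ∈ Finset.Ioc Z N, (1 : ℝ) / (n : ℝ) ^ 3 ≤ (1 : ℝ) / (Z : ℝ) - (1 : ℝ) / (N : ℝ) := by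
    intro N hN
    induction N, hN using Nat.le_induction with
    | base => simp
    | succ N hN ih =>
      rw [Finset.sum_Ioc_succ_top (by omega)]
      have hN0 : (0 : ℝ) < N := by exact_mod_cast lt_of_lt_of_le hZ hN
      have h2 : 1 / (((N + 1 : ℕ)) : ℝ) ^ 3 ≤ 1 / (N : ℝ) - 1 / ((N + 1 : ℕ) : ℝ) := by
        push_cast
        rw [div_sub_div _ _ (by positivity) (by positivity), div_le_div_iff₀ (by positivity) (by positivity)]
        nlinarith [pow_pos hN0 2, pow_pos hN0 3]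
      linarith
  have h2 : s ⊆ Finset.Ioc Z (s.sup id + Z) := by
    intro n hn
    rw [Finset.mem_Ioc]
    have := Finset.le_sup (f := id) hn
    simp only [id] at this
    exact ⟨hs n hn, by omega⟩
  calc ∑ n ∈ s, 1 / (n : ℝ) ^ 3 ≤ ∑ n ∈ Finset.Ioc Z (s.sup id + Z), 1 / (n : ℝ) ^ 3 :=
        Finset.sum_le_sum_of_subset_of_nonneg h2 (fun _ _ _ => by positivity)
    _ ≤ 1 / (Z : ℝ) - 1 / ((s.sup id + Z : ℕ) : ℝ) := h1 _ (by omega)
    _ ≤ 1 / Z := by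
        have : (0 : ℝ) ≤ 1 / ((s.sup id + Z : ℕ) : ℝ) := by positivity
        linarith

theorem cq_close (Z Q n : ℕ) (hZ : 0 < Z) (hQ : ∀ p : ℕ, p.Prime → p ≤ Z → p ∣ Q) (hn : 0 < n)
    (hcop : Nat.Coprime n Q) : |(cq n : ℝ) - (n : ℝ) ^ 3| ≤ 1 / Z * (n : ℝ) ^ 3 := by
  have h1 : (cq n : ℝ) ≤ (n : ℝ) ^ 3 := by exact_mod_cast cq1 n hn
  have h2 := cq2 n hn
  have h3 := sum_cube_le Z hZ n.primeFactors (by
    intro p hp
    by_contra hcon
    push Not at hcon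
    have hpp := Nat.prime_of_mem_primeFactors hp
    have h4 := hQ p hpp hcon
    have h5 := Nat.dvd_of_mem_primeFactors hp
    have h6 := Nat.dvd_gcd h5 h4
    rw [hcop] at h6
    exact hpp.one_lt.ne' (Nat.dvd_one.mp h6))
  have h4 : (0 : ℝ) ≤ (n : ℝ) ^ 3 := by positivity
  rw [abs_le]
  constructor
  · nlinarith
  · have : (0 : ℝ) ≤ 1 / Z * (n : ℝ) ^ 3 := by positivity
    linarith

/-- functions of a real vector and of a real number `s` with compact support, `s ≥ δ` on it -/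
structure Tf (δ A : ℝ) (g : (Fin 5 → ℝ) × ℝ → ℝ) : Prop where
  cts : Continuous g
  supp : ∀ u s, g (u, s) ≠ 0 → ‖u‖ ≤ A ∧ δ ≤ s ∧ s ≤ A

variable {δ A : ℝ} {g : (Fin 5 → ℝ) × ℝ → ℝ}

theorem Tf.hcs (hg : Tf δ A g) (hδ : 0 < δ) : HasCompactSupport g := by
  apply hcs_of_bdd g A
  rintro ⟨u, s⟩ h
  obtain ⟨h1, h2, h3⟩ := hg.supp u s h
  rw [Prod.norm_def]
  apply max_le h1
  rw [Real.norm_eq_abs, abs_of_pos (by linarith)]
  exact h3

theorem Tf.abs (hg : Tf δ A g) : Tf δ A (fun z => |g z|) :=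
  ⟨hg.cts.abs, fun u s h => hg.supp u s (by simpa using h)⟩

/-- the partial integral -/
noncomputable def hh (g : (Fin 5 → ℝ) × ℝ → ℝ) (s : ℝ) : ℝ := ∫ u, g (u, s)

theorem Tf.continuous_hh (hg : Tf δ A g) : Continuous (hh g) := by
  have h1 : hh g = fun s => ∫ u in Metric.closedBall (0 : Fin 5 → ℝ) A, g (u, s) := by
    funext s
    rw [hh, setIntegral_eq_integral_of_forall_compl_eq_zero]
    intro u hu
    by_contra hne
    apply hu
    rw [mem_closedBall_zero_iff]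
    exact (hg.supp u s hne).1
  rw [h1]
  have h2 : Continuous (Function.uncurry fun (s : ℝ) (u : Fin 5 → ℝ) => g (u, s)) :=
    hg.cts.comp (continuous_snd.prodMk continuous_fst)
  exact continuous_parametric_integral_of_continuous h2 (isCompact_closedBall _ _)

theorem Tf.hh_ne (hg : Tf δ A g) (s : ℝ) (h : hh g s ≠ 0) : δ ≤ s ∧ s ≤ A := by
  by_contra hcon
  apply h
  rw [hh]
  have : (fun u => g (u, s)) = fun _ => 0 := by
    funext u
    by_contra hne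
    exact hcon (hg.supp u s hne).2
  rw [this, integral_zero]

/-- the moment -/
noncomputable def mom (g : (Fin 5 → ℝ) × ℝ → ℝ) : ℝ := ∫ s : ℝ, s ^ 3 * hh g s

/-- the sum for a class -/
noncomputable def clsSum (Q : ℕ) (ρ : Fin 5 → ℤ) (g1 : ℕ) (g : (Fin 5 → ℝ) × ℝ → ℝ) (T : ℝ) : ℝ :=
  ∑ᶠ n ∈ {n : ℕ | 0 < n ∧ Nat.Coprime n Q}, sx (XS Q ρ n) (g1 * n) (fun u => g (u, (g1 * n : ℝ) / √T))

/-- the expected limit -/
noncomputable def lam (Q g1 : ℕ) (g : (Fin 5 → ℝ) × ℝ → ℝ) : ℝ :=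
  (g1 : ℝ) / (Q : ℝ) ^ 5 * ((Q.totient : ℝ) / Q) * mom g

open Classical in
theorem riem_cube (hg : Tf δ A g) (hδ : 0 < δ) (Q : ℕ) (hQ : 0 < Q) (g1 : ℕ) (hg1 : 0 < g1) :
    Tendsto (fun T : ℝ => (∑ n ∈ (Finset.Icc 1 ⌊A * √T⌋₊).filter (fun n => Nat.Coprime n Q),
      (n : ℝ) ^ 3 * ((g1 : ℝ) ^ 5 / (Q : ℝ) ^ 5 * hh g ((g1 * n : ℝ) / √T))) / T ^ 2) atTop
      (𝓝 (lam Q g1 g)) := by
  have hg1' : (0 : ℝ) < g1 := by exact_mod_cast hg1
  have hg1'' : (1 : ℝ) ≤ g1 := by exact_mod_cast hg1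
  set H : ℝ → ℝ := fun s => s ^ 3 * hh g s with hH
  have hHc : Continuous H := (continuous_id.pow 3).mul hg.continuous_hh
  have hHs : ∀ s, H s ≠ 0 → δ ≤ s ∧ s ≤ A := fun s h => hg.hh_ne s (right_ne_zero_of_mul h)
  have hHcs : HasCompactSupport H := by
    apply HasCompactSupport.of_support_subset_isCompact (isCompact_Icc (a := δ) (b := A))
    intro s h
    exact hHs s h
  have h1 := cop_riemann Q hQ H hHc hHcs
  have h2 : Tendsto (fun T : ℝ => √T / g1) atTop atTop :=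
    Real.tendsto_sqrt_atTop.atTop_div_const hg1'
  have h3 := ((h1.comp h2).const_mul ((g1 : ℝ) / (Q : ℝ) ^ 5))
  have e0 : (g1 : ℝ) / (Q : ℝ) ^ 5 * ((Q.totient : ℝ) / Q * ∫ u, H u) = lam Q g1 g := by
    rw [lam, mom]; ring
  rw [e0] at h3
  refine h3.congr' ?_
  filter_upwards [eventually_gt_atTop 0] with T hT
  have hs : 0 < √T := Real.sqrt_pos.mpr hT
  have hs2 : √T ^ 2 = T := Real.sq_sqrt hT.le
  have hY : 0 < √T / g1 := by positivity
  rw [Function.comp_apply]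
  have e1 : ∑ᶠ n ∈ {n : ℤ | IsCoprime n (Q : ℤ)}, H ((n : ℝ) / (√T / g1)) =
      ∑ n ∈ (Finset.Icc 1 ⌊A * √T⌋₊).filter (fun n => Nat.Coprime n Q), H ((n : ℝ) / (√T / g1)) := by
    have h4 : ∑ n ∈ (Finset.Icc 1 ⌊A * √T⌋₊).filter (fun n => Nat.Coprime n Q), H ((n : ℝ) / (√T / g1)) =
        ∑ n ∈ ((Finset.Icc 1 ⌊A * √T⌋₊).filter (fun n => Nat.Coprime n Q)).map
          (Nat.castEmbedding (R := ℤ)), H ((n : ℝ) / (√T / g1)) := by
      rw [Finset.sum_map]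
      simp
    rw [h4, ← finsum_mem_coe_finset]
    apply finsum_mem_inter_support_eq'
    intro n hn
    obtain ⟨h5, h6⟩ := hHs _ hn
    have hn0 : (0 : ℝ) < n := by
      by_contra hcon
      push Not at hcon
      have : (n : ℝ) / (√T / g1) ≤ 0 := div_nonpos_of_nonpos_of_nonneg hcon hY.le
      linarith
    have hn1 : 0 < n := by exact_mod_cast hn0
    have hA0' := hδ.trans_le (h5.trans h6)
    have hn2 : (n : ℝ) ≤ A * √T := by
      rw [div_le_iff₀ hY] at h6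
      refine h6.trans ?_
      have hA0 : 0 < A := by linarith
      have : √T / g1 ≤ √T := div_le_self hs.le hg1''
      gcongr
    simp only [Set.mem_ofPred_eq, Finset.coe_map, Finset.coe_filter, Set.mem_image,
      Finset.mem_Icc, Nat.castEmbedding_apply]
    constructor
    · intro h7
      refine ⟨n.toNat, ⟨⟨by omega, ?_⟩, ?_⟩, by simp [hn1.le]⟩
      · apply Nat.le_floor
        have : ((n.toNat : ℕ) : ℝ) = (n : ℝ) := by
          have : ((n.toNat : ℕ) : ℤ) = n := Int.toNat_of_nonneg hn1.le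
          exact_mod_cast congrArg (fun z : ℤ => (z : ℝ)) this
        rw [this]; exact hn2
      · rw [← Nat.isCoprime_iff_coprime, Int.toNat_of_nonneg hn1.le]
        exact h7
    · rintro ⟨m, ⟨_, h8⟩, rfl⟩
      exact Nat.isCoprime_iff_coprime.mpr h8
  have e1' : ∑ᶠ (n : ℤ) (_ : IsCoprime n (Q : ℤ)), H ((n : ℝ) / (√T / g1)) =
      ∑ n ∈ (Finset.Icc 1 ⌊A * √T⌋₊).filter (fun n => Nat.Coprime n Q), H ((n : ℝ) / (√T / g1)) := e1
  rw [e1', Finset.sum_div, Finset.mul_sum, Finset.sum_div]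
  apply Finset.sum_congr rfl
  intro n _
  have e2 : (n : ℝ) / (√T / g1) = (g1 * n : ℝ) / √T := by field_simp
  rw [e2]
  simp only [hH]
  have hT2 : T ^ 2 = √T ^ 4 := by
    calc T ^ 2 = (√T ^ 2) ^ 2 := by rw [hs2]
      _ = √T ^ 4 := by ring
  rw [hT2]
  field_simp

end Pool.Agent.KS6_30.V5
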