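import Pool.Agent.KS6_30.V5.BLc

/-!
# The limit for one class (2)
-/

set_option autoImplicit false

namespace Pool.Agent.KS6_30.V5

open Filter Topology MeasureTheory Pool.Agent.KS6_53.V5 Finset

variable {δ A : ℝ} {g : (Fin 5 → ℝ) × ℝ → ℝ}

/-- the numbers `n` in the sums -/
noncomputable def Nn (A : ℝ) (Q : ℕ) (T : ℝ) : Finset ℕ :=
  (Finset.Icc 1 ⌊A * √T⌋₊).filter (fun n => Nat.Coprime n Q)

theorem mem_Nn (A : ℝ) (Q : ℕ) (T : ℝ) (hA : 0 < A) (n : ℕ) :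
    n ∈ Nn A Q T ↔ 0 < n ∧ (n : ℝ) ≤ A * √T ∧ Nat.Coprime n Q := by
  rw [Nn, Finset.mem_filter, Finset.mem_Icc, Nat.le_floor_iff (by positivity)]
  constructor
  · rintro ⟨⟨h1, h2⟩, h3⟩
    exact ⟨h1, h2, h3⟩
  · rintro ⟨h1, h2, h3⟩
    exact ⟨⟨h1, h2⟩, h3⟩

theorem card_Nn (A : ℝ) (Q : ℕ) (T : ℝ) (hA : 0 < A) : ((Nn A Q T).card : ℝ) ≤ A * √T := by
  have h1 : (Nn A Q T).card ≤ ⌊A * √T⌋₊ := by
    refine (Finset.card_filter_le _ _).trans ?_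
    simp
  calc ((Nn A Q T).card : ℝ) ≤ (⌊A * √T⌋₊ : ℝ) := by exact_mod_cast h1
    _ ≤ A * √T := Nat.floor_le (by positivity)

theorem sum_cube_Nn (A : ℝ) (Q : ℕ) (T : ℝ) (hA : 0 < A) (hT : 0 < T) :
    ∑ n ∈ Nn A Q T, (n : ℝ) ^ 3 ≤ A ^ 4 * T ^ 2 := by
  have hs2 : √T ^ 2 = T := Real.sq_sqrt hT.le
  calc ∑ n ∈ Nn A Q T, (n : ℝ) ^ 3 ≤ ∑ n ∈ Nn A Q T, (A * √T) ^ 3 := by
        apply Finset.sum_le_sum
        intro n hn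
        have := ((mem_Nn A Q T hA n).mp hn).2.1
        gcongr
    _ = ((Nn A Q T).card : ℝ) * (A * √T) ^ 3 := by rw [Finset.sum_const, nsmul_eq_mul]
    _ ≤ (A * √T) * (A * √T) ^ 3 := by gcongr; exact card_Nn A Q T hA
    _ = A ^ 4 * (√T ^ 2) ^ 2 := by ring
    _ = _ := by rw [hs2]

/-- the sum with parameters: modulus `m * n`, scaling `w`, second variable `t * n / √T` -/
noncomputable def gs (A : ℝ) (Q : ℕ) (ρ : Fin 5 → ℤ) (m t : ℕ) (w : ℝ)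
    (g : (Fin 5 → ℝ) × ℝ → ℝ) (T : ℝ) : ℝ :=
  ∑ n ∈ Nn A Q T, sx (XS Q ρ (m * n)) ((m * n : ℕ) * w) (fun u => g (u, (t * n : ℝ) / √T))

theorem gs_close (hg : Tf δ A g) (hδ : 0 < δ) (hA : 0 < A) (Q : ℕ) (hQ : 0 < Q) (ρ : Fin 5 → ℤ)
    (m t : ℕ) (hm : 0 < m) (hmQ : Nat.Coprime m Q) (ht : 0 < t) (w : ℝ) (hw : 0 < w) (ε : ℝ)
    (hε : 0 < ε) :
    ∀ᶠ T : ℝ in atTop, |gs A Q ρ m t w g T -
      ∑ n ∈ Nn A Q T, (cq (m * n) : ℝ) * (w ^ 5 / (Q : ℝ) ^ 5 * hh g ((t * n : ℝ) / √T))| ≤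
        ε * T ^ 2 := by
  have hm' : (0 : ℝ) < m := by exact_mod_cast hm
  have ht' : (0 : ℝ) < t := by exact_mod_cast ht
  set 𝒢 : (Fin 5 → ℝ) × ℝ → ℝ := fun z => g (w⁻¹ • z.1, z.2) with h𝒢
  have hc : Continuous 𝒢 := hg.cts.comp (by fun_prop)
  have hs : HasCompactSupport 𝒢 := by
    apply hcs_of_bdd 𝒢 (max (w * A) A)
    rintro ⟨u, s⟩ h
    obtain ⟨h1, h2, h3⟩ := hg.supp _ _ h
    rw [Prod.norm_def]
    apply max_le_max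
    · simp only at h1 ⊢
      rw [norm_smul, Real.norm_eq_abs, abs_of_pos (inv_pos.mpr hw)] at h1
      rwa [inv_mul_le_iff₀ hw] at h1
    · simp only at h2 h3 ⊢
      rw [Real.norm_eq_abs, abs_of_pos (by linarith)]
      exact h3
  have hint : ∀ s, ∫ u, 𝒢 (u, s) = w ^ 5 * hh g s := by
    intro s
    have h1 := MeasureTheory.Measure.integral_comp_smul (volume : Measure (Fin 5 → ℝ))
      (fun u => g (u, s)) w⁻¹
    have h2 : Module.finrank ℝ (Fin 5 → ℝ) = 5 := by simp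
    rw [h2] at h1
    simp only [h𝒢, hh]
    rw [h1, abs_of_pos (by positivity), smul_eq_mul]
    congr 1
    rw [inv_pow, inv_inv]
  obtain ⟨q₀, hq₀⟩ := equ Q hQ ρ 𝒢 hc hs (ε / (m ^ 3 * A ^ 4)) (by positivity)
  have hT1 : ∀ᶠ T : ℝ in atTop, (q₀ : ℝ) ≤ δ * √T / t := by
    have h1 : Tendsto (fun T : ℝ => δ * √T / t) atTop atTop :=
      (Real.tendsto_sqrt_atTop.const_mul_atTop hδ).atTop_div_const ht'
    exact h1.eventually_ge_atTop _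
  filter_upwards [hT1, eventually_gt_atTop 0] with T hT1 hT
  have hsT : 0 < √T := Real.sqrt_pos.mpr hT
  rw [gs, ← Finset.sum_sub_distrib]
  refine (Finset.abs_sum_le_sum_abs _ _).trans ?_
  have hterm : ∀ n ∈ Nn A Q T, |sx (XS Q ρ (m * n)) ((m * n : ℕ) * w)
      (fun u => g (u, (t * n : ℝ) / √T)) -
      (cq (m * n) : ℝ) * (w ^ 5 / (Q : ℝ) ^ 5 * hh g ((t * n : ℝ) / √T))| ≤
      ε / A ^ 4 * (n : ℝ) ^ 3 := by
    intro n hn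
    obtain ⟨hn0, hn1, hn2⟩ := (mem_Nn A Q T hA n).mp hn
    have hn0' : (0 : ℝ) < n := by exact_mod_cast hn0
    set s : ℝ := (t * n : ℝ) / √T with hs
    by_cases hsr : δ ≤ s ∧ s ≤ A
    · have h1 : q₀ ≤ m * n := by
        have h2 : (q₀ : ℝ) ≤ n := by
          refine hT1.trans ?_
          rw [div_le_iff₀ ht']
          have := hsr.1
          rw [hs, le_div_iff₀ hsT] at this
          linarith
        have h3 : q₀ ≤ n := by exact_mod_cast h2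
        nlinarith
      have h2 := hq₀ (m * n) h1 (Nat.Coprime.mul_left hmQ hn2) s
      rw [hint] at h2
      have h3 : sx (XS Q ρ (m * n)) ((m * n : ℕ) : ℝ) (fun u => 𝒢 (u, s)) =
          sx (XS Q ρ (m * n)) ((m * n : ℕ) * w) (fun u => g (u, s)) := by
        rw [sx, sx]
        apply finsum_congr
        intro x
        apply finsum_congr
        intro _
        simp only [h𝒢]
        congr 2
        funext i
        simp only [Pi.smul_apply, smul_eq_mul]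
        field_simp
      rw [h3] at h2
      have h4 : (cq (m * n) : ℝ) / (Q : ℝ) ^ 5 * (w ^ 5 * hh g s) =
          (cq (m * n) : ℝ) * (w ^ 5 / (Q : ℝ) ^ 5 * hh g s) := by ring
      rw [h4] at h2
      refine h2.trans (le_of_eq ?_)
      push_cast
      field_simp
    · have h1 : (fun u => g (u, s)) = fun _ => 0 := by
        funext u
        by_contra hne
        exact hsr (hg.supp u s hne).2
      have h2 : hh g s = 0 := by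
        rw [hh, h1, integral_zero]
      rw [h1, h2]
      simp only [sx, finsum_mem_zero, mul_zero, sub_zero, abs_zero]
      positivity
  calc _ ≤ ∑ n ∈ Nn A Q T, ε / A ^ 4 * (n : ℝ) ^ 3 := Finset.sum_le_sum hterm
    _ = ε / A ^ 4 * ∑ n ∈ Nn A Q T, (n : ℝ) ^ 3 := by rw [Finset.mul_sum]
    _ ≤ ε / A ^ 4 * (A ^ 4 * T ^ 2) := by gcongr; exact sum_cube_Nn A Q T hA hT
    _ = ε * T ^ 2 := by field_simp

/-- the sum for a class -/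
noncomputable def cs (A : ℝ) (Q : ℕ) (ρ : Fin 5 → ℤ) (g1 : ℕ) (g : (Fin 5 → ℝ) × ℝ → ℝ) (T : ℝ) : ℝ :=
  gs A Q ρ 1 g1 g1 g T

theorem abs_hh_le (g : (Fin 5 → ℝ) × ℝ → ℝ) (s : ℝ) : |hh g s| ≤ hh (fun z => |g z|) s := by
  rw [hh, hh]
  exact abs_integral_le_integral_abs

theorem cs_close (hg : Tf δ A g) (hδ : 0 < δ) (hA : 0 < A) (Z Q : ℕ) (hZ : 0 < Z) (hQ0 : 0 < Q)
    (hQ : ∀ p : ℕ, p.Prime → p ≤ Z → p ∣ Q) (ρ : Fin 5 → ℤ)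
    (g1 : ℕ) (hg1 : 0 < g1) (ε : ℝ) (hε : 0 < ε) :
    ∀ᶠ T : ℝ in atTop, |cs A Q ρ g1 g T / T ^ 2 - lam Q g1 g| ≤
      1 / Z * lam Q g1 (fun z => |g z|) + ε := by
  have hg1' : (0 : ℝ) < g1 := by exact_mod_cast hg1
  have hQ' : (0 : ℝ) < Q := by exact_mod_cast hQ0
  have hZ' : (0 : ℝ) < Z := by exact_mod_cast hZ
  have h1 := gs_close hg hδ hA Q hQ0 ρ 1 g1 one_pos (Nat.coprime_one_left Q) hg1 g1 hg1' (ε / 3) (by positivity)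
  have h2 := riem_cube hg hδ Q hQ0 g1 hg1
  have h3 := riem_cube hg.abs hδ Q hQ0 g1 hg1
  have h2' := Metric.tendsto_nhds.mp h2 (ε / 3) (by positivity)
  have h3' := Metric.tendsto_nhds.mp h3 (ε * Z / 3) (by positivity)
  filter_upwards [h1, h2', h3', eventually_gt_atTop 0] with T h1 h2 h3 hT
  rw [Real.dist_eq] at h2 h3
  have hT2 : 0 < T ^ 2 := by positivity
  set S1 := ∑ n ∈ Nn A Q T, (cq (1 * n) : ℝ) * ((g1 : ℝ) ^ 5 / (Q : ℝ) ^ 5 * hh g ((g1 * n : ℝ) / √T)) with hS1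
  set S2 := ∑ n ∈ (Finset.Icc 1 ⌊A * √T⌋₊).filter (fun n => Nat.Coprime n Q),
      (n : ℝ) ^ 3 * ((g1 : ℝ) ^ 5 / (Q : ℝ) ^ 5 * hh g ((g1 * n : ℝ) / √T)) with hS2
  set S3 := ∑ n ∈ (Finset.Icc 1 ⌊A * √T⌋₊).filter (fun n => Nat.Coprime n Q),
      (n : ℝ) ^ 3 * ((g1 : ℝ) ^ 5 / (Q : ℝ) ^ 5 * hh (fun z => |g z|) ((g1 * n : ℝ) / √T)) with hS3
  have h4 : |S1 - S2| ≤ 1 / Z * S3 := by
    have e1 : S2 = ∑ n ∈ Nn A Q T, (n : ℝ) ^ 3 * ((g1 : ℝ) ^ 5 / (Q : ℝ) ^ 5 * hh g ((g1 * n : ℝ) / √T)) := rfl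
    have e2 : S3 = ∑ n ∈ Nn A Q T, (n : ℝ) ^ 3 *
      ((g1 : ℝ) ^ 5 / (Q : ℝ) ^ 5 * hh (fun z => |g z|) ((g1 * n : ℝ) / √T)) := rfl
    rw [e1, e2, hS1, ← Finset.sum_sub_distrib, Finset.mul_sum]
    refine (Finset.abs_sum_le_sum_abs _ _).trans ?_
    apply Finset.sum_le_sum
    intro n hn
    obtain ⟨hn0, hn1, hn2⟩ := (mem_Nn A Q T hA n).mp hn
    rw [one_mul, ← sub_mul, abs_mul]
    have h5 := cq_close Z Q n hZ hQ hn0 hn2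
    have h6 := abs_hh_le g ((g1 * n : ℝ) / √T)
    have h7 : |(g1 : ℝ) ^ 5 / (Q : ℝ) ^ 5 * hh g ((g1 * n : ℝ) / √T)| ≤
        (g1 : ℝ) ^ 5 / (Q : ℝ) ^ 5 * hh (fun z => |g z|) ((g1 * n : ℝ) / √T) := by
      rw [abs_mul, abs_of_pos (by positivity)]
      gcongr
    calc _ ≤ (1 / Z * (n : ℝ) ^ 3) * ((g1 : ℝ) ^ 5 / (Q : ℝ) ^ 5 * hh (fun z => |g z|) ((g1 * n : ℝ) / √T)) :=
          mul_le_mul h5 h7 (abs_nonneg _) (by positivity)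
      _ = _ := by ring
  have h5 : |cs A Q ρ g1 g T - S1| ≤ ε / 3 * T ^ 2 := h1
  have h6 : |cs A Q ρ g1 g T - S2| ≤ (1 / Z * (S3 / T ^ 2) + ε / 3) * T ^ 2 := by
    have : (1 / Z * (S3 / T ^ 2) + ε / 3) * T ^ 2 = 1 / Z * S3 + ε / 3 * T ^ 2 := by field_simp
    rw [this]
    calc |cs A Q ρ g1 g T - S2| = |(cs A Q ρ g1 g T - S1) + (S1 - S2)| := by congr 1; ring
      _ ≤ |cs A Q ρ g1 g T - S1| + |S1 - S2| := abs_add_le _ _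
      _ ≤ _ := by linarith
  have h7 : |cs A Q ρ g1 g T / T ^ 2 - S2 / T ^ 2| ≤ 1 / Z * (S3 / T ^ 2) + ε / 3 := by
    rw [← sub_div, abs_div, abs_of_pos hT2, div_le_iff₀ hT2]
    exact h6
  have h8 : S3 / T ^ 2 ≤ lam Q g1 (fun z => |g z|) + ε * Z / 3 := by
    have := (abs_lt.mp h3).2
    linarith
  have h9 : 1 / Z * (S3 / T ^ 2) ≤ 1 / Z * lam Q g1 (fun z => |g z|) + ε / 3 := by
    calc 1 / Z * (S3 / T ^ 2) ≤ 1 / Z * (lam Q g1 (fun z => |g z|) + ε * Z / 3) := by gcongr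
      _ = _ := by field_simp
  calc |cs A Q ρ g1 g T / T ^ 2 - lam Q g1 g| =
      |(cs A Q ρ g1 g T / T ^ 2 - S2 / T ^ 2) + (S2 / T ^ 2 - lam Q g1 g)| := by congr 1; ring
    _ ≤ |cs A Q ρ g1 g T / T ^ 2 - S2 / T ^ 2| + |S2 / T ^ 2 - lam Q g1 g| := abs_add_le _ _
    _ ≤ _ := by linarith

theorem gs_upper (hg : Tf δ A g) (hδ : 0 < δ) (hA : 0 < A) (hg0 : ∀ z, 0 ≤ g z) (Q : ℕ) (hQ0 : 0 < Q)
    (ρ : Fin 5 → ℤ) (m : ℕ) (hm : 0 < m) (hmQ : Nat.Coprime m Q) (w : ℝ) (hw : 0 < w) (ε : ℝ)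
    (hε : 0 < ε) :
    ∀ᶠ T : ℝ in atTop, gs A Q ρ m 1 w g T ≤ ((m : ℝ) ^ 3 * w ^ 5 * lam Q 1 g + ε) * T ^ 2 := by
  have hQ' : (0 : ℝ) < Q := by exact_mod_cast hQ0
  have hm' : (0 : ℝ) < m := by exact_mod_cast hm
  have h1 := gs_close hg hδ hA Q hQ0 ρ m 1 hm hmQ one_pos w hw (ε / 2) (by positivity)
  have h2 := riem_cube hg hδ Q hQ0 1 one_pos
  have h2' := Metric.tendsto_nhds.mp h2 (ε / 2 / ((m : ℝ) ^ 3 * w ^ 5)) (by positivity)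
  filter_upwards [h1, h2', eventually_gt_atTop 0] with T h1 h2 hT
  rw [Real.dist_eq] at h2
  have hT2 : 0 < T ^ 2 := by positivity
  set S1 := ∑ n ∈ Nn A Q T, (cq (m * n) : ℝ) * (w ^ 5 / (Q : ℝ) ^ 5 * hh g (((1 : ℕ) * n : ℝ) / √T)) with hS1
  set S2 := ∑ n ∈ (Finset.Icc 1 ⌊A * √T⌋₊).filter (fun n => Nat.Coprime n Q),
      (n : ℝ) ^ 3 * (((1 : ℕ) : ℝ) ^ 5 / (Q : ℝ) ^ 5 * hh g (((1 : ℕ) * n : ℝ) / √T)) with hS2
  have h3 : S1 ≤ (m : ℝ) ^ 3 * w ^ 5 * S2 := by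
    have e1 : S2 = ∑ n ∈ Nn A Q T,
      (n : ℝ) ^ 3 * (((1 : ℕ) : ℝ) ^ 5 / (Q : ℝ) ^ 5 * hh g (((1 : ℕ) * n : ℝ) / √T)) := rfl
    rw [e1, hS1, Finset.mul_sum]
    apply Finset.sum_le_sum
    intro n hn
    obtain ⟨hn0, hn1, hn2⟩ := (mem_Nn A Q T hA n).mp hn
    have h4 : (cq (m * n) : ℝ) ≤ ((m * n : ℕ) : ℝ) ^ 3 := by
      exact_mod_cast cq1 (m * n) (Nat.mul_pos hm hn0)
    have h5 : 0 ≤ hh g (((1 : ℕ) * n : ℝ) / √T) := integral_nonneg fun u => hg0 _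
    calc _ ≤ ((m * n : ℕ) : ℝ) ^ 3 * (w ^ 5 / (Q : ℝ) ^ 5 * hh g (((1 : ℕ) * n : ℝ) / √T)) := by gcongr
      _ = _ := by push_cast; ring
  have h4 := (abs_le.mp h1).2
  have h5 : S2 / T ^ 2 ≤ lam Q 1 g + ε / 2 / ((m : ℝ) ^ 3 * w ^ 5) := by
    have := (abs_lt.mp h2).2
    linarith
  have h6 : S2 ≤ (lam Q 1 g + ε / 2 / ((m : ℝ) ^ 3 * w ^ 5)) * T ^ 2 := by
    rwa [div_le_iff₀ hT2] at h5
  calc gs A Q ρ m 1 w g T ≤ S1 + ε / 2 * T ^ 2 := by linarith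
    _ ≤ (m : ℝ) ^ 3 * w ^ 5 * ((lam Q 1 g + ε / 2 / ((m : ℝ) ^ 3 * w ^ 5)) * T ^ 2) + ε / 2 * T ^ 2 := by
        have : (m : ℝ) ^ 3 * w ^ 5 * S2 ≤ (m : ℝ) ^ 3 * w ^ 5 * ((lam Q 1 g + ε / 2 / ((m : ℝ) ^ 3 * w ^ 5)) * T ^ 2) := by
          gcongr
        linarith
    _ = _ := by field_simp; ring

end Pool.Agent.KS6_30.V5
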