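import Pool.Agent.KS6_30.V5.BLf

/-!
# The main limit: comparison with the classes (2)
-/

set_option autoImplicit false

namespace Pool.Agent.KS6_30.V5

open Filter Topology MeasureTheory Pool.Agent.KS6_53.V5 Finset

variable {k Z L Q : ℕ} {δ A : ℝ}

/-- the constant of `EE_count` -/
noncomputable def C0 (δ A : ℝ) : ℝ := (2 * A ^ 2 / δ + 2) ^ 5 * A ^ 4

theorem C0_pos (hδ : 0 < δ) (hA : 0 < A) : 0 < C0 δ A := by
  rw [C0]; positivity

theorem EE_card (hδ : 0 < δ) (hA : 0 < A) (T : ℝ) (hT : 0 < T) :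
    ((EE_finite δ A T hδ hA hT).toFinset.card : ℝ) ≤ C0 δ A * T ^ 2 := by
  have h := (EE_count δ A T hδ hA hT 1 one_pos).2
  rw [← Set.ncard_eq_toFinset_card (EE δ A T) (EE_finite δ A T hδ hA hT)]
  have e : {z ∈ EE δ A T | 1 ∣ z.1} = EE δ A T := by
    ext z
    simp
  rw [e] at h
  rw [C0]
  simpa using h

theorem BB_finite (hδ : 0 < δ) (hA : 0 < A) (T : ℝ) (hT : 0 < T) (Z : ℕ) : (BB δ A T Z).Finite :=
  (EE_finite δ A T hδ hA hT).subset (by rintro z ⟨n, -, h | h⟩ <;> exact h.1)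

theorem BS_classes (G : (Fin 5 → ℝ) × ℝ × ℝ → ℝ) (hδ : 0 < δ) (hA : 0 < A)
    (hGc : Continuous G)
    (hG : ∀ z, G z ≠ 0 → ‖z.1‖ ≤ A ∧ δ ≤ ‖mm z.1‖ ∧ δ ≤ z.2.1 ∧ z.2.1 ≤ A)
    (θ : (Fin 5 → ℤ) → ℝ) (a b : ℝ) (hθ : ∀ x, θ x ∈ Set.Icc a b) (P : Finset ℕ)
    (B : ℝ) (hB : ∀ u s, ∀ τ ∈ Set.Icc a b, |G (u, s, τ)| ≤ B) (η ε₁ : ℝ) (hε₁ : 0 ≤ ε₁)
    (hη : ∀ u s, ∀ τ ∈ Set.Icc a b, ∀ τ' ∈ Set.Icc a b, |τ - τ'| ≤ ε₁ →
      |G (u, s, τ) - G (u, s, τ')| ≤ η)
    (h : Ctx k Z L Q) (hk : 2 ≤ k) (hP : ∀ p ∈ P, p.Prime ∧ p ≤ Z)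
    (hQθ : ∀ x x' : Fin 5 → ℤ, Unimod x → Unimod x' → (∀ i, (Q : ℤ) ∣ x i - x' i) →
      (∀ p ∈ P, ¬ p ^ k ∣ gg x) → |θ x - θ x'| ≤ ε₁)
    (Bb : ℝ) (hBb : ∀ T : ℝ, 0 < T → ((BB δ A T Z).ncard : ℝ) ≤ Bb * T ^ 2) :
    ∃ θc : ℕ × (Fin 5 → ℤ) → ℝ, (∀ c, θc c ∈ Set.Icc a b) ∧ ∀ T : ℝ, 0 < T →
      |BS G θ T - ∑ c ∈ Cc k Z L Q, cs A Q c.2 c.1 (fun z => G (z.1, z.2, θc c)) T| ≤
        ((η + B * (2 * (1 / 2) ^ (k - 2))) * C0 δ A + B * Bb) * T ^ 2 := by
  classical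
  have hab : a ≤ b := (hθ 0).1.trans (hθ 0).2
  have haI : a ∈ Set.Icc a b := ⟨le_rfl, hab⟩
  have hB0 : 0 ≤ B := (abs_nonneg _).trans (hB 0 0 a haI)
  have hη0 : 0 ≤ η := (abs_nonneg _).trans (hη 0 0 a haI a haI (by simpa using hε₁))
  set θc : ℕ × (Fin 5 → ℤ) → ℝ := fun c =>
    if hc : ∃ x : Fin 5 → ℤ, Unimod x ∧ cl L Q (gg x, x) = c then θ hc.choose else a with hθc
  have hθcI : ∀ c, θc c ∈ Set.Icc a b := by
    intro c
    simp only [hθc]
    split_ifs with hc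
    · exact hθ _
    · exact haI
  refine ⟨θc, hθcI, fun T hT => ?_⟩
  set E := (EE_finite δ A T hδ hA hT).toFinset with hE
  have hmemE : ∀ z, z ∈ E ↔ z ∈ EE δ A T := fun z => by rw [hE, Set.Finite.mem_toFinset]
  have e1 : BS G θ T = ∑ z ∈ E, if Ex z then G (pt z, (z.1 : ℝ) / √T, θ z.2) else 0 := by
    rw [BS_pairs G hδ hA hG θ T hT, Finset.sum_filter]
  have hTf : ∀ c, Tf δ A (fun z => G (z.1, z.2, θc c)) := fun c =>
    ⟨hGc.comp (by fun_prop), fun u s hne => ⟨(hG _ hne).1, (hG _ hne).2.2⟩⟩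
  have e2 : ∑ c ∈ Cc k Z L Q, cs A Q c.2 c.1 (fun z => G (z.1, z.2, θc c)) T =
      ∑ z ∈ E, if cl L Q z ∈ Cc k Z L Q then G (pt z, (z.1 : ℝ) / √T, θc (cl L Q z)) else 0 := by
    rw [← Finset.sum_filter, ← Finset.sum_fiberwise_of_maps_to (g := cl L Q) (t := Cc k Z L Q)
      (s := E.filter fun z => cl L Q z ∈ Cc k Z L Q) (fun z hz => (Finset.mem_filter.mp hz).2)]
    apply Finset.sum_congr rfl
    intro c hc
    have hc' := (mem_Cc h c).mp hc
    rw [cs_pairs h hc'.1 hc'.2 (hTf c) (fun u s hne h0 => by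
      have := (hG _ hne).2.1
      simp only at this
      rw [h0, norm_zero] at this
      linarith) hδ hA T hT]
    have e3 : (E.filter fun z => cl L Q z ∈ Cc k Z L Q).filter (fun z => cl L Q z = c) =
        E.filter (fun z => cl L Q z = c) := by
      rw [Finset.filter_filter]
      apply Finset.filter_congr
      intro z _
      constructor
      · exact fun h1 => h1.2
      · intro h1
        exact ⟨by rw [h1]; exact hc, h1⟩
    rw [e3]
    apply Finset.sum_congr rfl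
    intro z hz
    rw [(Finset.mem_filter.mp hz).2]
  set D1 : ℕ × (Fin 5 → ℤ) → Prop := fun z => ∃ p : ℕ, p.Prime ∧ p ≤ Z ∧ p ^ k ∣ z.1 with hD1
  have hpt : ∀ z ∈ E, |(if Ex z then G (pt z, (z.1 : ℝ) / √T, θ z.2) else 0) -
      (if cl L Q z ∈ Cc k Z L Q then G (pt z, (z.1 : ℝ) / √T, θc (cl L Q z)) else 0)| ≤
      η + (if D1 z then B else 0) + (if z ∈ BB δ A T Z then B else 0) := by
    intro z hz
    rw [hmemE] at hz
    have n1 : 0 ≤ (if D1 z then B else 0) := by split_ifs <;> linarith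
    have n2 : 0 ≤ (if z ∈ BB δ A T Z then B else 0) := by split_ifs <;> linarith
    by_cases hex : Ex z
    · rw [if_pos hex]
      by_cases hcl : cl L Q z ∈ Cc k Z L Q
      · rw [if_pos hcl]
        have hgd := (cl_mem_iff h z).mp hcl
        have hzz : (gg z.2, z.2) = z := Prod.ext hex.2 rfl
        have hex' : ∃ x : Fin 5 → ℤ, Unimod x ∧ cl L Q (gg x, x) = cl L Q z :=
          ⟨z.2, hex.1, by rw [hzz]⟩
        have e4 : θc (cl L Q z) = θ hex'.choose := by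
          simp only [hθc]
          rw [dif_pos hex']
        have hsp := hex'.choose_spec
        set x' := hex'.choose with hx'
        have h5 : ∀ i, (Q : ℤ) ∣ z.2 i - x' i := by
          intro i
          have h6 := cl_congr (L := L) (Q := Q) z i
          have h7 := cl_congr (L := L) (Q := Q) (gg x', x') i
          rw [hsp.2] at h7
          have h8 := dvd_sub h6 h7
          simpa using h8
        have h9 : |θ z.2 - θ x'| ≤ ε₁ := by
          apply hQθ _ _ hex.1 hsp.1 h5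
          intro p hp hd
          obtain ⟨hpp, hpZ⟩ := hP p hp
          apply hgd.pow p hpp hpZ
          rw [hex.2] at hd
          exact Nat.dvd_gcd hd (h.hL p hpp hpZ)
        rw [e4]
        have := hη (pt z) ((z.1 : ℝ) / √T) _ (hθ z.2) _ (hθ x') h9
        linarith
      · rw [if_neg hcl, sub_zero]
        have h5 : D1 z := by
          by_contra hcon
          apply hcl
          rw [cl_mem_iff h]
          apply exact_good h hex
          intro p hp hpZ hd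
          exact hcon ⟨p, hp, hpZ, hd⟩
        rw [if_pos h5]
        have := hB (pt z) ((z.1 : ℝ) / √T) _ (hθ z.2)
        linarith
    · rw [if_neg hex]
      by_cases hcl : cl L Q z ∈ Cc k Z L Q
      · rw [if_pos hcl, zero_sub, abs_neg]
        have hgd := (cl_mem_iff h z).mp hcl
        have h5 : z ∈ BB δ A T Z := (good_or_bad h hz hgd).resolve_left hex
        rw [if_pos h5]
        have := hB (pt z) ((z.1 : ℝ) / √T) _ (hθcI (cl L Q z))
        linarith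
      · rw [if_neg hcl, sub_zero, abs_zero]
        linarith
  have hcardE : (E.card : ℝ) ≤ C0 δ A * T ^ 2 := EE_card hδ hA T hT
  have hcardD : ((E.filter D1).card : ℝ) ≤ 2 * (1 / 2) ^ (k - 2) * (C0 δ A * T ^ 2) := by
    set Pz : Finset ℕ := (Finset.range (Z + 1)).filter Nat.Prime with hPz
    have hsub : ((E.filter D1 : Finset _) : Set (ℕ × (Fin 5 → ℤ))) ⊆ ⋃ p ∈ Pz, {z ∈ EE δ A T | p ^ k ∣ z.1} := by
      intro z hz
      rw [Finset.mem_coe, Finset.mem_filter, hmemE] at hz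
      obtain ⟨hz1, p, hp, hpZ, hd⟩ := hz
      rw [Set.mem_iUnion₂]
      exact ⟨p, by rw [hPz, Finset.mem_filter, Finset.mem_range]; exact ⟨by omega, hp⟩, hz1, hd⟩
    have hfin : (⋃ p ∈ Pz, {z ∈ EE δ A T | p ^ k ∣ z.1}).Finite :=
      Set.Finite.biUnion Pz.finite_toSet fun p _ => (EE_finite δ A T hδ hA hT).subset fun z hz => hz.1
    have h1 := (Set.ncard_le_ncard hsub hfin).trans (Finset.set_ncard_biUnion_le Pz _)
    rw [Set.ncard_coe_finset] at h1
    calc ((E.filter D1).card : ℝ) ≤ ∑ p ∈ Pz, ((({z ∈ EE δ A T | p ^ k ∣ z.1}).ncard : ℕ) : ℝ) := by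
          exact_mod_cast h1
      _ ≤ ∑ p ∈ Pz, C0 δ A * T ^ 2 * (1 / (p : ℝ) ^ k) := by
          apply Finset.sum_le_sum
          intro p hp
          have hp0 : 0 < p := (Finset.mem_filter.mp hp).2.pos
          have := (EE_count δ A T hδ hA hT (p ^ k) (Nat.pow_pos hp0)).2
          rw [C0]
          refine this.trans (le_of_eq ?_)
          push_cast
          ring
      _ = C0 δ A * T ^ 2 * ∑ p ∈ Pz, 1 / (p : ℝ) ^ k := by rw [Finset.mul_sum]
      _ ≤ C0 δ A * T ^ 2 * (2 * (1 / 2) ^ (k - 2)) := by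
          have : 0 < C0 δ A := C0_pos hδ hA
          gcongr
          exact sum_prime_pow Pz (fun p hp => (Finset.mem_filter.mp hp).2.two_le) k hk
      _ = _ := by ring
  have hcardB : ((E.filter fun z => z ∈ BB δ A T Z).card : ℝ) ≤ Bb * T ^ 2 := by
    refine le_trans ?_ (hBb T hT)
    have h1 : ((E.filter fun z => z ∈ BB δ A T Z : Finset _) : Set (ℕ × (Fin 5 → ℤ))) ⊆ BB δ A T Z := by
      intro z hz
      exact (Finset.mem_filter.mp hz).2
    have h2 := Set.ncard_le_ncard h1 (BB_finite hδ hA T hT Z)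
    rw [Set.ncard_coe_finset] at h2
    exact_mod_cast h2
  rw [e1, e2, ← Finset.sum_sub_distrib]
  calc _ ≤ ∑ z ∈ E, _ := Finset.abs_sum_le_sum_abs _ _
    _ ≤ ∑ z ∈ E, (η + (if D1 z then B else 0) + (if z ∈ BB δ A T Z then B else 0)) :=
        Finset.sum_le_sum hpt
    _ = η * E.card + B * (E.filter D1).card + B * (E.filter fun z => z ∈ BB δ A T Z).card := by
        rw [Finset.sum_add_distrib, Finset.sum_add_distrib, Finset.sum_const, nsmul_eq_mul,
          ← Finset.sum_filter, ← Finset.sum_filter, Finset.sum_const, Finset.sum_const, nsmul_eq_mul,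
          nsmul_eq_mul]
        ring
    _ ≤ η * (C0 δ A * T ^ 2) + B * (2 * (1 / 2) ^ (k - 2) * (C0 δ A * T ^ 2)) + B * (Bb * T ^ 2) := by
        gcongr
    _ = _ := by ring

end Pool.Agent.KS6_30.V5
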