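import Pool.Agent.KS6_30.V5.BLh

/-!
# The main limit: positivity
-/

set_option autoImplicit false

namespace Pool.Agent.KS6_30.V5

open Filter Topology MeasureTheory Pool.Agent.KS6_53.V5 Finset

variable {k Z L Q : ℕ} {δ A : ℝ}

theorem sum_sq_le (Z : ℕ) (hZ : 0 < Z) (s : Finset ℕ) (hs : ∀ n ∈ s, Z < n) :
    ∑ n ∈ s, (1 : ℝ) / (n : ℝ) ^ 2 ≤ (1 : ℝ) / (Z : ℝ) := by
  classical
  have h1 : ∀ N : ℕ, Z ≤ N → ∑ n ∈ Finset.Ioc Z N, (1 : ℝ) / (n : ℝ) ^ 2 ≤ (1 : ℝ) / (Z : ℝ) - (1 : ℝ) / (N : ℝ) := by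
    intro N hN
    induction N, hN using Nat.le_induction with
    | base => simp
    | succ N hN ih =>
      rw [Finset.sum_Ioc_succ_top (by omega)]
      have hN0 : (0 : ℝ) < N := by exact_mod_cast lt_of_lt_of_le hZ hN
      have h2 : 1 / (((N + 1 : ℕ)) : ℝ) ^ 2 ≤ 1 / (N : ℝ) - 1 / ((N + 1 : ℕ) : ℝ) := by
        push_cast
        rw [div_sub_div _ _ (by positivity) (by positivity), div_le_div_iff₀ (by positivity) (by positivity)]
        nlinarith [pow_pos hN0 2, pow_pos hN0 3]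
      linarith
  have h2 : s ⊆ Finset.Ioc Z (s.sup id + Z) := by
    intro n hn
    rw [Finset.mem_Ioc]
    have := Finset.le_sup (f := id) hn
    simp only [id] at this
    exact ⟨hs n hn, by omega⟩
  calc ∑ n ∈ s, (1 : ℝ) / (n : ℝ) ^ 2 ≤ ∑ n ∈ Finset.Ioc Z (s.sup id + Z), (1 : ℝ) / (n : ℝ) ^ 2 :=
        Finset.sum_le_sum_of_subset_of_nonneg h2 (fun _ _ _ => by positivity)
    _ ≤ 1 / (Z : ℝ) - 1 / ((s.sup id + Z : ℕ) : ℝ) := h1 _ (by omega)
    _ ≤ 1 / Z := by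
        have : (0 : ℝ) ≤ 1 / ((s.sup id + Z : ℕ) : ℝ) := by positivity
        linarith

theorem sum_le_of_inj {α γ : Type*} [DecidableEq γ] (D : Finset α) (S : Finset γ) (f : α → ℝ) (F : γ → ℝ)
    (hF : ∀ y ∈ S, 0 ≤ F y) (e : α → γ) (he : ∀ z ∈ D, e z ∈ S)
    (hinj : ∀ z ∈ D, ∀ z' ∈ D, e z = e z' → z = z') (hv : ∀ z ∈ D, f z = F (e z)) :
    ∑ z ∈ D, f z ≤ ∑ y ∈ S, F y := by
  calc ∑ z ∈ D, f z = ∑ z ∈ D, F (e z) := Finset.sum_congr rfl hv
    _ = ∑ y ∈ D.image e, F y := by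
        rw [Finset.sum_image]
        intro z hz z' hz' h
        exact hinj z hz z' hz' h
    _ ≤ ∑ y ∈ S, F y := by
        apply Finset.sum_le_sum_of_subset_of_nonneg
        · intro y hy
          obtain ⟨z, hz, rfl⟩ := Finset.mem_image.mp hy
          exact he z hz
        · intro y hy _
          exact hF y hy

/-- the special class -/
def r0 : Fin 5 → ℤ := ![1, 0, 0, 0, 1]

theorem mm_r0 : mm r0 (0, 2) = 1 := by
  simp [mm, wedge, hes, r0]

theorem Gd_r0 (hk : 0 < k) : Gd k Z L (1, r0) := by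
  refine ⟨one_dvd _, ?_, ?_, ?_, ?_⟩
  · intro p hp _ hd
    simp only at hd
    have := (dvd_pow_self p hk.ne').trans hd
    exact hp.one_lt.ne' (Nat.dvd_one.mp this)
  · intro p hp _
    refine ⟨0, fun hd => ?_⟩
    simp only [r0, Matrix.cons_val_zero] at hd
    have := Int.natCast_dvd_natCast.mp (by simpa using hd : (p : ℤ) ∣ ((1 : ℕ) : ℤ))
    exact hp.one_lt.ne' (Nat.dvd_one.mp this)
  · intro r
    simp
  · intro p hp _
    refine ⟨(0, 2), fun hd => ?_⟩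
    simp only [mm_r0, mul_one] at hd
    have := Int.natCast_dvd_natCast.mp (by simpa using hd : (p : ℤ) ∣ ((1 : ℕ) : ℤ))
    exact hp.one_lt.ne' (Nat.dvd_one.mp this)

/-- the class of the vectors divisible by `l` -/
theorem exists_inv (l Q : ℕ) (h : Nat.Coprime l Q) : ∃ y : ℤ, (Q : ℤ) ∣ l * y - 1 := by
  have h1 : IsCoprime (l : ℤ) (Q : ℤ) := Nat.isCoprime_iff_coprime.mpr h
  obtain ⟨a, b, hab⟩ := h1
  refine ⟨a, ?_⟩
  exact ⟨-b, by linarith⟩

theorem pos_b (h : Ctx k Z L Q) (hk : 0 < k) (hA : 0 < A) {β : (Fin 5 → ℝ) × ℝ → ℝ}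
    (hβ : Tf δ A β) (hβ0 : ∀ z, 0 ≤ β z) (l : ℕ) (hl : l.Prime) (hlZ : Z < l) (ρ' : Fin 5 → ℤ)
    (hρ' : ∀ i, (Q : ℤ) ∣ l * ρ' i - r0 i) (T : ℝ) (D : Finset (ℕ × (Fin 5 → ℤ)))
    (hD : ∀ z ∈ D, z ∈ EE δ A T ∧ cl L Q z = (1, r0) ∧ ∀ i, (l : ℤ) ∣ z.2 i) :
    ∑ z ∈ D, β (pt z, (z.1 : ℝ) / √T) ≤ gs A Q ρ' 1 1 (1 / l) β T := by
  classical
  have hl0 : (0 : ℝ) < l := by exact_mod_cast hl.pos
  have hl0z : (l : ℤ) ≠ 0 := by exact_mod_cast hl.ne_zero
  have hlQ : Nat.Coprime l Q := by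
    rw [Nat.Prime.coprime_iff_not_dvd hl]
    intro hd
    have := (h.hQ l hl).mp hd
    omega
  rw [gs_pairs hβ hA Q ρ' 1 1 one_pos (1 / l) (by positivity) T]
  apply sum_le_of_inj D _ _ _ (fun y _ => hβ0 _) (fun z => (z.1, fun i => z.2 i / l))
  · intro z hz
    obtain ⟨hzE, hcl, hdv⟩ := hD z hz
    obtain ⟨h1, h2, h3, h4, h5, h6⟩ := hzE
    have h7 : Nat.gcd z.1 L = 1 := congrArg Prod.fst hcl
    have h8 : ∀ i, z.2 i % Q = r0 i := fun i => congrFun (congrArg Prod.snd hcl) i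
    obtain ⟨n, hn0, hn, hzn⟩ := (gcd_eq_iff h (Gd_r0 (Z := Z) (L := L) hk) z.1 h1).mp h7
    simp only [one_mul] at hzn
    rw [mem_CC_iff] at h6
    choose x' hx' using hdv
    have hx'' : ∀ i, z.2 i / l = x' i := fun i => by rw [hx' i, Int.mul_ediv_cancel_left _ hl0z]
    simp only [hx'']
    have hzx : z.2 = (l : ℤ) • x' := by
      funext i
      simp [hx' i]
    rw [Gs, Finset.mem_filter, Finset.mem_product]
    refine ⟨⟨?_, ?_⟩, ?_, ?_⟩
    · rw [mem_Nn A Q T hA]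
      exact ⟨h1, h3, by rw [hzn]; exact hn⟩
    · rw [Set.Finite.mem_toFinset, Set.mem_ofPred_eq]
      have h9 := h4
      rw [hzx, nz_smul] at h9
      simp only [Int.cast_natCast, abs_of_pos hl0] at h9
      have e : A * (((1 : ℕ) : ℝ) * (A * √T) * (1 / l)) = A ^ 2 * √T / l := by
        push_cast; ring
      rw [e, le_div_iff₀ hl0]
      linarith
    · intro i
      simp only
      have h9 : (Q : ℤ) ∣ l * (x' i - ρ' i) := by
        have h10 : (Q : ℤ) ∣ z.2 i - r0 i := by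
          rw [← h8 i]
          exact Int.dvd_self_sub_emod
        have h11 := dvd_sub h10 (hρ' i)
        rw [hx' i] at h11
        have e : (l : ℤ) * x' i - r0 i - (l * ρ' i - r0 i) = l * (x' i - ρ' i) := by ring
        rwa [e] at h11
      exact (Nat.isCoprime_iff_coprime.mpr hlQ.symm).dvd_of_dvd_mul_left h9
    · rw [one_mul, mem_CC_iff]
      constructor
      · intro p hp hpd
        obtain ⟨i, hi⟩ := h6.1 p hp hpd
        refine ⟨i, fun hd => hi ?_⟩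
        rw [hx' i]
        exact Dvd.dvd.mul_left hd _
      · intro r
        have h9 := h6.2 r
        rw [hzx, mm_smul, Pi.smul_apply, smul_eq_mul] at h9
        have hcop : IsCoprime (z.1 : ℤ) (l : ℤ) := by
          rw [Nat.isCoprime_iff_coprime, Nat.coprime_comm, Nat.Prime.coprime_iff_not_dvd hl]
          intro hd
          obtain ⟨i, hi⟩ := h6.1 l hl hd
          exact hi ⟨x' i, hx' i⟩
        exact (IsCoprime.pow_right hcop (n := 3)).dvd_of_dvd_mul_left h9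
  · intro z hz z' hz' heq
    obtain ⟨-, -, hdv⟩ := hD z hz
    obtain ⟨-, -, hdv'⟩ := hD z' hz'
    simp only [Prod.mk.injEq] at heq
    apply Prod.ext heq.1
    funext i
    have h1 : z.2 i / l = z'.2 i / l := congrFun heq.2 i
    rw [← Int.mul_ediv_cancel' (hdv i), ← Int.mul_ediv_cancel' (hdv' i), h1]
  · intro z hz
    obtain ⟨hzE, hcl, hdv⟩ := hD z hz
    congr 1
    apply Prod.ext
    · funext i
      simp only [pt]
      have h1 : (z.2 i : ℝ) = l * ((z.2 i / l : ℤ) : ℝ) := by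
        exact_mod_cast (Int.mul_ediv_cancel' (hdv i)).symm
      rw [h1]
      push_cast
      have hz0 : (0 : ℝ) < z.1 := by exact_mod_cast hzE.1
      field_simp
    · simp

theorem pos_a (h : Ctx k Z L Q) (hk : 0 < k) (hA : 0 < A) {β : (Fin 5 → ℝ) × ℝ → ℝ}
    (hβ : Tf δ A β) (hβ0 : ∀ z, 0 ≤ β z) (l : ℕ) (hl : l.Prime) (T : ℝ)
    (D : Finset (ℕ × (Fin 5 → ℤ)))
    (hD : ∀ z ∈ D, z ∈ EE δ A T ∧ cl L Q z = (1, r0) ∧ (∃ i, ¬ (l : ℤ) ∣ z.2 i) ∧
      ∀ r, ((l * z.1 : ℕ) : ℤ) ∣ mm z.2 r) :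
    ∑ z ∈ D, β (pt z, (z.1 : ℝ) / √T) ≤ gs A Q r0 l 1 (1 / l) β T := by
  classical
  have hl0 : (0 : ℝ) < l := by exact_mod_cast hl.pos
  rw [gs_pairs hβ hA Q r0 l 1 hl.pos (1 / l) (by positivity) T]
  apply sum_le_of_inj D _ _ _ (fun y _ => hβ0 _) (fun z => z)
  · intro z hz
    obtain ⟨hzE, hcl, hu, hdv⟩ := hD z hz
    obtain ⟨h1, h2, h3, h4, h5, h6⟩ := hzE
    have h7 : Nat.gcd z.1 L = 1 := congrArg Prod.fst hcl
    have h8 : ∀ i, z.2 i % Q = r0 i := fun i => congrFun (congrArg Prod.snd hcl) i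
    obtain ⟨n, hn0, hn, hzn⟩ := (gcd_eq_iff h (Gd_r0 (Z := Z) (L := L) hk) z.1 h1).mp h7
    simp only [one_mul] at hzn
    rw [mem_CC_iff] at h6
    rw [Gs, Finset.mem_filter, Finset.mem_product]
    refine ⟨⟨?_, ?_⟩, ?_, ?_⟩
    · rw [mem_Nn A Q T hA]
      exact ⟨h1, h3, by rw [hzn]; exact hn⟩
    · rw [Set.Finite.mem_toFinset, Set.mem_ofPred_eq]
      have e : A * (l * (A * √T) * (1 / l)) = A ^ 2 * √T := by
        field_simp
      rw [e]
      exact h4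
    · intro i
      rw [← h8 i]
      exact Int.dvd_self_sub_emod
    · rw [mem_CC_iff]
      refine ⟨fun p hp hpd => ?_, hdv⟩
      rcases (Nat.Prime.dvd_mul hp).mp hpd with h9 | h9
      · rw [(Nat.prime_dvd_prime_iff_eq hp hl).mp h9]
        exact hu
      · exact h6.1 p hp h9
  · intro z _ z' _ heq
    exact heq
  · intro z hz
    congr 1
    apply Prod.ext
    · funext i
      simp only [pt]
      push_cast
      field_simp
    · simp

end Pool.Agent.KS6_30.V5
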