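import Pool.Agent.KS6_53.V5.Riem

/-!
# Riemann sums over the integers coprime to `M`
-/

set_option autoImplicit false

namespace Pool.Agent.KS6_30.V5

open Filter Topology MeasureTheory Pool.Agent.KS6_53.V5

theorem riemann_one (H : ℝ → ℝ) (hc : Continuous H) (hs : HasCompactSupport H) :
    Tendsto (fun r : ℝ => (∑ᶠ k : ℤ, H ((k : ℝ) / r)) / r) atTop (𝓝 (∫ u, H u)) := by
  have hF : Continuous (fun u : Fin 1 → ℝ => H (u 0)) := hc.comp (continuous_apply 0)
  have hFs : HasCompactSupport (fun u : Fin 1 → ℝ => H (u 0)) := by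
    obtain ⟨A, hA⟩ := (hs.isCompact.isBounded).exists_norm_le
    apply HasCompactSupport.of_support_subset_isCompact (isCompact_closedBall (0 : Fin 1 → ℝ) |A|)
    intro u hu
    rw [mem_closedBall_zero_iff, pi_norm_le_iff_of_nonneg (abs_nonneg _)]
    intro i
    rw [Subsingleton.elim i 0]
    exact (hA _ (subset_tsupport _ hu)).trans (le_abs_self _)
  have h := riemann hF hFs
  have h2 : ∫ u : Fin 1 → ℝ, H (u 0) = ∫ u, H u := by
    have := (MeasureTheory.volume_preserving_funUnique (Fin 1) ℝ).integral_comp' H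
    rw [← this]
    rfl
  rw [h2, Fintype.card_fin] at h
  refine h.congr ?_
  intro r
  rw [pow_one]
  congr 1
  rw [← finsum_comp_equiv (Equiv.funUnique (Fin 1) ℤ)]
  rfl

theorem riemann_shift (H : ℝ → ℝ) (hc : Continuous H) (hs : HasCompactSupport H) (t : ℝ) (ht0 : 0 ≤ t)
    (ht1 : t ≤ 1) :
    Tendsto (fun r : ℝ => (∑ᶠ k : ℤ, H (((k : ℝ) + t) / r)) / r) atTop (𝓝 (∫ u, H u)) := by
  classical
  obtain ⟨A, hA0, hA⟩ : ∃ A : ℝ, 0 < A ∧ ∀ v, H v ≠ 0 → |v| ≤ A := by
    obtain ⟨A, hA⟩ := (hs.isCompact.isBounded).exists_norm_le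
    exact ⟨max A 1, by positivity, fun u hu => (hA u (subset_tsupport _ hu)).trans (le_max_left _ _)⟩
  set ψ : ℝ → ℝ := fun u => max 0 (A + 2 - |u|) with hψ
  have hψc : Continuous ψ := by fun_prop
  have hψ0 : ∀ z, 0 ≤ ψ z := fun z => le_max_left _ _
  have hψs : ∀ u, ψ u ≠ 0 → |u| ≤ A + 2 := by
    intro z hz
    by_contra hcon
    push Not at hcon
    apply hz
    simp only [hψ]
    rw [max_eq_left]
    linarith
  have hψcs : HasCompactSupport ψ := by
    apply HasCompactSupport.of_support_subset_isCompact (isCompact_closedBall (0 : ℝ) (A + 2))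
    intro u hu
    rw [mem_closedBall_zero_iff]
    exact hψs u hu
  have hψ1 : ∀ u : ℝ, |u| ≤ A + 1 → 1 ≤ ψ u := by
    intro z h3
    simp only [hψ]
    exact le_trans (by linarith) (le_max_right _ _)
  set I := ∫ z, ψ z with hI
  have hI0 : 0 ≤ I := integral_nonneg hψ0
  have h1 := riemann_one H hc hs
  have h2 := riemann_one ψ hψc hψcs
  rw [Metric.tendsto_nhds] at h1 h2 ⊢
  intro ε hε
  set η : ℝ := ε / (2 * (I + 1)) with hη
  have hη0 : 0 < η := by positivity
  have hη1 : η * (I + 1) = ε / 2 := by rw [hη]; field_simp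
  have huc := hc.uniformContinuous_of_tendsto_cocompact hs.is_zero_at_infty
  obtain ⟨δ, hδ, hδ2⟩ := Metric.uniformContinuous_iff.1 huc η hη0
  filter_upwards [h1 (ε / 2) (by positivity), h2 1 one_pos, eventually_gt_atTop (max 1 (1 / δ))] with r hr1 hr2 hr3
  have hr0 : 1 < r := lt_of_le_of_lt (le_max_left _ _) hr3
  have hrpos : 0 < r := by linarith
  have hrδ : 1 / r < δ := by
    have := lt_of_le_of_lt (le_max_right _ _) hr3
    rw [div_lt_iff₀ hδ] at this
    rw [div_lt_iff₀ hrpos]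
    linarith
  have htr : t / r < δ := by
    refine lt_of_le_of_lt ?_ hrδ
    gcongr
  have htr1 : t / r ≤ 1 := by
    rw [div_le_one hrpos]; linarith
  have hpt : ∀ k : ℤ, |H (((k : ℝ) + t) / r) - H ((k : ℝ) / r)| ≤ η * ψ ((k : ℝ) / r) := by
    intro k
    by_cases hk : |(k : ℝ) / r| ≤ A + 1
    · have h5 : dist (((k : ℝ) + t) / r) ((k : ℝ) / r) < δ := by
        rw [Real.dist_eq]
        have : ((k : ℝ) + t) / r - (k : ℝ) / r = t / r := by ring
        rw [this, abs_of_nonneg (by positivity)]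
        exact htr
      have h6 := hδ2 h5
      rw [Real.dist_eq] at h6
      calc _ ≤ η := h6.le
        _ = η * 1 := (mul_one _).symm
        _ ≤ _ := by gcongr; exact hψ1 _ hk
    · push Not at hk
      have h5 : H ((k : ℝ) / r) = 0 := by
        by_contra hne
        linarith [hA _ hne]
      have h6 : H (((k : ℝ) + t) / r) = 0 := by
        by_contra hne
        have h7 := hA _ hne
        have h8 : |(k : ℝ) / r| ≤ |((k : ℝ) + t) / r| + |t / r| := by
          calc |(k : ℝ) / r| = |((k : ℝ) + t) / r - t / r| := by ring_nf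
            _ ≤ _ := abs_sub _ _
        rw [abs_of_nonneg (by positivity : 0 ≤ t / r)] at h8
        linarith
      rw [h5, h6, sub_zero, abs_zero]
      exact mul_nonneg hη0.le (hψ0 _)
  -- finite sums
  set N : Finset ℤ := Finset.Icc (-⌈(A + 2) * r⌉) ⌈(A + 2) * r⌉ with hN
  have hmem : ∀ k : ℤ, |(k : ℝ) / r| ≤ A + 2 → k ∈ N := by
    intro k hk
    rw [abs_div, abs_of_pos hrpos, div_le_iff₀ hrpos] at hk
    rw [hN, Finset.mem_Icc, ← abs_le]
    have : ((|k| : ℤ) : ℝ) ≤ ⌈(A + 2) * r⌉ := by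
      push_cast
      exact hk.trans (Int.le_ceil _)
    exact_mod_cast this
  have e1 : ∑ᶠ k : ℤ, H (((k : ℝ) + t) / r) = ∑ k ∈ N, H (((k : ℝ) + t) / r) := by
    apply finsum_eq_sum_of_support_subset
    intro k hk
    apply hmem
    have h7 := hA _ hk
    have h8 : |(k : ℝ) / r| ≤ |((k : ℝ) + t) / r| + |t / r| := by
      calc |(k : ℝ) / r| = |((k : ℝ) + t) / r - t / r| := by ring_nf
        _ ≤ _ := abs_sub _ _
    rw [abs_of_nonneg (by positivity : 0 ≤ t / r)] at h8
    linarith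
  have e2 : ∑ᶠ k : ℤ, H ((k : ℝ) / r) = ∑ k ∈ N, H ((k : ℝ) / r) := by
    apply finsum_eq_sum_of_support_subset
    intro k hk
    exact hmem k ((hA _ hk).trans (by linarith))
  have e3 : ∑ᶠ k : ℤ, ψ ((k : ℝ) / r) = ∑ k ∈ N, ψ ((k : ℝ) / r) := by
    apply finsum_eq_sum_of_support_subset
    intro k hk
    exact hmem k (hψs _ hk)
  have h9 : |(∑ᶠ k : ℤ, H (((k : ℝ) + t) / r)) / r - (∑ᶠ k : ℤ, H ((k : ℝ) / r)) / r| ≤
      η * ((∑ᶠ k : ℤ, ψ ((k : ℝ) / r)) / r) := by
    rw [e1, e2, e3, ← sub_div, ← Finset.sum_sub_distrib, abs_div, abs_of_pos hrpos, ← mul_div_assoc,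
      Finset.mul_sum]
    gcongr
    refine (Finset.abs_sum_le_sum_abs _ _).trans ?_
    exact Finset.sum_le_sum (fun k _ => hpt k)
  rw [Real.dist_eq] at hr1 hr2 ⊢
  have h10 : (∑ᶠ k : ℤ, ψ ((k : ℝ) / r)) / r ≤ I + 1 := by
    have := (abs_lt.mp hr2).2
    linarith
  have h11 : η * ((∑ᶠ k : ℤ, ψ ((k : ℝ) / r)) / r) ≤ ε / 2 := by
    rw [← hη1]; gcongr
  have h12 := h9.trans h11
  rw [abs_lt] at hr1 ⊢
  rw [abs_le] at h12
  constructor <;> linarith [h12.1, h12.2, hr1.1, hr1.2]

theorem cop_riemann (M : ℕ) (hM : 0 < M) (H : ℝ → ℝ) (hc : Continuous H) (hs : HasCompactSupport H) :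
    Tendsto (fun Y : ℝ => (∑ᶠ n ∈ {n : ℤ | IsCoprime n (M : ℤ)}, H ((n : ℝ) / Y)) / Y) atTop
      (𝓝 ((M.totient : ℝ) / M * ∫ u, H u)) := by
  classical
  have hM' : (0 : ℝ) < M := by exact_mod_cast hM
  have hMz : (0 : ℤ) < M := by exact_mod_cast hM
  obtain ⟨A, hA0, hA⟩ : ∃ A : ℝ, 0 < A ∧ ∀ v, H v ≠ 0 → |v| ≤ A := by
    obtain ⟨A, hA⟩ := (hs.isCompact.isBounded).exists_norm_le
    exact ⟨max A 1, by positivity, fun u hu => (hA u (subset_tsupport _ hu)).trans (le_max_left _ _)⟩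
  have h1 : Tendsto (fun Y : ℝ => ∑ a ∈ (Finset.range M).filter (fun a => M.Coprime a),
      (1 / (M : ℝ)) * ((∑ᶠ k : ℤ, H (((k : ℝ) + (a : ℝ) / M) / (Y / M))) / (Y / M))) atTop
      (𝓝 (∑ a ∈ (Finset.range M).filter (fun a => M.Coprime a), (1 / (M : ℝ)) * ∫ u, H u)) := by
    apply tendsto_finsetSum
    intro a ha
    have haM : a < M := Finset.mem_range.mp (Finset.mem_filter.mp ha).1
    have h2 := riemann_shift H hc hs ((a : ℝ) / M) (by positivity) (by
      rw [div_le_one hM']; exact_mod_cast haM.le)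
    have h3 : Tendsto (fun Y : ℝ => Y / M) atTop atTop := tendsto_id.atTop_div_const hM'
    exact (h2.comp h3).const_mul _
  rw [Finset.sum_const, ← Nat.totient_eq_card_coprime, nsmul_eq_mul] at h1
  have e0 : (M.totient : ℝ) * (1 / (M : ℝ) * ∫ u, H u) = (M.totient : ℝ) / M * ∫ u, H u := by ring
  rw [e0] at h1
  refine h1.congr' ?_
  filter_upwards [eventually_gt_atTop 0] with Y hY
  -- decompose into classes
  set N : Finset ℤ := Finset.Icc (-⌈A * Y⌉) ⌈A * Y⌉ with hN
  have hmem : ∀ k : ℤ, H ((k : ℝ) / Y) ≠ 0 → k ∈ N := by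
    intro k hk
    have h5 := hA _ hk
    rw [abs_div, abs_of_pos hY, div_le_iff₀ hY] at h5
    rw [hN, Finset.mem_Icc, ← abs_le]
    have : ((|k| : ℤ) : ℝ) ≤ ⌈A * Y⌉ := by
      push_cast
      exact h5.trans (Int.le_ceil _)
    exact_mod_cast this
  have e1 : ∑ᶠ (n : ℤ) (_ : IsCoprime n (M : ℤ)), H ((n : ℝ) / Y) =
      ∑ n ∈ N.filter (fun n => IsCoprime n (M : ℤ)), H ((n : ℝ) / Y) := by
    rw [← finsum_mem_coe_finset]
    apply finsum_mem_inter_support_eq'
    intro n hn
    simp only [Set.mem_ofPred_eq, Finset.coe_filter]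
    exact ⟨fun h => ⟨hmem n hn, h⟩, fun h => h.2⟩
  have e2 : ∀ a ∈ (Finset.range M).filter (fun a => M.Coprime a),
      ∑ᶠ k : ℤ, H (((k : ℝ) + (a : ℝ) / M) / (Y / M)) =
      ∑ n ∈ N.filter (fun n : ℤ => n % M = a), H ((n : ℝ) / Y) := by
    intro a ha
    have haM : a < M := Finset.mem_range.mp (Finset.mem_filter.mp ha).1
    have e3 : ∑ᶠ k : ℤ, H (((k : ℝ) + (a : ℝ) / M) / (Y / M)) =
        ∑ᶠ n ∈ {n : ℤ | n % M = a}, H ((n : ℝ) / Y) := by
      rw [← finsum_mem_univ]
      apply finsum_mem_eq_of_bijOn (fun k : ℤ => (a : ℤ) + M * k)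
      · refine ⟨?_, ?_, ?_⟩
        · intro k _
          simp only [Set.mem_ofPred_eq]
          rw [Int.add_mul_emod_self_left, Int.emod_eq_of_lt (by positivity) (by exact_mod_cast haM)]
        · intro k _ k' _ h
          simp only at h
          have : (M : ℤ) * k = M * k' := by linarith
          exact mul_left_cancel₀ hMz.ne' this
        · intro n hn
          simp only [Set.mem_ofPred_eq] at hn
          refine ⟨n / M, trivial, ?_⟩
          simp only
          rw [← hn]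
          exact Int.emod_add_mul_ediv n M
      · intro k _
        congr 1
        push_cast
        field_simp
        ring
    rw [e3, ← finsum_mem_coe_finset]
    apply finsum_mem_inter_support_eq'
    intro n hn
    simp only [Set.mem_ofPred_eq, Finset.coe_filter]
    exact ⟨fun h => ⟨hmem n hn, h⟩, fun h => h.2⟩
  rw [e1]
  have e4 : ∑ n ∈ N.filter (fun n => IsCoprime n (M : ℤ)), H ((n : ℝ) / Y) =
      ∑ a ∈ (Finset.range M).filter (fun a => M.Coprime a),
        ∑ n ∈ N.filter (fun n : ℤ => n % M = a), H ((n : ℝ) / Y) := by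
    rw [← Finset.sum_fiberwise_of_maps_to (s := N.filter (fun n => IsCoprime n (M : ℤ)))
      (t := (Finset.range M).filter (fun a => M.Coprime a)) (g := fun n : ℤ => (n % M).toNat)]
    · apply Finset.sum_congr rfl
      intro a ha
      apply Finset.sum_congr _ (fun _ _ => rfl)
      ext n
      simp only [Finset.mem_filter]
      have h5 := Int.emod_nonneg n hMz.ne'
      constructor
      · rintro ⟨⟨h6, h7⟩, h8⟩
        exact ⟨h6, by omega⟩
      · rintro ⟨h6, h7⟩
        refine ⟨⟨h6, ?_⟩, by omega⟩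
        have h8 : M.Coprime a := (Finset.mem_filter.mp ha).2
        have h9 : IsCoprime (a : ℤ) (M : ℤ) := Nat.isCoprime_iff_coprime.mpr h8.symm
        rw [← h7] at h9
        have h10 : n = n % M + M * (n / M) := (Int.emod_add_mul_ediv n M).symm
        rw [h10]
        exact IsCoprime.add_mul_left_left h9 (n / M)
    · intro n hn
      simp only [Finset.mem_filter, Finset.mem_range] at hn ⊢
      have h5 := Int.emod_nonneg n hMz.ne'
      have h6 := Int.emod_lt_of_pos n hMz
      refine ⟨by omega, ?_⟩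
      have h7 : IsCoprime (n % M) (M : ℤ) := by
        have h10 : n % M = n + M * (-(n / M)) := by
          have := (Int.emod_add_mul_ediv n M)
          linarith
        rw [h10]
        exact IsCoprime.add_mul_left_left hn.2 (-(n / M))
      have h8 : (((n % M).toNat : ℕ) : ℤ) = n % M := Int.toNat_of_nonneg h5
      rw [← h8] at h7
      exact (Nat.isCoprime_iff_coprime.mp h7).symm
  rw [e4, Finset.sum_div]
  apply Finset.sum_congr rfl
  intro a ha
  rw [e2 a ha]
  field_simp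

end Pool.Agent.KS6_30.V5
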