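import Pool.Agent.KS6_30.V5.RealSum
namespace Pool.Agent.KS6_30.V5
open MeasureTheory Filter Topology

theorem exists_box_of_hasCompactSupport {n : ℕ} (f : (Fin n → ℝ) → ℝ) (hfc : HasCompactSupport f) :
    ∃ R : ℝ, ∀ x, f x ≠ 0 → ∀ i, |x i| ≤ R := by
  obtain ⟨R, hR⟩ := (hfc.isCompact.isBounded).subset_closedBall (0 : Fin n → ℝ)
  refine ⟨R, fun x hx i => ?_⟩
  have h1 : x ∈ tsupport f := subset_closure hx
  have h2 := hR h1
  rw [mem_closedBall_zero_iff] at h2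
  exact (norm_le_pi_norm x i).trans h2

/-- equidistribution in the cone, real functions -/
theorem rsum_tendsto (f : (Fin 5 → ℝ) → ℝ) (hf : Continuous f) (hfc : HasCompactSupport f) :
    Tendsto (fun q : ℕ => rsum (q + 1) {Y | red (q + 1) Y ∈ Sq (q + 1)} f / (Sq (q + 1)).card) atTop
      (𝓝 (∫ x, f x)) := by
  obtain ⟨R, hR⟩ := exists_box_of_hasCompactSupport f hfc
  have h := lsum_tendsto (fun x => (f x : ℂ)) (Complex.continuous_ofReal.comp hf) R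
    (fun x hx => hR x (by simpa using hx))
  have h2 : (∫ x, (f x : ℂ)) = ((∫ x, f x : ℝ) : ℂ) := integral_ofReal
  rw [h2] at h
  have h3 := (Complex.continuous_re.tendsto _).comp h
  simp only [Complex.ofReal_re] at h3
  refine h3.congr ?_
  intro q
  simp only [Function.comp_apply]
  rw [← rsum_ofReal]
  have : ((rsum (q + 1) {Y | red (q + 1) Y ∈ Sq (q + 1)} f : ℝ) : ℂ) / ((Sq (q + 1)).card : ℂ) =
      ((rsum (q + 1) {Y | red (q + 1) Y ∈ Sq (q + 1)} f / (Sq (q + 1)).card : ℝ) : ℂ) := by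
    push_cast; rfl
  rw [this, Complex.ofReal_re]

theorem integral_affine (f : (Fin 5 → ℝ) → ℝ) (s : Fin 5 → ℝ) (m : ℕ) (hm : 0 < m) :
    ∫ y : Fin 5 → ℝ, f (fun i => s i + m * y i) = ((m : ℝ) ^ 5)⁻¹ * ∫ x, f x := by
  have h1 := Measure.integral_comp_smul (μ := (volume : Measure (Fin 5 → ℝ)))
    (fun x => f (s + x)) (m : ℝ)
  have h2 : ∀ y : Fin 5 → ℝ, (fun i => s i + m * y i) = s + (m : ℝ) • y := by
    intro y; funext i; simp
  simp_rw [h2]
  rw [h1, Module.finrank_fintype_fun_eq_card, Fintype.card_fin, smul_eq_mul]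
  rw [integral_add_left_eq_self]
  congr 1
  rw [abs_of_nonneg (by positivity)]

theorem hasCompactSupport_affine (f : (Fin 5 → ℝ) → ℝ) (hf : HasCompactSupport f) (s : Fin 5 → ℝ)
    (m : ℕ) (hm : 0 < m) : HasCompactSupport (fun y : Fin 5 → ℝ => f (fun i => s i + m * y i)) := by
  obtain ⟨R, hR⟩ := exists_box_of_hasCompactSupport f hf
  have hm1 : (1 : ℝ) ≤ m := by exact_mod_cast hm
  apply HasCompactSupport.of_support_subset_isCompact
    (isCompact_closedBall (0 : Fin 5 → ℝ) (|R| + ‖s‖))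
  intro y hy
  rw [mem_closedBall_zero_iff, pi_norm_le_iff_of_nonneg (by positivity)]
  intro i
  have h1 := hR _ hy i
  have h2 : |(m : ℝ) * y i| ≤ |R| + ‖s‖ := by
    calc |(m : ℝ) * y i| = |(s i + m * y i) - s i| := by ring_nf
      _ ≤ |s i + m * y i| + |s i| := abs_sub _ _
      _ ≤ |R| + ‖s‖ := add_le_add (h1.trans (le_abs_self R)) (norm_le_pi_norm s i)
  rw [abs_mul, abs_of_nonneg (by positivity : (0 : ℝ) ≤ m)] at h2
  rw [Real.norm_eq_abs]
  calc |y i| = 1 * |y i| := (one_mul _).symm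
    _ ≤ m * |y i| := by gcongr
    _ ≤ _ := h2

theorem rsum_coneSet_tendsto (m : ℕ) [NeZero m] (f : (Fin 5 → ℝ) → ℝ) (hf : Continuous f)
    (hfc : HasCompactSupport f) :
    Tendsto (fun i : ℕ × (Fin 5 → ZMod m) =>
      rsum (i.1 + 1) (coneSet (i.1 + 1) m i.2) f / (Sq (i.1 + 1)).card)
      (comap Prod.fst (atTop ⊓ 𝓟 {q : ℕ | Nat.Coprime (q + 1) m}))
      (𝓝 (((m : ℝ) ^ 5)⁻¹ * ∫ x, f x)) := by
  have hm : 0 < m := Nat.pos_of_ne_zero (NeZero.ne m)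
  rw [Metric.tendsto_nhds]
  intro ε hε
  have h1 : ∀ s : Fin 5 → ZMod m, ∀ᶠ q : ℕ in atTop,
      dist (rsum (q + 1) {Y | red (q + 1) Y ∈ Sq (q + 1)}
        (fun y => f (fun i => ((s i).val : ℝ) + m * y i)) / (Sq (q + 1)).card)
        (((m : ℝ) ^ 5)⁻¹ * ∫ x, f x) < ε := by
    intro s
    have h2 := rsum_tendsto (fun y => f (fun i => ((s i).val : ℝ) + m * y i))
      (hf.comp (by fun_prop)) (hasCompactSupport_affine f hfc _ m hm)
    rw [integral_affine f _ m hm] at h2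
    exact (Metric.tendsto_nhds.mp h2) ε hε
  have h3 := Filter.eventually_all.mpr h1
  rw [eventually_comap, eventually_inf_principal]
  filter_upwards [h3] with q hq hcop i hi
  obtain ⟨p, r⟩ := i
  simp only at hi
  subst hi
  obtain ⟨s, hs⟩ := rsum_coneSet (p + 1) m hcop r f
  simp only
  rw [hs]
  exact hq s

/-- **Counting integer vectors in the cone modulo `q` and in a fixed class modulo `m`.** -/
theorem count_tendsto (m : ℕ) [NeZero m] (Ω : Set (Fin 5 → ℝ)) (hb : Bornology.IsBounded Ω)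
    (hfr : volume (frontier Ω) = 0) :
    Tendsto (fun i : ℕ × (Fin 5 → ZMod m) =>
      ({Y : Fin 5 → ℤ | Y ∈ coneSet (i.1 + 1) m i.2 ∧ scal (i.1 + 1) Y ∈ Ω}.ncard : ℝ) /
        (Sq (i.1 + 1)).card)
      (comap Prod.fst (atTop ⊓ 𝓟 {q : ℕ | Nat.Coprime (q + 1) m}))
      (𝓝 (((m : ℝ) ^ 5)⁻¹ * (volume Ω).toReal)) := by
  have h := tendsto_of_sandwich (comap Prod.fst (atTop ⊓ 𝓟 {q : ℕ | Nat.Coprime (q + 1) m}))
    (fun (i : ℕ × (Fin 5 → ZMod m)) f => rsum (i.1 + 1) (coneSet (i.1 + 1) m i.2) f / (Sq (i.1 + 1)).card)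
    (by
      intro i f g hf hg hfg
      exact div_le_div_of_nonneg_right (rsum_mono _ _ f g hf hg hfg) (Nat.cast_nonneg _))
    (((m : ℝ) ^ 5)⁻¹) (fun f hf hfc => rsum_coneSet_tendsto m f hf hfc) Ω hb hfr
  refine h.congr ?_
  intro i
  rw [rsum_indicator _ _ _ hb]

/-- **Counting integer vectors in the cone modulo `q` and in a fixed class modulo `m`**,
explicit form. -/
theorem count_cone (m : ℕ) [NeZero m] (Ω : Set (Fin 5 → ℝ)) (hb : Bornology.IsBounded Ω)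
    (hfr : volume (frontier Ω) = 0) (ε : ℝ) (hε : 0 < ε) :
    ∃ Q : ℕ, ∀ (q : ℕ) [NeZero q], Q ≤ q → Nat.Coprime q m → ∀ r : Fin 5 → ZMod m,
      |({Y : Fin 5 → ℤ | red q Y ∈ Sq q ∧ red m Y = r ∧ scal q Y ∈ Ω}.ncard : ℝ) -
        (Sq q).card * ((volume Ω).toReal / (m : ℝ) ^ 5)| ≤ ε * (Sq q).card := by
  have h := (Metric.tendsto_nhds.mp (count_tendsto m Ω hb hfr)) ε hε
  rw [eventually_comap, eventually_inf_principal, eventually_atTop] at h
  obtain ⟨Q, hQ⟩ := h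
  refine ⟨Q + 1, ?_⟩
  intro q _ hq hcop r
  obtain ⟨p, rfl⟩ : ∃ p, q = p + 1 := ⟨q - 1, by omega⟩
  have h1 := hQ p (by omega) hcop (p, r) rfl
  simp only at h1
  rw [Real.dist_eq] at h1
  have h2 : (0 : ℝ) < ((Sq (p + 1)).card : ℝ) := lt_of_lt_of_le (by positivity) (card_Sq_ge (p + 1))
  have h3 : {Y : Fin 5 → ℤ | red (p + 1) Y ∈ Sq (p + 1) ∧ red m Y = r ∧ scal (p + 1) Y ∈ Ω} =
      {Y : Fin 5 → ℤ | Y ∈ coneSet (p + 1) m r ∧ scal (p + 1) Y ∈ Ω} := by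
    ext Y
    simp only [coneSet, Set.mem_ofPred_eq, and_assoc]
  rw [h3]
  set N : ℝ := ({Y : Fin 5 → ℤ | Y ∈ coneSet (p + 1) m r ∧ scal (p + 1) Y ∈ Ω}.ncard : ℝ)
  set c : ℝ := ((Sq (p + 1)).card : ℝ)
  have h4 : N - c * ((volume Ω).toReal / (m : ℝ) ^ 5) =
      (N / c - ((m : ℝ) ^ 5)⁻¹ * (volume Ω).toReal) * c := by
    field_simp
  rw [h4, abs_mul, abs_of_pos h2]
  exact mul_le_mul_of_nonneg_right h1.le h2.le

end Pool.Agent.KS6_30.V5
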