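import Pool.Agent.KS6_30.V5.Average
namespace Pool.Agent.KS6_30.V5
open MeasureTheory Filter Topology UnitAddTorus

variable {n : ℕ}

/-- division with remainder for integer vectors -/
def divEquiv (n : ℕ) (q : ℕ) [NeZero q] : (Fin n → ℤ) ≃ (Fin n → ZMod q) × (Fin n → ℤ) where
  toFun Y := (red q Y, fun i => Y i / (q : ℤ))
  invFun p := fun i => ((p.1 i).val : ℤ) + q * p.2 i
  left_inv Y := by
    funext i
    simp only [red]
    rw [ZMod.val_intCast]
    exact Int.emod_add_mul_ediv (Y i) q
  right_inv p := by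
    have hq : (0 : ℤ) < q := by exact_mod_cast Nat.pos_of_ne_zero (NeZero.ne q)
    ext i
    · simp [red]
    · simp only
      rw [Int.add_mul_ediv_left _ _ hq.ne']
      have h1 : ((p.1 i).val : ℤ) < q := by exact_mod_cast ZMod.val_lt (p.1 i)
      rw [Int.ediv_eq_zero_of_lt (by positivity) h1, zero_add]

/-- the sum over the integer vectors in the classes of `S` -/
noncomputable def lsum (q : ℕ) (S : Finset (Fin n → ZMod q)) (f : (Fin n → ℝ) → ℂ) : ℂ :=
  ∑ᶠ Y : Fin n → ℤ, Set.indicator {Y : Fin n → ℤ | red q Y ∈ S} (fun Y => f (scal q Y)) Y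

theorem finite_support_scal (q : ℕ) [NeZero q] (f : (Fin n → ℝ) → ℂ) (R : ℝ)
    (hR : ∀ x, f x ≠ 0 → ∀ i, |x i| ≤ R) : {Y : Fin n → ℤ | f (scal q Y) ≠ 0}.Finite := by
  apply (ibox n ⌈R * q⌉).finite_toSet.subset
  intro Y hY
  rw [Finset.mem_coe, mem_ibox]
  intro i
  have hq : (0 : ℝ) < q := by exact_mod_cast Nat.pos_of_ne_zero (NeZero.ne q)
  have h1 := hR _ hY i
  simp only [scal] at h1
  rw [abs_div, abs_of_pos hq, div_le_iff₀ hq] at h1
  have h3 : (|Y i| : ℝ) ≤ ⌈R * q⌉ := h1.trans (Int.le_ceil _)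
  exact_mod_cast h3

theorem lsum_eq (q : ℕ) [NeZero q] (S : Finset (Fin n → ZMod q)) (f : (Fin n → ℝ) → ℂ)
    (hf : Continuous f) (R : ℝ) (hR : ∀ x, f x ≠ 0 → ∀ i, |x i| ≤ R) :
    lsum q S f = ∑ x ∈ S, per f hf R hR (tpt q x) := by
  classical
  have hq : (0 : ℝ) < q := by exact_mod_cast Nat.pos_of_ne_zero (NeZero.ne q)
  rw [lsum, ← finsum_comp_equiv (divEquiv n q).symm]
  have hinv : ∀ p : (Fin n → ZMod q) × (Fin n → ℤ),
      scal q ((divEquiv n q).symm p) = scal q (fun i => ((p.1 i).val : ℤ)) + rvec p.2 := by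
    intro p
    funext i
    simp only [divEquiv, Equiv.coe_fn_symm_mk, scal, Pi.add_apply, rvec]
    push_cast
    field_simp
  have hred : ∀ p : (Fin n → ZMod q) × (Fin n → ℤ), red q ((divEquiv n q).symm p) = p.1 := by
    intro p
    have := (divEquiv n q).apply_symm_apply p
    exact congrArg Prod.fst this
  rw [finsum_curry]
  · rw [finsum_eq_sum_of_fintype, ← Finset.sum_filter_add_sum_filter_not Finset.univ (fun x => x ∈ S)]
    have h1 : ∑ x ∈ Finset.univ.filter (fun x => x ∉ S), ∑ᶠ (b : Fin n → ℤ),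
        Set.indicator {Y : Fin n → ℤ | red q Y ∈ S} (fun Y => f (scal q Y))
          ((divEquiv n q).symm (x, b)) = 0 := by
      apply Finset.sum_eq_zero
      intro x hx
      rw [Finset.mem_filter] at hx
      rw [← finsum_zero (α := Fin n → ℤ)]
      apply finsum_congr
      intro b
      rw [Set.indicator_of_notMem]
      simp only [Set.mem_ofPred_eq, hred]
      exact hx.2
    rw [h1, add_zero]
    have h2 : Finset.univ.filter (fun x => x ∈ S) = S := by ext x; simp
    rw [h2]
    apply Finset.sum_congr rfl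
    intro x hx
    have h3 : tpt q x = proj (scal q (fun i => ((x i).val : ℤ))) := by
      rw [← tpt_red]
      congr 1
      funext i
      simp [red]
    rw [h3, per_proj, perSum]
    apply finsum_congr
    intro b
    rw [Set.indicator_of_mem, hinv]
    simp only [Set.mem_ofPred_eq, hred]
    exact hx
  · have h4 := finite_support_scal q f R hR
    have h5 := h4.preimage ((divEquiv n q).symm.injective.injOn)
    apply h5.subset
    intro p hp
    rw [Function.mem_support] at hp
    have := Set.indicator_apply_ne_zero.mp hp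
    exact this.2

/-- **Equidistribution of the integer vectors in the cone modulo `q`.** -/
theorem lsum_tendsto (f : (Fin 5 → ℝ) → ℂ) (hf : Continuous f) (R : ℝ)
    (hR : ∀ x, f x ≠ 0 → ∀ i, |x i| ≤ R) :
    Tendsto (fun q : ℕ => lsum (q + 1) (Sq (q + 1)) f / (Sq (q + 1)).card) atTop (𝓝 (∫ x, f x)) := by
  have h := avg_tendsto (per f hf R hR)
  rw [mean_per] at h
  refine h.congr ?_
  intro q
  rw [avg_apply, lsum_eq (q + 1) _ f hf R hR]

end Pool.Agent.KS6_30.V5
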