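import Pool.Agent.KS6_30.V5.LA
import Pool.Agent.KS6_53.V5.Pl

/-!
# The vectors of a plane without very short vectors
-/

namespace Pool.Agent.KS6_30.V5

open Filter Topology MeasureTheory Pool.Agent.KS6_53.V5 Finset

/-! ### Gauss reduction -/

/-- the inner product -/
def ip (x y : Fin 5 → ℤ) : ℤ := ∑ i, x i * y i

theorem ip_self_nonneg (x : Fin 5 → ℤ) : 0 ≤ ip x x :=
  Finset.sum_nonneg (fun i _ => mul_self_nonneg (x i))

theorem ip_add_add (x y : Fin 5 → ℤ) : ip (x + y) (x + y) = ip x x + 2 * ip x y + ip y y := by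
  simp only [ip, Pi.add_apply, Fin.sum_univ_five]
  ring

theorem ip_sub_sub (x y : Fin 5 → ℤ) : ip (x - y) (x - y) = ip x x - 2 * ip x y + ip y y := by
  simp only [ip, Pi.sub_apply, Fin.sum_univ_five]
  ring

theorem exists_reduced (b c : Fin 5 → ℤ) :
    ∃ α β γ δ : ℤ, α * δ - β * γ = 1 ∧
      |2 * ip (α • b + β • c) (γ • b + δ • c)| ≤ ip (α • b + β • c) (α • b + β • c) ∧
      |2 * ip (α • b + β • c) (γ • b + δ • c)| ≤ ip (γ • b + δ • c) (γ • b + δ • c) := by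
  classical
  set f : ℤ × ℤ × ℤ × ℤ → ℕ := fun t =>
    (ip (t.1 • b + t.2.1 • c) (t.1 • b + t.2.1 • c) +
      ip (t.2.2.1 • b + t.2.2.2 • c) (t.2.2.1 • b + t.2.2.2 • c)).toNat with hf
  have hne : ∃ n : ℕ, ∃ t : ℤ × ℤ × ℤ × ℤ, t.1 * t.2.2.2 - t.2.1 * t.2.2.1 = 1 ∧ f t = n :=
    ⟨_, (1, 0, 0, 1), by norm_num, rfl⟩
  obtain ⟨t, ht1, ht2⟩ := Nat.find_spec hne
  have hmin : ∀ s : ℤ × ℤ × ℤ × ℤ, s.1 * s.2.2.2 - s.2.1 * s.2.2.1 = 1 → f t ≤ f s := by
    intro s hs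
    rw [ht2]
    exact Nat.find_min' hne ⟨s, hs, rfl⟩
  obtain ⟨α, β, γ, δ⟩ := t
  simp only at ht1
  have hmin' : ∀ α' β' γ' δ' : ℤ, α' * δ' - β' * γ' = 1 →
      ip (α • b + β • c) (α • b + β • c) + ip (γ • b + δ • c) (γ • b + δ • c) ≤
      ip (α' • b + β' • c) (α' • b + β' • c) + ip (γ' • b + δ' • c) (γ' • b + δ' • c) := by
    intro α' β' γ' δ' h
    have h1 := hmin (α', β', γ', δ') h
    simp only [hf] at h1
    have e1 := ip_self_nonneg (α • b + β • c)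
    have e2 := ip_self_nonneg (γ • b + δ • c)
    have e3 := ip_self_nonneg (α' • b + β' • c)
    have e4 := ip_self_nonneg (γ' • b + δ' • c)
    omega
  refine ⟨α, β, γ, δ, ht1, ?_, ?_⟩
  · have m1 := hmin' α β (γ + α) (δ + β) (by linear_combination ht1)
    have m2 := hmin' α β (γ - α) (δ - β) (by linear_combination ht1)
    have e1 : (γ + α) • b + (δ + β) • c = (α • b + β • c) + (γ • b + δ • c) := by
      rw [add_smul, add_smul]; abel
    have e2 : (γ - α) • b + (δ - β) • c = -((α • b + β • c) - (γ • b + δ • c)) := by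
      rw [sub_smul, sub_smul]; abel
    have e3 : ∀ x : Fin 5 → ℤ, ip (-x) (-x) = ip x x := by
      intro x; simp [ip]
    rw [e1, ip_add_add (α • b + β • c) (γ • b + δ • c)] at m1
    rw [e2, e3, ip_sub_sub] at m2
    rw [abs_le]
    constructor <;> linarith
  · have m1 := hmin' (α + γ) (β + δ) γ δ (by linear_combination ht1)
    have m2 := hmin' (α - γ) (β - δ) γ δ (by linear_combination ht1)
    have e1 : (α + γ) • b + (β + δ) • c = (α • b + β • c) + (γ • b + δ • c) := by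
      rw [add_smul, add_smul]; abel
    have e2 : (α - γ) • b + (β - δ) • c = (α • b + β • c) - (γ • b + δ • c) := by
      rw [sub_smul, sub_smul]; abel
    rw [e1, ip_add_add (α • b + β • c) (γ • b + δ • c)] at m1
    rw [e2, ip_sub_sub] at m2
    rw [abs_le]
    constructor <;> linarith

theorem ip_le (x : Fin 5 → ℤ) : nz x ^ 2 ≤ ((ip x x : ℤ) : ℝ) := by
  obtain ⟨i, hi⟩ := exists_nz x
  rw [hi, sq_abs, ip]
  push_cast
  rw [sq]
  exact Finset.single_le_sum (f := fun i => (x i : ℝ) * (x i : ℝ)) (fun j _ => mul_self_nonneg _)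
    (Finset.mem_univ i)

theorem reduced_bound (b c : Fin 5 → ℤ) (h1 : |2 * ip b c| ≤ ip b b) (h2 : |2 * ip b c| ≤ ip c c) :
    nz b * nz c ≤ 5 * nz (wedge b c) := by
  have hb := ip_self_nonneg b
  have hc := ip_self_nonneg c
  have h3 : (2 * ip b c) ^ 2 ≤ ip b b * ip c c := by
    rw [← sq_abs, sq]
    exact mul_le_mul h1 h2 (abs_nonneg _) hb
  have h4 : ∑ p : Fin 5 × Fin 5, wedge b c p ^ 2 = 2 * (ip b b * ip c c - ip b c ^ 2) := by
    rw [Fintype.sum_prod_type]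
    simp only [wedge, ip, Fin.sum_univ_five]
    ring
  have h5 : 3 * (ip b b * ip c c) ≤ 2 * ∑ p : Fin 5 × Fin 5, wedge b c p ^ 2 := by
    rw [h4]; linarith
  have h6 : ((∑ p : Fin 5 × Fin 5, wedge b c p ^ 2 : ℤ) : ℝ) ≤ 25 * nz (wedge b c) ^ 2 := by
    push_cast
    calc ∑ p : Fin 5 × Fin 5, ((wedge b c p : ℤ) : ℝ) ^ 2 ≤ ∑ p : Fin 5 × Fin 5, nz (wedge b c) ^ 2 := by
          apply Finset.sum_le_sum
          intro p _
          rw [← sq_abs]
          exact pow_le_pow_left₀ (abs_nonneg _) (le_nz _ p) 2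
      _ = 25 * nz (wedge b c) ^ 2 := by
          rw [Finset.sum_const, nsmul_eq_mul]
          simp
  have h7 : (3 : ℝ) * (((ip b b : ℤ) : ℝ) * ((ip c c : ℤ) : ℝ)) ≤
      2 * ((∑ p : Fin 5 × Fin 5, wedge b c p ^ 2 : ℤ) : ℝ) := by exact_mod_cast h5
  have h8 : (nz b * nz c) ^ 2 ≤ (5 * nz (wedge b c)) ^ 2 := by
    calc (nz b * nz c) ^ 2 = nz b ^ 2 * nz c ^ 2 := by ring
      _ ≤ ((ip b b : ℤ) : ℝ) * ((ip c c : ℤ) : ℝ) :=
          mul_le_mul (ip_le b) (ip_le c) (by positivity) (by exact_mod_cast hb)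
      _ ≤ (5 * nz (wedge b c)) ^ 2 := by nlinarith [sq_nonneg (nz (wedge b c))]
  exact le_of_sq_le_sq h8 (mul_nonneg (by norm_num) (nz_nonneg _))

/-! ### areas -/

theorem area_comb (χ : (Fin 5 → ℝ) → ℝ) (hc : Continuous χ) (p q : Fin 5 → ℝ) (α β γ δ : ℝ)
    (h : α * δ - β * γ = 1) : area χ (α • p + β • q) (γ • p + δ • q) = area χ p q := by
  have e1 := integral_fin_two (fun z : ℝ × ℝ => χ (z.1 • p + z.2 • q))
  have e2 := integral_fin_two (fun z : ℝ × ℝ => χ (z.1 • (α • p + β • q) + z.2 • (γ • p + δ • q)))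
  simp only at e1 e2
  rw [area, area, ← e1, ← e2]
  set M : Matrix (Fin 2) (Fin 2) ℝ := !![α, γ; β, δ] with hM
  have hdet : M.det = 1 := by
    rw [hM, Matrix.det_fin_two_of]
    linarith
  have hmap := Real.map_matrix_volume_pi_eq_smul_volume_pi (M := M) (by rw [hdet]; norm_num)
  rw [hdet] at hmap
  simp only [inv_one, abs_one, ENNReal.ofReal_one, one_smul] at hmap
  have hG : Continuous (fun u : Fin 2 → ℝ => χ (u 0 • p + u 1 • q)) := hc.comp (by fun_prop)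
  have hcont : Continuous (Matrix.toLin' M) := LinearMap.continuous_of_finiteDimensional _
  have h1 := integral_map (μ := (volume : Measure (Fin 2 → ℝ))) (φ := Matrix.toLin' M)
    hcont.measurable.aemeasurable (f := fun u : Fin 2 → ℝ => χ (u 0 • p + u 1 • q))
    hG.aestronglyMeasurable
  rw [hmap] at h1
  rw [h1]
  apply integral_congr_ae
  apply Filter.Eventually.of_forall
  intro u
  simp only [hM, Matrix.toLin'_apply, Matrix.mulVec, dotProduct, Fin.sum_univ_two]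
  simp
  congr 1
  module

/-! ### the uniform limit -/

/-- the pairs of vectors which occur -/
def KK (D : ℝ) : Set ((Fin 5 → ℝ) × (Fin 5 → ℝ)) := {t | ‖t.1‖ ≤ D ∧ ‖t.2‖ ≤ D ∧ ‖wedge t.1 t.2‖ = 1}

theorem isCompact_KK (D : ℝ) : IsCompact (KK D) := by
  apply Metric.isCompact_of_isClosed_isBounded
  · have h1 : IsClosed {t : (Fin 5 → ℝ) × (Fin 5 → ℝ) | ‖t.1‖ ≤ D} :=
      isClosed_le (by fun_prop) continuous_const
    have h2 : IsClosed {t : (Fin 5 → ℝ) × (Fin 5 → ℝ) | ‖t.2‖ ≤ D} :=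
      isClosed_le (by fun_prop) continuous_const
    have h3 : IsClosed {t : (Fin 5 → ℝ) × (Fin 5 → ℝ) | ‖wedge t.1 t.2‖ = 1} := by
      apply isClosed_eq _ continuous_const
      apply Continuous.norm
      apply continuous_pi
      intro p
      simp only [wedge]
      fun_prop
    exact (h1.inter (h2.inter h3))
  · apply (Metric.isBounded_closedBall (x := (0 : (Fin 5 → ℝ) × (Fin 5 → ℝ))) (r := D)).subset
    intro t ht
    rw [mem_closedBall_zero_iff, Prod.norm_def]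
    exact max_le ht.1 ht.2.1

theorem norm_wedge_le (x y : Fin 5 → ℝ) : ‖wedge x y‖ ≤ 2 * ‖x‖ * ‖y‖ := by
  rw [pi_norm_le_iff_of_nonneg (by positivity)]
  rintro ⟨i, j⟩
  simp only [wedge, Real.norm_eq_abs]
  have h1 : |x i| ≤ ‖x‖ := norm_le_pi_norm x i
  have h2 : |x j| ≤ ‖x‖ := norm_le_pi_norm x j
  have h3 : |y i| ≤ ‖y‖ := norm_le_pi_norm y i
  have h4 : |y j| ≤ ‖y‖ := norm_le_pi_norm y j
  calc |x i * y j - x j * y i| ≤ |x i * y j| + |x j * y i| := abs_sub _ _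
    _ = |x i| * |y j| + |x j| * |y i| := by rw [abs_mul, abs_mul]
    _ ≤ ‖x‖ * ‖y‖ + ‖x‖ * ‖y‖ := by gcongr
    _ = 2 * ‖x‖ * ‖y‖ := by ring

/-- the coordinates are bounded by the vector -/
theorem coord_bound {D : ℝ} {p q : Fin 5 → ℝ} (h : (p, q) ∈ KK D) (z : ℝ × ℝ) :
    |z.1| ≤ 2 * D * ‖z.1 • p + z.2 • q‖ ∧ |z.2| ≤ 2 * D * ‖z.1 • p + z.2 • q‖ := by
  obtain ⟨h1, h2, h3⟩ := h
  simp only at h1 h2 h3
  constructor
  · have e : wedge (z.1 • p + z.2 • q) q = z.1 • wedge p q := by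
      funext t; simp only [wedge, Pi.add_apply, Pi.smul_apply, smul_eq_mul]; ring
    have e2 := norm_wedge_le (z.1 • p + z.2 • q) q
    rw [e, norm_smul, h3, mul_one, Real.norm_eq_abs] at e2
    refine e2.trans ?_
    calc 2 * ‖z.1 • p + z.2 • q‖ * ‖q‖ ≤ 2 * ‖z.1 • p + z.2 • q‖ * D := by gcongr
      _ = _ := by ring
  · have e : wedge p (z.1 • p + z.2 • q) = z.2 • wedge p q := by
      funext t; simp only [wedge, Pi.add_apply, Pi.smul_apply, smul_eq_mul]; ring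
    have e2 := norm_wedge_le p (z.1 • p + z.2 • q)
    rw [e, norm_smul, h3, mul_one, Real.norm_eq_abs] at e2
    refine e2.trans ?_
    calc 2 * ‖p‖ * ‖z.1 • p + z.2 • q‖ ≤ 2 * D * ‖z.1 • p + z.2 • q‖ := by gcongr

/-- the sum over the primitive vectors -/
noncomputable def ps (h : ℝ × ℝ → ℝ) (r : ℝ) : ℝ :=
  ∑ᶠ z ∈ {z : ℤ × ℤ | IsCoprime z.1 z.2}, h (z.1 / r, z.2 / r)

open Classical in
theorem ps_eq (h : ℝ × ℝ → ℝ) (B r : ℝ) (hr : 0 < r) (hB : ∀ z, h z ≠ 0 → |z.1| ≤ B ∧ |z.2| ≤ B) :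
    ps h r = ∑ z ∈ (Finset.Icc (-⌊B * r⌋) ⌊B * r⌋ ×ˢ Finset.Icc (-⌊B * r⌋) ⌊B * r⌋).filter
      (fun z : ℤ × ℤ => IsCoprime z.1 z.2), h (z.1 / r, z.2 / r) := by
  rw [ps, ← finsum_mem_coe_finset]
  apply finsum_mem_inter_support_eq'
  intro z hz
  have h1 := hB _ hz
  simp only at h1
  have key : ∀ a : ℤ, |(a : ℝ) / r| ≤ B → |a| ≤ ⌊B * r⌋ := by
    intro a ha
    rw [Int.le_floor]
    push_cast
    rw [abs_div, abs_of_pos hr, div_le_iff₀ hr] at ha
    exact ha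
  simp only [Set.mem_ofPred_eq, Finset.coe_filter, Finset.mem_product, Finset.mem_Icc, ← abs_le]
  exact ⟨fun h => ⟨⟨key _ h1.1, key _ h1.2⟩, h⟩, fun h => h.2⟩

theorem ps_diff (f g ψ : ℝ × ℝ → ℝ) (B r η : ℝ) (hr : 0 < r)
    (hf : ∀ z, f z ≠ 0 → |z.1| ≤ B ∧ |z.2| ≤ B) (hg : ∀ z, g z ≠ 0 → |z.1| ≤ B ∧ |z.2| ≤ B)
    (hψ : ∀ z, ψ z ≠ 0 → |z.1| ≤ B ∧ |z.2| ≤ B) (h : ∀ z, |f z - g z| ≤ η * ψ z) :
    |ps f r - ps g r| ≤ η * ps ψ r := by
  classical
  rw [ps_eq f B r hr hf, ps_eq g B r hr hg, ps_eq ψ B r hr hψ, ← Finset.sum_sub_distrib, Finset.mul_sum]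
  refine (Finset.abs_sum_le_sum_abs _ _).trans ?_
  exact Finset.sum_le_sum (fun z _ => h _)

theorem uniform_la (κ : ℝ) (hκ : 0 < κ)
    (hLA : ∀ χ : ℝ × ℝ → ℝ, Continuous χ → HasCompactSupport χ →
      Tendsto (fun r : ℝ => (∑ᶠ z ∈ {z : ℤ × ℤ | IsCoprime z.1 z.2}, χ (z.1 / r, z.2 / r)) / r ^ 2)
        atTop (𝓝 (κ * ∫ z, χ z)))
    (χ : (Fin 5 → ℝ) → ℝ) (hc : Continuous χ) (hs : HasCompactSupport χ) (D : ℝ) (hD : 0 < D)
    (ε : ℝ) (hε : 0 < ε) : ∃ R : ℝ, 1 ≤ R ∧ ∀ r : ℝ, R ≤ r → ∀ t ∈ KK D,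
      |ps (fun z => χ (z.1 • t.1 + z.2 • t.2)) r / r ^ 2 - κ * area χ t.1 t.2| ≤ ε := by
  classical
  -- support
  obtain ⟨A, hA0, hA⟩ : ∃ A : ℝ, 0 < A ∧ ∀ v, χ v ≠ 0 → ‖v‖ ≤ A := by
    obtain ⟨A, hA⟩ := (hs.isCompact.isBounded).exists_norm_le
    exact ⟨max A 1, by positivity, fun u hu => (hA u (subset_tsupport _ hu)).trans (le_max_left _ _)⟩
  set B : ℝ := 2 * D * A with hB
  have hB0 : 0 < B := by positivity
  have hsupp : ∀ t ∈ KK D, ∀ z : ℝ × ℝ, χ (z.1 • t.1 + z.2 • t.2) ≠ 0 → |z.1| ≤ B ∧ |z.2| ≤ B := by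
    intro t ht z hz
    have h1 := coord_bound ht z
    have h2 := hA _ hz
    constructor
    · exact h1.1.trans (by rw [hB]; gcongr)
    · exact h1.2.trans (by rw [hB]; gcongr)
  have hcont : ∀ t : (Fin 5 → ℝ) × (Fin 5 → ℝ), Continuous (fun z : ℝ × ℝ => χ (z.1 • t.1 + z.2 • t.2)) := by
    intro t
    exact hc.comp (by fun_prop)
  have hcs : ∀ t ∈ KK D, HasCompactSupport (fun z : ℝ × ℝ => χ (z.1 • t.1 + z.2 • t.2)) := by
    intro t ht
    apply HasCompactSupport.of_support_subset_isCompact (isCompact_closedBall (0 : ℝ × ℝ) B)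
    intro z hz
    rw [mem_closedBall_zero_iff, Prod.norm_def]
    exact max_le (hsupp t ht z hz).1 (hsupp t ht z hz).2
  -- the bump
  set ψ : ℝ × ℝ → ℝ := fun z => max 0 (B + 1 - ‖z‖) with hψ
  have hψc : Continuous ψ := by fun_prop
  have hψ0 : ∀ z, 0 ≤ ψ z := fun z => le_max_left _ _
  have hψs : ∀ z, ψ z ≠ 0 → |z.1| ≤ B + 1 ∧ |z.2| ≤ B + 1 := by
    intro z hz
    have h1 : ‖z‖ ≤ B + 1 := by
      by_contra hcon
      push Not at hcon
      apply hz
      simp only [hψ]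
      rw [max_eq_left]
      linarith
    rw [Prod.norm_def, max_le_iff] at h1
    exact h1
  have hψcs : HasCompactSupport ψ := by
    apply HasCompactSupport.of_support_subset_isCompact (isCompact_closedBall (0 : ℝ × ℝ) (B + 1))
    intro z hz
    rw [mem_closedBall_zero_iff, Prod.norm_def]
    exact max_le (hψs z hz).1 (hψs z hz).2
  have hψ1 : ∀ z : ℝ × ℝ, |z.1| ≤ B → |z.2| ≤ B → 1 ≤ ψ z := by
    intro z h1 h2
    have h3 : ‖z‖ ≤ B := by rw [Prod.norm_def]; exact max_le h1 h2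
    simp only [hψ]
    exact le_trans (by linarith) (le_max_right _ _)
  set I := ∫ z, ψ z with hI
  have hI0 : 0 ≤ I := integral_nonneg hψ0
  have hlψ := hLA ψ hψc hψcs
  -- the mesh
  set η : ℝ := ε / (3 * (κ * I + 1)) with hη
  have hη0 : 0 < η := by positivity
  have hη1 : η * (κ * I + 1) = ε / 3 := by
    rw [hη]; field_simp
  have huc := hc.uniformContinuous_of_tendsto_cocompact hs.is_zero_at_infty
  obtain ⟨δ, hδ, hδ2⟩ := Metric.uniformContinuous_iff.1 huc η hη0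
  set δ' : ℝ := δ / (2 * B + 1) with hδ'
  have hδ'0 : 0 < δ' := by positivity
  obtain ⟨T, hTK, hTfin, hTcov⟩ := (isCompact_KK D).finite_cover_balls hδ'0
  -- differences
  have hdiff : ∀ t ∈ KK D, ∀ t0 ∈ KK D, t ∈ Metric.ball t0 δ' → ∀ z : ℝ × ℝ,
      |χ (z.1 • t.1 + z.2 • t.2) - χ (z.1 • t0.1 + z.2 • t0.2)| ≤ η * ψ z := by
    intro t ht t0 ht0 htt z
    by_cases hz : |z.1| ≤ B ∧ |z.2| ≤ B
    · have h1 : dist (z.1 • t.1 + z.2 • t.2) (z.1 • t0.1 + z.2 • t0.2) < δ := by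
        rw [dist_eq_norm]
        have e : z.1 • t.1 + z.2 • t.2 - (z.1 • t0.1 + z.2 • t0.2) = z.1 • (t.1 - t0.1) + z.2 • (t.2 - t0.2) := by
          rw [smul_sub, smul_sub]; abel
        rw [e]
        rw [Metric.mem_ball, dist_eq_norm, Prod.norm_def, max_lt_iff] at htt
        calc ‖z.1 • (t.1 - t0.1) + z.2 • (t.2 - t0.2)‖ ≤ ‖z.1 • (t.1 - t0.1)‖ + ‖z.2 • (t.2 - t0.2)‖ :=
              norm_add_le _ _
          _ = |z.1| * ‖t.1 - t0.1‖ + |z.2| * ‖t.2 - t0.2‖ := by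
              rw [norm_smul, norm_smul, Real.norm_eq_abs, Real.norm_eq_abs]
          _ ≤ B * δ' + B * δ' := by
              gcongr
              · exact hz.1
              · exact htt.1.le
              · exact hz.2
              · exact htt.2.le
          _ < δ := by
              rw [hδ']
              have : B * (δ / (2 * B + 1)) + B * (δ / (2 * B + 1)) = δ * (2 * B / (2 * B + 1)) := by ring
              rw [this]
              have h5 : 2 * B / (2 * B + 1) < 1 := by rw [div_lt_one (by positivity)]; linarith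
              calc δ * (2 * B / (2 * B + 1)) < δ * 1 := by gcongr
                _ = δ := mul_one _
      have h2 := hδ2 h1
      rw [Real.dist_eq] at h2
      calc _ ≤ η := h2.le
        _ = η * 1 := (mul_one _).symm
        _ ≤ η * ψ z := by gcongr; exact hψ1 z hz.1 hz.2
    · have h1 : χ (z.1 • t.1 + z.2 • t.2) = 0 := by
        by_contra hne
        exact hz (hsupp t ht z hne)
      have h2 : χ (z.1 • t0.1 + z.2 • t0.2) = 0 := by
        by_contra hne
        exact hz (hsupp t0 ht0 z hne)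
      rw [h1, h2, sub_zero, abs_zero]
      exact mul_nonneg hη0.le (hψ0 z)
  -- choose R
  have hev : ∀ᶠ r : ℝ in atTop, ∀ t0 ∈ T,
      |ps (fun z => χ (z.1 • t0.1 + z.2 • t0.2)) r / r ^ 2 - κ * area χ t0.1 t0.2| < ε / 3 := by
    rw [Filter.eventually_all_finite hTfin]
    intro t0 ht0
    have h1 := hLA _ (hcont t0) (hcs t0 (hTK ht0))
    have h2 := (Metric.tendsto_nhds.mp h1) (ε / 3) (by positivity)
    filter_upwards [h2] with r hr
    rw [Real.dist_eq] at hr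
    exact hr
  have hevψ : ∀ᶠ r : ℝ in atTop, ps ψ r / r ^ 2 < κ * I + 1 := by
    have h2 := (Metric.tendsto_nhds.mp hlψ) 1 one_pos
    filter_upwards [h2] with r hr
    rw [Real.dist_eq] at hr
    have := (abs_lt.mp hr).2
    have e : ps ψ r / r ^ 2 - κ * I < 1 := this
    linarith
  obtain ⟨R, hR⟩ := eventually_atTop.mp (hev.and hevψ)
  refine ⟨max R 1, le_max_right _ _, ?_⟩
  intro r hr t ht
  have hr1 : 1 ≤ r := (le_max_right _ _).trans hr
  have hr0 : 0 < r := by linarith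
  obtain ⟨hR1, hR2⟩ := hR r ((le_max_left _ _).trans hr)
  obtain ⟨t0, ht0, htt⟩ : ∃ t0 ∈ T, t ∈ Metric.ball t0 δ' := by
    have := hTcov ht
    simpa using this
  have ht0K := hTK ht0
  have a1 := hR1 t0 ht0
  have hb1 : ∀ z, (fun z : ℝ × ℝ => χ (z.1 • t.1 + z.2 • t.2)) z ≠ 0 → |z.1| ≤ B + 1 ∧ |z.2| ≤ B + 1 :=
    fun z hz => ⟨(hsupp t ht z hz).1.trans (by linarith), (hsupp t ht z hz).2.trans (by linarith)⟩
  have hb2 : ∀ z, (fun z : ℝ × ℝ => χ (z.1 • t0.1 + z.2 • t0.2)) z ≠ 0 → |z.1| ≤ B + 1 ∧ |z.2| ≤ B + 1 :=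
    fun z hz => ⟨(hsupp t0 ht0K z hz).1.trans (by linarith), (hsupp t0 ht0K z hz).2.trans (by linarith)⟩
  have a2 := ps_diff (fun z => χ (z.1 • t.1 + z.2 • t.2)) (fun z => χ (z.1 • t0.1 + z.2 • t0.2)) ψ (B + 1) r η
    hr0 hb1 hb2 hψs (hdiff t ht t0 ht0K htt)
  have a3 : |ps (fun z => χ (z.1 • t.1 + z.2 • t.2)) r / r ^ 2 -
      ps (fun z => χ (z.1 • t0.1 + z.2 • t0.2)) r / r ^ 2| ≤ η * (κ * I + 1) := by
    rw [← sub_div, abs_div, abs_of_pos (by positivity : (0 : ℝ) < r ^ 2)]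
    calc _ ≤ η * ps ψ r / r ^ 2 := by gcongr
      _ = η * (ps ψ r / r ^ 2) := by ring
      _ ≤ η * (κ * I + 1) := by gcongr
  have a4 : |area χ t.1 t.2 - area χ t0.1 t0.2| ≤ η * I := by
    rw [area, area, ← integral_sub ((hcont t).integrable_of_hasCompactSupport (hcs t ht))
      ((hcont t0).integrable_of_hasCompactSupport (hcs t0 ht0K)), hI, ← integral_const_mul]
    rw [← Real.norm_eq_abs]
    apply norm_integral_le_of_norm_le ((hψc.integrable_of_hasCompactSupport hψcs).const_mul η)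
    apply Filter.Eventually.of_forall
    intro z
    exact hdiff t ht t0 ht0K htt z
  have a5 : |κ * area χ t.1 t.2 - κ * area χ t0.1 t0.2| ≤ η * (κ * I + 1) := by
    rw [← mul_sub, abs_mul, abs_of_pos hκ]
    calc κ * |area χ t.1 t.2 - area χ t0.1 t0.2| ≤ κ * (η * I) := by gcongr
      _ = η * (κ * I) := by ring
      _ ≤ η * (κ * I + 1) := by gcongr; linarith
  rw [hη1] at a3 a5
  rw [abs_le] at a3 a5 ⊢
  rw [abs_lt] at a1
  constructor <;> linarith [a1.1, a1.2, a3.1, a3.2, a5.1, a5.2]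

theorem rv_comb (α β : ℤ) (b c : Fin 5 → ℤ) : rv (α • b + β • c) = (α : ℝ) • rv b + (β : ℝ) • rv c := by
  funext i
  simp [rv]

theorem wedge_rv (b c : Fin 5 → ℤ) : wedge (rv b) (rv c) = rv (wedge b c) := by
  funext p
  simp [wedge, rv]

theorem kl : S_KL := by
  obtain ⟨κ, hκ, hLA⟩ := la
  refine ⟨κ, hκ, ?_⟩
  intro χ hc hs ξ ε hξ hε
  obtain ⟨R, hR1, hR⟩ := uniform_la κ hκ hLA χ hc hs (5 / ξ) (by positivity) ε hε
  refine ⟨R, hR1, ?_⟩
  intro K hK w hw hshort b c hiso hwbc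
  have hK0 : 0 < K := by linarith
  have hwpos : 0 < nz w := lt_of_lt_of_le one_pos (one_le_nz' hw.1)
  have hu : Unimod (wedge b c) := hwbc ▸ hw.1
  obtain ⟨α, β, γ, δ, hdet, hr1, hr2⟩ := exists_reduced b c
  set b' := α • b + β • c with hb'
  set c' := γ • b + δ • c with hc'
  have hw' : wedge b' c' = w := by
    rw [hb', hc', wedge_comb, hdet, one_smul, hwbc]
  have hu' : Unimod (wedge b' c') := by rw [hw']; exact hw.1
  have hbU : Unimod b' := unimod_of_wedge hu'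
  have hcU : Unimod c' := by
    have h1 := (unimod_comb hu' (0 : ℤ) 1).mpr (by exact isCoprime_one_right)
    simpa using h1
  have hbI : In w b' := by
    rw [← hw']; exact (in_wedge_iff hu').mpr ⟨1, 0, by simp⟩
  have hcI : In w c' := by
    rw [← hw']; exact (in_wedge_iff hu').mpr ⟨0, 1, by simp⟩
  set s := √(nz w) with hs'
  have hs0 : 0 < s := Real.sqrt_pos.mpr hwpos
  have hs2 : s * s = nz w := Real.mul_self_sqrt hwpos.le
  have hb1 := hshort b' hbU hbI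
  have hc1 := hshort c' hcU hcI
  have hprod := reduced_bound b' c' hr1 hr2
  rw [hw'] at hprod
  have hbD : nz b' ≤ 5 / ξ * s := by
    have h1 : nz b' * (ξ * s) ≤ 5 * (s * s) := by
      rw [hs2]
      exact (mul_le_mul_of_nonneg_left hc1 (nz_nonneg _)).trans hprod
    have h2 : nz b' * ξ ≤ 5 * s := by
      have : (nz b' * ξ) * s ≤ (5 * s) * s := by linarith
      exact le_of_mul_le_mul_right this hs0
    rw [div_mul_eq_mul_div, le_div_iff₀ hξ]
    exact h2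
  have hcD : nz c' ≤ 5 / ξ * s := by
    have h1 : (ξ * s) * nz c' ≤ 5 * (s * s) := by
      rw [hs2]
      exact (mul_le_mul_of_nonneg_right hb1 (nz_nonneg _)).trans hprod
    have h2 : nz c' * ξ ≤ 5 * s := by
      have : (nz c' * ξ) * s ≤ (5 * s) * s := by linarith
      exact le_of_mul_le_mul_right this hs0
    rw [div_mul_eq_mul_div, le_div_iff₀ hξ]
    exact h2
  set p : Fin 5 → ℝ := s⁻¹ • rv b' with hp
  set q : Fin 5 → ℝ := s⁻¹ • rv c' with hq
  have hpq : (p, q) ∈ KK (5 / ξ) := by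
    refine ⟨?_, ?_, ?_⟩
    · simp only [hp]
      rw [norm_smul, norm_inv, Real.norm_eq_abs, abs_of_pos hs0, inv_mul_le_iff₀ hs0]
      have : ‖rv b'‖ = nz b' := rfl
      rw [this]; linarith
    · simp only [hq]
      rw [norm_smul, norm_inv, Real.norm_eq_abs, abs_of_pos hs0, inv_mul_le_iff₀ hs0]
      have : ‖rv c'‖ = nz c' := rfl
      rw [this]; linarith
    · simp only [hp, hq]
      rw [wedge_smul, wedge_rv, hw', norm_smul]
      have : ‖rv w‖ = nz w := rfl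
      rw [this, norm_mul, norm_inv, Real.norm_eq_abs, abs_of_pos hs0, ← hs2]
      field_simp
  have hmain := hR K hK (p, q) hpq
  simp only at hmain
  -- the area
  have harea : area χ p q = area χ (s⁻¹ • rv b) (s⁻¹ • rv c) := by
    have h1 := area_comb χ hc (s⁻¹ • rv b) (s⁻¹ • rv c) (α : ℝ) (β : ℝ) (γ : ℝ) (δ : ℝ)
      (by exact_mod_cast hdet)
    rw [← h1]
    congr 1
    · rw [hp, hb', rv_comb]; module
    · rw [hq, hc', rv_comb]; module
  -- the sum
  have hsum : ∑ᶠ x ∈ {x : Fin 5 → ℤ | Unimod x ∧ In w x}, χ ((K * s)⁻¹ • rv x) =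
      ps (fun z => χ (z.1 • p + z.2 • q)) K := by
    rw [ps]
    symm
    apply finsum_mem_eq_of_bijOn (fun z : ℤ × ℤ => z.1 • b' + z.2 • c')
    · refine ⟨?_, ?_, ?_⟩
      · intro z hz
        refine ⟨(unimod_comb hu' _ _).mpr hz, ?_⟩
        rw [← hw']; exact (in_wedge_iff hu').mpr ⟨z.1, z.2, rfl⟩
      · intro z _ z' _ h
        have := comb_unique hu' h
        exact Prod.ext this.1 this.2
      · rintro x ⟨hx1, hx2⟩
        rw [← hw'] at hx2
        obtain ⟨a, e, rfl⟩ := (in_wedge_iff hu').mp hx2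
        exact ⟨(a, e), (unimod_comb hu' _ _).mp hx1, rfl⟩
    · intro z _
      congr 1
      rw [rv_comb, hp, hq, mul_inv, smul_add, smul_smul, smul_smul, smul_smul, smul_smul]
      congr 1 <;> congr 1 <;> field_simp
  rw [hsum, ← harea]
  exact hmain

end Pool.Agent.KS6_30.V5
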