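import Pool.Agent.KS6_30.V5.G1

/-!
# The test functions
-/

set_option autoImplicit false

namespace Pool.Agent.KS6_30.V5

open Filter Topology MeasureTheory Pool.Agent.KS6_53.V5 Finset

theorem area_comb' (χ : (Fin 5 → ℝ) → ℝ) (hc : Continuous χ) (p q : Fin 5 → ℝ) (α β γ δ : ℝ)
    (h : |α * δ - β * γ| = 1) : area χ (α • p + β • q) (γ • p + δ • q) = area χ p q := by
  have e1 := integral_fin_two (fun z : ℝ × ℝ => χ (z.1 • p + z.2 • q))
  have e2 := integral_fin_two (fun z : ℝ × ℝ => χ (z.1 • (α • p + β • q) + z.2 • (γ • p + δ • q)))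
  simp only at e1 e2
  rw [area, area, ← e1, ← e2]
  set M : Matrix (Fin 2) (Fin 2) ℝ := !![α, γ; β, δ] with hM
  have hdet : |M.det| = 1 := by
    rw [hM, Matrix.det_fin_two_of, ← h]
    congr 1; ring
  have hdet0 : M.det ≠ 0 := by
    intro h0
    rw [h0, abs_zero] at hdet
    exact zero_ne_one hdet
  have hmap := Real.map_matrix_volume_pi_eq_smul_volume_pi (M := M) hdet0
  rw [abs_inv, hdet] at hmap
  simp only [inv_one, ENNReal.ofReal_one, one_smul] at hmap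
  have hG : Continuous (fun u : Fin 2 → ℝ => χ (u 0 • p + u 1 • q)) := hc.comp (by fun_prop)
  have hcont : Continuous (Matrix.toLin' M) := LinearMap.continuous_of_finiteDimensional _
  have h1 := integral_map (μ := (volume : Measure (Fin 2 → ℝ))) (φ := Matrix.toLin' M)
    hcont.measurable.aemeasurable (f := fun u : Fin 2 → ℝ => χ (u 0 • p + u 1 • q))
    hG.aestronglyMeasurable
  rw [hmap] at h1
  rw [h1]
  apply integral_congr_ae
  apply Filter.Eventually.of_forall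
  intro u
  simp only [hM, Matrix.toLin'_apply, Matrix.mulVec, dotProduct, Fin.sum_univ_two]
  simp
  congr 1
  module

/-- the cone over the points of `V` over a field -/
def Cn (K : Type*) [Field K] : Set (Fin 5 × Fin 5 → K) :=
  {w | w ≠ 0 ∧ ∃ x y : Fin 5 → K, Iso x y ∧ w = wedge x y}

/-- the norms at the real place -/
structure RN (N : (Fin 5 × Fin 5 → ℝ) → ℝ) : Prop where
  cts : ContinuousOn N (Cn ℝ)
  pos : ∀ w ∈ Cn ℝ, 0 < N w
  hom : ∀ w ∈ Cn ℝ, ∀ t : ℝ, t ≠ 0 → N (t • w) = |t| ^ 2 * N w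

theorem Cn_smul {K : Type*} [Field K] {w : Fin 5 × Fin 5 → K} (hw : w ∈ Cn K) {t : K} (ht : t ≠ 0) :
    t • w ∈ Cn K := by
  obtain ⟨h0, x, y, hi, rfl⟩ := hw
  refine ⟨smul_ne_zero ht h0, t • x, y, iso_smul_left t hi, ?_⟩
  have := wedge_smul t 1 x y
  simp only [one_smul, mul_one] at this
  exact this.symm

theorem mm_Cn {K : Type*} [Field K] {u : Fin 5 → K} (h : mm u ≠ 0) : mm u ∈ Cn K :=
  ⟨h, u, hes u, iso_hes u, rfl⟩

theorem continuous_wedge : Continuous (fun t : (Fin 5 → ℝ) × (Fin 5 → ℝ) => wedge t.1 t.2) := by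
  apply continuous_pi
  intro p
  simp only [wedge]
  fun_prop

variable {N : (Fin 5 × Fin 5 → ℝ) → ℝ}

theorem RN.bounds (hN : RN N) : ∃ n0 n1 : ℝ, 0 < n0 ∧ 0 < n1 ∧ ∀ w ∈ Cn ℝ,
    n0 * ‖w‖ ^ 2 ≤ N w ∧ N w ≤ n1 * ‖w‖ ^ 2 := by
  have hmap : Set.MapsTo (fun t : (Fin 5 → ℝ) × (Fin 5 → ℝ) => wedge t.1 t.2) (KI 2) (Cn ℝ) := by
    intro t ht
    refine ⟨?_, t.1, t.2, ht.2, rfl⟩
    intro h
    have := ht.1.2.2
    simp only at h
    rw [h, norm_zero] at this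
    exact zero_ne_one this
  have hcont : ContinuousOn (fun t : (Fin 5 → ℝ) × (Fin 5 → ℝ) => N (wedge t.1 t.2)) (KI 2) :=
    hN.cts.comp continuous_wedge.continuousOn hmap
  have key : ∃ n0 n1 : ℝ, 0 < n0 ∧ 0 < n1 ∧ ∀ t ∈ KI 2, n0 ≤ N (wedge t.1 t.2) ∧ N (wedge t.1 t.2) ≤ n1 := by
    by_cases hne : (KI 2).Nonempty
    · obtain ⟨t0, ht0, hmin⟩ := (isCompact_KI 2).exists_isMinOn hne hcont
      obtain ⟨t1, ht1, hmax⟩ := (isCompact_KI 2).exists_isMaxOn hne hcont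
      exact ⟨_, _, hN.pos _ (hmap ht0), hN.pos _ (hmap ht1), fun t ht => ⟨hmin ht, hmax ht⟩⟩
    · exact ⟨1, 1, one_pos, one_pos, fun t ht => absurd ⟨t, ht⟩ hne⟩
  obtain ⟨n0, n1, h0, h1, hn⟩ := key
  refine ⟨n0, n1, h0, h1, ?_⟩
  rintro w ⟨hw0, x, y, hi, rfl⟩
  have hnw : 0 < ‖wedge x y‖ := norm_pos_iff.mpr hw0
  set l := ‖wedge x y‖ with hl
  have hi' : Iso (l⁻¹ • x) y := iso_smul_left _ hi
  have hw' : wedge (l⁻¹ • x) y = l⁻¹ • wedge x y := by
    have := wedge_smul l⁻¹ 1 x y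
    simpa using this
  have hn' : ‖wedge (l⁻¹ • x) y‖ = 1 := by
    rw [hw', norm_smul, norm_inv, Real.norm_eq_abs, abs_of_pos hnw, ← hl]
    field_simp
  obtain ⟨α, β, γ, δ, hdet, hmem⟩ := exists_balanced _ _ hi' hn'
  have h2 := hn _ hmem
  simp only at h2
  rw [wedge_comb, hdet, one_smul] at h2
  have h3 : wedge x y = l • wedge (l⁻¹ • x) y := by
    rw [hw', smul_smul, mul_inv_cancel₀ hnw.ne', one_smul]
  have h4 : wedge (l⁻¹ • x) y ∈ Cn ℝ := by
    refine ⟨?_, _, _, hi', rfl⟩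
    intro h
    rw [h, norm_zero] at hn'
    exact zero_ne_one hn'
  have h5 : N (wedge x y) = l ^ 2 * N (wedge (l⁻¹ • x) y) := by
    have := hN.hom _ h4 l hnw.ne'
    rw [← h3, abs_of_pos hnw] at this
    exact this
  rw [h5]
  have hl2 : 0 < l ^ 2 := by positivity
  constructor
  · nlinarith [h2.1]
  · nlinarith [h2.2]

/-- the normalized area of the plane of `u` -/
noncomputable def ar (χ : (Fin 5 → ℝ) → ℝ) (u : Fin 5 → ℝ) : ℝ :=
  area χ ((√‖mm u‖)⁻¹ • u) ((√‖mm u‖)⁻¹ • hes u)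

variable {χ : (Fin 5 → ℝ) → ℝ} {d α₀ : ℝ}

theorem ar_ge (hW : Wt χ d α₀) (u : Fin 5 → ℝ) (hm : mm u ≠ 0) : α₀ ≤ ar χ u :=
  hW.area_ge _ _ (pair_mm u hm).1 (pair_mm u hm).2

theorem isOpen_mm : IsOpen {u : Fin 5 → ℝ | mm u ≠ 0} :=
  isOpen_ne_fun continuous_mm continuous_const

theorem Wt.hcs (hW : Wt χ d α₀) : HasCompactSupport χ := hcs_of_bdd χ 5 (fun u hu => (hW.supp u hu).1)

theorem ar_cont (hW : Wt χ d α₀) : ContinuousOn (ar χ) {u | mm u ≠ 0} := by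
  intro u0 hu0
  apply ContinuousAt.continuousWithinAt
  set f : (Fin 5 → ℝ) → (Fin 5 → ℝ) × (Fin 5 → ℝ) := fun u =>
    ((√‖mm u‖)⁻¹ • u, (√‖mm u‖)⁻¹ • hes u) with hf
  have hs : ContinuousAt (fun u : Fin 5 → ℝ => (√‖mm u‖)⁻¹) u0 := by
    apply ContinuousAt.inv₀
    · have h := continuous_mm
      have : Continuous (fun u : Fin 5 → ℝ => √‖mm u‖) := by fun_prop
      exact this.continuousAt
    · exact (Real.sqrt_pos.mpr (norm_pos_iff.mpr hu0)).ne'
  have hfc : ContinuousAt f u0 := by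
    apply ContinuousAt.prodMk
    · exact hs.smul continuousAt_id
    · exact hs.smul continuous_hes.continuousAt
  set D : ℝ := ‖f u0‖ + 1 with hD
  have hD0 : 0 < D := by positivity
  have hev : ∀ᶠ u in 𝓝 u0, f u ∈ KK D := by
    have h1 : ∀ᶠ u in 𝓝 u0, mm u ≠ 0 := isOpen_mm.mem_nhds hu0
    have h2 : ∀ᶠ u in 𝓝 u0, ‖f u‖ < D := hfc.norm.eventually_lt_const (by rw [hD]; linarith)
    filter_upwards [h1, h2] with u h1 h2
    rw [Prod.norm_def, max_lt_iff] at h2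
    exact ⟨h2.1.le, h2.2.le, (pair_mm u h1).2⟩
  have hc := area_cont χ hW.cts hW.hcs D hD0
  have h3 : ContinuousWithinAt (fun t : (Fin 5 → ℝ) × (Fin 5 → ℝ) => area χ t.1 t.2) (KK D) (f u0) :=
    hc (f u0) hev.self_of_nhds
  have h4 : Tendsto f (𝓝 u0) (𝓝[KK D] (f u0)) := by
    rw [tendsto_nhdsWithin_iff]
    exact ⟨hfc, hev⟩
  exact h3.tendsto.comp h4

theorem ar_smul (hW : Wt χ d α₀) (u : Fin 5 → ℝ) (hm : mm u ≠ 0) (t : ℝ) (ht : t ≠ 0) :
    ar χ (t • u) = ar χ u := by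
  have hnpos : 0 < ‖mm u‖ := norm_pos_iff.mpr hm
  have ht' : 0 < |t| := abs_pos.mpr ht
  have hm' : ‖mm (t • u)‖ = |t| ^ 3 * ‖mm u‖ := by
    rw [mm_smul, norm_smul, norm_pow, Real.norm_eq_abs]
  have hsq : √‖mm (t • u)‖ = √(|t| ^ 3) * √‖mm u‖ := by
    rw [hm', Real.sqrt_mul (by positivity)]
  set s := √(|t| ^ 3) with hs
  have hs0 : 0 < s := Real.sqrt_pos.mpr (by positivity)
  have hs2 : s * s = |t| ^ 3 := Real.mul_self_sqrt (by positivity)
  rw [ar, ar, hsq]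
  set r := √‖mm u‖ with hr
  have hr0 : 0 < r := Real.sqrt_pos.mpr hnpos
  have h1 := area_comb' χ hW.cts (r⁻¹ • u) (r⁻¹ • hes u) (s⁻¹ * t) 0 0 (s⁻¹ * t ^ 2) (by
    have : s⁻¹ * t * (s⁻¹ * t ^ 2) - 0 * 0 = (s * s)⁻¹ * t ^ 3 := by
      rw [mul_inv]; ring
    rw [this, hs2, abs_mul, abs_inv, abs_pow, abs_pow, abs_abs]
    field_simp)
  rw [← h1]
  congr 1
  · funext i
    simp only [Pi.smul_apply, Pi.add_apply, smul_eq_mul, mul_inv]
    ring
  · rw [hes_smul]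
    funext i
    simp only [Pi.smul_apply, Pi.add_apply, smul_eq_mul, mul_inv]
    ring

theorem ar_plane (hW : Wt χ d α₀) {w : Fin 5 × Fin 5 → ℤ} (hw : w ∈ VV) {b c : Fin 5 → ℤ}
    (hwbc : w = wedge b c) {x : Fin 5 → ℤ} (hx : In w x) (hm : mm x ≠ 0) :
    ar χ (rv x) = area χ ((√(nz w))⁻¹ • rv b) ((√(nz w))⁻¹ • rv c) := by
  obtain ⟨k, hk, -⟩ := mm_of_in hw hx
  have hu : Unimod (wedge b c) := hwbc ▸ hw.1
  have hk0 : k ≠ 0 := by
    rintro rfl
    exact hm (by rw [hk, zero_smul])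
  have hhes : In w (hes x) := by
    intro i j l
    have h1 : k * (hes x i * w (j, l) - hes x j * w (i, l) + hes x l * w (i, j)) = 0 := by
      have e1 : ∀ p, mm x p = k * w p := fun p => by rw [hk]; rfl
      have : hes x i * mm x (j, l) - hes x j * mm x (i, l) + hes x l * mm x (i, j) = 0 := by
        simp only [mm, wedge]
        ring
      rw [e1, e1, e1] at this
      linear_combination this
    exact (mul_eq_zero.1 h1).resolve_left hk0
  rw [hwbc] at hx hhes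
  obtain ⟨a, e, hxe⟩ := (in_wedge_iff hu).1 hx
  obtain ⟨a', e', hhe⟩ := (in_wedge_iff hu).1 hhes
  have hdet : a * e' - e * a' = k := by
    have h1 : mm x = (a * e' - e * a') • wedge b c := by
      rw [mm]
      conv_lhs => rw [hhe, hxe]
      rw [wedge_comb]
    rw [hk, hwbc] at h1
    obtain ⟨f, hf⟩ := hu
    have h2 : ∑ p, f p * (k • wedge b c) p = ∑ p, f p * ((a * e' - e * a') • wedge b c) p := by rw [h1]
    simp only [Pi.smul_apply, smul_eq_mul] at h2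
    have h3 : ∀ m : ℤ, ∑ p, f p * (m * wedge b c p) = m := by
      intro m
      calc ∑ p, f p * (m * wedge b c p) = m * ∑ p, f p * wedge b c p := by
            rw [Finset.mul_sum]
            exact Finset.sum_congr rfl fun p _ => by ring
        _ = m := by rw [hf, mul_one]
    rw [h3, h3] at h2
    exact h2.symm
  have hwpos : 0 < nz w := lt_of_lt_of_le one_pos (one_le_nz' hw.1)
  have hnm : ‖mm (rv x)‖ = |(k : ℝ)| * nz w := by
    rw [← rv_mm, hk]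
    exact nz_smul k w
  have hk' : 0 < |(k : ℝ)| := abs_pos.mpr (by exact_mod_cast hk0)
  have hsq : √‖mm (rv x)‖ = √|(k : ℝ)| * √(nz w) := by
    rw [hnm, Real.sqrt_mul hk'.le]
  set l := √|(k : ℝ)| with hl
  have hl0 : 0 < l := Real.sqrt_pos.mpr hk'
  have hl2 : l * l = |(k : ℝ)| := Real.mul_self_sqrt hk'.le
  rw [ar, hsq]
  set s := √(nz w) with hs
  have hs0 : 0 < s := Real.sqrt_pos.mpr hwpos
  have h1 := area_comb' χ hW.cts (s⁻¹ • rv b) (s⁻¹ • rv c) (l⁻¹ * a) (l⁻¹ * e) (l⁻¹ * a') (l⁻¹ * e') (by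
    have : l⁻¹ * a * (l⁻¹ * e') - l⁻¹ * e * (l⁻¹ * a') = (l * l)⁻¹ * (a * e' - e * a') := by
      rw [mul_inv]; ring
    rw [this, hl2]
    have h2 : ((a : ℝ) * e' - e * a') = k := by exact_mod_cast hdet
    rw [h2, abs_mul, abs_inv, abs_abs]
    field_simp)
  rw [← h1]
  have hrx : rv x = (a : ℝ) • rv b + (e : ℝ) • rv c := by rw [← rv_comb, ← hxe]
  have hrh : hes (rv x) = (a' : ℝ) • rv b + (e' : ℝ) • rv c := by
    have h2 : hes (rv x) = rv (hes x) := by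
      funext i
      fin_cases i <;> simp [rv, hes]
    rw [h2, hhe, rv_comb]
  congr 1
  · rw [hrx]
    funext i
    simp only [Pi.smul_apply, Pi.add_apply, smul_eq_mul, mul_inv]
    ring
  · rw [hrh]
    funext i
    simp only [Pi.smul_apply, Pi.add_apply, smul_eq_mul, mul_inv]
    ring

end Pool.Agent.KS6_30.V5
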