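import Pool.Agent.KS6_30.V5.G6

/-!
# The number of planes of bounded height
-/

set_option autoImplicit false

namespace Pool.Agent.KS6_30.V5

open Filter Topology MeasureTheory Pool.Agent.KS6_53.V5 Finset

variable {N : (Fin 5 × Fin 5 → ℝ) → ℝ}
variable {Θ : (Fin 5 × Fin 5 → ℤ) → ℝ} {θ : (Fin 5 → ℤ) → ℝ} {a b : ℝ}

/-- a trapezoid -/
noncomputable def trap (ε η t : ℝ) : ℝ := max 0 (min 1 (min ((t - ε / 2) / (ε / 2)) ((1 + η - t) / η)))

theorem trap_le (ε η t : ℝ) : trap ε η t ≤ 1 := max_le zero_le_one (min_le_left _ _)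

theorem trap_nonneg (ε η t : ℝ) : 0 ≤ trap ε η t := le_max_left _ _

theorem trap_one {ε η t : ℝ} (hε : 0 < ε) (hη : 0 < η) (h1 : ε ≤ t) (h2 : t ≤ 1) : trap ε η t = 1 := by
  rw [trap]
  have e1 : 1 ≤ (t - ε / 2) / (ε / 2) := by rw [le_div_iff₀ (by positivity)]; linarith
  have e2 : 1 ≤ (1 + η - t) / η := by rw [le_div_iff₀ (by positivity)]; linarith
  rw [min_eq_left (le_min e1 e2)]
  norm_num

theorem trap_supp {ε η t : ℝ} (hε : 0 < ε) (hη : 0 < η) (h : trap ε η t ≠ 0) : ε / 2 < t ∧ t < 1 + η := by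
  constructor
  · by_contra hcon
    push Not at hcon
    apply h
    rw [trap]
    apply max_eq_left
    refine (min_le_right _ _).trans ((min_le_left _ _).trans ?_)
    exact div_nonpos_of_nonpos_of_nonneg (by linarith) (by positivity)
  · by_contra hcon
    push Not at hcon
    apply h
    rw [trap]
    apply max_eq_left
    refine (min_le_right _ _).trans ((min_le_right _ _).trans ?_)
    exact div_nonpos_of_nonpos_of_nonneg (by linarith) (by positivity)

theorem trap_hf {ε η : ℝ} (hε : 0 < ε) (hη : 0 < η) : Hf (trap ε η) (ε / 2) (1 + η) := by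
  refine ⟨?_, fun t => trap_nonneg _ _ _, by positivity, fun t ht => ?_⟩
  · unfold trap
    fun_prop
  · have := trap_supp hε hη ht
    exact ⟨this.1.le, this.2.le⟩

/-- the counting function -/
noncomputable def NU (N : (Fin 5 × Fin 5 → ℝ) → ℝ) (Θ : (Fin 5 × Fin 5 → ℤ) → ℝ) (T : ℝ) : ℝ :=
  ({w : Fin 5 × Fin 5 → ℤ | w ∈ VV ∧ UU w ∧ N (rv w) * Θ w ≤ T ^ 2}.ncard : ℝ)

theorem nz_le_of_height (hH : Ht N Θ θ a b) : ∃ m : ℝ, 0 < m ∧ ∀ w ∈ VV, m * nz w ^ 2 ≤ N (rv w) * Θ w := by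
  obtain ⟨n0, n1, hn0, hn1, hn⟩ := hH.rn.bounds
  have ha := hH.apos
  refine ⟨n0 * a, by positivity, fun w hw => ?_⟩
  have h4 := (hn _ (rv_Cn hw)).1
  have h5 := (hH.bd w hw).1
  have hnw : ‖rv w‖ = nz w := rfl
  rw [hnw] at h4
  calc n0 * a * nz w ^ 2 = n0 * nz w ^ 2 * a := by ring
    _ ≤ N (rv w) * Θ w := by
      apply mul_le_mul h4 h5 ha.le
      have : 0 ≤ n0 * nz w ^ 2 := by positivity
      linarith

theorem NU_limit (hH : Ht N Θ θ a b) (P : Finset ℕ) (hP : ∀ p ∈ P, p.Prime) (hadm : Adm P θ) :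
    ∃ L : ℝ, 0 < L ∧ Tendsto (fun T => NU N Θ T / T ^ 2) atTop (𝓝 L) := by
  classical
  obtain ⟨m, hm, hmH⟩ := nz_le_of_height hH
  obtain ⟨Cu, hCu, hub⟩ := ub
  have ha := hH.apos
  have hab := hH.ab
  have hb : 0 < b := by linarith
  -- bound for the norm
  have hnz : ∀ w ∈ VV, ∀ Y : ℝ, 0 ≤ Y → N (rv w) * Θ w ≤ Y → nz w ≤ √(Y / m) := by
    intro w hw Y hY h
    apply Real.le_sqrt_of_sq_le
    rw [le_div_iff₀ hm]
    have := hmH w hw
    linarith
  have hcount : ∀ y T : ℝ, 0 < y → 0 < T → 1 ≤ √(y / m) * T →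
      {w : Fin 5 × Fin 5 → ℤ | w ∈ VV ∧ N (rv w) * Θ w ≤ y * T ^ 2}.Finite ∧
      ({w : Fin 5 × Fin 5 → ℤ | w ∈ VV ∧ N (rv w) * Θ w ≤ y * T ^ 2}.ncard : ℝ) ≤ Cu * (y / m) * T ^ 2 := by
    intro y T hy hT hyT
    have hsub : {w : Fin 5 × Fin 5 → ℤ | w ∈ VV ∧ N (rv w) * Θ w ≤ y * T ^ 2} ⊆
        {w ∈ VV | nz w ≤ √(y / m) * T} := by
      rintro w ⟨h1, h2⟩
      refine ⟨h1, ?_⟩
      have h3 := hnz w h1 _ (by positivity) h2
      have h4 : √(y * T ^ 2 / m) = √(y / m) * T := by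
        have : y * T ^ 2 / m = (y / m) * T ^ 2 := by ring
        rw [this, Real.sqrt_mul (by positivity), Real.sqrt_sq hT.le]
      rwa [h4] at h3
    obtain ⟨hf, hc⟩ := hub (√(y / m) * T) hyT
    refine ⟨hf.subset hsub, ?_⟩
    have h5 := Set.ncard_le_ncard hsub hf
    calc _ ≤ (({w ∈ VV | nz w ≤ √(y / m) * T}).ncard : ℝ) := by exact_mod_cast h5
      _ ≤ Cu * (√(y / m) * T) ^ 2 := hc
      _ = _ := by
        rw [mul_pow, Real.sq_sqrt (by positivity)]
        ring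
  have hevy : ∀ y : ℝ, 0 < y → ∀ᶠ T : ℝ in atTop, 1 ≤ √(y / m) * T := by
    intro y hy
    have h1 : 0 < √(y / m) := Real.sqrt_pos.mpr (by positivity)
    filter_upwards [eventually_ge_atTop (1 / √(y / m))] with T hT
    rw [div_le_iff₀ h1] at hT
    linarith
  -- SU as a finite sum over the planes with height at most 2 T^2
  have hSU : ∀ (h : ℝ → ℝ) (T : ℝ), 0 < T → (∀ t, h t ≠ 0 → t ≤ 2) →
      SU N Θ h T = ∑ w ∈ (Wf (√(2 * T ^ 2 / m))).filter (fun w => UU w), h (N (rv w) * Θ w / T ^ 2) := by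
    intro h T hT hs
    apply SU_eq
    intro w hw hne
    apply hnz w hw _ (by positivity)
    have := hs _ hne
    rwa [div_le_iff₀ (by positivity)] at this
  have hNU : ∀ T : ℝ, 0 < T → NU N Θ T =
      ∑ w ∈ (Wf (√(2 * T ^ 2 / m))).filter (fun w => UU w), (if N (rv w) * Θ w ≤ T ^ 2 then (1 : ℝ) else 0) := by
    intro T hT
    have e : {w : Fin 5 × Fin 5 → ℤ | w ∈ VV ∧ UU w ∧ N (rv w) * Θ w ≤ T ^ 2} =
        (((Wf (√(2 * T ^ 2 / m))).filter (fun w => UU w)).filter (fun w => N (rv w) * Θ w ≤ T ^ 2) : Finset _) := by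
      ext w
      rw [Finset.mem_coe, Finset.mem_filter, Finset.mem_filter, mem_Wf, Set.mem_ofPred_eq]
      constructor
      · rintro ⟨h1, h2, h3⟩
        refine ⟨⟨⟨h1, ?_⟩, h2⟩, h3⟩
        apply hnz w h1 _ (by positivity)
        have : 0 < T ^ 2 := by positivity
        linarith
      · rintro ⟨⟨⟨h1, _⟩, h2⟩, h3⟩
        exact ⟨h1, h2, h3⟩
    rw [NU, e, Set.ncard_coe_finset, ← Finset.sum_filter, Finset.sum_const, nsmul_eq_mul, mul_one]
  -- limits for the trapezoids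
  have hlim : ∀ ε η : ℝ, 0 < ε → 0 < η → ∃ L : ℝ, Tendsto (fun T => SU N Θ (trap ε η) T / T ^ 2) atTop (𝓝 L) ∧
      ((∃ t1 : ℝ, 0 < t1 ∧ ∀ t ∈ Set.Icc t1 (t1 * (b / a)), 0 < trap ε η t) → 0 < L) :=
    fun ε η hε hη => SU_limit hH P hP hadm (trap_hf hε hη)
  -- lower bound for NU
  have hlow : ∀ ε η T : ℝ, 0 < ε → 0 < η → η ≤ 1 → 0 < T → SU N Θ (trap ε η) T ≤ NU N Θ (√(1 + η) * T) := by
    intro ε η T hε hη hη1 hT
    have hs : 0 < √(1 + η) := Real.sqrt_pos.mpr (by positivity)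
    have hs2 : √(1 + η) ^ 2 = 1 + η := Real.sq_sqrt (by positivity)
    rw [hSU _ T hT (fun t ht => by have := (trap_supp hε hη ht).2; linarith), NU]
    have e : {w : Fin 5 × Fin 5 → ℤ | w ∈ VV ∧ UU w ∧ N (rv w) * Θ w ≤ (√(1 + η) * T) ^ 2} =
        (((Wf (√(2 * T ^ 2 / m))).filter (fun w => UU w)).filter
          (fun w => N (rv w) * Θ w ≤ (√(1 + η) * T) ^ 2) : Finset _) := by
      ext w
      rw [Finset.mem_coe, Finset.mem_filter, Finset.mem_filter, mem_Wf, Set.mem_ofPred_eq]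
      constructor
      · rintro ⟨h1, h2, h3⟩
        refine ⟨⟨⟨h1, ?_⟩, h2⟩, h3⟩
        apply hnz w h1 _ (by positivity)
        rw [mul_pow, hs2] at h3
        have : 0 < T ^ 2 := by positivity
        nlinarith
      · rintro ⟨⟨⟨h1, _⟩, h2⟩, h3⟩
        exact ⟨h1, h2, h3⟩
    rw [e, Set.ncard_coe_finset]
    have e2 : ((((Wf (√(2 * T ^ 2 / m))).filter (fun w => UU w)).filter
          (fun w => N (rv w) * Θ w ≤ (√(1 + η) * T) ^ 2)).card : ℝ) =
        ∑ w ∈ (Wf (√(2 * T ^ 2 / m))).filter (fun w => UU w),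
          (if N (rv w) * Θ w ≤ (√(1 + η) * T) ^ 2 then (1 : ℝ) else 0) := by
      rw [← Finset.sum_filter, Finset.sum_const, nsmul_eq_mul, mul_one]
    rw [e2]
    apply Finset.sum_le_sum
    intro w hw
    split_ifs with h
    · exact trap_le _ _ _
    · by_contra hcon
      push Not at hcon
      have h1 := (trap_supp hε hη hcon.ne').2
      apply h
      rw [mul_pow, hs2]
      rw [div_lt_iff₀ (by positivity)] at h1
      exact h1.le
  -- upper bound for NU
  have hup : ∀ ε η T : ℝ, 0 < ε → 0 < η → η ≤ 1 → 0 < T → 1 ≤ √(ε / m) * T →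
      NU N Θ T ≤ SU N Θ (trap ε η) T + Cu * (ε / m) * T ^ 2 := by
    intro ε η T hε hη hη1 hT hyT
    obtain ⟨hf, hc⟩ := hcount ε T hε hT hyT
    rw [hSU _ T hT (fun t ht => by have := (trap_supp hε hη ht).2; linarith), hNU T hT]
    set Fs := (Wf (√(2 * T ^ 2 / m))).filter (fun w => UU w) with hFs
    have h1 : ∀ w ∈ Fs, (if N (rv w) * Θ w ≤ T ^ 2 then (1 : ℝ) else 0) ≤
        trap ε η (N (rv w) * Θ w / T ^ 2) + (if N (rv w) * Θ w ≤ ε * T ^ 2 then (1 : ℝ) else 0) := by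
      intro w hw
      have t0 := trap_nonneg ε η (N (rv w) * Θ w / T ^ 2)
      have hT2 : 0 < T ^ 2 := by positivity
      by_cases h2 : N (rv w) * Θ w ≤ ε * T ^ 2
      · rw [if_pos h2]
        split_ifs <;> linarith
      · rw [if_neg h2, add_zero]
        split_ifs with h3
        · rw [trap_one hε hη]
          · rw [le_div_iff₀ hT2]
            push Not at h2
            exact h2.le
          · rw [div_le_one hT2]
            exact h3
        · exact t0
    refine (Finset.sum_le_sum h1).trans ?_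
    rw [Finset.sum_add_distrib]
    gcongr
    rw [← Finset.sum_filter, Finset.sum_const, nsmul_eq_mul, mul_one]
    refine le_trans ?_ hc
    have h3 : ((Fs.filter (fun w => N (rv w) * Θ w ≤ ε * T ^ 2) : Finset _) : Set (Fin 5 × Fin 5 → ℤ)) ⊆
        {w : Fin 5 × Fin 5 → ℤ | w ∈ VV ∧ N (rv w) * Θ w ≤ ε * T ^ 2} := by
      intro w hw
      rw [Finset.mem_coe, Finset.mem_filter, hFs, Finset.mem_filter, mem_Wf] at hw
      exact ⟨hw.1.1.1, hw.2⟩
    have h4 := Set.ncard_le_ncard h3 hf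
    rw [Set.ncard_coe_finset] at h4
    exact_mod_cast h4
  -- uniform bound of the limits
  set Bd := Cu * (2 / m) with hBd
  have hBd0 : 0 < Bd := by positivity
  have hLbd : ∀ ε η L : ℝ, 0 < ε → 0 < η → η ≤ 1 → Tendsto (fun T => SU N Θ (trap ε η) T / T ^ 2) atTop (𝓝 L) →
      L ≤ Bd := by
    intro ε η L hε hη hη1 hL
    apply le_of_tendsto hL
    filter_upwards [hevy 2 (by norm_num), eventually_gt_atTop 0] with T h1 hT
    obtain ⟨hf, hc⟩ := hcount 2 T (by norm_num) hT h1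
    rw [div_le_iff₀ (by positivity), hBd]
    refine le_trans ?_ hc
    rw [hSU _ T hT (fun t ht => by have := (trap_supp hε hη ht).2; linarith)]
    set Fs := (Wf (√(2 * T ^ 2 / m))).filter (fun w => UU w) with hFs
    have h2 : ∀ w ∈ Fs, trap ε η (N (rv w) * Θ w / T ^ 2) ≤
        (if N (rv w) * Θ w ≤ 2 * T ^ 2 then (1 : ℝ) else 0) := by
      intro w hw
      split_ifs with h3
      · exact trap_le _ _ _
      · by_contra hcon
        push Not at hcon
        have h4 := (trap_supp hε hη hcon.ne').2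
        apply h3
        rw [div_lt_iff₀ (by positivity)] at h4
        have : 0 < T ^ 2 := by positivity
        nlinarith
    refine (Finset.sum_le_sum h2).trans ?_
    rw [← Finset.sum_filter, Finset.sum_const, nsmul_eq_mul, mul_one]
    have h3 : ((Fs.filter (fun w => N (rv w) * Θ w ≤ 2 * T ^ 2) : Finset _) : Set (Fin 5 × Fin 5 → ℤ)) ⊆
        {w : Fin 5 × Fin 5 → ℤ | w ∈ VV ∧ N (rv w) * Θ w ≤ 2 * T ^ 2} := by
      intro w hw
      rw [Finset.mem_coe, Finset.mem_filter, hFs, Finset.mem_filter, mem_Wf] at hw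
      exact ⟨hw.1.1.1, hw.2⟩
    have h4 := Set.ncard_le_ncard h3 hf
    rw [Set.ncard_coe_finset] at h4
    exact_mod_cast h4
  -- the lower limits
  have hlow2 : ∀ ε η L : ℝ, 0 < ε → 0 < η → η ≤ 1 → Tendsto (fun T => SU N Θ (trap ε η) T / T ^ 2) atTop (𝓝 L) →
      ∀ γ : ℝ, 0 < γ → ∀ᶠ T : ℝ in atTop, L / (1 + η) - γ ≤ NU N Θ T / T ^ 2 := by
    intro ε η L hε hη hη1 hL γ hγ
    have hs : 0 < √(1 + η) := Real.sqrt_pos.mpr (by positivity)
    have hs2 : √(1 + η) ^ 2 = 1 + η := Real.sq_sqrt (by positivity)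
    have h1 : Tendsto (fun T : ℝ => T / √(1 + η)) atTop atTop := tendsto_id.atTop_div_const hs
    have h2 := (hL.comp h1).div_const (1 + η)
    have h3 := (Metric.tendsto_nhds.mp h2) γ hγ
    filter_upwards [h3, eventually_gt_atTop 0] with T h3 hT
    rw [Real.dist_eq] at h3
    simp only [Function.comp_apply] at h3
    have h4 := hlow ε η (T / √(1 + η)) hε hη hη1 (by positivity)
    have h5 : √(1 + η) * (T / √(1 + η)) = T := by field_simp
    rw [h5] at h4
    have h6 : SU N Θ (trap ε η) (T / √(1 + η)) / (T / √(1 + η)) ^ 2 / (1 + η) =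
        SU N Θ (trap ε η) (T / √(1 + η)) / T ^ 2 := by
      rw [div_pow, hs2]
      field_simp
    rw [h6] at h3
    have h7 := (abs_lt.mp h3).1
    have h8 : SU N Θ (trap ε η) (T / √(1 + η)) / T ^ 2 ≤ NU N Θ T / T ^ 2 := by gcongr
    linarith
  obtain ⟨L, hL⟩ := exists_limit (fun T => NU N Θ T / T ^ 2) (by
    intro ε hε
    set ε' := ε / 4 / (Cu / m) with hε'
    have hε'0 : 0 < ε' := by positivity
    set η := min 1 (ε / 4 / Bd) with hη
    have hη0 : 0 < η := by positivity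
    have hη1 : η ≤ 1 := min_le_left _ _
    have hηB : Bd * η ≤ ε / 4 := by
      calc Bd * η ≤ Bd * (ε / 4 / Bd) := by gcongr; exact min_le_right _ _
        _ = ε / 4 := by field_simp
    obtain ⟨L, hL, -⟩ := hlim ε' η hε'0 hη0
    have hLB := hLbd ε' η L hε'0 hη0 hη1 hL
    refine ⟨L, ?_⟩
    have h1 := hlow2 ε' η L hε'0 hη0 hη1 hL (ε / 4) (by positivity)
    have h2 := (Metric.tendsto_nhds.mp hL) (ε / 4) (by positivity)
    filter_upwards [h1, h2, hevy ε' hε'0, eventually_gt_atTop 0] with T h1 h2 h3 hT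
    rw [Real.dist_eq] at h2
    have hT2 : 0 < T ^ 2 := by positivity
    have h4 := hup ε' η T hε'0 hη0 hη1 hT h3
    have h5 : NU N Θ T / T ^ 2 ≤ SU N Θ (trap ε' η) T / T ^ 2 + ε / 4 := by
      rw [div_le_iff₀ hT2]
      refine h4.trans (le_of_eq ?_)
      rw [hε']
      field_simp
    have hL0 : 0 ≤ L := by
      apply ge_of_tendsto hL
      filter_upwards [eventually_gt_atTop 0] with T' hT'
      apply div_nonneg _ (by positivity)
      rw [hSU _ T' hT' (fun t ht => by have := (trap_supp hε'0 hη0 ht).2; linarith)]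
      exact Finset.sum_nonneg fun w _ => trap_nonneg _ _ _
    have h6 : L - ε / 4 ≤ L / (1 + η) := by
      rw [le_div_iff₀ (by positivity)]
      nlinarith
    have h7 := abs_lt.mp h2
    rw [abs_le]
    constructor <;> linarith [h7.1, h7.2])
  refine ⟨L, ?_, hL⟩
  -- positivity
  obtain ⟨L1, hL1, hpos⟩ := hlim (a / b) 1 (by positivity) one_pos
  have hL10 : 0 < L1 := by
    apply hpos
    refine ⟨a / b, by positivity, fun t ht => ?_⟩
    have e : a / b * (b / a) = 1 := by field_simp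
    rw [e] at ht
    rw [trap_one (by positivity) one_pos ht.1 ht.2]
    exact one_pos
  have h1 := hlow2 (a / b) 1 L1 (by positivity) one_pos le_rfl hL1 (L1 / 4) (by positivity)
  have h2 : L1 / (1 + 1) - L1 / 4 ≤ L := ge_of_tendsto hL h1
  have : L1 / (1 + 1) - L1 / 4 = L1 / 4 := by ring
  rw [this] at h2
  linarith

end Pool.Agent.KS6_30.V5
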