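import Pool.Agent.KS6_30.V5.LA
import Pool.Agent.KS6_30.V5.KL
import Pool.Agent.KS6_30.V5.BLh

/-!
# Primitive lattice points of the plane in a class
-/

set_option autoImplicit false

namespace Pool.Agent.KS6_30.V5

open Filter Topology MeasureTheory Pool.Agent.KS6_53.V5 Finset

/-- congruent vectors -/
def cg (Q : ℕ) (c z : ℤ × ℤ) : Prop := (Q : ℤ) ∣ z.1 - c.1 ∧ (Q : ℤ) ∣ z.2 - c.2

/-- the sum of the values at the vectors of a set -/
noncomputable def rs (S : Set (ℤ × ℤ)) (χ : ℝ × ℝ → ℝ) (r : ℝ) : ℝ :=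
  ∑ᶠ z ∈ S, χ ((z.1 : ℝ) / r, (z.2 : ℝ) / r)

/-- a box -/
noncomputable def bx (n : ℤ) : Finset (ℤ × ℤ) := Finset.Icc (-n) n ×ˢ Finset.Icc (-n) n

theorem mem_bx (n : ℤ) (z : ℤ × ℤ) : z ∈ bx n ↔ |z.1| ≤ n ∧ |z.2| ≤ n := by
  rw [bx, Finset.mem_product, Finset.mem_Icc, Finset.mem_Icc, ← abs_le, ← abs_le]

theorem bx_card (n : ℤ) (hn : 0 ≤ n) : ((bx n).card : ℝ) = (2 * n + 1) ^ 2 := by
  rw [bx, Finset.card_product, Int.card_Icc]
  have h1 : ((n + 1 - -n).toNat : ℤ) = 2 * n + 1 := by omega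
  have h2 : (((n + 1 - -n).toNat : ℕ) : ℝ) = 2 * n + 1 := by exact_mod_cast h1
  push_cast
  rw [h2]
  ring

theorem rs_eq (S : Set (ℤ × ℤ)) [DecidablePred (fun z => z ∈ S)] (χ : ℝ × ℝ → ℝ) (A r : ℝ) (hA : ∀ z, χ z ≠ 0 → |z.1| ≤ A ∧ |z.2| ≤ A)
    (hr : 0 < r) (n : ℤ) (hn : A * r < n + 1) : rs S χ r = ∑ z ∈ (bx n).filter (fun z => z ∈ S),
      χ ((z.1 : ℝ) / r, (z.2 : ℝ) / r) := by
  rw [rs, ← finsum_mem_coe_finset]
  apply finsum_mem_inter_support_eq'
  intro z hz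
  have h1 := hA _ hz
  simp only at h1
  have key : ∀ a : ℤ, |(a : ℝ) / r| ≤ A → |a| ≤ n := by
    intro a ha
    rw [abs_div, abs_of_pos hr, div_le_iff₀ hr] at ha
    have : ((|a| : ℤ) : ℝ) < n + 1 := by push_cast; linarith
    have h2 : |a| < n + 1 := by exact_mod_cast this
    omega
  have h2 : z ∈ bx n := (mem_bx n z).mpr ⟨key _ h1.1, key _ h1.2⟩
  rw [Finset.mem_coe, Finset.mem_filter]
  exact ⟨fun h => ⟨h2, h⟩, fun h => h.2⟩

theorem rs_bound (S : Set (ℤ × ℤ)) (χ : ℝ × ℝ → ℝ) (A M r : ℝ) (hA0 : 0 < A)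
    (hA : ∀ z, χ z ≠ 0 → |z.1| ≤ A ∧ |z.2| ≤ A) (hM : ∀ z, |χ z| ≤ M) (hr : 1 ≤ r) :
    |rs S χ r| ≤ M * (2 * A + 1) ^ 2 * r ^ 2 := by
  classical
  have hr0 : 0 < r := by linarith
  have hM0 : 0 ≤ M := (abs_nonneg _).trans (hM 0)
  have hn0 : 0 ≤ ⌊A * r⌋ := Int.floor_nonneg.mpr (by positivity)
  rw [rs_eq S χ A r hA hr0 ⌊A * r⌋ (Int.lt_floor_add_one _)]
  calc _ ≤ ∑ z ∈ (bx ⌊A * r⌋).filter (fun z => z ∈ S), |χ ((z.1 : ℝ) / r, (z.2 : ℝ) / r)| :=
        Finset.abs_sum_le_sum_abs _ _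
    _ ≤ ∑ z ∈ (bx ⌊A * r⌋).filter (fun z => z ∈ S), M := Finset.sum_le_sum fun z _ => hM _
    _ = ((bx ⌊A * r⌋).filter (fun z => z ∈ S)).card * M := by rw [Finset.sum_const, nsmul_eq_mul]
    _ ≤ ((bx ⌊A * r⌋).card : ℝ) * M := by
        gcongr
        exact Finset.filter_subset _ _
    _ = (2 * (⌊A * r⌋ : ℝ) + 1) ^ 2 * M := by rw [bx_card _ hn0]
    _ ≤ (2 * (A * r) + r) ^ 2 * M := by
        have h1 : (⌊A * r⌋ : ℝ) ≤ A * r := Int.floor_le _
        have h2 : (0 : ℝ) ≤ ⌊A * r⌋ := by exact_mod_cast hn0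
        gcongr
    _ = _ := by ring

theorem rs_class_eq (χ : ℝ × ℝ → ℝ) (Q : ℕ) (hQ : 0 < Q) (c : ℤ × ℤ) (r : ℝ) :
    rs {z | cg Q c z} χ r =
      ∑ᶠ z : ℤ × ℤ, χ (((c.1 + Q * z.1 : ℤ) : ℝ) / r, ((c.2 + Q * z.2 : ℤ) : ℝ) / r) := by
  have hQ' : (Q : ℤ) ≠ 0 := by exact_mod_cast hQ.ne'
  rw [rs]
  symm
  rw [← finsum_mem_univ]
  apply finsum_mem_eq_of_bijOn (fun z : ℤ × ℤ => (c.1 + Q * z.1, c.2 + Q * z.2))
  · refine ⟨?_, ?_, ?_⟩
    · intro z _
      exact ⟨⟨z.1, by simp⟩, ⟨z.2, by simp⟩⟩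
    · intro z _ z' _ h
      simp only [Prod.mk.injEq, add_right_inj] at h
      exact Prod.ext (mul_left_cancel₀ hQ' h.1) (mul_left_cancel₀ hQ' h.2)
    · rintro ⟨z1, z2⟩ ⟨⟨a, ha⟩, ⟨b, hb⟩⟩
      simp only at ha hb
      refine ⟨(a, b), Set.mem_univ _, ?_⟩
      simp only
      rw [← ha, ← hb]
      simp
  · intro z _
    rfl

theorem rs_diff (S : Set (ℤ × ℤ)) (f g ψ : ℝ × ℝ → ℝ) (A η r : ℝ) (hr : 0 < r)
    (hf : ∀ z, f z ≠ 0 → |z.1| ≤ A ∧ |z.2| ≤ A) (hg : ∀ z, g z ≠ 0 → |z.1| ≤ A ∧ |z.2| ≤ A)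
    (hψ : ∀ z, ψ z ≠ 0 → |z.1| ≤ A ∧ |z.2| ≤ A) (h : ∀ z, |f z - g z| ≤ η * ψ z) :
    |rs S f r - rs S g r| ≤ η * rs S ψ r := by
  classical
  have hn := Int.lt_floor_add_one (A * r)
  rw [rs_eq S f A r hf hr _ hn, rs_eq S g A r hg hr _ hn, rs_eq S ψ A r hψ hr _ hn,
    ← Finset.sum_sub_distrib, Finset.mul_sum]
  refine (Finset.abs_sum_le_sum_abs _ _).trans ?_
  exact Finset.sum_le_sum (fun z _ => h _)

/-- Riemann sums over the multiples of `Q` -/
theorem riem_mul (χ : ℝ × ℝ → ℝ) (hc : Continuous χ) (hs : HasCompactSupport χ) (Q : ℕ) (hQ : 0 < Q) :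
    Tendsto (fun r : ℝ => rs {z | cg Q 0 z} χ r / r ^ 2) atTop (𝓝 (1 / (Q : ℝ) ^ 2 * ∫ z, χ z)) := by
  obtain ⟨A, hA0, hA⟩ := exists_supp χ hs
  have hQ' : (0 : ℝ) < Q := by exact_mod_cast hQ
  have h1 := nsum_gr_tendsto χ hc hs Q hQ
  have h2 : Tendsto (fun r : ℝ => nsum (gr χ r) Q / r ^ 2 + χ 0 / r ^ 2) atTop
      (𝓝 (1 / (Q : ℝ) ^ 2 * (∫ z, χ z) + 0)) := by
    apply h1.add
    apply Tendsto.div_atTop tendsto_const_nhds
    exact tendsto_pow_atTop (by norm_num)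
  rw [add_zero] at h2
  refine h2.congr' ?_
  filter_upwards [eventually_gt_atTop 0] with r hr
  rw [← add_div, rs_class_eq χ Q hQ 0 r]
  congr 1
  have hfin : (Function.support (fun z : ℤ × ℤ => gr χ r (Q * z.1, Q * z.2))).Finite := by
    set K : ℤ := ⌊A * r / Q⌋ with hK
    apply ((Finset.Icc (-K) K ×ˢ Finset.Icc (-K) K : Finset (ℤ × ℤ))).finite_toSet.subset
    intro z hz
    have h1 := hA _ hz
    simp only at h1
    have key : ∀ a : ℤ, |((Q * a : ℤ) : ℝ) / r| ≤ A → |a| ≤ K := by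
      intro a ha
      rw [hK, Int.le_floor]
      push_cast at ha ⊢
      rw [abs_div, abs_mul, abs_of_pos hr, abs_of_pos hQ', div_le_iff₀ hr] at ha
      rw [le_div_iff₀ hQ']
      linarith
    simp only [Finset.coe_product, Finset.coe_Icc, Set.mem_prod, Set.mem_Icc, ← abs_le]
    exact ⟨key _ h1.1, key _ h1.2⟩
  have h6 := add_finsum_cond_ne (0 : ℤ × ℤ) hfin
  have h8 : gr χ r ((Q : ℤ) * (0 : ℤ × ℤ).1, (Q : ℤ) * (0 : ℤ × ℤ).2) = χ 0 := by
    simp [gr]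
    rfl
  rw [h8] at h6
  have h9 : ∑ᶠ z : ℤ × ℤ, χ ((((0 : ℤ × ℤ).1 + Q * z.1 : ℤ) : ℝ) / r, (((0 : ℤ × ℤ).2 + Q * z.2 : ℤ) : ℝ) / r) =
      ∑ᶠ z : ℤ × ℤ, gr χ r (Q * z.1, Q * z.2) := by
    apply finsum_congr
    intro z
    simp [gr]
  rw [h9, ← h6]
  simp only [nsum, Set.mem_ofPred_eq]
  ring

theorem riem_class (χ : ℝ × ℝ → ℝ) (hc : Continuous χ) (hs : HasCompactSupport χ) (Q : ℕ) (hQ : 0 < Q)
    (c : ℤ × ℤ) :
    Tendsto (fun r : ℝ => rs {z | cg Q c z} χ r / r ^ 2) atTop (𝓝 (1 / (Q : ℝ) ^ 2 * ∫ z, χ z)) := by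
  classical
  obtain ⟨A, hA0, hA⟩ := exists_supp χ hs
  -- the bump
  set ψ : ℝ × ℝ → ℝ := fun z => max 0 (A + 2 - ‖z‖) with hψ
  have hψc : Continuous ψ := by fun_prop
  have hψ0 : ∀ z, 0 ≤ ψ z := fun z => le_max_left _ _
  have hψs : ∀ z, ψ z ≠ 0 → |z.1| ≤ A + 2 ∧ |z.2| ≤ A + 2 := by
    intro z hz
    have h1 : ‖z‖ ≤ A + 2 := by
      by_contra hcon
      push Not at hcon
      apply hz
      simp only [hψ]
      rw [max_eq_left]
      linarith
    rw [Prod.norm_def, max_le_iff] at h1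
    exact h1
  have hψcs : HasCompactSupport ψ := by
    apply HasCompactSupport.of_support_subset_isCompact (isCompact_closedBall (0 : ℝ × ℝ) (A + 2))
    intro z hz
    rw [mem_closedBall_zero_iff, Prod.norm_def]
    exact max_le (hψs z hz).1 (hψs z hz).2
  have hψ1 : ∀ z : ℝ × ℝ, ‖z‖ ≤ A + 1 → 1 ≤ ψ z := by
    intro z h3
    simp only [hψ]
    exact le_trans (by linarith) (le_max_right _ _)
  set I := 1 / (Q : ℝ) ^ 2 * ∫ z, ψ z with hI
  have hI0 : 0 ≤ I := mul_nonneg (by positivity) (integral_nonneg hψ0)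
  have hlψ := riem_mul ψ hψc hψcs Q hQ
  have hlχ := riem_mul χ hc hs Q hQ
  have huc := hc.uniformContinuous_of_tendsto_cocompact hs.is_zero_at_infty
  -- the difference tends to zero
  have hdiff : Tendsto (fun r : ℝ => (rs {z | cg Q c z} χ r - rs {z | cg Q 0 z} χ r) / r ^ 2) atTop (𝓝 0) := by
    rw [Metric.tendsto_nhds]
    intro ε hε
    set η := ε / (2 * (I + 1)) with hη
    have hη0 : 0 < η := by positivity
    obtain ⟨δ, hδ, hδ2⟩ := Metric.uniformContinuous_iff.1 huc η hη0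
    have ev1 : ∀ᶠ r : ℝ in atTop, ‖((c.1 : ℝ) / r, (c.2 : ℝ) / r)‖ < min δ 1 := by
      have h1 : Tendsto (fun r : ℝ => ((c.1 : ℝ) / r, (c.2 : ℝ) / r)) atTop (𝓝 (0, 0)) :=
        (tendsto_const_nhds.div_atTop tendsto_id).prodMk_nhds (tendsto_const_nhds.div_atTop tendsto_id)
      have h2 := h1.norm
      have h3 : ‖((0 : ℝ), (0 : ℝ))‖ = 0 := by simp
      rw [h3] at h2
      exact h2.eventually_lt_const (by positivity)
    have ev2 := (Metric.tendsto_nhds.mp hlψ) 1 one_pos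
    filter_upwards [ev1, ev2, eventually_gt_atTop 0] with r ev1 ev2 hr
    rw [Real.dist_eq] at ev2
    have hr2 : 0 < r ^ 2 := by positivity
    have hψb : rs {z | cg Q 0 z} ψ r < (I + 1) * r ^ 2 := by
      have := (abs_lt.mp ev2).2
      rw [← div_lt_iff₀ hr2]
      linarith
    rw [dist_zero_right, Real.norm_eq_abs, abs_div, abs_of_pos hr2, div_lt_iff₀ hr2]
    have h4 : |rs {z | cg Q c z} χ r - rs {z | cg Q 0 z} χ r| ≤ η * rs {z | cg Q 0 z} ψ r := by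
      -- as sums over all vectors
      set fc : ℤ × ℤ → ℝ := fun z => χ (((c.1 + Q * z.1 : ℤ) : ℝ) / r, ((c.2 + Q * z.2 : ℤ) : ℝ) / r) with hfc
      set f0 : ℤ × ℤ → ℝ := fun z => χ ((((0 : ℤ × ℤ).1 + Q * z.1 : ℤ) : ℝ) / r,
        (((0 : ℤ × ℤ).2 + Q * z.2 : ℤ) : ℝ) / r) with hf0
      set fψ : ℤ × ℤ → ℝ := fun z => ψ ((((0 : ℤ × ℤ).1 + Q * z.1 : ℤ) : ℝ) / r,
        (((0 : ℤ × ℤ).2 + Q * z.2 : ℤ) : ℝ) / r) with hfψ
      have hpt : ∀ z, |fc z - f0 z| ≤ η * fψ z := by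
        intro z
        set y : ℝ × ℝ := ((((0 : ℤ × ℤ).1 + Q * z.1 : ℤ) : ℝ) / r, (((0 : ℤ × ℤ).2 + Q * z.2 : ℤ) : ℝ) / r) with hy
        set x : ℝ × ℝ := (((c.1 + Q * z.1 : ℤ) : ℝ) / r, ((c.2 + Q * z.2 : ℤ) : ℝ) / r) with hx
        have hxy : x - y = ((c.1 : ℝ) / r, (c.2 : ℝ) / r) := by
          rw [hx, hy]
          apply Prod.ext
          · simp only [Prod.fst_sub, Prod.fst_zero]
            push_cast
            ring
          · simp only [Prod.snd_sub, Prod.snd_zero]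
            push_cast
            ring
        have hd : dist x y < min δ 1 := by
          rw [dist_eq_norm, hxy]
          exact ev1
        by_cases hyb : ‖y‖ ≤ A + 1
        · have h5 := hδ2 (hd.trans_le (min_le_left _ _))
          rw [Real.dist_eq] at h5
          calc |fc z - f0 z| ≤ η := h5.le
            _ = η * 1 := (mul_one _).symm
            _ ≤ η * fψ z := by gcongr; exact hψ1 y hyb
        · push Not at hyb
          have h5 : f0 z = 0 := by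
            by_contra hne
            have := hA _ hne
            have h6 : ‖y‖ ≤ A := by
              rw [Prod.norm_def]
              exact max_le this.1 this.2
            linarith
          have h6 : fc z = 0 := by
            by_contra hne
            have := hA _ hne
            have h7 : ‖x‖ ≤ A := by
              rw [Prod.norm_def]
              exact max_le this.1 this.2
            have h8 : ‖y‖ ≤ ‖x‖ + dist x y := by
              rw [dist_eq_norm]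
              calc ‖y‖ = ‖x - (x - y)‖ := by congr 1; abel
                _ ≤ ‖x‖ + ‖x - y‖ := norm_sub_le _ _
            have h9 := hd.trans_le (min_le_right _ _)
            linarith
          rw [h5, h6, sub_zero, abs_zero]
          exact mul_nonneg hη0.le (hψ0 _)
      -- a common finite support
      have hbox : ∀ (e : ℤ × ℤ) (F : ℝ × ℝ → ℝ) (R : ℝ), 0 < R → (∀ z, F z ≠ 0 → |z.1| ≤ R ∧ |z.2| ≤ R) →
          (Function.support (fun z : ℤ × ℤ => F (((e.1 + Q * z.1 : ℤ) : ℝ) / r, ((e.2 + Q * z.2 : ℤ) : ℝ) / r))).Finite := by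
        intro e F R hR hF
        set K : ℤ := ⌊R * r⌋ + |e.1| + |e.2| with hK
        apply (bx K).finite_toSet.subset
        intro z hz
        have h1 := hF _ hz
        simp only at h1
        have key : ∀ a b : ℤ, |((b + Q * a : ℤ) : ℝ) / r| ≤ R → |a| ≤ ⌊R * r⌋ + |b| := by
          intro a b ha
          rw [abs_div, abs_of_pos hr, div_le_iff₀ hr] at ha
          have h2 : |b + Q * a| ≤ ⌊R * r⌋ := by
            rw [Int.le_floor]
            push_cast at ha ⊢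
            exact ha
          have h3 : |(Q : ℤ) * a| ≤ |b + Q * a| + |b| := by
            calc |(Q : ℤ) * a| = |(b + Q * a) - b| := by congr 1; ring
              _ ≤ _ := abs_sub _ _
          have h4 : |a| ≤ |(Q : ℤ) * a| := by
            rw [abs_mul, Nat.abs_cast]
            have : (1 : ℤ) ≤ Q := by exact_mod_cast hQ
            nlinarith [abs_nonneg a]
          linarith
        rw [Finset.mem_coe, mem_bx]
        have k1 := key _ _ h1.1
        have k2 := key _ _ h1.2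
        have := abs_nonneg e.1
        have := abs_nonneg e.2
        constructor <;> linarith
      have s1 := hbox c χ A hA0 hA
      have s2 := hbox 0 χ A hA0 hA
      have s3 := hbox 0 ψ (A + 2) (by linarith) hψs
      rw [rs_class_eq χ Q hQ c r, rs_class_eq χ Q hQ 0 r, rs_class_eq ψ Q hQ 0 r]
      set Fs : Finset (ℤ × ℤ) := s1.toFinset ∪ s2.toFinset ∪ s3.toFinset with hFs
      have t1 : ∑ᶠ z, fc z = ∑ z ∈ Fs, fc z := by
        apply finsum_eq_sum_of_support_subset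
        intro z hz
        rw [Finset.mem_coe, hFs, Finset.mem_union, Finset.mem_union, s1.mem_toFinset]
        exact Or.inl (Or.inl hz)
      have t2 : ∑ᶠ z, f0 z = ∑ z ∈ Fs, f0 z := by
        apply finsum_eq_sum_of_support_subset
        intro z hz
        rw [Finset.mem_coe, hFs, Finset.mem_union, Finset.mem_union, s2.mem_toFinset]
        exact Or.inl (Or.inr hz)
      have t3 : ∑ᶠ z, fψ z = ∑ z ∈ Fs, fψ z := by
        apply finsum_eq_sum_of_support_subset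
        intro z hz
        rw [Finset.mem_coe, hFs, Finset.mem_union, Finset.mem_union, s3.mem_toFinset]
        exact Or.inr hz
      rw [t1, t2, t3, ← Finset.sum_sub_distrib, Finset.mul_sum]
      exact (Finset.abs_sum_le_sum_abs _ _).trans (Finset.sum_le_sum fun z _ => hpt z)
    calc _ ≤ η * rs {z | cg Q 0 z} ψ r := h4
      _ ≤ η * ((I + 1) * r ^ 2) := by gcongr
      _ = ε / 2 * r ^ 2 := by rw [hη]; field_simp
      _ < ε * r ^ 2 := by gcongr; linarith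
  have h5 := hlχ.add hdiff
  rw [add_zero] at h5
  refine h5.congr ?_
  intro r
  ring

end Pool.Agent.KS6_30.V5
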