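import Pool.Agent.KS6_30.V5.L1

/-!
# Primitive lattice points of the plane in a class (2)
-/

set_option autoImplicit false

namespace Pool.Agent.KS6_30.V5

open Filter Topology MeasureTheory Pool.Agent.KS6_53.V5 Finset

theorem nsum_abs_le (g G : ℤ × ℤ → ℝ) (h : ∀ z, |g z| ≤ G z) (hG : (Function.support G).Finite) (d : ℕ)
    (hd : 0 < d) : |nsum g d| ≤ nsum G d := by
  classical
  obtain ⟨N, hN⟩ : ∃ N : ℕ, ∀ z, G z ≠ 0 → |z.1| ≤ N ∧ |z.2| ≤ N := by
    refine ⟨hG.toFinset.sup (fun z => max z.1.natAbs z.2.natAbs), ?_⟩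
    intro z hz
    have h1 : max z.1.natAbs z.2.natAbs ≤ hG.toFinset.sup (fun z => max z.1.natAbs z.2.natAbs) :=
      Finset.le_sup (f := fun z : ℤ × ℤ => max z.1.natAbs z.2.natAbs) (hG.mem_toFinset.mpr hz)
    have h2 := (le_max_left _ _).trans h1
    have h3 := (le_max_right _ _).trans h1
    rw [Int.abs_eq_natAbs, Int.abs_eq_natAbs]
    exact ⟨by exact_mod_cast h2, by exact_mod_cast h3⟩
  have hN' : ∀ z, g z ≠ 0 → |z.1| ≤ N ∧ |z.2| ≤ N := by
    intro z hz
    apply hN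
    intro h0
    have := h z
    rw [h0] at this
    exact hz (abs_nonpos_iff.mp this)
  rw [nsum_eq g N hN' d hd, nsum_eq G N hN d hd]
  exact (Finset.abs_sum_le_sum_abs _ _).trans (Finset.sum_le_sum fun z _ => h z)

theorem gr_support (χ : ℝ × ℝ → ℝ) (A : ℝ) (hA : ∀ z, χ z ≠ 0 → |z.1| ≤ A ∧ |z.2| ≤ A) (r : ℝ) (hr : 0 < r) :
    (Function.support (gr χ r)).Finite := by
  set K : ℤ := ⌊A * r⌋ with hK
  apply (bx K).finite_toSet.subset
  intro z hz
  have h1 := hA _ hz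
  simp only at h1
  have key : ∀ a : ℤ, |(a : ℝ) / r| ≤ A → |a| ≤ K := by
    intro a ha
    rw [hK, Int.le_floor]
    push_cast
    rw [abs_div, abs_of_pos hr, div_le_iff₀ hr] at ha
    exact ha
  rw [Finset.mem_coe, mem_bx]
  exact ⟨key _ h1.1, key _ h1.2⟩

/-- a periodic set -/
theorem riem_per (χ : ℝ × ℝ → ℝ) (hc : Continuous χ) (hs : HasCompactSupport χ) (Q : ℕ) (hQ : 0 < Q)
    (S : Set (ℤ × ℤ)) (hS : ∀ z z', cg Q z z' → (z ∈ S ↔ z' ∈ S)) :
    ∃ ℓ : ℝ, Tendsto (fun r : ℝ => rs S χ r / r ^ 2) atTop (𝓝 ℓ) := by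
  classical
  obtain ⟨A, hA0, hA⟩ := exists_supp χ hs
  have hQ' : (0 : ℤ) < Q := by exact_mod_cast hQ
  set E : Finset (ℤ × ℤ) := (Finset.Ico (0 : ℤ) Q ×ˢ Finset.Ico (0 : ℤ) Q).filter (fun e => e ∈ S) with hE
  refine ⟨∑ e ∈ E, 1 / (Q : ℝ) ^ 2 * ∫ z, χ z, ?_⟩
  have h1 : Tendsto (fun r : ℝ => ∑ e ∈ E, rs {z | cg Q e z} χ r / r ^ 2) atTop
      (𝓝 (∑ e ∈ E, 1 / (Q : ℝ) ^ 2 * ∫ z, χ z)) :=
    tendsto_finsetSum _ fun e _ => riem_class χ hc hs Q hQ e
  refine h1.congr' ?_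
  filter_upwards [eventually_gt_atTop 0] with r hr
  rw [← Finset.sum_div]
  congr 1
  have hn := Int.lt_floor_add_one (A * r)
  rw [rs_eq S χ A r hA hr _ hn]
  set B := bx ⌊A * r⌋ with hB
  set m : ℤ × ℤ → ℤ × ℤ := fun z => (z.1 % Q, z.2 % Q) with hm
  have hcgm : ∀ z, cg Q (m z) z := fun z => ⟨Int.dvd_self_sub_emod, Int.dvd_self_sub_emod⟩
  have hmaps : ∀ z ∈ B.filter (fun z => z ∈ S), m z ∈ E := by
    intro z hz
    rw [hE, Finset.mem_filter, Finset.mem_product, Finset.mem_Ico, Finset.mem_Ico]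
    refine ⟨⟨⟨Int.emod_nonneg _ hQ'.ne', Int.emod_lt_of_pos _ hQ'⟩,
      ⟨Int.emod_nonneg _ hQ'.ne', Int.emod_lt_of_pos _ hQ'⟩⟩, ?_⟩
    exact (hS _ _ (hcgm z)).mpr (Finset.mem_filter.mp hz).2
  rw [← Finset.sum_fiberwise_of_maps_to hmaps]
  apply Finset.sum_congr rfl
  intro e he
  rw [rs_eq {z | cg Q e z} χ A r hA hr _ hn]
  apply Finset.sum_congr _ (fun _ _ => rfl)
  rw [hE, Finset.mem_filter, Finset.mem_product, Finset.mem_Ico, Finset.mem_Ico] at he
  ext z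
  rw [Finset.mem_filter, Finset.mem_filter, Finset.mem_filter, Set.mem_ofPred_eq]
  have key : ∀ a b : ℤ, 0 ≤ b → b < Q → ((Q : ℤ) ∣ a - b ↔ a % Q = b) := by
    intro a b hb0 hb1
    constructor
    · intro h
      have h7 : a % Q = b % Q := Int.ModEq.symm (Int.modEq_iff_dvd.mpr h)
      rw [h7, Int.emod_eq_of_lt hb0 hb1]
    · intro h
      rw [← h]
      exact Int.dvd_self_sub_emod
  constructor
  · rintro ⟨h2, h3, h4⟩
    refine ⟨⟨h2, (hS e z ⟨h3, h4⟩).mp he.2⟩, ?_⟩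
    exact Prod.ext ((key _ _ he.1.1.1 he.1.1.2).mp h3) ((key _ _ he.1.2.1 he.1.2.2).mp h4)
  · rintro ⟨⟨h2, _⟩, h3⟩
    refine ⟨h2, ?_⟩
    rw [← h3]
    exact hcgm z

theorem laq (χ : ℝ × ℝ → ℝ) (hc : Continuous χ) (hs : HasCompactSupport χ) (Q : ℕ) (hQ : 0 < Q)
    (c : ℤ × ℤ) :
    ∃ ℓ : ℝ, Tendsto (fun r : ℝ => rs {z | IsCoprime z.1 z.2 ∧ cg Q c z} χ r / r ^ 2) atTop (𝓝 ℓ) := by
  classical
  obtain ⟨A, hA0, hA⟩ := exists_supp χ hs
  obtain ⟨M, hM⟩ : ∃ M : ℝ, ∀ z, |χ z| ≤ M := by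
    obtain ⟨M, hM⟩ := hc.bounded_above_of_compact_support hs
    exact ⟨M, fun z => by simpa using hM z⟩
  set g : ℝ → ℤ × ℤ → ℝ := fun r z => if cg Q c z then gr χ r z else 0 with hg
  set aχ : ℝ × ℝ → ℝ := fun z => |χ z| with haχ
  have hgle : ∀ r z, |g r z| ≤ gr aχ r z := by
    intro r z
    simp only [hg, gr, haχ]
    split_ifs
    · exact le_rfl
    · rw [abs_zero]; exact abs_nonneg _
  have haA : ∀ z, aχ z ≠ 0 → |z.1| ≤ A ∧ |z.2| ≤ A := fun z hz => hA z (by simpa [haχ] using hz)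
  have haM : ∀ z, |aχ z| ≤ M := fun z => by simpa [haχ] using hM z
  have hgfin : ∀ r : ℝ, 0 < r → (Function.support (g r)).Finite := by
    intro r hr
    apply (gr_support aχ A haA r hr).subset
    intro z hz h0
    have := hgle r z
    rw [h0] at this
    exact hz (abs_nonpos_iff.mp this)
  -- limits of the terms
  have hterm : ∀ d : ℕ, ∃ ℓ : ℝ, 0 < d → Tendsto (fun r : ℝ => nsum (g r) d / r ^ 2) atTop (𝓝 ℓ) := by
    intro d
    by_cases hd : 0 < d
    swap
    · exact ⟨0, fun h => absurd h hd⟩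
    have hd' : (0 : ℝ) < d := by exact_mod_cast hd
    obtain ⟨ℓ, hℓ⟩ := riem_per χ hc hs Q hQ {z | cg Q c (d * z.1, d * z.2)} (by
      rintro z z' ⟨h1, h2⟩
      simp only [Set.mem_ofPred_eq, cg]
      have e1 : (Q : ℤ) ∣ (d * z'.1 - c.1) - (d * z.1 - c.1) := by
        have : (d * z'.1 - c.1) - (d * z.1 - c.1) = d * (z'.1 - z.1) := by ring
        rw [this]
        exact Dvd.dvd.mul_left h1 _
      have e2 : (Q : ℤ) ∣ (d * z'.2 - c.2) - (d * z.2 - c.2) := by
        have : (d * z'.2 - c.2) - (d * z.2 - c.2) = d * (z'.2 - z.2) := by ring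
        rw [this]
        exact Dvd.dvd.mul_left h2 _
      exact and_congr (dvd_iff_dvd_of_dvd_sub (by rw [← neg_sub]; exact (dvd_neg.mpr e1)))
        (dvd_iff_dvd_of_dvd_sub (by rw [← neg_sub]; exact (dvd_neg.mpr e2))))
    refine ⟨ℓ / (d : ℝ) ^ 2 - 0, fun _ => ?_⟩
    have h2 : Tendsto (fun r : ℝ => r / d) atTop atTop := tendsto_id.atTop_div_const hd'
    have h3 := (hℓ.comp h2).div_const ((d : ℝ) ^ 2)
    have h4 : Tendsto (fun r : ℝ => g r 0 / r ^ 2) atTop (𝓝 0) := by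
      have h5 : ∀ r : ℝ, |g r 0 / r ^ 2| ≤ M / r ^ 2 := by
        intro r
        rw [abs_div, abs_of_nonneg (sq_nonneg r)]
        gcongr
        exact (hgle r 0).trans ((le_abs_self _).trans (haM _))
      have h6 : Tendsto (fun r : ℝ => M / r ^ 2) atTop (𝓝 0) :=
        Tendsto.div_atTop tendsto_const_nhds (tendsto_pow_atTop (by norm_num))
      exact squeeze_zero_norm h5 h6
    refine (h3.sub h4).congr' ?_
    filter_upwards [eventually_gt_atTop 0] with r hr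
    simp only [Function.comp_apply]
    have h5 : rs {z : ℤ × ℤ | cg Q c (d * z.1, d * z.2)} χ (r / d) = nsum (g r) d + g r 0 := by
      have hfin : (Function.support (fun z : ℤ × ℤ => g r (d * z.1, d * z.2))).Finite := by
        apply Set.Finite.of_injOn (f := fun z : ℤ × ℤ => ((d : ℤ) * z.1, (d : ℤ) * z.2)) (t := Function.support (g r)) _ _ (hgfin r hr)
        · intro z hz
          exact hz
        · intro z _ z' _ h
          have hdz : (d : ℤ) ≠ 0 := by exact_mod_cast hd.ne'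
          simp only [Prod.mk.injEq] at h
          exact Prod.ext (mul_left_cancel₀ hdz h.1) (mul_left_cancel₀ hdz h.2)
      have h6 := add_finsum_cond_ne (0 : ℤ × ℤ) hfin
      have h7 : g r ((d : ℤ) * (0 : ℤ × ℤ).1, (d : ℤ) * (0 : ℤ × ℤ).2) = g r 0 := by
        congr 1
      rw [h7] at h6
      have h8 : rs {z : ℤ × ℤ | cg Q c (d * z.1, d * z.2)} χ (r / d) =
          ∑ᶠ z : ℤ × ℤ, g r (d * z.1, d * z.2) := by
        rw [rs]
        apply finsum_congr
        intro z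
        rw [finsum_eq_if]
        simp only [hg, gr, Set.mem_ofPred_eq]
        congr 1
        push_cast
        congr 2 <;> field_simp
      rw [h8, ← h6]
      simp only [nsum, Set.mem_ofPred_eq]
      ring
    rw [h5]
    field_simp
    ring
  choose ℓ hℓ using hterm
  refine ⟨∑' d : ℕ, (ArithmeticFunction.moebius d : ℝ) * ℓ d, ?_⟩
  have h1 : Tendsto (fun r : ℝ => ∑' d : ℕ, (ArithmeticFunction.moebius d : ℝ) * (nsum (g r) d / r ^ 2))
      atTop (𝓝 (∑' d : ℕ, (ArithmeticFunction.moebius d : ℝ) * ℓ d)) := by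
    apply tendsto_tsum_of_dominated_convergence (bound := fun d : ℕ => 8 * M * A ^ 2 * (1 / (d : ℝ) ^ 2))
    · exact (Real.summable_one_div_nat_pow.mpr (by norm_num)).mul_left _
    · intro d
      rcases Nat.eq_zero_or_pos d with h | h
      · subst h
        simp only [ArithmeticFunction.map_zero, Int.cast_zero, zero_mul]
        exact tendsto_const_nhds
      · exact (hℓ d h).const_mul _
    · filter_upwards [eventually_gt_atTop 0] with r hr d
      rcases Nat.eq_zero_or_pos d with h | h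
      · subst h
        simp
      · rw [norm_mul, Real.norm_eq_abs, Real.norm_eq_abs]
        have h5 : |(ArithmeticFunction.moebius d : ℝ)| ≤ 1 := by
          exact_mod_cast ArithmeticFunction.abs_moebius_le_one
        have h6 : |nsum (g r) d / r ^ 2| ≤ |nsum (gr aχ r) d / r ^ 2| := by
          rw [abs_div, abs_div]
          have h7 : |nsum (g r) d| ≤ |nsum (gr aχ r) d| :=
            (nsum_abs_le (g r) (gr aχ r) (hgle r) (gr_support aχ A haA r hr) d h).trans (le_abs_self _)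
          exact div_le_div_of_nonneg_right h7 (abs_nonneg _)
        calc _ ≤ 1 * |nsum (g r) d / r ^ 2| := by gcongr
          _ = |nsum (g r) d / r ^ 2| := one_mul _
          _ ≤ |nsum (gr aχ r) d / r ^ 2| := h6
          _ ≤ 8 * M * A ^ 2 / (d : ℝ) ^ 2 := nsum_gr_bound aχ A M hA0 haA haM r hr d h
          _ = 8 * M * A ^ 2 * (1 / (d : ℝ) ^ 2) := by ring
  refine h1.congr' ?_
  filter_upwards [eventually_gt_atTop 0] with r hr
  have h3 := coprime_sum (g r) (hgfin r hr)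
  have h4 : rs {z : ℤ × ℤ | IsCoprime z.1 z.2 ∧ cg Q c z} χ r = ∑ᶠ z ∈ {z : ℤ × ℤ | IsCoprime z.1 z.2}, g r z := by
    rw [rs]
    apply finsum_congr
    intro z
    rw [finsum_eq_if, finsum_eq_if]
    simp only [hg, gr, Set.mem_ofPred_eq]
    by_cases h5 : IsCoprime z.1 z.2
    · by_cases h6 : cg Q c z
      · simp [h5, h6]
      · simp [h6]
    · simp [h5]
  rw [h4, h3, ← tsum_div_const]
  apply tsum_congr
  intro d
  ring

end Pool.Agent.KS6_30.V5
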