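import Pool.Agent.KS6_53.V5.Riem

/-!
# Primitive lattice points in the plane
-/

namespace Pool.Agent.KS6_30.V5

open Filter Topology MeasureTheory Pool.Agent.KS6_53.V5

/-- the constant `∑ μ(d) / d ^ 2` -/
noncomputable def kap : ℝ := ∑' d : ℕ, (ArithmeticFunction.moebius d : ℝ) / (d : ℝ) ^ 2

theorem summable_kap : Summable (fun d : ℕ => (ArithmeticFunction.moebius d : ℝ) / (d : ℝ) ^ 2) := by
  have h : Summable (fun d : ℕ => 1 / (d : ℝ) ^ 2) := Real.summable_one_div_nat_pow.mpr (by norm_num)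
  refine Summable.of_norm_bounded h ?_
  intro d
  rw [norm_div, Real.norm_eq_abs, norm_pow, Real.norm_natCast]
  have h5 : |(ArithmeticFunction.moebius d : ℝ)| ≤ 1 := by
    exact_mod_cast ArithmeticFunction.abs_moebius_le_one
  gcongr

theorem kap_pos : 0 < kap := by
  have hs := summable_kap
  have hb : Summable (fun d : ℕ => 1 / (d : ℝ) ^ 2) := Real.summable_one_div_nat_pow.mpr (by norm_num)
  have h1 : kap = (∑ d ∈ Finset.range 3, (ArithmeticFunction.moebius d : ℝ) / (d : ℝ) ^ 2) +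
      ∑' d : ℕ, (ArithmeticFunction.moebius (d + 3) : ℝ) / ((d + 3 : ℕ) : ℝ) ^ 2 := by
    rw [kap, ← hs.sum_add_tsum_nat_add 3]
  have h2 : ∑ d ∈ Finset.range 3, (ArithmeticFunction.moebius d : ℝ) / (d : ℝ) ^ 2 = 3 / 4 := by
    have hm2 : ArithmeticFunction.moebius 2 = -1 := ArithmeticFunction.moebius_apply_prime Nat.prime_two
    rw [Finset.sum_range_succ, Finset.sum_range_succ, Finset.sum_range_succ]
    simp [hm2]
    norm_num
  have h3 : HasSum (fun d : ℕ => (1 / ((d : ℝ) + 2) - 1 / ((d : ℝ) + 3))) (1 / 2) := by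
    have h4 : ∀ n : ℕ, ∑ d ∈ Finset.range n, (1 / ((d : ℝ) + 2) - 1 / ((d : ℝ) + 3)) =
        1 / 2 - 1 / ((n : ℝ) + 2) := by
      intro n
      induction n with
      | zero => simp
      | succ n ih =>
        rw [Finset.sum_range_succ, ih]
        push_cast
        ring
    rw [hasSum_iff_tendsto_nat_of_nonneg]
    · simp_rw [h4]
      have h5 : Tendsto (fun n : ℕ => 1 / ((n : ℝ) + 2)) atTop (𝓝 0) := by
        apply Tendsto.div_atTop tendsto_const_nhds
        exact tendsto_atTop_add_const_right _ _ tendsto_natCast_atTop_atTop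
      simpa using tendsto_const_nhds.sub h5
    · intro d
      have : 1 / ((d : ℝ) + 3) ≤ 1 / ((d : ℝ) + 2) := by
        apply one_div_le_one_div_of_le <;> linarith [(Nat.cast_nonneg d : (0 : ℝ) ≤ d)]
      linarith
  have h6 : |∑' d : ℕ, (ArithmeticFunction.moebius (d + 3) : ℝ) / ((d + 3 : ℕ) : ℝ) ^ 2| ≤ 1 / 2 := by
    rw [← Real.norm_eq_abs]
    refine tsum_of_norm_bounded h3 ?_
    intro d
    rw [norm_div, Real.norm_eq_abs, norm_pow, Real.norm_natCast]
    have h5 : |(ArithmeticFunction.moebius (d + 3) : ℝ)| ≤ 1 := by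
      exact_mod_cast ArithmeticFunction.abs_moebius_le_one
    push_cast
    have hd : (0 : ℝ) ≤ d := Nat.cast_nonneg d
    calc |(ArithmeticFunction.moebius (d + 3) : ℝ)| / ((d : ℝ) + 3) ^ 2 ≤ 1 / ((d : ℝ) + 3) ^ 2 := by gcongr
      _ ≤ 1 / (((d : ℝ) + 2) * ((d : ℝ) + 3)) := by
          apply one_div_le_one_div_of_le (by positivity)
          nlinarith
      _ = 1 / ((d : ℝ) + 2) - 1 / ((d : ℝ) + 3) := by
          field_simp
          ring
  rw [h1, h2]
  have := (abs_le.mp h6).1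
  linarith

/-- the sum over the nonzero vectors -/
noncomputable def nsum (g : ℤ × ℤ → ℝ) (d : ℕ) : ℝ := ∑ᶠ z ∈ {z : ℤ × ℤ | z ≠ 0}, g (d * z.1, d * z.2)

theorem nsum_eq (g : ℤ × ℤ → ℝ) (N : ℕ) (hN : ∀ z, g z ≠ 0 → |z.1| ≤ N ∧ |z.2| ≤ N) (d : ℕ) (hd : 0 < d) :
    nsum g d = ∑ w ∈ ((Finset.Icc (-(N : ℤ)) N ×ˢ Finset.Icc (-(N : ℤ)) N).erase 0).filter
      (fun w => (d : ℤ) ∣ w.1 ∧ (d : ℤ) ∣ w.2), g w := by
  classical
  have hd' : (d : ℤ) ≠ 0 := by exact_mod_cast hd.ne'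
  have h1 : nsum g d = ∑ᶠ w ∈ {w : ℤ × ℤ | w ≠ 0 ∧ (d : ℤ) ∣ w.1 ∧ (d : ℤ) ∣ w.2}, g w := by
    rw [nsum]
    apply finsum_mem_eq_of_bijOn (fun z : ℤ × ℤ => ((d : ℤ) * z.1, (d : ℤ) * z.2))
    · refine ⟨?_, ?_, ?_⟩
      · intro z hz
        refine ⟨?_, Dvd.intro _ rfl, Dvd.intro _ rfl⟩
        intro h
        apply hz
        rw [Prod.ext_iff] at h
        simp only [Prod.fst_zero, Prod.snd_zero, mul_eq_zero, hd', false_or] at h
        exact Prod.ext h.1 h.2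
      · intro z _ z' _ h
        simp only [Prod.mk.injEq] at h
        exact Prod.ext (mul_left_cancel₀ hd' h.1) (mul_left_cancel₀ hd' h.2)
      · rintro ⟨w1, w2⟩ ⟨hw, ⟨a, ha⟩, ⟨b, hb⟩⟩
        simp only at ha hb
        refine ⟨(a, b), ?_, by simp [ha, hb]⟩
        intro h
        apply hw
        rw [Prod.ext_iff] at h
        simp only [Prod.fst_zero, Prod.snd_zero] at h
        rw [ha, hb, h.1, h.2]
        simp
    · intro z _
      rfl
  rw [h1, ← finsum_mem_coe_finset]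
  apply finsum_mem_inter_support_eq'
  intro w hw
  have h2 := hN w hw
  simp only [Set.mem_ofPred_eq, Finset.coe_filter, Finset.mem_erase, Finset.mem_product, Finset.mem_Icc,
    ← abs_le]
  constructor
  · rintro ⟨h3, h4⟩
    exact ⟨⟨h3, h2.1, h2.2⟩, h4⟩
  · rintro ⟨⟨h3, _⟩, h4⟩
    exact ⟨h3, h4⟩

theorem moebius_gcd (w : ℤ × ℤ) (N : ℕ) (hw : w ≠ 0) (h1 : |w.1| ≤ N) (h2 : |w.2| ≤ N) :
    ∑ d ∈ (Finset.Icc 1 N).filter (fun d : ℕ => (d : ℤ) ∣ w.1 ∧ (d : ℤ) ∣ w.2),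
      (ArithmeticFunction.moebius d : ℝ) = if IsCoprime w.1 w.2 then 1 else 0 := by
  classical
  set g := Int.gcd w.1 w.2 with hg
  have hg0 : g ≠ 0 := by
    intro h
    rw [Int.gcd_eq_zero_iff] at h
    exact hw (Prod.ext h.1 h.2)
  have hset : (Finset.Icc 1 N).filter (fun d : ℕ => (d : ℤ) ∣ w.1 ∧ (d : ℤ) ∣ w.2) = g.divisors := by
    ext d
    simp only [Finset.mem_filter, Finset.mem_Icc, Nat.mem_divisors]
    constructor
    · rintro ⟨_, h3, h4⟩
      refine ⟨?_, hg0⟩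
      have := Int.dvd_gcd h3 h4
      exact_mod_cast this
    · rintro ⟨h3, _⟩
      have h3' : (d : ℤ) ∣ (g : ℤ) := by exact_mod_cast h3
      have hd1 : (d : ℤ) ∣ w.1 := h3'.trans (Int.gcd_dvd_left _ _)
      have hd2 : (d : ℤ) ∣ w.2 := h3'.trans (Int.gcd_dvd_right _ _)
      have hdpos : 0 < d := Nat.pos_of_dvd_of_pos h3 (Nat.pos_of_ne_zero hg0)
      refine ⟨⟨hdpos, ?_⟩, hd1, hd2⟩
      rcases eq_or_ne w.1 0 with h | h
      · have h5 : w.2 ≠ 0 := fun h6 => hw (Prod.ext h h6)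
        have h6 := Int.le_of_dvd (abs_pos.mpr h5) ((dvd_abs _ _).mpr hd2)
        have h7 : (d : ℤ) ≤ N := h6.trans h2
        exact_mod_cast h7
      · have h6 := Int.le_of_dvd (abs_pos.mpr h) ((dvd_abs _ _).mpr hd1)
        have h7 : (d : ℤ) ≤ N := h6.trans h1
        exact_mod_cast h7
  rw [hset]
  have h3 : (∑ d ∈ g.divisors, (ArithmeticFunction.moebius d : ℤ)) = if g = 1 then 1 else 0 := by
    have := congrArg (fun f : ArithmeticFunction ℤ => f g) ArithmeticFunction.moebius_mul_coe_zeta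
    simp only [ArithmeticFunction.coe_mul_zeta_apply, ArithmeticFunction.one_apply] at this
    exact this
  have h4 : (∑ d ∈ g.divisors, (ArithmeticFunction.moebius d : ℝ)) =
      ((∑ d ∈ g.divisors, (ArithmeticFunction.moebius d : ℤ) : ℤ) : ℝ) := by push_cast; rfl
  rw [h4, h3]
  have h5 : IsCoprime w.1 w.2 ↔ g = 1 := Int.isCoprime_iff_gcd_eq_one
  by_cases h6 : g = 1
  · rw [if_pos h6, if_pos (h5.mpr h6)]; simp
  · rw [if_neg h6, if_neg (fun h => h6 (h5.mp h))]; simp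

theorem coprime_sum (g : ℤ × ℤ → ℝ) (hg : (Function.support g).Finite) :
    ∑ᶠ z ∈ {z : ℤ × ℤ | IsCoprime z.1 z.2}, g z =
      ∑' d : ℕ, (ArithmeticFunction.moebius d : ℝ) * nsum g d := by
  classical
  obtain ⟨N, hN⟩ : ∃ N : ℕ, ∀ z, g z ≠ 0 → |z.1| ≤ N ∧ |z.2| ≤ N := by
    refine ⟨hg.toFinset.sup (fun z => max z.1.natAbs z.2.natAbs), ?_⟩
    intro z hz
    have h1 : max z.1.natAbs z.2.natAbs ≤ hg.toFinset.sup (fun z => max z.1.natAbs z.2.natAbs) :=
      Finset.le_sup (f := fun z : ℤ × ℤ => max z.1.natAbs z.2.natAbs) (hg.mem_toFinset.mpr hz)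
    have h2 := (le_max_left _ _).trans h1
    have h3 := (le_max_right _ _).trans h1
    rw [Int.abs_eq_natAbs, Int.abs_eq_natAbs]
    exact ⟨by exact_mod_cast h2, by exact_mod_cast h3⟩
  set B := (Finset.Icc (-(N : ℤ)) N ×ˢ Finset.Icc (-(N : ℤ)) N).erase 0 with hB
  have hL : ∑ᶠ z ∈ {z : ℤ × ℤ | IsCoprime z.1 z.2}, g z = ∑ z ∈ B.filter (fun z => IsCoprime z.1 z.2), g z := by
    rw [← finsum_mem_coe_finset]
    apply finsum_mem_inter_support_eq'
    intro w hw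
    have h2 := hN w hw
    simp only [Set.mem_ofPred_eq, Finset.coe_filter, hB, Finset.mem_erase, Finset.mem_product,
      Finset.mem_Icc, ← abs_le]
    constructor
    · intro h3
      refine ⟨⟨?_, h2.1, h2.2⟩, h3⟩
      intro h4
      rw [h4] at h3
      exact not_isCoprime_zero_zero h3
    · intro h3
      exact h3.2
  have hR : ∑' d : ℕ, (ArithmeticFunction.moebius d : ℝ) * nsum g d =
      ∑ d ∈ Finset.Icc 1 N, (ArithmeticFunction.moebius d : ℝ) * nsum g d := by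
    apply tsum_eq_sum
    intro d hd
    rcases Nat.eq_zero_or_pos d with h | h
    · subst h; simp
    · rw [nsum_eq g N hN d h]
      rw [Finset.sum_eq_zero, mul_zero]
      intro w hw
      simp only [Finset.mem_filter, Finset.mem_erase, Finset.mem_product, Finset.mem_Icc, ← abs_le] at hw
      exfalso
      apply hd
      rw [Finset.mem_Icc]
      refine ⟨h, ?_⟩
      obtain ⟨⟨hw0, hw1, hw2⟩, hd1, hd2⟩ := hw
      rcases eq_or_ne w.1 0 with h | h
      · have h5 : w.2 ≠ 0 := fun h6 => hw0 (Prod.ext h h6)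
        have h6 := Int.le_of_dvd (abs_pos.mpr h5) ((dvd_abs _ _).mpr hd2)
        have h7 : (d : ℤ) ≤ N := h6.trans hw2
        exact_mod_cast h7
      · have h6 := Int.le_of_dvd (abs_pos.mpr h) ((dvd_abs _ _).mpr hd1)
        have h7 : (d : ℤ) ≤ N := h6.trans hw1
        exact_mod_cast h7
  rw [hL, hR]
  have h5 : ∀ d ∈ Finset.Icc 1 N, (ArithmeticFunction.moebius d : ℝ) * nsum g d =
      ∑ w ∈ B, if (d : ℤ) ∣ w.1 ∧ (d : ℤ) ∣ w.2 then (ArithmeticFunction.moebius d : ℝ) * g w else 0 := by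
    intro d hd
    rw [nsum_eq g N hN d (Finset.mem_Icc.mp hd).1, Finset.mul_sum, Finset.sum_filter]
  rw [Finset.sum_congr rfl h5, Finset.sum_comm, Finset.sum_filter]
  apply Finset.sum_congr rfl
  intro w hw
  simp only [hB, Finset.mem_erase, Finset.mem_product, Finset.mem_Icc, ← abs_le] at hw
  have h6 := moebius_gcd w N hw.1 hw.2.1 hw.2.2
  rw [← Finset.sum_filter, ← Finset.sum_mul, h6]
  split_ifs <;> simp

section limit

variable (χ : ℝ × ℝ → ℝ)

/-- the scaled values -/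
noncomputable def gr (r : ℝ) (z : ℤ × ℤ) : ℝ := χ ((z.1 : ℝ) / r, (z.2 : ℝ) / r)

theorem exists_supp (hs : HasCompactSupport χ) : ∃ A : ℝ, 0 < A ∧ ∀ z, χ z ≠ 0 → |z.1| ≤ A ∧ |z.2| ≤ A := by
  obtain ⟨R, hR⟩ := (hs.isCompact.isBounded).subset_closedBall (0 : ℝ × ℝ)
  refine ⟨max R 1, lt_of_lt_of_le one_pos (le_max_right _ _), fun z hz => ?_⟩
  have h1 : z ∈ tsupport χ := subset_closure hz
  have h2 := hR h1
  rw [mem_closedBall_zero_iff, Prod.norm_def, max_le_iff] at h2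
  exact ⟨h2.1.trans (le_max_left _ _), h2.2.trans (le_max_left _ _)⟩

theorem nsum_gr_eq (A : ℝ) (hA : ∀ z, χ z ≠ 0 → |z.1| ≤ A ∧ |z.2| ≤ A) (r : ℝ) (hr : 0 < r) (d : ℕ)
    (hd : 0 < d) (K : ℤ) (hK : K = ⌊A * r / d⌋) :
    nsum (gr χ r) d = ∑ z ∈ (Finset.Icc (-K) K ×ˢ Finset.Icc (-K) K).erase 0, gr χ r (d * z.1, d * z.2) := by
  rw [nsum, ← finsum_mem_coe_finset]
  apply finsum_mem_inter_support_eq'
  intro z hz
  have hd' : (0 : ℝ) < d := by exact_mod_cast hd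
  have h1 := hA _ hz
  simp only at h1
  have key : ∀ a : ℤ, |((d * a : ℤ) : ℝ) / r| ≤ A → |a| ≤ K := by
    intro a ha
    rw [hK, Int.le_floor]
    push_cast at ha ⊢
    rw [abs_div, abs_mul, abs_of_pos hr, abs_of_pos hd', div_le_iff₀ hr] at ha
    rw [le_div_iff₀ hd']
    linarith
  have k1 := key z.1 h1.1
  have k2 := key z.2 h1.2
  simp only [Set.mem_ofPred_eq, Finset.coe_erase, Finset.coe_product, Finset.coe_Icc,
    Set.mem_sdiff, Set.mem_prod, Set.mem_Icc, ← abs_le, Set.mem_singleton_iff]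
  exact ⟨fun h => ⟨⟨k1, k2⟩, h⟩, fun h => h.2⟩

theorem nsum_gr_bound (A M : ℝ) (hA0 : 0 < A) (hA : ∀ z, χ z ≠ 0 → |z.1| ≤ A ∧ |z.2| ≤ A)
    (hM : ∀ z, |χ z| ≤ M) (r : ℝ) (hr : 0 < r) (d : ℕ) (hd : 0 < d) :
    |nsum (gr χ r) d / r ^ 2| ≤ 8 * M * A ^ 2 / (d : ℝ) ^ 2 := by
  have hd' : (0 : ℝ) < d := by exact_mod_cast hd
  have hM0 : 0 ≤ M := (abs_nonneg _).trans (hM 0)
  set K : ℤ := ⌊A * r / d⌋ with hK
  have hK0 : 0 ≤ K := Int.floor_nonneg.mpr (by positivity)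
  have hKle : (K : ℝ) ≤ A * r / d := Int.floor_le _
  rw [nsum_gr_eq χ A hA r hr d hd K hK, abs_div, abs_of_pos (by positivity : (0 : ℝ) < r ^ 2)]
  have hcard : (((Finset.Icc (-K) K ×ˢ Finset.Icc (-K) K).erase (0 : ℤ × ℤ)).card : ℝ) ≤ 8 * (K : ℝ) ^ 2 := by
    have h0 : (0 : ℤ × ℤ) ∈ Finset.Icc (-K) K ×ˢ Finset.Icc (-K) K := by
      simp only [Finset.mem_product, Finset.mem_Icc, Prod.fst_zero, Prod.snd_zero]
      omega
    rw [Finset.card_erase_of_mem h0, Finset.card_product, Int.card_Icc]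
    have h1 : ((K + 1 - -K).toNat : ℤ) = 2 * K + 1 := by omega
    have h2 : (((K + 1 - -K).toNat * (K + 1 - -K).toNat - 1 : ℕ) : ℤ) ≤ 8 * K ^ 2 := by
      have h3 : 1 ≤ (K + 1 - -K).toNat * (K + 1 - -K).toNat := by
        have : 1 ≤ (K + 1 - -K).toNat := by omega
        nlinarith
      push_cast [Nat.cast_sub h3]
      rw [h1]
      have h4 : K ≤ K * K := by
        rcases eq_or_lt_of_le hK0 with h | h
        · rw [← h]; simp
        · nlinarith
      nlinarith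
    exact_mod_cast h2
  calc |∑ z ∈ (Finset.Icc (-K) K ×ˢ Finset.Icc (-K) K).erase 0, gr χ r (d * z.1, d * z.2)| / r ^ 2
      ≤ (∑ z ∈ (Finset.Icc (-K) K ×ˢ Finset.Icc (-K) K).erase (0 : ℤ × ℤ), M) / r ^ 2 := by
        gcongr
        refine (Finset.abs_sum_le_sum_abs _ _).trans ?_
        exact Finset.sum_le_sum (fun z _ => hM _)
    _ ≤ (8 * (A * r / d) ^ 2 * M) / r ^ 2 := by
        rw [Finset.sum_const, nsmul_eq_mul]
        gcongr
        refine hcard.trans ?_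
        gcongr
    _ = 8 * M * A ^ 2 / (d : ℝ) ^ 2 := by
        field_simp

theorem integral_fin_two (χ : ℝ × ℝ → ℝ) : ∫ u : Fin 2 → ℝ, χ (u 0, u 1) = ∫ z, χ z := by
  have h := (MeasureTheory.volume_preserving_finTwoArrow ℝ).integral_comp' χ
  rw [← h]
  rfl

theorem nsum_gr_tendsto (hc : Continuous χ) (hs : HasCompactSupport χ) (d : ℕ) (hd : 0 < d) :
    Tendsto (fun r : ℝ => nsum (gr χ r) d / r ^ 2) atTop (𝓝 (1 / (d : ℝ) ^ 2 * ∫ z, χ z)) := by
  have hd' : (0 : ℝ) < d := by exact_mod_cast hd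
  obtain ⟨A, hA0, hA⟩ := exists_supp χ hs
  set F : (Fin 2 → ℝ) → ℝ := fun u => χ (u 0, u 1) with hF
  have hFc : Continuous F := hc.comp (by fun_prop)
  have hFs : HasCompactSupport F := by
    apply HasCompactSupport.of_support_subset_isCompact (isCompact_closedBall (0 : Fin 2 → ℝ) A)
    intro u hu
    have h1 := hA _ hu
    rw [mem_closedBall_zero_iff, pi_norm_le_iff_of_nonneg hA0.le]
    intro i
    fin_cases i
    · exact h1.1
    · exact h1.2
  have h1 := riemann hFc hFs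
  rw [Fintype.card_fin, integral_fin_two] at h1
  have h2 : Tendsto (fun r : ℝ => r / d) atTop atTop := tendsto_id.atTop_div_const hd'
  have h3 := h1.comp h2
  have h4 : Tendsto (fun r : ℝ => (1 / (d : ℝ) ^ 2) * ((∑ᶠ x : Fin 2 → ℤ, F (fun i => (x i : ℝ) / (r / d))) / (r / d) ^ 2)
      - χ 0 / r ^ 2) atTop (𝓝 (1 / (d : ℝ) ^ 2 * (∫ z, χ z) - 0)) := by
    apply Tendsto.sub
    · exact h3.const_mul _
    · apply Tendsto.div_atTop tendsto_const_nhds
      exact tendsto_pow_atTop (by norm_num)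
  rw [sub_zero] at h4
  refine h4.congr' ?_
  filter_upwards [eventually_gt_atTop 0] with r hr
  have hfin : (Function.support (fun z : ℤ × ℤ => gr χ r (d * z.1, d * z.2))).Finite := by
    set K : ℤ := ⌊A * r / d⌋ with hK
    apply ((Finset.Icc (-K) K ×ˢ Finset.Icc (-K) K : Finset (ℤ × ℤ))).finite_toSet.subset
    intro z hz
    have h1 := hA _ hz
    simp only at h1
    have key : ∀ a : ℤ, |((d * a : ℤ) : ℝ) / r| ≤ A → |a| ≤ K := by
      intro a ha
      rw [hK, Int.le_floor]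
      push_cast at ha ⊢
      rw [abs_div, abs_mul, abs_of_pos hr, abs_of_pos hd', div_le_iff₀ hr] at ha
      rw [le_div_iff₀ hd']
      linarith
    simp only [Finset.coe_product, Finset.coe_Icc, Set.mem_prod, Set.mem_Icc, ← abs_le]
    exact ⟨key _ h1.1, key _ h1.2⟩
  have h5 : nsum (gr χ r) d = (∑ᶠ x : Fin 2 → ℤ, F (fun i => (x i : ℝ) / (r / d))) - χ 0 := by
    have h6 := add_finsum_cond_ne (0 : ℤ × ℤ) hfin
    have h7 : ∑ᶠ x : Fin 2 → ℤ, F (fun i => (x i : ℝ) / (r / d)) =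
        ∑ᶠ z : ℤ × ℤ, gr χ r (d * z.1, d * z.2) := by
      rw [← finsum_comp_equiv (finTwoArrowEquiv ℤ)]
      apply finsum_congr
      intro x
      simp only [hF, gr, finTwoArrowEquiv_apply]
      push_cast
      congr 2 <;> field_simp <;> rfl
    rw [h7, ← h6]
    have h8 : gr χ r ((d : ℤ) * (0 : ℤ × ℤ).1, (d : ℤ) * (0 : ℤ × ℤ).2) = χ 0 := by
      simp [gr]
      rfl
    rw [h8]
    simp only [nsum, Set.mem_ofPred_eq]
    ring
  rw [h5]
  field_simp

theorem la : S_LA := by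
  refine ⟨kap, kap_pos, ?_⟩
  intro χ hc hs
  obtain ⟨A, hA0, hA⟩ := exists_supp χ hs
  obtain ⟨M, hM⟩ : ∃ M : ℝ, ∀ z, |χ z| ≤ M := by
    obtain ⟨M, hM⟩ := hc.bounded_above_of_compact_support hs
    exact ⟨M, fun z => by simpa using hM z⟩
  have hM0 : 0 ≤ M := (abs_nonneg _).trans (hM 0)
  have hfin : ∀ r : ℝ, 0 < r → (Function.support (gr χ r)).Finite := by
    intro r hr
    set K : ℤ := ⌊A * r⌋ with hK
    apply ((Finset.Icc (-K) K ×ˢ Finset.Icc (-K) K : Finset (ℤ × ℤ))).finite_toSet.subset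
    intro z hz
    have h1 := hA _ hz
    simp only at h1
    have key : ∀ a : ℤ, |(a : ℝ) / r| ≤ A → |a| ≤ K := by
      intro a ha
      rw [hK, Int.le_floor]
      push_cast
      rw [abs_div, abs_of_pos hr, div_le_iff₀ hr] at ha
      exact ha
    simp only [Finset.coe_product, Finset.coe_Icc, Set.mem_prod, Set.mem_Icc, ← abs_le]
    exact ⟨key _ h1.1, key _ h1.2⟩
  have h1 : Tendsto (fun r : ℝ => ∑' d : ℕ, (ArithmeticFunction.moebius d : ℝ) * (nsum (gr χ r) d / r ^ 2))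
      atTop (𝓝 (∑' d : ℕ, (ArithmeticFunction.moebius d : ℝ) * (1 / (d : ℝ) ^ 2 * ∫ z, χ z))) := by
    apply tendsto_tsum_of_dominated_convergence (bound := fun d : ℕ => 8 * M * A ^ 2 * (1 / (d : ℝ) ^ 2))
    · exact (Real.summable_one_div_nat_pow.mpr (by norm_num)).mul_left _
    · intro d
      rcases Nat.eq_zero_or_pos d with h | h
      · subst h
        simp only [ArithmeticFunction.map_zero, Int.cast_zero, zero_mul]
        exact tendsto_const_nhds
      · exact (nsum_gr_tendsto χ hc hs d h).const_mul _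
    · filter_upwards [eventually_gt_atTop 0] with r hr d
      rcases Nat.eq_zero_or_pos d with h | h
      · subst h
        simp
      · rw [norm_mul, Real.norm_eq_abs, Real.norm_eq_abs]
        have h5 : |(ArithmeticFunction.moebius d : ℝ)| ≤ 1 := by
          exact_mod_cast ArithmeticFunction.abs_moebius_le_one
        calc _ ≤ 1 * |nsum (gr χ r) d / r ^ 2| := by gcongr
          _ = |nsum (gr χ r) d / r ^ 2| := one_mul _
          _ ≤ 8 * M * A ^ 2 / (d : ℝ) ^ 2 := nsum_gr_bound χ A M hA0 hA hM r hr d h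
          _ = 8 * M * A ^ 2 * (1 / (d : ℝ) ^ 2) := by ring
  have h2 : ∑' d : ℕ, (ArithmeticFunction.moebius d : ℝ) * (1 / (d : ℝ) ^ 2 * ∫ z, χ z) = kap * ∫ z, χ z := by
    rw [kap, ← tsum_mul_right]
    apply tsum_congr
    intro d
    ring
  rw [h2] at h1
  refine h1.congr' ?_
  filter_upwards [eventually_gt_atTop 0] with r hr
  have h3 := coprime_sum (gr χ r) (hfin r hr)
  have h4 : (∑ᶠ (z : ℤ × ℤ) (_ : IsCoprime z.1 z.2), χ (z.1 / r, z.2 / r)) =
      ∑ᶠ z ∈ {z : ℤ × ℤ | IsCoprime z.1 z.2}, gr χ r z := rfl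
  rw [h4, h3, ← tsum_div_const]
  apply tsum_congr
  intro d
  ring

end limit

end Pool.Agent.KS6_30.V5
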