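import Pool.Agent.KS6_30.V5.Cone

/-!
# Vectors for which the `3 × 3` minors of `(A_1 x, A_2 x, A_3 x)` vanish modulo `q`
-/

namespace Pool.Agent.KS6_30.V5

open Finset

section Ring

variable {R : Type*} [CommRing R]

/-- the rows of the matrix with the columns `A_1 x, A_2 x, A_3 x` -/
def rows (x : Fin 5 → R) : Fin 5 → Fin 3 → R :=
  ![![-x 3, -x 4, 0], ![x 2, x 3, -x 4], ![-x 1, 0, x 3], ![x 0, -x 1, -x 2], ![0, x 0, x 1]]

theorem Ax_eq_rows (l : Fin 3 → R) (x : Fin 5 → R) (i : Fin 5) : Ax l x i = ∑ j, l j * rows x i j := by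
  fin_cases i <;> simp [Ax, rows, Fin.sum_univ_three] <;> ring

/-- the cross product -/
def cr (a b : Fin 3 → R) : Fin 3 → R :=
  ![a 1 * b 2 - a 2 * b 1, a 2 * b 0 - a 0 * b 2, a 0 * b 1 - a 1 * b 0]

/-- the determinant of three rows -/
def det3 (a b c : Fin 3 → R) : R := ∑ j, cr a b j * c j

theorem exists_cr_notMem {x : Fin 5 → R} (hx : Uni x) (m : Ideal R) (hm : m.IsMaximal) :
    ∃ (i j : Fin 5) (k : Fin 3), cr (rows x i) (rows x j) k ∉ m := by
  by_contra hcon
  push Not at hcon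
  have hp := hm.isPrime
  obtain ⟨j, hj⟩ := hx.exists_notMem m hm.ne_top
  have h4 : x 4 ∈ m := by
    apply hp.mem_of_pow_mem 2
    have := hcon 0 1 0
    simp [cr, rows] at this
    simpa [sq] using this
  have h3 : x 3 ∈ m := by
    apply hp.mem_of_pow_mem 2
    have := hcon 0 2 1
    simp [cr, rows] at this
    simpa [sq] using this
  have h1 : x 1 ∈ m := by
    apply hp.mem_of_pow_mem 2
    have := hcon 2 4 1
    simp [cr, rows] at this
    simpa [sq] using this
  have h0 : x 0 ∈ m := by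
    apply hp.mem_of_pow_mem 2
    have := hcon 3 4 2
    simp [cr, rows] at this
    simpa [sq] using this
  have h2 : x 2 ∈ m := by
    apply hp.mem_of_pow_mem 2
    have := hcon 1 3 1
    simp [cr, rows] at this
    have h5 : x 4 * x 0 ∈ m := m.mul_mem_left _ h0
    have h6 := m.add_mem this h5
    have h7 : -(x 4 * x 0) + x 2 * x 2 + x 4 * x 0 = x 2 ^ 2 := by ring
    rw [h7] at h6
    exact h6
  fin_cases j
  · exact hj h0
  · exact hj h1
  · exact hj h2
  · exact hj h3
  · exact hj h4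

theorem det3_eq_zero_of_Ax {l : Fin 3 → R} (hl : Uni l) {x : Fin 5 → R} (hx : Ax l x = 0)
    (i j k : Fin 5) : det3 (rows x i) (rows x j) (rows x k) = 0 := by
  -- det * l_s = 0 for all s
  have h1 : ∀ s, det3 (rows x i) (rows x j) (rows x k) * l s = 0 := by
    have ei := congrFun hx i
    have ej := congrFun hx j
    have ek := congrFun hx k
    rw [Ax_eq_rows] at ei ej ek
    simp only [Fin.sum_univ_three, Pi.zero_apply] at ei ej ek
    set a := rows x i
    set b := rows x j
    set c := rows x k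
    intro s
    simp only [det3, cr, Fin.sum_univ_three]
    simp
    fin_cases s
    · simp only [Fin.zero_eta]
      linear_combination (b 1 * c 2 - b 2 * c 1) * ei + (c 1 * a 2 - c 2 * a 1) * ej +
        (a 1 * b 2 - a 2 * b 1) * ek
    · simp only [Fin.mk_one]
      linear_combination (b 2 * c 0 - b 0 * c 2) * ei + (c 2 * a 0 - c 0 * a 2) * ej +
        (a 2 * b 0 - a 0 * b 2) * ek
    · simp only [Fin.reduceFinMk]
      linear_combination (b 0 * c 1 - b 1 * c 0) * ei + (c 0 * a 1 - c 1 * a 0) * ej +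
        (a 0 * b 1 - a 1 * b 0) * ek
  obtain ⟨z, hz⟩ := hl
  calc det3 (rows x i) (rows x j) (rows x k) =
      det3 (rows x i) (rows x j) (rows x k) * ∑ s, z s * l s := by rw [hz, mul_one]
    _ = ∑ s, z s * (det3 (rows x i) (rows x j) (rows x k) * l s) := by
      rw [Finset.mul_sum]; apply Finset.sum_congr rfl; intro s _; ring
    _ = 0 := by simp [h1]

theorem cr_map {S : Type*} [CommRing S] (f : R →+* S) (x : Fin 5 → R) (i j : Fin 5) (k : Fin 3) :
    cr (rows (fun t => f (x t)) i) (rows (fun t => f (x t)) j) k = f (cr (rows x i) (rows x j) k) := by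
  have h : ∀ (i : Fin 5) (k : Fin 3), rows (fun t => f (x t)) i k = f (rows x i k) := by
    intro i k
    fin_cases i <;> fin_cases k <;> simp [rows]
  fin_cases k <;> simp [cr, h]

theorem Uni.map {S : Type*} [CommRing S] (f : R →+* S) {n : ℕ} {v : Fin n → R} (hv : Uni v) :
    Uni (fun t => f (v t)) := by
  obtain ⟨z, hz⟩ := hv
  refine ⟨fun t => f (z t), ?_⟩
  have := congrArg f hz
  simpa using this

end Ring

theorem exists_of_det3 (q : ℕ) [NeZero q] (x : Fin 5 → ZMod q) (hx : Uni x)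
    (hdet : ∀ i j k, det3 (rows x i) (rows x j) (rows x k) = 0) :
    ∃ l : Fin 3 → ZMod q, Uni l ∧ Ax l x = 0 := by
  classical
  have hchoice : ∀ p ∈ q.primeFactors, ∃ ij : Fin 5 × Fin 5, ∀ (hp : p ∣ q),
      ∃ k, ZMod.castHom hp (ZMod p) (cr (rows x ij.1) (rows x ij.2) k) ≠ 0 := by
    intro p hp
    have hprime := Nat.prime_of_mem_primeFactors hp
    have hdvd := Nat.dvd_of_mem_primeFactors hp
    have : Fact p.Prime := ⟨hprime⟩
    obtain ⟨i, j, k, hijk⟩ := exists_cr_notMem (hx.map (ZMod.castHom hdvd (ZMod p))) ⊥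
      Ideal.bot_isMaximal
    refine ⟨(i, j), fun hp => ⟨k, ?_⟩⟩
    rw [cr_map, Ideal.mem_bot] at hijk
    exact hijk
  choose! ij hij using hchoice
  set e : ℕ → ℕ := fun p => ∏ p' ∈ q.primeFactors.erase p, p' with he
  set l : Fin 3 → ZMod q := fun k => ∑ p ∈ q.primeFactors, (e p : ZMod q) *
    cr (rows x (ij p).1) (rows x (ij p).2) k with hl
  refine ⟨l, ?_, ?_⟩
  · rw [uni_iff_forall]
    intro d hd hv
    by_contra hd1
    obtain ⟨p, hp, hpd⟩ := Nat.exists_prime_and_dvd hd1
    have hpq : p ∣ q := hpd.trans hd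
    have : Fact p.Prime := ⟨hp⟩
    have hmem : p ∈ q.primeFactors := Nat.mem_primeFactors.mpr ⟨hp, hpq, NeZero.ne q⟩
    obtain ⟨k, hk⟩ := hij p hmem hpq
    apply hk
    have h1 : ZMod.castHom hpq (ZMod p) (l k) = 0 := by
      have : l k = ((l k).val : ZMod q) := (ZMod.natCast_zmod_val _).symm
      rw [this, map_natCast, ZMod.natCast_eq_zero_iff]
      exact hpd.trans (hv k)
    have h2 : ZMod.castHom hpq (ZMod p) (l k) = (e p : ZMod p) *
        ZMod.castHom hpq (ZMod p) (cr (rows x (ij p).1) (rows x (ij p).2) k) := by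
      rw [hl]
      simp only [map_sum, map_mul, map_natCast]
      apply Finset.sum_eq_single_of_mem p hmem
      intro p' hp' hne
      have h3 : (e p' : ZMod p) = 0 := by
        rw [ZMod.natCast_eq_zero_iff]
        exact Finset.dvd_prod_of_mem _ (Finset.mem_erase.mpr ⟨hne.symm, hmem⟩)
      rw [h3, zero_mul]
    rw [h2] at h1
    have h4 : (e p : ZMod p) ≠ 0 := by
      rw [Ne, ZMod.natCast_eq_zero_iff]
      intro hdiv
      obtain ⟨p', hp', hdiv'⟩ := (Prime.dvd_finsetProd_iff hp.prime _).mp hdiv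
      rw [Finset.mem_erase] at hp'
      have := (Nat.prime_dvd_prime_iff_eq hp (Nat.prime_of_mem_primeFactors hp'.2)).mp hdiv'
      exact hp'.1 this.symm
    exact (mul_eq_zero.mp h1).resolve_left h4
  · funext i
    rw [Ax_eq_rows]
    simp only [hl, Finset.sum_mul, Pi.zero_apply]
    rw [Finset.sum_comm]
    apply Finset.sum_eq_zero
    intro p _
    have h5 := hdet (ij p).1 (ij p).2 i
    rw [det3] at h5
    calc ∑ k, (e p : ZMod q) * cr (rows x (ij p).1) (rows x (ij p).2) k * rows x i k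
        = (e p : ZMod q) * ∑ k, cr (rows x (ij p).1) (rows x (ij p).2) k * rows x i k := by
          rw [Finset.mul_sum]; apply Finset.sum_congr rfl; intro k _; ring
      _ = 0 := by rw [h5, mul_zero]

/-- the cone modulo `q` in terms of the minors -/
theorem mem_Sq_iff_det3 (q : ℕ) [NeZero q] (x : Fin 5 → ZMod q) :
    x ∈ Sq q ↔ Uni x ∧ ∀ i j k, det3 (rows x i) (rows x j) (rows x k) = 0 := by
  rw [mem_Sq, InS]
  constructor
  · rintro ⟨hx, l, hl, hxl⟩
    exact ⟨hx, fun i j k => det3_eq_zero_of_Ax hl hxl i j k⟩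
  · rintro ⟨hx, hdet⟩
    exact ⟨hx, exists_of_det3 q x hx hdet⟩

end Pool.Agent.KS6_30.V5
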