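import Pool.Agent.KS6_30.V5.UniSum

/-!
# The net of alternating forms of the quintic del Pezzo threefold over a commutative ring
-/

namespace Pool.Agent.KS6_30.V5

open Finset

section Ring

variable {R : Type*} [CommRing R]

/-- the vector `A_l x` -/
def Ax (l : Fin 3 → R) (x : Fin 5 → R) : Fin 5 → R :=
  ![-(l 0 * x 3) - l 1 * x 4,
    l 0 * x 2 + l 1 * x 3 - l 2 * x 4,
    -(l 0 * x 1) + l 2 * x 3,
    l 0 * x 0 - l 1 * x 1 - l 2 * x 2,
    l 1 * x 0 + l 2 * x 1]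

/-- the vector of the Pfaffians of `A_l` -/
def Pf (l : Fin 3 → R) : Fin 5 → R :=
  ![l 2 ^ 2, -(l 1 * l 2), l 0 * l 2 + l 1 ^ 2, -(l 0 * l 1), l 0 ^ 2]

theorem Ax_Pf (l : Fin 3 → R) : Ax l (Pf l) = 0 := by
  funext i
  fin_cases i <;> simp [Ax, Pf] <;> ring

theorem Ax_smul (c : R) (l : Fin 3 → R) (x : Fin 5 → R) : Ax l (c • x) = c • Ax l x := by
  funext i
  fin_cases i <;> simp [Ax] <;> ring

theorem Ax_smul_left (c : R) (l : Fin 3 → R) (x : Fin 5 → R) : Ax (c • l) x = c • Ax l x := by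
  funext i
  fin_cases i <;> simp [Ax] <;> ring

theorem Pf_smul (c : R) (l : Fin 3 → R) : Pf (c • l) = (c ^ 2) • Pf l := by
  funext i
  fin_cases i <;> simp [Pf] <;> ring

theorem uni_smul_iff {n : ℕ} (u : Rˣ) (v : Fin n → R) : Uni ((u : R) • v) ↔ Uni v := by
  constructor
  · rintro ⟨z, hz⟩
    refine ⟨fun j => z j * u, ?_⟩
    rw [← hz]
    apply Finset.sum_congr rfl
    intro j _
    simp only [Pi.smul_apply, smul_eq_mul]
    ring
  · rintro ⟨z, hz⟩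
    refine ⟨fun j => z j * (u⁻¹ : Rˣ), ?_⟩
    rw [← hz]
    apply Finset.sum_congr rfl
    intro j _
    simp only [Pi.smul_apply, smul_eq_mul]
    rw [mul_assoc, ← mul_assoc ((u⁻¹ : Rˣ) : R), Units.inv_mul, one_mul]

/-- an ideal which is contained in no maximal ideal -/
theorem uni_of_forall_maximal {n : ℕ} (v : Fin n → R)
    (h : ∀ m : Ideal R, m.IsMaximal → ∃ j, v j ∉ m) : Uni v := by
  rw [uni_iff_span]
  by_contra hcon
  obtain ⟨m, hm, hle⟩ := Ideal.exists_le_maximal _ hcon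
  obtain ⟨j, hj⟩ := h m hm
  exact hj (hle (Ideal.subset_span ⟨j, rfl⟩))

theorem Uni.exists_notMem {n : ℕ} {v : Fin n → R} (h : Uni v) (m : Ideal R) (hm : m ≠ ⊤) :
    ∃ j, v j ∉ m := by
  by_contra hcon
  push Not at hcon
  rw [uni_iff_span] at h
  apply hm
  rw [eq_top_iff, ← h, Ideal.span_le]
  rintro _ ⟨j, rfl⟩
  exact hcon j

theorem uni_Pf {l : Fin 3 → R} (hl : Uni l) : Uni (Pf l) := by
  apply uni_of_forall_maximal
  intro m hm
  by_contra hcon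
  push Not at hcon
  have hp := hm.isPrime
  obtain ⟨j, hj⟩ := hl.exists_notMem m hm.ne_top
  have h0 : l 0 ∈ m := hp.mem_of_pow_mem 2 (by simpa [Pf] using hcon 4)
  have h2 : l 2 ∈ m := hp.mem_of_pow_mem 2 (by simpa [Pf] using hcon 0)
  have h1 : l 1 ∈ m := by
    apply hp.mem_of_pow_mem 2
    have h3 : l 0 * l 2 + l 1 ^ 2 ∈ m := by simpa [Pf] using hcon 2
    have h4 := m.sub_mem h3 (m.mul_mem_right (l 2) h0)
    simpa using h4
  fin_cases j
  · exact hj h0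
  · exact hj h1
  · exact hj h2

/-- the kernel of `A_l` is spanned by the Pfaffians -/
theorem eq_smul_Pf {l : Fin 3 → R} (hl : Uni l) {x : Fin 5 → R} (hx : Ax l x = 0) :
    ∃ c : R, x = c • Pf l := by
  have e0 : -(l 0 * x 3) - l 1 * x 4 = 0 := congrFun hx 0
  have e1 : l 0 * x 2 + l 1 * x 3 - l 2 * x 4 = 0 := congrFun hx 1
  have e2 : -(l 0 * x 1) + l 2 * x 3 = 0 := congrFun hx 2
  have e3 : l 0 * x 0 - l 1 * x 1 - l 2 * x 2 = 0 := congrFun hx 3
  have e4 : l 1 * x 0 + l 2 * x 1 = 0 := congrFun hx 4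
  have key : ∀ i j : Fin 5, x i * Pf l j = x j * Pf l i := by
    have k01 : x 0 * (-(l 1 * l 2)) = x 1 * (l 2 ^ 2) := by linear_combination (-l 2) * e4
    have k02 : x 0 * (l 0 * l 2 + l 1 ^ 2) = x 2 * (l 2 ^ 2) := by
      linear_combination (l 2) * e3 + l 1 * e4
    have k03 : x 0 * (-(l 0 * l 1)) = x 3 * (l 2 ^ 2) := by
      linear_combination (-l 2) * e2 - l 0 * e4
    have k04 : x 0 * (l 0 ^ 2) = x 4 * (l 2 ^ 2) := by
      linear_combination (l 2) * e1 - l 1 * e2 + l 0 * e3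
    have k12 : x 1 * (l 0 * l 2 + l 1 ^ 2) = x 2 * (-(l 1 * l 2)) := by
      linear_combination (-l 1) * e3 + l 0 * e4
    have k13 : x 1 * (-(l 0 * l 1)) = x 3 * (-(l 1 * l 2)) := by
      linear_combination (l 1) * e2
    have k14 : x 1 * (l 0 ^ 2) = x 4 * (-(l 1 * l 2)) := by
      linear_combination (-l 2) * e0 - l 0 * e2
    have k23 : x 2 * (-(l 0 * l 1)) = x 3 * (l 0 * l 2 + l 1 ^ 2) := by
      linear_combination (l 2) * e0 - l 1 * e1
    have k24 : x 2 * (l 0 ^ 2) = x 4 * (l 0 * l 2 + l 1 ^ 2) := by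
      linear_combination (l 1) * e0 + l 0 * e1
    have k34 : x 3 * (l 0 ^ 2) = x 4 * (-(l 0 * l 1)) := by
      linear_combination (-l 0) * e0
    intro i j
    fin_cases i <;> fin_cases j
    exacts [rfl, k01, k02, k03, k04, k01.symm, rfl, k12, k13, k14, k02.symm, k12.symm, rfl, k23, k24,
      k03.symm, k13.symm, k23.symm, rfl, k34, k04.symm, k14.symm, k24.symm, k34.symm, rfl]
  obtain ⟨z, hz⟩ := uni_Pf hl
  refine ⟨∑ j, z j * x j, ?_⟩
  funext i
  simp only [Pi.smul_apply, smul_eq_mul]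
  rw [Finset.sum_mul]
  calc x i = x i * ∑ j, z j * Pf l j := by rw [hz, mul_one]
    _ = ∑ j, z j * x j * Pf l i := by
      rw [Finset.mul_sum]
      apply Finset.sum_congr rfl
      intro j _
      linear_combination z j * key i j

/-- the cubic forms `w` -/
def wv (l : Fin 3 → R) : Fin 5 → R :=
  ![l 0 ^ 3, l 2 ^ 3, l 1 ^ 2 * l 2, 2 * (l 0 * l 1 * l 2) + l 1 ^ 3, l 0 * l 1 ^ 2]

theorem uni_wv {l : Fin 3 → R} (hl : Uni l) : Uni (wv l) := by
  apply uni_of_forall_maximal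
  intro m hm
  by_contra hcon
  push Not at hcon
  have hp := hm.isPrime
  obtain ⟨j, hj⟩ := hl.exists_notMem m hm.ne_top
  have h0 : l 0 ∈ m := hp.mem_of_pow_mem 3 (by simpa [wv] using hcon 0)
  have h2 : l 2 ∈ m := hp.mem_of_pow_mem 3 (by simpa [wv] using hcon 1)
  have h1 : l 1 ∈ m := by
    apply hp.mem_of_pow_mem 3
    have h3 : 2 * (l 0 * l 1 * l 2) + l 1 ^ 3 ∈ m := by simpa [wv] using hcon 3
    have h4 : 2 * (l 0 * l 1 * l 2) ∈ m := by
      apply m.mul_mem_left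
      exact m.mul_mem_left _ h2
    have h5 := m.sub_mem h3 h4
    simpa using h5
  fin_cases j
  · exact hj h0
  · exact hj h1
  · exact hj h2

/-- uniqueness of `l` -/
theorem eq_smul_of_Ax_Pf {l : Fin 3 → R} (hl : Uni l) {k : Fin 3 → R} (hk : Ax k (Pf l) = 0) :
    ∃ t : R, k = t • l := by
  have e0 : -(k 0 * Pf l 3) - k 1 * Pf l 4 = 0 := congrFun hk 0
  have e1 : k 0 * Pf l 2 + k 1 * Pf l 3 - k 2 * Pf l 4 = 0 := congrFun hk 1
  have e2 : -(k 0 * Pf l 1) + k 2 * Pf l 3 = 0 := congrFun hk 2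
  have e3 : k 0 * Pf l 0 - k 1 * Pf l 1 - k 2 * Pf l 2 = 0 := congrFun hk 3
  have e4 : k 1 * Pf l 0 + k 2 * Pf l 1 = 0 := congrFun hk 4
  simp only [Pf] at e0 e1 e2 e3 e4
  simp at e0 e1 e2 e3 e4
  have f0 : k 0 * (l 0 * l 1) - k 1 * l 0 ^ 2 = 0 := by linear_combination e0
  have f1 : k 0 * (l 0 * l 2 + l 1 ^ 2) - k 1 * (l 0 * l 1) - k 2 * l 0 ^ 2 = 0 := by
    linear_combination e1
  have f2 : k 0 * (l 1 * l 2) - k 2 * (l 0 * l 1) = 0 := by linear_combination e2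
  have f3 : k 0 * l 2 ^ 2 + k 1 * (l 1 * l 2) - k 2 * (l 0 * l 2 + l 1 ^ 2) = 0 := by
    linear_combination e3
  have f4 : k 1 * l 2 ^ 2 - k 2 * (l 1 * l 2) = 0 := by linear_combination e4
  have g001 : l 0 ^ 3 * (k 0 * l 1 - k 1 * l 0) = 0 := by
    linear_combination -((-(l 0 ^ 2)) * f0 - (0) * f1)
  have g002 : l 0 ^ 3 * (k 0 * l 2 - k 2 * l 0) = 0 := by
    linear_combination ((-(l 0 * l 1)) * f0 - (-(l 0 ^ 2)) * f1)
  have g012 : l 0 ^ 3 * (k 1 * l 2 - k 2 * l 1) = 0 := by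
    linear_combination -(((l 0 * l 2 + l 1 ^ 2)) * f0 - (l 0 * l 1) * f1)
  have g101 : l 2 ^ 3 * (k 0 * l 1 - k 1 * l 0) = 0 := by
    linear_combination -((-(l 1 * l 2)) * f3 - (-(l 0 * l 2 + l 1 ^ 2)) * f4)
  have g102 : l 2 ^ 3 * (k 0 * l 2 - k 2 * l 0) = 0 := by
    linear_combination ((l 2 ^ 2) * f3 - (l 1 * l 2) * f4)
  have g112 : l 2 ^ 3 * (k 1 * l 2 - k 2 * l 1) = 0 := by
    linear_combination -((0) * f3 - (l 2 ^ 2) * f4)
  have g201 : l 1 ^ 2 * l 2 * (k 0 * l 1 - k 1 * l 0) = 0 := by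
    linear_combination -((-(l 0 * l 2 + l 1 ^ 2)) * f2 - (-(l 0 * l 1)) * f3)
  have g202 : l 1 ^ 2 * l 2 * (k 0 * l 2 - k 2 * l 0) = 0 := by
    linear_combination ((l 1 * l 2) * f2 - (0) * f3)
  have g212 : l 1 ^ 2 * l 2 * (k 1 * l 2 - k 2 * l 1) = 0 := by
    linear_combination -((l 2 ^ 2) * f2 - (l 1 * l 2) * f3)
  have g301 : (2 * (l 0 * l 1 * l 2) + l 1 ^ 3) * (k 0 * l 1 - k 1 * l 0) = 0 := by
    linear_combination -((-(l 0 * l 2 + l 1 ^ 2)) * f1 - (-(l 0 ^ 2)) * f3)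
  have g302 : (2 * (l 0 * l 1 * l 2) + l 1 ^ 3) * (k 0 * l 2 - k 2 * l 0) = 0 := by
    linear_combination ((l 1 * l 2) * f1 - (-(l 0 * l 1)) * f3)
  have g312 : (2 * (l 0 * l 1 * l 2) + l 1 ^ 3) * (k 1 * l 2 - k 2 * l 1) = 0 := by
    linear_combination -((l 2 ^ 2) * f1 - ((l 0 * l 2 + l 1 ^ 2)) * f3)
  have g401 : l 0 * l 1 ^ 2 * (k 0 * l 1 - k 1 * l 0) = 0 := by
    linear_combination -((-(l 0 * l 1)) * f1 - (-(l 0 ^ 2)) * f2)
  have g402 : l 0 * l 1 ^ 2 * (k 0 * l 2 - k 2 * l 0) = 0 := by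
    linear_combination ((0) * f1 - (-(l 0 * l 1)) * f2)
  have g412 : l 0 * l 1 ^ 2 * (k 1 * l 2 - k 2 * l 1) = 0 := by
    linear_combination -((l 1 * l 2) * f1 - ((l 0 * l 2 + l 1 ^ 2)) * f2)
  have hz0 : ∀ y : R, (∀ s, wv l s * y = 0) → y = 0 := by
    intro y hy
    obtain ⟨z, hz⟩ := uni_wv hl
    have : (∑ s, z s * wv l s) * y = 0 := by
      rw [Finset.sum_mul]
      apply Finset.sum_eq_zero
      intro s _
      rw [mul_assoc, hy s, mul_zero]
    rwa [hz, one_mul] at this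
  have c01 : k 0 * l 1 - k 1 * l 0 = 0 := by
    apply hz0; intro s; fin_cases s
    exacts [g001, g101, g201, g301, g401]
  have c02 : k 0 * l 2 - k 2 * l 0 = 0 := by
    apply hz0; intro s; fin_cases s
    exacts [g002, g102, g202, g302, g402]
  have c12 : k 1 * l 2 - k 2 * l 1 = 0 := by
    apply hz0; intro s; fin_cases s
    exacts [g012, g112, g212, g312, g412]
  have hcross : ∀ i j : Fin 3, k i * l j = k j * l i := by
    intro i j
    fin_cases i <;> fin_cases j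
    exacts [rfl, sub_eq_zero.mp c01, sub_eq_zero.mp c02, (sub_eq_zero.mp c01).symm, rfl,
      sub_eq_zero.mp c12, (sub_eq_zero.mp c02).symm, (sub_eq_zero.mp c12).symm, rfl]
  obtain ⟨z, hz⟩ := hl
  refine ⟨∑ j, z j * k j, ?_⟩
  funext i
  simp only [Pi.smul_apply, smul_eq_mul]
  rw [Finset.sum_mul]
  calc k i = k i * ∑ j, z j * l j := by rw [hz, mul_one]
    _ = ∑ j, z j * k j * l i := by
      rw [Finset.mul_sum]
      apply Finset.sum_congr rfl
      intro j _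
      linear_combination z j * hcross i j

end Ring

end Pool.Agent.KS6_30.V5
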