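import Pool.Agent.KS6_30.V5.Torus
namespace Pool.Agent.KS6_30.V5
open MeasureTheory Filter Topology UnitAddTorus

variable {n : ℕ}

/-- the integer vector `m` as a real vector -/
def rvec (m : Fin n → ℤ) : Fin n → ℝ := fun i => (m i : ℝ)

theorem rvec_add (m k : Fin n → ℤ) : rvec (m + k) = rvec m + rvec k := by
  ext i; simp [rvec]

/-- the box of integer vectors -/
noncomputable def ibox (n : ℕ) (N : ℤ) : Finset (Fin n → ℤ) := Fintype.piFinset (fun _ => Finset.Icc (-N) N)

theorem mem_ibox (N : ℤ) (m : Fin n → ℤ) : m ∈ ibox n N ↔ ∀ i, |m i| ≤ N := by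
  simp [ibox, abs_le]

/-- the periodization -/
noncomputable def perSum (f : (Fin n → ℝ) → ℂ) (x : Fin n → ℝ) : ℂ := ∑ᶠ m : Fin n → ℤ, f (x + rvec m)

theorem perSum_add (f : (Fin n → ℝ) → ℂ) (x : Fin n → ℝ) (k : Fin n → ℤ) :
    perSum f (x + rvec k) = perSum f x := by
  simp only [perSum]
  have h := finsum_comp_equiv (Equiv.addLeft k) (f := fun m : Fin n → ℤ => f (x + rvec m))
  rw [← h]
  apply finsum_congr
  intro m
  simp only [Equiv.coe_addLeft, rvec_add]
  congr 1
  abel

theorem proj_eq_iff (x y : Fin n → ℝ) : proj x = proj y ↔ ∃ k : Fin n → ℤ, y = x + rvec k := by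
  constructor
  · intro h
    have h1 : ∀ i, ∃ k : ℤ, y i = x i + k := by
      intro i
      have h2 := congrFun h i
      simp only [proj] at h2
      have h3 : ((y i - x i : ℝ) : UnitAddCircle) = 0 := by
        rw [AddCircle.coe_sub, h2, sub_self]
      rw [AddCircle.coe_eq_zero_iff] at h3
      obtain ⟨k, hk⟩ := h3
      refine ⟨k, ?_⟩
      simp at hk
      linarith
    choose k hk using h1
    exact ⟨k, funext (fun i => by simp [rvec, hk i])⟩
  · rintro ⟨k, rfl⟩
    funext i
    simp [proj, rvec]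

/-- the support bound: for points in a box only finitely many terms of the periodization occur -/
theorem perSum_support (f : (Fin n → ℝ) → ℂ) (R A : ℝ) (hR : ∀ x, f x ≠ 0 → ∀ i, |x i| ≤ R) (x : Fin n → ℝ)
    (hx : ∀ i, |x i| ≤ A) (m : Fin n → ℤ) (hm : f (x + rvec m) ≠ 0) : m ∈ ibox n ⌈R + A⌉ := by
  rw [mem_ibox]
  intro i
  have h1 := hR _ hm i
  simp only [Pi.add_apply, rvec] at h1
  have h2 : |(m i : ℝ)| ≤ R + A := by
    calc |(m i : ℝ)| = |(x i + m i) - x i| := by ring_nf
      _ ≤ |x i + m i| + |x i| := abs_sub _ _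
      _ ≤ R + A := add_le_add h1 (hx i)
  have h3 : (|m i| : ℝ) ≤ ⌈R + A⌉ := h2.trans (Int.le_ceil _)
  exact_mod_cast h3

theorem perSum_eq_sum (f : (Fin n → ℝ) → ℂ) (R A : ℝ) (hR : ∀ x, f x ≠ 0 → ∀ i, |x i| ≤ R) (x : Fin n → ℝ)
    (hx : ∀ i, |x i| ≤ A) : perSum f x = ∑ m ∈ ibox n ⌈R + A⌉, f (x + rvec m) := by
  apply finsum_eq_sum_of_support_subset
  intro m hm
  exact perSum_support f R A hR x hx m hm

theorem continuous_perSum (f : (Fin n → ℝ) → ℂ) (hf : Continuous f) (R : ℝ)
    (hR : ∀ x, f x ≠ 0 → ∀ i, |x i| ≤ R) : Continuous (perSum f) := by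
  apply continuous_finsum
  · intro m
    exact hf.comp (continuous_id.add continuous_const)
  · intro x
    refine ⟨Metric.ball x 1, Metric.ball_mem_nhds x one_pos, ?_⟩
    apply (ibox n ⌈R + (‖x‖ + 1)⌉).finite_toSet.subset
    rintro m ⟨y, hy, hyx⟩
    apply perSum_support f R (‖x‖ + 1) hR y _ m hy
    intro i
    rw [Metric.mem_ball, dist_eq_norm] at hyx
    have h1 : |y i| ≤ ‖y‖ := norm_le_pi_norm y i
    have h2 : ‖y‖ ≤ ‖x‖ + ‖y - x‖ := by
      have := norm_add_le x (y - x)
      simpa using this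
    linarith

/-- the periodization as a function on the torus -/
noncomputable def per (f : (Fin n → ℝ) → ℂ) (hf : Continuous f) (R : ℝ)
    (hR : ∀ x, f x ≠ 0 → ∀ i, |x i| ≤ R) : C(UnitAddTorus (Fin n), ℂ) where
  toFun t := perSum f (Function.surjInv (isOpenQuotientMap_proj (n := n)).surjective t)
  continuous_toFun := by
    rw [← (isOpenQuotientMap_proj (n := n)).continuous_comp_iff]
    refine (continuous_perSum f hf R hR).congr ?_
    intro x
    have h1 := Function.surjInv_eq (isOpenQuotientMap_proj (n := n)).surjective (proj x)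
    obtain ⟨k, hk⟩ := (proj_eq_iff _ _).mp h1
    simp only [Function.comp_apply]
    conv_lhs => rw [hk]
    exact perSum_add f _ k

theorem per_proj (f : (Fin n → ℝ) → ℂ) (hf : Continuous f) (R : ℝ)
    (hR : ∀ x, f x ≠ 0 → ∀ i, |x i| ≤ R) (x : Fin n → ℝ) : per f hf R hR (proj x) = perSum f x := by
  have h1 := Function.surjInv_eq (isOpenQuotientMap_proj (n := n)).surjective (proj x)
  obtain ⟨k, hk⟩ := (proj_eq_iff _ _).mp h1
  simp only [per, ContinuousMap.coe_mk]
  conv_rhs => rw [hk]
  exact (perSum_add f _ k).symm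

/-- the translate of the cube -/
def tcube (m : Fin n → ℤ) : Set (Fin n → ℝ) := {x | x - rvec m ∈ cube n}

theorem mean_per (f : (Fin n → ℝ) → ℂ) (hf : Continuous f) (R : ℝ)
    (hR : ∀ x, f x ≠ 0 → ∀ i, |x i| ≤ R) : mean (per f hf R hR) = ∫ x, f x := by
  have hc : HasCompactSupport f := by
    apply HasCompactSupport.of_support_subset_isCompact (isCompact_closedBall (0 : Fin n → ℝ) (max R 0))
    intro x hx
    rw [mem_closedBall_zero_iff, pi_norm_le_iff_of_nonneg (le_max_right _ _)]
    intro i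
    exact (hR x hx i).trans (le_max_left _ _)
  have hint : Integrable f := hf.integrable_of_hasCompactSupport hc
  have h0 : mean (per f hf R hR) = ∫ x in cube n, ∑ m ∈ ibox n ⌈R + 1⌉, f (x + rvec m) := by
    rw [mean]
    apply setIntegral_congr_fun measurableSet_cube
    intro x hx
    simp only [per_proj]
    apply perSum_eq_sum f R 1 hR x
    intro i
    have := hx i
    rw [Set.mem_Ioc] at this
    rw [abs_of_pos this.1]
    exact this.2
  rw [h0, integral_finsetSum]
  swap
  · intro m _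
    exact (hint.comp_add_right (rvec m)).integrableOn
  have h1 : ∀ m : Fin n → ℤ, ∫ x in cube n, f (x + rvec m) = ∫ x in tcube m, f x := by
    intro m
    have hmp : MeasurePreserving (fun x : Fin n → ℝ => x + rvec m) volume volume :=
      measurePreserving_add_right volume (rvec m)
    have hme : MeasurableEmbedding (fun x : Fin n → ℝ => x + rvec m) :=
      (MeasurableEquiv.addRight (rvec m)).measurableEmbedding
    have := hmp.setIntegral_preimage_emb hme f (tcube m)
    rw [← this]
    congr 2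
    ext x
    simp [tcube]
  simp_rw [h1]
  rw [← integral_biUnion_finset]
  · apply setIntegral_eq_integral_of_forall_compl_eq_zero
    intro x hx
    by_contra hfx
    apply hx
    rw [Set.mem_iUnion₂]
    refine ⟨fun i => ⌈x i⌉ - 1, ?_, ?_⟩
    · rw [mem_ibox]
      intro i
      have h2 := hR x hfx i
      rw [abs_le] at h2 ⊢
      have h3 : (⌈R + 1⌉ : ℝ) ≥ R + 1 := Int.le_ceil _
      constructor
      · have h4 : x i ≤ ⌈x i⌉ := Int.le_ceil _
        have h5 : (-(⌈R + 1⌉ : ℤ) : ℝ) ≤ ((⌈x i⌉ - 1 : ℤ) : ℝ) := by push_cast; linarith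
        exact_mod_cast h5
      · have h4 : (⌈x i⌉ : ℝ) < x i + 1 := Int.ceil_lt_add_one _
        have h5 : ((⌈x i⌉ - 1 : ℤ) : ℝ) ≤ ((⌈R + 1⌉ : ℤ) : ℝ) := by push_cast; linarith
        exact_mod_cast h5
    · intro i
      simp only [Pi.sub_apply, rvec]
      have h4 : x i ≤ ⌈x i⌉ := Int.le_ceil _
      have h5 : (⌈x i⌉ : ℝ) < x i + 1 := Int.ceil_lt_add_one _
      push_cast
      constructor <;> linarith
  · intro m _
    exact measurableSet_cube.preimage (measurable_id.sub_const _)
  · intro m _ k _ hmk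
    rw [Function.onFun, Set.disjoint_left]
    intro x hx hx'
    apply hmk
    funext i
    have a1 := hx i
    have a2 := hx' i
    simp only [Pi.sub_apply, rvec, Set.mem_Ioc] at a1 a2
    have a3 : (m i : ℝ) < k i + 1 := by linarith
    have a4 : (k i : ℝ) < m i + 1 := by linarith
    have a5 : m i < k i + 1 := by exact_mod_cast a3
    have a6 : k i < m i + 1 := by exact_mod_cast a4
    omega
  · intro m _
    exact hint.integrableOn

end Pool.Agent.KS6_30.V5
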