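import Mathlib

/-!
# Quadratic exponential sums modulo `q` in three variables
-/

namespace Pool.Agent.KS6_30.V5

open Finset

/-- orthogonality in three variables -/
theorem sum_char_linear (q : ℕ) [NeZero q] (l : Fin 3 → ZMod q) :
    ∑ x : Fin 3 → ZMod q, ZMod.stdAddChar (∑ j, x j * l j) =
      if l = 0 then ((q : ℂ) ^ 3) else 0 := by
  classical
  have h1 : ∀ x : Fin 3 → ZMod q, (ZMod.stdAddChar (∑ j, x j * l j) : ℂ) =
      ∏ j, ZMod.stdAddChar (x j * l j) := by
    intro x
    simp [Fin.sum_univ_three, Fin.prod_univ_three, AddChar.map_add_eq_mul]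
  simp_rw [h1]
  rw [← Fintype.piFinset_univ,
    ← Finset.prod_univ_sum (fun _ : Fin 3 => (Finset.univ : Finset (ZMod q)))
      (fun j y => (ZMod.stdAddChar (y * l j) : ℂ))]
  have h2 : ∀ j, ∑ y : ZMod q, (ZMod.stdAddChar (y * l j) : ℂ) = if l j = 0 then (q : ℂ) else 0 := by
    intro j
    have := AddChar.sum_mulShift (ψ := (ZMod.stdAddChar (N := q))) (l j)
      (ZMod.isPrimitive_stdAddChar q)
    simpa [ZMod.card] using this
  simp_rw [h2]
  split_ifs with h
  · subst h; simp
  · obtain ⟨j, hj⟩ := Function.ne_iff.mp h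
    apply Finset.prod_eq_zero (Finset.mem_univ j)
    exact if_neg hj

/-- Weyl differencing -/
theorem quad_sum_sq_le (q : ℕ) [NeZero q] (F : (Fin 3 → ZMod q) → ZMod q)
    (L : (Fin 3 → ZMod q) → Fin 3 → ZMod q)
    (hF : ∀ x y, F (x + y) = F x + F y + ∑ j, x j * L y j) :
    ‖∑ x : Fin 3 → ZMod q, (ZMod.stdAddChar (F x) : ℂ)‖ ^ 2 ≤
      (q : ℝ) ^ 3 * ((Finset.univ.filter (fun y : Fin 3 → ZMod q => L y = 0)).card : ℝ) := by
  classical
  set e : AddChar (ZMod q) ℂ := ZMod.stdAddChar with he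
  have hnorm : ∀ a : ZMod q, ‖(e a : ℂ)‖ = 1 := fun a => AddChar.norm_apply e a
  have key : (∑ x : Fin 3 → ZMod q, (e (F x) : ℂ)) * (starRingEnd ℂ) (∑ x : Fin 3 → ZMod q, (e (F x) : ℂ))
      = ∑ y : Fin 3 → ZMod q, e (F y) * ∑ x : Fin 3 → ZMod q, e (∑ j, x j * L y j) := by
    have hconj : ∀ a : ZMod q, (starRingEnd ℂ) (e a) = e (-a) := by
      intro a
      rw [AddChar.map_neg_eq_conj]
    rw [map_sum, Finset.sum_mul_sum]
    -- sum over x' and x of e(F x') conj(e (F x))
    rw [Finset.sum_comm]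
    have : ∀ x : Fin 3 → ZMod q, ∑ x' : Fin 3 → ZMod q, e (F x') * (starRingEnd ℂ) (e (F x)) =
        ∑ y : Fin 3 → ZMod q, e (F y) * e (∑ j, x j * L y j) := by
      intro x
      rw [← Equiv.sum_comp (Equiv.addLeft x)]
      apply Finset.sum_congr rfl
      intro y _
      simp only [Equiv.coe_addLeft]
      rw [hconj, hF, ← AddChar.map_add_eq_mul, ← AddChar.map_add_eq_mul]
      congr 1
      ring
    simp_rw [this]
    rw [Finset.sum_comm]
    simp_rw [Finset.mul_sum]
  have h2 : (‖∑ x : Fin 3 → ZMod q, (e (F x) : ℂ)‖ ^ 2 : ℝ) =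
      ‖∑ y : Fin 3 → ZMod q, e (F y) * ∑ x : Fin 3 → ZMod q, e (∑ j, x j * L y j)‖ := by
    rw [← key, norm_mul, RCLike.norm_conj, sq]
  rw [h2]
  calc ‖∑ y : Fin 3 → ZMod q, e (F y) * ∑ x : Fin 3 → ZMod q, e (∑ j, x j * L y j)‖
      ≤ ∑ y : Fin 3 → ZMod q, ‖e (F y) * ∑ x : Fin 3 → ZMod q, e (∑ j, x j * L y j)‖ :=
        norm_sum_le _ _
    _ = ∑ y : Fin 3 → ZMod q, if L y = 0 then (q : ℝ) ^ 3 else 0 := by
        apply Finset.sum_congr rfl
        intro y _
        rw [norm_mul, hnorm, one_mul, he, sum_char_linear]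
        split_ifs <;> simp
    _ = (q : ℝ) ^ 3 * ((Finset.univ.filter (fun y : Fin 3 → ZMod q => L y = 0)).card : ℝ) := by
        rw [← Finset.sum_filter, Finset.sum_const, nsmul_eq_mul, mul_comm]

/-- the number of solutions of `c * t = 0` modulo `q` -/
theorem card_mul_eq_zero_le (q : ℕ) [NeZero q] (c : ℤ) :
    (Finset.univ.filter (fun t : ZMod q => (c : ZMod q) * t = 0)).card ≤ Int.gcd c q := by
  classical
  have hq : 0 < q := Nat.pos_of_ne_zero (NeZero.ne q)
  set g := Int.gcd c q with hg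
  have hgpos : 0 < g := Int.gcd_pos_of_ne_zero_right _ (by exact_mod_cast hq.ne')
  have hgq : g ∣ q := by
    have := Int.gcd_dvd_right c (q : ℤ)
    exact_mod_cast this
  obtain ⟨r, hr⟩ := hgq
  have hrpos : 0 < r := by
    rcases Nat.eq_zero_or_pos r with h | h
    · subst h; omega
    · exact h
  have hsub : (Finset.univ.filter (fun t : ZMod q => (c : ZMod q) * t = 0)) ⊆
      (Finset.range g).image (fun i => ((r * i : ℕ) : ZMod q)) := by
    intro t ht
    simp only [Finset.mem_filter, Finset.mem_univ, true_and] at ht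
    have h1 : ((c * (t.val : ℤ) : ℤ) : ZMod q) = 0 := by
      push_cast
      rw [ZMod.natCast_zmod_val]
      exact ht
    rw [ZMod.intCast_zmod_eq_zero_iff_dvd] at h1
    have h2 : (q : ℤ) ∣ (t.val : ℤ) * g := by
      have : (g : ℤ) = c * Int.gcdA c q + q * Int.gcdB c q := Int.gcd_eq_gcd_ab c q
      rw [this]
      have e : (t.val : ℤ) * (c * Int.gcdA c q + q * Int.gcdB c q) =
        (c * (t.val : ℤ)) * Int.gcdA c q + q * (Int.gcdB c q * t.val) := by ring
      rw [e]
      exact dvd_add (Dvd.dvd.mul_right h1 _) (Dvd.intro _ rfl)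
    have h3 : q ∣ t.val * g := by exact_mod_cast h2
    have h4 : r ∣ t.val := by
      have h5 : r * g ∣ t.val * g := by
        rw [mul_comm r g, ← hr]; exact h3
      exact Nat.dvd_of_mul_dvd_mul_right hgpos h5
    obtain ⟨i, hi⟩ := h4
    rw [Finset.mem_image]
    refine ⟨i, ?_, ?_⟩
    · rw [Finset.mem_range]
      have : t.val < q := ZMod.val_lt t
      have h6 : r * i < r * g := by
        rw [← hi, mul_comm r g, ← hr]; exact this
      exact lt_of_mul_lt_mul_left h6 (Nat.zero_le r)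
    · rw [← hi, ZMod.natCast_zmod_val]
  calc _ ≤ ((Finset.range g).image (fun i => ((r * i : ℕ) : ZMod q))).card := Finset.card_le_card hsub
    _ ≤ (Finset.range g).card := Finset.card_image_le
    _ = g := Finset.card_range g

theorem card_linear_eq_zero_le (q : ℕ) [NeZero q] (m : Fin 3 → ℤ) (k : Fin 3) :
    (Finset.univ.filter (fun y : Fin 3 → ZMod q => ∑ i, (m i : ZMod q) * y i = 0)).card ≤
      q ^ 2 * Int.gcd (m k) q := by
  classical
  set A := Finset.univ.filter (fun y : Fin 3 → ZMod q => ∑ i, (m i : ZMod q) * y i = 0) with hA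
  have hmap : ∀ y ∈ A, (fun i : Fin 2 => y (k.succAbove i)) ∈ (Finset.univ : Finset (Fin 2 → ZMod q)) :=
    fun _ _ => Finset.mem_univ _
  have hfib := Finset.card_eq_sum_card_fiberwise hmap
  rw [hfib]
  have hle : ∀ z ∈ (Finset.univ : Finset (Fin 2 → ZMod q)),
      (A.filter (fun y => (fun i : Fin 2 => y (k.succAbove i)) = z)).card ≤ Int.gcd (m k) q := by
    intro z _
    rcases (A.filter (fun y => (fun i : Fin 2 => y (k.succAbove i)) = z)).eq_empty_or_nonempty with h | ⟨y0, hy0⟩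
    · rw [h]; simp
    · refine le_trans ?_ (card_mul_eq_zero_le q (m k))
      apply Finset.card_le_card_of_injOn (fun y => y k - y0 k)
      · intro y hy
        simp only [Finset.coe_filter, Finset.mem_univ, true_and, Set.mem_ofPred_eq]
        simp only [Finset.coe_filter, Set.mem_ofPred_eq, Finset.mem_filter, hA, Finset.mem_univ, true_and] at hy hy0
        have e1 := hy.1
        have e2 := hy0.1
        rw [Fin.sum_univ_succAbove _ k] at e1 e2
        have e3 : ∀ i, y (k.succAbove i) = y0 (k.succAbove i) := by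
          intro i
          have := hy.2.trans hy0.2.symm
          exact congrFun this i
        simp_rw [e3] at e1
        linear_combination e1 - e2
      · intro y hy y' hy' hyy
        simp only [Finset.coe_filter, Set.mem_ofPred_eq] at hy hy'
        have e : y k = y' k := by
          simpa using hyy
        funext i
        rcases Fin.eq_self_or_eq_succAbove k i with h | ⟨j, h⟩
        · rw [h]; exact e
        · rw [h]
          exact congrFun (hy.2.trans hy'.2.symm) j
  calc _ ≤ ∑ z : Fin 2 → ZMod q, Int.gcd (m k) q := Finset.sum_le_sum hle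
    _ = q ^ 2 * Int.gcd (m k) q := by simp [ZMod.card]

/-- the ternary quadratic form with coefficients `c` -/
def qf {R : Type*} [CommRing R] (c : Fin 6 → ℤ) (x : Fin 3 → R) : R :=
  (c 0 : R) * x 0 ^ 2 + (c 1 : R) * x 1 ^ 2 + (c 2 : R) * x 2 ^ 2
    + (c 3 : R) * (x 0 * x 1) + (c 4 : R) * (x 0 * x 2) + (c 5 : R) * (x 1 * x 2)

/-- the matrix of the polar form -/
def hess (c : Fin 6 → ℤ) : Fin 3 → Fin 3 → ℤ :=
  ![![2 * c 0, c 3, c 4], ![c 3, 2 * c 1, c 5], ![c 4, c 5, 2 * c 2]]

theorem exists_hess_ne_zero (c : Fin 6 → ℤ) (hc : c ≠ 0) : ∃ j k, hess c j k ≠ 0 := by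
  by_contra hcon
  push Not at hcon
  apply hc
  funext i
  have h00 := hcon 0 0
  have h11 := hcon 1 1
  have h22 := hcon 2 2
  have h01 := hcon 0 1
  have h02 := hcon 0 2
  have h12 := hcon 1 2
  simp [hess] at h00 h11 h22 h01 h02 h12
  fin_cases i <;> simp [*]

theorem quad_sum_bound (c : Fin 6 → ℤ) (hc : c ≠ 0) : ∃ C : ℕ, 0 < C ∧ ∀ (q : ℕ) [NeZero q] (a : ℤ),
    ‖∑ x : Fin 3 → ZMod q, (ZMod.stdAddChar ((a : ZMod q) * qf c x) : ℂ)‖ ^ 2 ≤
      (q : ℝ) ^ 5 * ((C * Int.gcd a q : ℕ) : ℝ) := by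
  classical
  obtain ⟨j, k, hjk⟩ := exists_hess_ne_zero c hc
  refine ⟨(hess c j k).natAbs, Int.natAbs_pos.mpr hjk, ?_⟩
  intro q _ a
  have h := quad_sum_sq_le q (fun x => (a : ZMod q) * qf c x)
    (fun y j => ∑ k, ((a * hess c j k : ℤ) : ZMod q) * y k) (by
      intro x y
      simp only [qf, hess, Fin.sum_univ_three, Pi.add_apply]
      simp
      ring)
  refine h.trans ?_
  have hcard : ((Finset.univ.filter (fun y : Fin 3 → ZMod q =>
      (fun j => ∑ k, ((a * hess c j k : ℤ) : ZMod q) * y k) = 0)).card : ℝ) ≤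
      ((q ^ 2 * ((hess c j k).natAbs * Int.gcd a q) : ℕ) : ℝ) := by
    have h1 := card_linear_eq_zero_le q (fun k => a * hess c j k) k
    have h2 : (Finset.univ.filter (fun y : Fin 3 → ZMod q =>
      (fun j => ∑ k, ((a * hess c j k : ℤ) : ZMod q) * y k) = 0)) ⊆
      (Finset.univ.filter (fun y : Fin 3 → ZMod q =>
        ∑ i, ((a * hess c j i : ℤ) : ZMod q) * y i = 0)) := by
      intro y hy
      simp only [Finset.mem_filter, Finset.mem_univ, true_and] at hy ⊢
      exact congrFun hy j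
    have h3 : Int.gcd (a * hess c j k) q ≤ (hess c j k).natAbs * Int.gcd a q := by
      have hd : Int.gcd (a * hess c j k) q ∣ (hess c j k).natAbs * Int.gcd a q := by
        have h5 : Nat.gcd ((hess c j k).natAbs * a.natAbs) q ∣
            (hess c j k).natAbs * Nat.gcd a.natAbs q := by
          rw [← Nat.gcd_mul_left]
          exact Nat.dvd_gcd (Nat.gcd_dvd_left _ _) ((Nat.gcd_dvd_right _ _).mul_left _)
        rw [Int.gcd, Int.natAbs_mul, mul_comm a.natAbs]
        simpa [Int.gcd] using h5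
      refine Nat.le_of_dvd ?_ hd
      apply Nat.mul_pos (Int.natAbs_pos.mpr hjk)
      exact Int.gcd_pos_of_ne_zero_right _ (by exact_mod_cast (NeZero.ne q))
    exact_mod_cast (Finset.card_le_card h2).trans (h1.trans (Nat.mul_le_mul_left _ h3))
  calc (q : ℝ) ^ 3 * _ ≤ (q : ℝ) ^ 3 * ((q ^ 2 * ((hess c j k).natAbs * Int.gcd a q) : ℕ) : ℝ) :=
        mul_le_mul_of_nonneg_left hcard (by positivity)
    _ = (q : ℝ) ^ 5 * (((hess c j k).natAbs * Int.gcd a q : ℕ) : ℝ) := by
        push_cast; ring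

end Pool.Agent.KS6_30.V5
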