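import Mathlib

/-!
# From continuous functions to sets with boundary of measure zero
-/

namespace Pool.Agent.KS6_30.V5

open MeasureTheory Filter Topology

variable {n : ℕ}

/-- continuous functions with compact support below and above the indicator of a set -/
theorem exists_sandwich (Ω : Set (Fin n → ℝ)) (hb : Bornology.IsBounded Ω)
    (hfr : volume (frontier Ω) = 0) (ε : ℝ) (hε : 0 < ε) :
    ∃ f g : (Fin n → ℝ) → ℝ, Continuous f ∧ Continuous g ∧ HasCompactSupport f ∧
      HasCompactSupport g ∧ (∀ x, f x ≤ Ω.indicator 1 x) ∧ (∀ x, Ω.indicator 1 x ≤ g x) ∧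
      (∀ x, 0 ≤ f x) ∧
      (volume Ω).toReal - ε ≤ ∫ x, f x ∧ ∫ x, g x ≤ (volume Ω).toReal + ε := by
  classical
  set μ : Measure (Fin n → ℝ) := volume with hμ
  have hcc : IsCompact (closure Ω) := hb.isCompact_closure
  have hfin : μ (closure Ω) < ⊤ := hcc.measure_lt_top
  have hint : μ (interior Ω) = μ Ω := measure_congr (interior_ae_eq_of_null_frontier hfr)
  have hcl : μ (closure Ω) = μ Ω := measure_congr (closure_ae_eq_of_null_frontier hfr)
  have hΩfin : μ Ω ≠ ⊤ := by rw [← hcl]; exact hfin.ne
  obtain ⟨V, hV1, hV2, hV3⟩ := hcc.exists_isOpen_lt_add (μ := μ) (ε := ENNReal.ofReal ε)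
    (by simpa using hε)
  obtain ⟨g, hg1, hg2, hg3, hg4⟩ := exists_continuous_one_zero_of_isCompact hcc
    hV2.isClosed_compl (Set.disjoint_compl_right_iff_subset.mpr hV1)
  obtain ⟨f, hf1, hf2, hf3, hf4, hf5⟩ : ∃ f : (Fin n → ℝ) → ℝ, Continuous f ∧ HasCompactSupport f ∧
      (∀ x, f x ≤ Ω.indicator 1 x) ∧ (∀ x, 0 ≤ f x) ∧ (μ Ω).toReal - ε ≤ ∫ x, f x ∂μ := by
    rcases eq_or_ne (μ Ω) 0 with h0 | h0
    · refine ⟨0, continuous_const, HasCompactSupport.zero, ?_, fun _ => le_rfl, ?_⟩
      · intro x
        exact Set.indicator_nonneg (fun _ _ => zero_le_one) x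
      · rw [h0]; simp [hε.le]
    · have hlt : μ Ω - ENNReal.ofReal ε < μ (interior Ω) := by
        rw [hint]
        exact ENNReal.sub_lt_self hΩfin h0 (by simpa using hε)
      obtain ⟨K, hK1, hK2, hK3⟩ := isOpen_interior.exists_lt_isCompact hlt
      obtain ⟨f, hf1, hf2, hf3, hf4⟩ := exists_continuous_one_zero_of_isCompact hK2
        (isOpen_interior (s := Ω)).isClosed_compl (Set.disjoint_compl_right_iff_subset.mpr hK1)
      refine ⟨f, f.continuous, hf3, ?_, fun x => (hf4 x).1, ?_⟩
      · intro x
        by_cases hx : x ∈ interior Ω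
        · rw [Set.indicator_of_mem (interior_subset hx)]
          exact (hf4 x).2
        · rw [hf2 hx]
          exact Set.indicator_nonneg (fun _ _ => zero_le_one) x
      · have hKfin : μ K ≠ ⊤ := hK2.measure_lt_top.ne
        have h1 : (μ K).toReal ≤ ∫ x, f x ∂μ := by
          have h2 : ∫ x, K.indicator (1 : (Fin n → ℝ) → ℝ) x ∂μ = (μ K).toReal := by
            rw [integral_indicator_one hK2.measurableSet, measureReal_def]
          rw [← h2]
          apply integral_mono
          · exact (integrable_indicator_iff hK2.measurableSet).mpr (integrableOn_const hKfin)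
          · exact f.continuous.integrable_of_hasCompactSupport hf3
          · intro x
            by_cases hx : x ∈ K
            · simp only [Set.indicator_of_mem hx]
              exact (hf1 hx).ge
            · simp only [Set.indicator_of_notMem hx]
              exact (hf4 x).1
        have h3 : (μ Ω).toReal - ε ≤ (μ K).toReal := by
          have h4 : μ Ω ≤ μ K + ENNReal.ofReal ε := by
            have := hK3.le
            rwa [tsub_le_iff_right] at this
          have h5 := ENNReal.toReal_mono (by finiteness) h4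
          rw [ENNReal.toReal_add hKfin ENNReal.ofReal_ne_top, ENNReal.toReal_ofReal hε.le] at h5
          linarith
        linarith
  refine ⟨f, g, hf1, g.continuous, hf2, hg3, hf3, ?_, hf4, hf5, ?_⟩
  · intro x
    by_cases hx : x ∈ Ω
    · rw [Set.indicator_of_mem hx]
      exact (hg1 (subset_closure hx)).ge
    · rw [Set.indicator_of_notMem hx]
      exact (hg4 x).1
  · have hVfin : μ V ≠ ⊤ := (hV3.trans_le le_top).ne
    have h1 : ∫ x, g x ∂μ ≤ (μ V).toReal := by
      have h2 : ∫ x, V.indicator (1 : (Fin n → ℝ) → ℝ) x ∂μ = (μ V).toReal := by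
        rw [integral_indicator_one hV2.measurableSet, measureReal_def]
      rw [← h2]
      apply integral_mono
      · exact g.continuous.integrable_of_hasCompactSupport hg3
      · exact (integrable_indicator_iff hV2.measurableSet).mpr (integrableOn_const hVfin)
      · intro x
        by_cases hx : x ∈ V
        · simp only [Set.indicator_of_mem hx]
          exact (hg4 x).2
        · simp only [Set.indicator_of_notMem hx]
          exact (hg2 hx).le
    have h5 := ENNReal.toReal_mono (by finiteness) hV3.le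
    rw [hcl, ENNReal.toReal_add hΩfin ENNReal.ofReal_ne_top, ENNReal.toReal_ofReal hε.le] at h5
    linarith

/-- from continuous functions to sets for monotone functionals -/
theorem tendsto_of_sandwich {ι : Type*} (l : Filter ι) (L : ι → ((Fin n → ℝ) → ℝ) → ℝ)
    (hmono : ∀ i, ∀ f g : (Fin n → ℝ) → ℝ, Bornology.IsBounded (Function.support f) →
      Bornology.IsBounded (Function.support g) → (∀ x, f x ≤ g x) → L i f ≤ L i g)
    (c : ℝ) (hL : ∀ f : (Fin n → ℝ) → ℝ, Continuous f → HasCompactSupport f →
      Tendsto (fun i => L i f) l (𝓝 (c * ∫ x, f x)))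
    (Ω : Set (Fin n → ℝ)) (hb : Bornology.IsBounded Ω) (hfr : volume (frontier Ω) = 0) :
    Tendsto (fun i => L i (Ω.indicator 1)) l (𝓝 (c * (volume Ω).toReal)) := by
  rw [Metric.tendsto_nhds]
  intro ε hε
  set δ := ε / (2 * (|c| + 1)) with hδ
  have hδ0 : 0 < δ := by positivity
  have hcδ : |c| * δ ≤ ε / 2 := by
    rw [hδ]
    have : |c| * (ε / (2 * (|c| + 1))) = (|c| / (|c| + 1)) * (ε / 2) := by field_simp
    rw [this]
    have h1 : |c| / (|c| + 1) ≤ 1 := by
      rw [div_le_one (by positivity)]; linarith [abs_nonneg c]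
    calc (|c| / (|c| + 1)) * (ε / 2) ≤ 1 * (ε / 2) := by gcongr
      _ = ε / 2 := one_mul _
  obtain ⟨f, g, hf, hg, hfc, hgc, hfΩ, hgΩ, hf0, hfi, hgi⟩ := exists_sandwich Ω hb hfr δ hδ0
  have hfint : ∫ x, f x ≤ (volume Ω).toReal + δ := by
    refine le_trans ?_ hgi
    apply integral_mono (hf.integrable_of_hasCompactSupport hfc) (hg.integrable_of_hasCompactSupport hgc)
    intro x
    exact (hfΩ x).trans (hgΩ x)
  have hgint : (volume Ω).toReal - δ ≤ ∫ x, g x := by
    refine le_trans hfi ?_
    apply integral_mono (hf.integrable_of_hasCompactSupport hfc) (hg.integrable_of_hasCompactSupport hgc)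
    intro x
    exact (hfΩ x).trans (hgΩ x)
  have h1 := (Metric.tendsto_nhds.mp (hL f hf hfc)) (ε / 2) (by positivity)
  have h2 := (Metric.tendsto_nhds.mp (hL g hg hgc)) (ε / 2) (by positivity)
  have hsuppΩ : Bornology.IsBounded (Function.support (Ω.indicator (1 : (Fin n → ℝ) → ℝ))) :=
    hb.subset (by
      intro x hx
      exact Set.mem_of_indicator_ne_zero hx)
  have hsf : Bornology.IsBounded (Function.support f) :=
    hfc.isCompact.isBounded.subset subset_closure
  have hsg : Bornology.IsBounded (Function.support g) :=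
    hgc.isCompact.isBounded.subset subset_closure
  filter_upwards [h1, h2] with i hi1 hi2
  rw [Real.dist_eq, abs_lt] at hi1 hi2 ⊢
  have a1 := hmono i f _ hsf hsuppΩ hfΩ
  have a2 := hmono i _ g hsuppΩ hsg hgΩ
  have b1 : |c * (∫ x, f x) - c * (volume Ω).toReal| ≤ ε / 2 := by
    rw [← mul_sub, abs_mul]
    refine le_trans ?_ hcδ
    gcongr
    rw [abs_le]
    constructor <;> linarith
  have b2 : |c * (∫ x, g x) - c * (volume Ω).toReal| ≤ ε / 2 := by
    rw [← mul_sub, abs_mul]
    refine le_trans ?_ hcδ
    gcongr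
    rw [abs_le]
    constructor <;> linarith
  rw [abs_le] at b1 b2
  constructor <;> linarith [hi1.1, hi1.2, hi2.1, hi2.2, b1.1, b1.2, b2.1, b2.2]

end Pool.Agent.KS6_30.V5
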