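import Pool.Agent.KS6_30.V5.Equi
import Pool.Agent.KS6_30.V5.Sandwich
namespace Pool.Agent.KS6_30.V5
open MeasureTheory Filter Topology

variable {n : ℕ}

/-- the sum of the values at the points `Y / q` for `Y` in `A` -/
noncomputable def rsum (q : ℕ) (A : Set (Fin n → ℤ)) (f : (Fin n → ℝ) → ℝ) : ℝ :=
  ∑ᶠ Y : Fin n → ℤ, A.indicator (fun Y => f (scal q Y)) Y

theorem finite_scal (q : ℕ) [NeZero q] (s : Set (Fin n → ℝ)) (hs : Bornology.IsBounded s) :
    {Y : Fin n → ℤ | scal q Y ∈ s}.Finite := by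
  obtain ⟨R, hR⟩ := hs.subset_closedBall (0 : Fin n → ℝ)
  apply (ibox n ⌈R * q⌉).finite_toSet.subset
  intro Y hY
  rw [Finset.mem_coe, mem_ibox]
  intro i
  have hq : (0 : ℝ) < q := by exact_mod_cast Nat.pos_of_ne_zero (NeZero.ne q)
  have h0 := hR hY
  rw [mem_closedBall_zero_iff] at h0
  have h1 : |scal q Y i| ≤ R := (norm_le_pi_norm (scal q Y) i).trans h0
  simp only [scal] at h1
  rw [abs_div, abs_of_pos hq, div_le_iff₀ hq] at h1
  have h3 : (|Y i| : ℝ) ≤ ⌈R * q⌉ := h1.trans (Int.le_ceil _)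
  exact_mod_cast h3

theorem rsum_eq_sum (q : ℕ) [NeZero q] (A : Set (Fin n → ℤ)) (f : (Fin n → ℝ) → ℝ)
    (s : Set (Fin n → ℝ)) (hs : Bornology.IsBounded s) (hf : Function.support f ⊆ s) :
    rsum q A f = ∑ Y ∈ (finite_scal q s hs).toFinset, A.indicator (fun Y => f (scal q Y)) Y := by
  apply finsum_eq_sum_of_support_subset
  intro Y hY
  rw [Set.Finite.coe_toFinset]
  have := (Set.indicator_apply_ne_zero.mp hY).2
  exact hf this

theorem rsum_mono (q : ℕ) [NeZero q] (A : Set (Fin n → ℤ)) (f g : (Fin n → ℝ) → ℝ)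
    (hf : Bornology.IsBounded (Function.support f)) (hg : Bornology.IsBounded (Function.support g))
    (hfg : ∀ x, f x ≤ g x) : rsum q A f ≤ rsum q A g := by
  have hb := hf.union hg
  rw [rsum_eq_sum q A f _ hb Set.subset_union_left, rsum_eq_sum q A g _ hb Set.subset_union_right]
  apply Finset.sum_le_sum
  intro Y _
  apply Set.indicator_le_indicator
  exact hfg _

theorem rsum_indicator (q : ℕ) [NeZero q] (A : Set (Fin n → ℤ)) (Ω : Set (Fin n → ℝ))
    (hb : Bornology.IsBounded Ω) :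
    rsum q A (Ω.indicator 1) = ({Y : Fin n → ℤ | Y ∈ A ∧ scal q Y ∈ Ω}.ncard : ℝ) := by
  classical
  rw [rsum_eq_sum q A _ Ω hb (by intro x hx; exact Set.mem_of_indicator_ne_zero hx)]
  have h1 : {Y : Fin n → ℤ | Y ∈ A ∧ scal q Y ∈ Ω} =
      (((finite_scal q Ω hb).toFinset.filter (fun Y => Y ∈ A) : Finset (Fin n → ℤ)) : Set (Fin n → ℤ)) := by
    ext Y
    simp [and_comm]
  rw [h1, Set.ncard_coe_finset, Finset.card_filter]
  push_cast
  apply Finset.sum_congr rfl
  intro Y hY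
  rw [Set.Finite.mem_toFinset] at hY
  by_cases hA : Y ∈ A
  · rw [Set.indicator_of_mem hA, if_pos hA, Set.indicator_of_mem (show scal q Y ∈ Ω from hY)]
    rfl
  · rw [Set.indicator_of_notMem hA, if_neg hA]

theorem rsum_ofReal (q : ℕ) (S : Finset (Fin n → ZMod q)) (f : (Fin n → ℝ) → ℝ) :
    ((rsum q {Y | red q Y ∈ S} f : ℝ) : ℂ) = lsum q S (fun x => (f x : ℂ)) := by
  rw [rsum, lsum]
  have h := AddMonoidHom.map_finsum_of_injective (Complex.ofRealHom : ℝ →+ ℂ) Complex.ofReal_injective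
    (fun Y : Fin n → ℤ => Set.indicator {Y : Fin n → ℤ | red q Y ∈ S} (fun Y => f (scal q Y)) Y)
  have h2 : ((∑ᶠ Y : Fin n → ℤ, Set.indicator {Y : Fin n → ℤ | red q Y ∈ S} (fun Y => f (scal q Y)) Y : ℝ) : ℂ) =
    (Complex.ofRealHom : ℝ →+ ℂ) (∑ᶠ Y : Fin n → ℤ, Set.indicator {Y : Fin n → ℤ | red q Y ∈ S} (fun Y => f (scal q Y)) Y) := rfl
  rw [h2, h]
  apply finsum_congr
  intro Y
  by_cases hY : Y ∈ {Y : Fin n → ℤ | red q Y ∈ S}
  · rw [Set.indicator_of_mem hY, Set.indicator_of_mem hY]; rfl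
  · rw [Set.indicator_of_notMem hY, Set.indicator_of_notMem hY]; simp

/-- the invariance of the cone under units -/
theorem mem_Sq_smul (q : ℕ) [NeZero q] (u : (ZMod q)ˣ) (x : Fin 5 → ZMod q) :
    (u : ZMod q) • x ∈ Sq q ↔ x ∈ Sq q := by
  rw [mem_Sq, mem_Sq, InS, InS, uni_smul_iff]
  refine and_congr_right (fun _ => exists_congr (fun l => and_congr_right (fun _ => ?_)))
  rw [Ax_smul]
  constructor
  · intro h
    have h3 := congrArg (fun y => ((u⁻¹ : (ZMod q)ˣ) : ZMod q) • y) h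
    simpa [smul_smul] using h3
  · intro h; rw [h, smul_zero]

/-- the integer vectors in the cone modulo `q` and in the class `r` modulo `m` -/
def coneSet (q m : ℕ) [NeZero q] (r : Fin 5 → ZMod m) : Set (Fin 5 → ℤ) := {Y | red q Y ∈ Sq q ∧ red m Y = r}

theorem rsum_coneSet (q m : ℕ) [NeZero q] [NeZero m] (hqm : Nat.Coprime q m) (r : Fin 5 → ZMod m)
    (f : (Fin 5 → ℝ) → ℝ) :
    ∃ s : Fin 5 → ZMod m, rsum q (coneSet q m r) f =
      rsum q {Y | red q Y ∈ Sq q} (fun y => f (fun i => ((s i).val : ℝ) + m * y i)) := by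
  set u : (ZMod m)ˣ := ZMod.unitOfCoprime q hqm with hu
  set v : (ZMod q)ˣ := ZMod.unitOfCoprime m hqm.symm with hv
  set s : Fin 5 → ZMod m := fun i => ((u⁻¹ : (ZMod m)ˣ) : ZMod m) * r i with hs
  have hq : (0 : ℝ) < q := by exact_mod_cast Nat.pos_of_ne_zero (NeZero.ne q)
  have hm : (m : ℤ) ≠ 0 := by exact_mod_cast (NeZero.ne m)
  refine ⟨s, ?_⟩
  -- the parametrization
  set φ : (Fin 5 → ℤ) → (Fin 5 → ℤ) := fun Z i => q * ((s i).val : ℤ) + m * Z i with hφ
  have hφred : ∀ Z, red q (φ Z) = (v : ZMod q) • red q Z := by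
    intro Z
    funext i
    simp only [red, hφ, Pi.smul_apply, smul_eq_mul, hv, ZMod.coe_unitOfCoprime]
    push_cast
    simp
  have hφm : ∀ Z, red m (φ Z) = r := by
    intro Z
    funext i
    simp only [red, hφ]
    push_cast
    rw [ZMod.natCast_self, zero_mul, add_zero, ZMod.natCast_zmod_val]
    have h1 : (q : ZMod m) = u := by rw [hu, ZMod.coe_unitOfCoprime]
    rw [h1, hs]
    simp only
    rw [← mul_assoc, Units.mul_inv, one_mul]
  have hinj : Function.Injective φ := by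
    intro Z Z' h
    funext i
    have := congrFun h i
    simp only [hφ] at this
    have h2 : (m : ℤ) * Z i = m * Z' i := by linarith
    exact mul_left_cancel₀ hm h2
  have hscal : ∀ Z, scal q (φ Z) = fun i => ((s i).val : ℝ) + m * scal q Z i := by
    intro Z
    funext i
    simp only [scal, hφ]
    push_cast
    field_simp
  have hsurj : ∀ Y, red m Y = r → ∃ Z, φ Z = Y := by
    intro Y hY
    have h1 : ∀ i, (m : ℤ) ∣ Y i - q * ((s i).val : ℤ) := by
      intro i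
      rw [← ZMod.intCast_zmod_eq_zero_iff_dvd]
      have h2 := congrFun hY i
      have h3 := congrFun (hφm 0) i
      simp only [red, hφ] at h2 h3
      push_cast at h3 ⊢
      rw [h2, ← h3]
      simp
    choose Z hZ using h1
    exact ⟨Z, funext (fun i => by simp only [hφ]; linarith [hZ i])⟩
  rw [rsum, rsum]
  have h1 : (∑ᶠ Y : Fin 5 → ℤ, (coneSet q m r).indicator (fun Y => f (scal q Y)) Y) =
      ∑ᶠ Y ∈ coneSet q m r, f (scal q Y) := by
    apply finsum_congr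
    intro Y
    by_cases hY : Y ∈ coneSet q m r <;> simp [hY]
  have h2 : (∑ᶠ Y : Fin 5 → ℤ, {Y : Fin 5 → ℤ | red q Y ∈ Sq q}.indicator
      (fun Y => f (fun i => ((s i).val : ℝ) + m * scal q Y i)) Y) =
      ∑ᶠ Y ∈ {Y : Fin 5 → ℤ | red q Y ∈ Sq q}, f (fun i => ((s i).val : ℝ) + m * scal q Y i) := by
    apply finsum_congr
    intro Y
    by_cases hY : Y ∈ {Y : Fin 5 → ℤ | red q Y ∈ Sq q} <;> simp [hY]
  rw [h1, h2]
  symm
  apply finsum_mem_eq_of_bijOn φ
  · refine ⟨?_, hinj.injOn, ?_⟩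
    · intro Z hZ
      simp only [coneSet, Set.mem_ofPred_eq] at hZ ⊢
      rw [hφred, mem_Sq_smul]
      exact ⟨hZ, hφm Z⟩
    · intro Y hY
      obtain ⟨Z, rfl⟩ := hsurj Y hY.2
      refine ⟨Z, ?_, rfl⟩
      simp only [coneSet, Set.mem_ofPred_eq] at hY ⊢
      rw [hφred, mem_Sq_smul] at hY
      exact hY.1
  · intro Z _
    rw [hscal]

end Pool.Agent.KS6_30.V5
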