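import Mathlib
namespace Pool.Agent.KS6_30.V5
open MeasureTheory Filter Topology UnitAddTorus

variable {n : ℕ}

/-- the projection of the space to the torus -/
def proj (x : Fin n → ℝ) : UnitAddTorus (Fin n) := fun i => (x i : UnitAddCircle)

theorem isOpenQuotientMap_proj : IsOpenQuotientMap (proj (n := n)) := by
  have : ∀ _i : Fin n, IsOpenQuotientMap (fun x : ℝ => (x : UnitAddCircle)) :=
    fun _ => QuotientAddGroup.isOpenQuotientMap_mk
  exact IsOpenQuotientMap.piMap this

theorem continuous_proj : Continuous (proj (n := n)) := isOpenQuotientMap_proj.continuous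

/-- the half open unit cube -/
def cube (n : ℕ) : Set (Fin n → ℝ) := {x | ∀ i, x i ∈ Set.Ioc (0 : ℝ) 1}

theorem cube_eq : cube n = Set.pi Set.univ (fun _ => Set.Ioc (0 : ℝ) 1) := by
  ext x; simp [cube]

theorem measurableSet_cube : MeasurableSet (cube n) := by
  rw [cube_eq]
  exact MeasurableSet.univ_pi (fun _ => measurableSet_Ioc)

theorem volume_cube : volume (cube n) = 1 := by
  rw [cube_eq, Real.volume_pi_Ioc]
  simp

/-- the mean of a continuous function on the torus -/
noncomputable def mean (F : C(UnitAddTorus (Fin n), ℂ)) : ℂ := ∫ x in cube n, F (proj x)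

theorem integrable_proj (F : C(UnitAddTorus (Fin n), ℂ)) :
    IntegrableOn (fun x => F (proj x)) (cube n) volume := by
  apply Measure.integrableOn_of_bounded (M := ‖F‖)
  · rw [volume_cube]; exact ENNReal.one_ne_top
  · exact (F.continuous.comp continuous_proj).aestronglyMeasurable
  · exact Filter.Eventually.of_forall (fun x => F.norm_coe_le_norm _)

theorem norm_mean_le (F : C(UnitAddTorus (Fin n), ℂ)) : ‖mean F‖ ≤ ‖F‖ := by
  have h := norm_setIntegral_le_of_norm_le_const (μ := volume) (s := cube n)
    (f := fun x => F (proj x)) (C := ‖F‖) (by rw [volume_cube]; exact ENNReal.one_lt_top)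
    (fun x _ => F.norm_coe_le_norm _)
  rw [measureReal_def, volume_cube] at h
  simpa [mean] using h

theorem mean_sub (F G : C(UnitAddTorus (Fin n), ℂ)) : mean (F - G) = mean F - mean G := by
  simp only [mean, ContinuousMap.sub_apply]
  exact integral_sub (integrable_proj F) (integrable_proj G)

theorem mean_add (F G : C(UnitAddTorus (Fin n), ℂ)) : mean (F + G) = mean F + mean G := by
  simp only [mean, ContinuousMap.add_apply]
  exact integral_add (integrable_proj F) (integrable_proj G)

theorem mean_smul (c : ℂ) (F : C(UnitAddTorus (Fin n), ℂ)) : mean (c • F) = c • mean F := by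
  simp only [mean, ContinuousMap.smul_apply]
  exact integral_smul c _

theorem integral_fourier (k : ℤ) (hk : k ≠ 0) :
    ∫ t in Set.Ioc (0 : ℝ) 1, (fourier k (t : UnitAddCircle) : ℂ) = 0 := by
  rw [← intervalIntegral.integral_of_le zero_le_one]
  have h1 : ∀ t : ℝ, (fourier k (t : UnitAddCircle) : ℂ) = Complex.exp ((2 * Real.pi * Complex.I * k) * t) := by
    intro t
    rw [fourier_coe_apply]
    congr 1
    push_cast
    ring
  simp_rw [h1]
  have hc : (2 * Real.pi * Complex.I * k : ℂ) ≠ 0 := by
    have : (k : ℂ) ≠ 0 := by exact_mod_cast hk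
    have hpi : (Real.pi : ℂ) ≠ 0 := by exact_mod_cast Real.pi_ne_zero
    simp [this, hpi]
  rw [integral_exp_mul_complex hc]
  have h2 : Complex.exp ((2 * Real.pi * Complex.I * k) * (1 : ℝ)) = 1 := by
    rw [Complex.exp_eq_one_iff]
    exact ⟨k, by push_cast; ring⟩
  rw [h2]
  simp

theorem mean_mFourier (m : Fin n → ℤ) : mean (mFourier m) = if m = 0 then 1 else 0 := by
  split_ifs with h
  · subst h
    rw [mFourier_zero]
    simp only [mean, ContinuousMap.one_apply]
    rw [setIntegral_const, measureReal_def, volume_cube]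
    simp
  · obtain ⟨i, hi⟩ := Function.ne_iff.mp h
    have h1 : mean (mFourier m) = ∏ i, ∫ t in Set.Ioc (0 : ℝ) 1, (fourier (m i) (t : UnitAddCircle) : ℂ) := by
      rw [← MeasureTheory.integral_fintype_prod_eq_prod
        (f := fun i (t : ℝ) => (fourier (m i) (t : UnitAddCircle) : ℂ))
        (μ := fun _ => volume.restrict (Set.Ioc (0 : ℝ) 1))]
      rw [← Measure.restrict_pi_pi, mean, cube_eq]
      rfl
    rw [h1]
    exact Finset.prod_eq_zero (Finset.mem_univ i) (integral_fourier (m i) hi)

theorem torus_limit {ι : Type*} (l : Filter ι) (Λ : ι → C(UnitAddTorus (Fin n), ℂ) →ₗ[ℂ] ℂ)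
    (hΛ : ∀ i F, ‖Λ i F‖ ≤ ‖F‖)
    (h : ∀ m, Tendsto (fun i => Λ i (mFourier m)) l (𝓝 (if m = 0 then 1 else 0)))
    (F : C(UnitAddTorus (Fin n), ℂ)) : Tendsto (fun i => Λ i F) l (𝓝 (mean F)) := by
  have h1 : ∀ G ∈ Submodule.span ℂ (Set.range (mFourier (d := Fin n))),
      Tendsto (fun i => Λ i G) l (𝓝 (mean G)) := by
    intro G hG
    induction hG using Submodule.span_induction with
    | mem x hx =>
      obtain ⟨m, rfl⟩ := hx
      rw [mean_mFourier]
      exact h m
    | zero =>
      have : mean (0 : C(UnitAddTorus (Fin n), ℂ)) = 0 := by simp [mean]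
      rw [this]
      simp only [map_zero]
      exact tendsto_const_nhds
    | add x y _ _ hx hy =>
      rw [mean_add]
      simp only [map_add]
      exact hx.add hy
    | smul a x _ hx =>
      rw [mean_smul]
      simp only [map_smul]
      exact hx.const_smul a
  rw [Metric.tendsto_nhds]
  intro ε hε
  have hF : F ∈ (Submodule.span ℂ (Set.range (mFourier (d := Fin n)))).topologicalClosure := by
    rw [span_mFourier_closure_eq_top]; trivial
  obtain ⟨G, hG, hFG⟩ := Metric.mem_closure_iff.mp hF (ε / 3) (by positivity)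
  rw [dist_eq_norm] at hFG
  have h2 := (Metric.tendsto_nhds.mp (h1 G hG)) (ε / 3) (by positivity)
  filter_upwards [h2] with i hi
  rw [dist_eq_norm] at hi ⊢
  have e1 : Λ i F - mean F = Λ i (F - G) + (Λ i G - mean G) - mean (F - G) := by
    rw [map_sub, mean_sub]; ring
  rw [e1]
  calc ‖Λ i (F - G) + (Λ i G - mean G) - mean (F - G)‖
      ≤ ‖Λ i (F - G) + (Λ i G - mean G)‖ + ‖mean (F - G)‖ := norm_sub_le _ _
    _ ≤ ‖Λ i (F - G)‖ + ‖Λ i G - mean G‖ + ‖mean (F - G)‖ := by
        gcongr; exact norm_add_le _ _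
    _ < ε / 3 + ε / 3 + ε / 3 := by
        have a1 := (hΛ i (F - G)).trans_lt hFG
        have a2 := (norm_mean_le (F - G)).trans_lt hFG
        linarith
    _ = ε := by ring

end Pool.Agent.KS6_30.V5
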