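import Pool.Agent.KS6_30.V5.QuadSum

/-!
# Sums over unimodular vectors modulo `q`
-/

namespace Pool.Agent.KS6_30.V5

open Finset

/-- unimodular vectors -/
def Uni {R : Type*} [CommRing R] {n : ℕ} (v : Fin n → R) : Prop := ∃ z : Fin n → R, ∑ j, z j * v j = 1

theorem uni_iff_span {R : Type*} [CommRing R] {n : ℕ} (v : Fin n → R) :
    Uni v ↔ Ideal.span (Set.range v) = ⊤ := by
  rw [Ideal.eq_top_iff_one, Ideal.mem_span_range_iff_exists_fun]
  rfl

theorem uni_iff_forall (q : ℕ) [NeZero q] {n : ℕ} (v : Fin n → ZMod q) :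
    Uni v ↔ ∀ d, d ∣ q → (∀ j, d ∣ (v j).val) → d = 1 := by
  constructor
  · rintro ⟨z, hz⟩ d hd hv
    have h1 := congrArg (ZMod.castHom hd (ZMod d)) hz
    rw [map_sum, map_one] at h1
    have h2 : ∀ j, ZMod.castHom hd (ZMod d) (v j) = 0 := by
      intro j
      have : v j = ((v j).val : ZMod q) := (ZMod.natCast_zmod_val _).symm
      rw [this, map_natCast, ZMod.natCast_eq_zero_iff]
      exact hv j
    simp only [map_mul, h2, mul_zero, Finset.sum_const_zero] at h1
    have h3 : ((1 : ℕ) : ZMod d) = 0 := by simpa using h1.symm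
    rw [ZMod.natCast_eq_zero_iff] at h3
    exact Nat.dvd_one.mp h3
  · intro h
    by_contra hcon
    rw [uni_iff_span] at hcon
    obtain ⟨m, hm, hle⟩ := Ideal.exists_le_maximal _ hcon
    let _ : Field (ZMod q ⧸ m) := Ideal.Quotient.field m
    set p := ringChar (ZMod q ⧸ m) with hp
    have hpq : p ∣ q := by
      rw [← CharP.cast_eq_zero_iff (ZMod q ⧸ m) p q]
      rw [← map_natCast (Ideal.Quotient.mk m) q, ZMod.natCast_self, map_zero]
    have hpv : ∀ j, p ∣ (v j).val := by
      intro j
      rw [← CharP.cast_eq_zero_iff (ZMod q ⧸ m) p]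
      have h1 : v j ∈ m := hle (Ideal.subset_span ⟨j, rfl⟩)
      rw [← Ideal.Quotient.eq_zero_iff_mem] at h1
      rw [← map_natCast (Ideal.Quotient.mk m), ZMod.natCast_zmod_val]
      exact h1
    have h1 := h p hpq hpv
    have h2 : ((1 : ℕ) : ZMod q ⧸ m) = 0 := (CharP.cast_eq_zero_iff (ZMod q ⧸ m) p 1).mpr (by rw [h1])
    simp at h2

theorem card_mul_eq (q : ℕ) [NeZero q] (d : ℕ) (hd : d ∣ q) (u : ZMod q) :
    (Finset.univ.filter (fun t : ZMod q => (d : ZMod q) * t = u)).card = if d ∣ u.val then d else 0 := by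
  classical
  have hq : 0 < q := Nat.pos_of_ne_zero (NeZero.ne q)
  obtain ⟨r, hr⟩ := hd
  have hdpos : 0 < d := by
    rcases Nat.eq_zero_or_pos d with h | h
    · subst h; omega
    · exact h
  have hrpos : 0 < r := by
    rcases Nat.eq_zero_or_pos r with h | h
    · subst h; omega
    · exact h
  split_ifs with h
  · obtain ⟨i0, hi0⟩ := h
    symm
    refine (Finset.card_range d).symm.trans
      (Finset.card_bij (fun i _ => ((i0 + r * i : ℕ) : ZMod q)) ?_ ?_ ?_)
    · intro i hi
      simp only [Finset.mem_filter, Finset.mem_univ, true_and]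
      have : (d : ZMod q) * ((i0 + r * i : ℕ) : ZMod q) = ((d * i0 + q * i : ℕ) : ZMod q) := by
        rw [hr]; push_cast; ring
      rw [this]
      push_cast
      rw [ZMod.natCast_self, zero_mul, add_zero]
      rw [← Nat.cast_mul, ← hi0, ZMod.natCast_zmod_val]
    · intro i hi i' hi' hii
      simp only [Finset.mem_range] at hi hi'
      rw [ZMod.natCast_eq_natCast_iff] at hii
      have h1 : r * i ≡ r * i' [MOD q] := Nat.ModEq.add_left_cancel' i0 hii
      have h2 : r * i < q := by rw [hr, mul_comm d r]; exact Nat.mul_lt_mul_of_pos_left hi hrpos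
      have h3 : r * i' < q := by rw [hr, mul_comm d r]; exact Nat.mul_lt_mul_of_pos_left hi' hrpos
      have h4 := Nat.ModEq.eq_of_lt_of_lt h1 h2 h3
      exact Nat.eq_of_mul_eq_mul_left hrpos h4
    · intro t ht
      simp only [Finset.mem_filter, Finset.mem_univ, true_and] at ht
      have h1 : d * t.val ≡ d * i0 [MOD q] := by
        rw [← ZMod.natCast_eq_natCast_iff]
        push_cast
        rw [ZMod.natCast_zmod_val, ht, ← Nat.cast_mul, ← hi0, ZMod.natCast_zmod_val]
      have h2 : t.val ≡ i0 [MOD r] := by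
        have h3 : d * t.val ≡ d * i0 [MOD d * r] := by rw [← hr]; exact h1
        exact Nat.ModEq.mul_left_cancel' hdpos.ne' h3
      have hi0lt : i0 < r := by
        have : u.val < q := ZMod.val_lt u
        rw [hi0] at this
        have h4 : d * i0 < d * r := by rw [← hr]; exact this
        exact lt_of_mul_lt_mul_left h4 (Nat.zero_le _)
      have h5 : t.val % r = i0 := by
        have := h2
        rw [Nat.ModEq, Nat.mod_eq_of_lt hi0lt] at this
        exact this
      refine ⟨t.val / r, ?_, ?_⟩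
      · rw [Finset.mem_range]
        apply Nat.div_lt_of_lt_mul
        have : t.val < q := ZMod.val_lt t
        have h6 : q = r * d := by rw [hr, mul_comm]
        omega
      · have : i0 + r * (t.val / r) = t.val := by
          rw [← h5]; exact Nat.mod_add_div _ _
        rw [this, ZMod.natCast_zmod_val]
  · rw [Finset.card_eq_zero, Finset.filter_eq_empty_iff]
    intro t _ ht
    apply h
    have h1 : d * t.val ≡ u.val [MOD q] := by
      rw [← ZMod.natCast_eq_natCast_iff]
      push_cast
      rw [ZMod.natCast_zmod_val, ht, ZMod.natCast_zmod_val]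
    have h2 : d * t.val ≡ u.val [MOD d] := h1.of_dvd (hr ▸ Nat.dvd_mul_right d r)
    have h3 : u.val ≡ 0 [MOD d] := h2.symm.trans (by
      rw [Nat.modEq_zero_iff_dvd]; exact Nat.dvd_mul_right _ _)
    exact (Nat.modEq_zero_iff_dvd).mp h3

theorem card_smul_eq (q : ℕ) [NeZero q] (d : ℕ) (hd : d ∣ q) (u : Fin 3 → ZMod q) :
    (Finset.univ.filter (fun t : Fin 3 → ZMod q => (fun j => (d : ZMod q) * t j) = u)).card =
      if ∀ j, d ∣ (u j).val then d ^ 3 else 0 := by
  classical
  have h1 : (Finset.univ.filter (fun t : Fin 3 → ZMod q => (fun j => (d : ZMod q) * t j) = u)) =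
      Fintype.piFinset (fun j => Finset.univ.filter (fun t : ZMod q => (d : ZMod q) * t = u j)) := by
    ext t
    simp [funext_iff]
  rw [h1, Fintype.card_piFinset]
  simp_rw [card_mul_eq q d hd]
  split_ifs with h
  · simp [h]
  · push Not at h
    obtain ⟨j, hj⟩ := h
    exact Finset.prod_eq_zero (Finset.mem_univ j) (if_neg hj)

theorem moebius_uni (q : ℕ) [NeZero q] (v : Fin 3 → ZMod q) [Decidable (Uni v)] :
    ∑ d ∈ q.divisors, (ArithmeticFunction.moebius d : ℤ) * (if ∀ j, d ∣ (v j).val then 1 else 0) =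
      if Uni v then 1 else 0 := by
  classical
  set g := Nat.gcd (Finset.univ.gcd (fun j => (v j).val)) q with hg
  have hq : q ≠ 0 := NeZero.ne q
  have hgpos : g ≠ 0 := Nat.gcd_ne_zero_right hq
  have h1 : q.divisors.filter (fun d => ∀ j, d ∣ (v j).val) = g.divisors := by
    ext d
    simp only [Finset.mem_filter, Nat.mem_divisors, hg, Nat.dvd_gcd_iff, Finset.dvd_gcd_iff,
      Finset.mem_univ, true_implies]
    constructor
    · rintro ⟨⟨h1, _⟩, h2⟩
      exact ⟨⟨h2, h1⟩, hgpos⟩
    · rintro ⟨⟨h2, h1⟩, _⟩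
      exact ⟨⟨h1, hq⟩, h2⟩
  have h2 : ∑ d ∈ q.divisors, (ArithmeticFunction.moebius d : ℤ) * (if ∀ j, d ∣ (v j).val then 1 else 0)
      = ∑ d ∈ g.divisors, (ArithmeticFunction.moebius d : ℤ) := by
    rw [← h1, Finset.sum_filter]
    apply Finset.sum_congr rfl
    intro d _
    split_ifs <;> simp
  rw [h2]
  have h3 : (∑ d ∈ g.divisors, (ArithmeticFunction.moebius d : ℤ)) = if g = 1 then 1 else 0 := by
    have := congrArg (fun f : ArithmeticFunction ℤ => f g) ArithmeticFunction.moebius_mul_coe_zeta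
    simp only [ArithmeticFunction.coe_mul_zeta_apply, ArithmeticFunction.one_apply] at this
    exact this
  rw [h3]
  have h4 : g = 1 ↔ Uni v := by
    rw [uni_iff_forall]
    constructor
    · intro h d hd hv
      have : d ∣ g := Nat.dvd_gcd (Finset.dvd_gcd (fun j _ => hv j)) hd
      rw [h] at this
      exact Nat.dvd_one.mp this
    · intro h
      exact h g (Nat.gcd_dvd_right _ _) (fun j => (Nat.gcd_dvd_left _ _).trans
        (Finset.gcd_dvd (Finset.mem_univ j)))
  simp only [h4]

/-- sums over unimodular vectors -/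
theorem sum_uni (q : ℕ) [NeZero q] (f : (Fin 3 → ZMod q) → ℂ) [DecidablePred (Uni (R := ZMod q) (n := 3))] :
    ∑ v ∈ Finset.univ.filter (fun v : Fin 3 → ZMod q => Uni v), f v =
      ∑ d ∈ q.divisors, (ArithmeticFunction.moebius d : ℂ) * ((d : ℂ) ^ 3)⁻¹ *
        ∑ t : Fin 3 → ZMod q, f (fun j => (d : ZMod q) * t j) := by
  classical
  have h1 : ∀ d ∈ q.divisors, ∑ t : Fin 3 → ZMod q, f (fun j => (d : ZMod q) * t j) =
      (d : ℂ) ^ 3 * ∑ v : Fin 3 → ZMod q, (if ∀ j, d ∣ (v j).val then f v else 0) := by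
    intro d hd
    have hdq : d ∣ q := Nat.dvd_of_mem_divisors hd
    rw [← Finset.sum_fiberwise_of_maps_to (s := Finset.univ) (t := (Finset.univ : Finset (Fin 3 → ZMod q)))
      (g := fun t : Fin 3 → ZMod q => (fun j => (d : ZMod q) * t j)) (fun _ _ => Finset.mem_univ _),
      Finset.mul_sum]
    apply Finset.sum_congr rfl
    intro v _
    have h2 : ∀ t ∈ Finset.univ.filter (fun t : Fin 3 → ZMod q => (fun j => (d : ZMod q) * t j) = v),
        f (fun j => (d : ZMod q) * t j) = f v := by
      intro t ht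
      simp only [Finset.mem_filter, Finset.mem_univ, true_and] at ht
      rw [ht]
    rw [Finset.sum_congr rfl h2, Finset.sum_const, card_smul_eq q d hdq]
    split_ifs <;> simp
  rw [Finset.sum_filter]
  have h3 : ∀ v : Fin 3 → ZMod q, (if Uni v then f v else 0) =
      ∑ d ∈ q.divisors, (ArithmeticFunction.moebius d : ℂ) * (if ∀ j, d ∣ (v j).val then f v else 0) := by
    intro v
    have := moebius_uni q v
    have h4 := congrArg (fun z : ℤ => (z : ℂ) * f v) this
    simp only [Int.cast_sum, Int.cast_mul, Finset.sum_mul] at h4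
    rw [show (if Uni v then f v else 0) = (((if Uni v then 1 else 0 : ℤ)) : ℂ) * f v by
      split_ifs <;> simp, ← h4]
    apply Finset.sum_congr rfl
    intro d _
    split_ifs <;> simp
  simp_rw [h3]
  rw [Finset.sum_comm]
  apply Finset.sum_congr rfl
  intro d hd
  rw [h1 d hd, ← Finset.mul_sum]
  have hd0 : (d : ℂ) ≠ 0 := by
    have := Nat.pos_of_mem_divisors hd
    exact_mod_cast this.ne'
  field_simp

end Pool.Agent.KS6_30.V5
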